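import Pool.Agent.Lib.P3f3a3b.Model

/-!
Definitions for the arithmetic part of MP_3f3a3b_co: cuts, deficits, the quantities `FL`, `FR`
and the invariant of the right-to-left induction.
-/

set_option autoImplicit false
set_option linter.unusedSectionVars false
set_option linter.unusedVariables false

namespace Pool.Agent.Lib.P3f3a3b

open Finset

/-- The number of edges between `[0, v)` and `[v, n)`. -/
def XX (R : ℕ → ℕ) (v : ℕ) : ℕ := ∑ i ∈ range v, (R i + 1 - v)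

/-- The deficit of the vertex `v`. -/
def df (k : ℕ) (R : ℕ → ℕ) (v : ℕ) : ℕ := 2 * k - dg R v

/-- `X_{v-c} + D[v-c, v)`. -/
def FL (k : ℕ) (R : ℕ → ℕ) (v c : ℕ) : ℕ := XX R (v - c) + ∑ i ∈ Ico (v - c) v, df k R i

/-- `X_{v+s} + D[v, v+s)`. -/
def FR (k : ℕ) (R : ℕ → ℕ) (v s : ℕ) : ℕ := XX R (v + s) + ∑ i ∈ Ico v (v + s), df k R i

/-- The hypotheses of `MainStatement`. -/
structure Hyp (k n : ℕ) (R : ℕ → ℕ) : Prop where
  hk : 1 ≤ k
  st : Stair n R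
  deg : ∀ i, i < n → dg R i ≤ 2 * k
  win : ∀ i, i < n → dg R i = 2 * k → k ≤ missing R (i - lf R i) (R i)

/-- The invariant of the induction: `t` is the number of odd colours at the cut `v`. -/
def INV (k n : ℕ) (R : ℕ → ℕ) (v t : ℕ) : Prop :=
  t % 2 = XX R v % 2 ∧
  (∀ c, c ≤ v → c % 2 = 0 → t ≤ FL k R v c) ∧
  (∀ c, c ≤ v → c % 2 = 1 → 2 * k ≤ FL k R v c + t) ∧
  (t + 1 < k → (∃ c, c ≤ v ∧ c % 2 = 0 ∧ t = FL k R v c) ∨
    (∃ s, v + s ≤ n ∧ s % 2 = 0 ∧ t = FR k R v s)) ∧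
  (k + 1 < t → (∃ c, c ≤ v ∧ c % 2 = 1 ∧ t + FL k R v c = 2 * k) ∨
    (∃ s, v + s ≤ n ∧ s % 2 = 1 ∧ t + FR k R v s = 2 * k))

end Pool.Agent.Lib.P3f3a3b
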