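import Pool.Agent.Lib.P3f3a3b.ArithDefs

/-!
Module ArithL: every window of 2k+1 consecutive vertices misses at least k pairs; the facts
(a) and (b) for the left quantities FL.
-/

set_option autoImplicit false

namespace Pool.Agent.Lib.P3f3a3b

open Finset

variable {k n : ℕ} {R : ℕ → ℕ}

namespace ALaux

/-- left neighbours smaller than `a` -/
def lA (R : ℕ → ℕ) (a u : ℕ) : ℕ := ((range a).filter (fun i => u ≤ R i)).card

/-- missing partners in `[a, u)` -/
def mL (R : ℕ → ℕ) (a u : ℕ) : ℕ := ((Ico a u).filter (fun w => R w < u)).card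

lemma lf_split {a u : ℕ} (ha : a ≤ u) :
    lf R u = lA R a u + ((Ico a u).filter (fun w => u ≤ R w)).card := by
  unfold lf lA
  rw [← card_union_of_disjoint, ← filter_union]
  · congr 2
    ext i
    simp only [mem_range, mem_union, mem_Ico]
    omega
  · apply disjoint_filter_filter
    rw [disjoint_left]
    intro i hi
    simp only [mem_range, mem_Ico] at hi ⊢
    omega

lemma in_split (a u : ℕ) :
    ((Ico a u).filter (fun w => u ≤ R w)).card + mL R a u = u - a := by
  unfold mL
  have h := card_filter_add_card_filter_not (s := Ico a u) (fun w => u ≤ R w)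
  rw [Nat.card_Ico] at h
  rw [← h]
  congr 2
  refine filter_congr fun m _ => ?_
  rw [not_le]

lemma XX_split {a v : ℕ} (ha : a ≤ v) :
    XX R a = ∑ i ∈ range a, (R i + 1 - v) + ∑ u ∈ Ico a v, lA R a u := by
  have h1 : ∑ u ∈ Ico a v, lA R a u = ∑ i ∈ range a, ((Ico a v).filter (fun u => u ≤ R i)).card := by
    unfold lA
    simp only [card_filter]
    exact sum_comm
  rw [h1, ← sum_add_distrib]
  unfold XX
  refine sum_congr rfl fun i _ => ?_
  have h2 : (Ico a v).filter (fun u => u ≤ R i) = Ico a (min v (R i + 1)) := by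
    ext u
    simp only [mem_filter, mem_Ico]
    omega
  rw [h2, Nat.card_Ico]
  omega

lemma sum_mL {a v : ℕ} (hself : ∀ w, a ≤ w → w < v → w ≤ R w) :
    ∑ u ∈ Ico a v, mL R a u = ∑ w ∈ Ico a v, (v - 1 - R w) := by
  have h1 : ∀ u ∈ Ico a v, mL R a u = ((Ico a v).filter (fun w => R w < u)).card := by
    intro u hu
    rw [mem_Ico] at hu
    unfold mL
    congr 1
    ext w
    simp only [mem_filter, mem_Ico]
    constructor
    · rintro ⟨h1, h2⟩
      exact ⟨by omega, h2⟩
    · rintro ⟨h1, h2⟩
      have := hself w h1.1 h1.2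
      exact ⟨by omega, h2⟩
  rw [sum_congr rfl h1]
  simp only [card_filter]
  rw [sum_comm]
  refine sum_congr rfl fun w hw => ?_
  rw [mem_Ico] at hw
  have hs := hself w hw.1 hw.2
  rw [← card_filter]
  have h2 : (Ico a v).filter (fun u => R w < u) = Ico (R w + 1) v := by
    ext u
    simp only [mem_filter, mem_Ico]
    omega
  rw [h2, Nat.card_Ico]
  omega

lemma key (h : Hyp k n R) {a u v : ℕ} (hau : a ≤ u) (huv : u < v) (hv : v ≤ n) :
    (df k R u : ℤ) + lA R a u =
      (2 * k + 1 : ℤ) - (v - a : ℕ) + mL R a u + (v - 1 - R u : ℕ) - (R u + 1 - v : ℕ) := by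
  have h1 := lf_split (R := R) hau
  have h2 := in_split (R := R) a u
  have h3 := h.deg u (by omega)
  have h4 := h.st.self u (by omega)
  unfold df dg rt at *
  omega

lemma mL_ge (h : Hyp k n R) {a u v : ℕ} (hau : a ≤ u) (huv : u < v) (hv : v ≤ n)
    (hc : v - a ≤ 2 * k + 1) :
    ((R u + 1 - v : ℕ) : ℤ) ≤ mL R a u + ((2 * k + 1 : ℤ) - (v - a : ℕ)) := by
  have h1 := key h hau huv hv
  omega

lemma FL_formula (h : Hyp k n R) {v c : ℕ} (hv : v ≤ n) (hc : c ≤ v) :
    (FL k R v c : ℤ) = ∑ i ∈ range (v - c), ((R i + 1 - v : ℕ) : ℤ) +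
      ∑ u ∈ Ico (v - c) v, ((2 * k + 1 : ℤ) - c - (R u + 1 - v : ℕ) + 2 * mL R (v - c) u) := by
  have hself : ∀ w, v - c ≤ w → w < v → w ≤ R w := fun w _ hw => h.st.self w (by omega)
  have h1 := XX_split (R := R) (a := v - c) (v := v) (by omega)
  have h2 := sum_mL (R := R) (a := v - c) (v := v) hself
  have h3 : ∑ u ∈ Ico (v - c) v, ((df k R u : ℤ) + lA R (v - c) u) =
      ∑ u ∈ Ico (v - c) v, ((2 * k + 1 : ℤ) - c - (R u + 1 - v : ℕ)) +
        ∑ u ∈ Ico (v - c) v, (mL R (v - c) u : ℤ) + ∑ u ∈ Ico (v - c) v, ((v - 1 - R u : ℕ) : ℤ) := by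
    rw [← sum_add_distrib, ← sum_add_distrib]
    refine sum_congr rfl fun u hu => ?_
    rw [mem_Ico] at hu
    rw [key h hu.1 hu.2 hv]
    have : v - (v - c) = c := by omega
    rw [this]
    ring
  have h2' : ∑ u ∈ Ico (v - c) v, ((v - 1 - R u : ℕ) : ℤ) = ∑ u ∈ Ico (v - c) v, (mL R (v - c) u : ℤ) := by
    exact_mod_cast h2.symm
  rw [h2'] at h3
  unfold FL
  rw [h1]
  push_cast [-Nat.cast_sub]
  rw [sum_add_distrib] at h3
  rw [sum_add_distrib, ← mul_sum]
  linarith

lemma FL_lower (h : Hyp k n R) {v c : ℕ} (hv : v ≤ n) (hc : c ≤ v) (hc2 : c ≤ 2 * k + 1) :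
    ∑ i ∈ range (v - c), ((R i + 1 - v : ℕ) : ℤ) +
      ∑ u ∈ Ico (v - c) v, |(2 * k + 1 : ℤ) - c - (R u + 1 - v : ℕ)| ≤ (FL k R v c : ℤ) := by
  rw [FL_formula h hv hc]
  apply add_le_add le_rfl
  refine sum_le_sum fun u hu => ?_
  rw [mem_Ico] at hu
  have h1 := mL_ge h hu.1 hu.2 hv (by omega)
  have h2 : v - (v - c) = c := by omega
  rw [h2] at h1
  rw [abs_le']
  constructor
  · have : (0 : ℤ) ≤ mL R (v - c) u := by positivity
    linarith
  · linarith

end ALaux

open ALaux

/-- `X_{v+1} = X_v - l_v + r_v` -/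
theorem Hyp.XX_succ (h : Hyp k n R) {v : ℕ} (hv : v < n) :
    XX R (v + 1) + lf R v = XX R v + rt R v := by
  unfold XX lf rt
  rw [sum_range_succ, card_filter]
  have h1 : R v + 1 - (v + 1) = R v - v := by omega
  rw [h1, add_right_comm, ← sum_add_distrib]
  congr 1
  refine sum_congr rfl fun i hi => ?_
  rw [mem_range] at hi
  split_ifs <;> omega

theorem ALaux.FL_zero (k : ℕ) (R : ℕ → ℕ) (v : ℕ) : FL k R v 0 = XX R v := by
  unfold FL
  simp

theorem ALaux.FL_succ {v c : ℕ} (hc : c + 1 ≤ v) :
    FL k R v (c + 1) + XX R (v - c) = FL k R v c + XX R (v - (c + 1)) + df k R (v - (c + 1)) := by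
  unfold FL
  rw [← Finset.sum_Ico_consecutive _ (show v - (c + 1) ≤ v - c by omega) (show v - c ≤ v by omega)]
  have h1 : Ico (v - (c + 1)) (v - c) = {v - (c + 1)} := by
    ext i
    simp only [mem_Ico, mem_singleton]
    omega
  rw [h1, sum_singleton]
  ring

theorem Hyp.FL_parity (h : Hyp k n R) {v c : ℕ} (hv : v ≤ n) (hc : c ≤ v) :
    FL k R v c % 2 = XX R v % 2 := by
  induction c with
  | zero => rw [ALaux.FL_zero]
  | succ c ih =>
    have h1 := ALaux.FL_succ (k := k) (R := R) hc
    have h2 := ih (by omega)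
    have h3 := h.XX_succ (v := v - (c + 1)) (by omega)
    have e : v - (c + 1) + 1 = v - c := by omega
    rw [e] at h3
    have h4 := h.deg (v - (c + 1)) (by omega)
    unfold df dg at *
    omega

lemma ALaux.missing_eq (h : Hyp k n R) {a b : ℕ} (hb : b < n) :
    missing R a b = ∑ u ∈ Ico a (b + 1), (b + 1 - 1 - R u) := by
  unfold missing
  rw [card_filter, sum_product]
  have e : Icc a b = Ico a (b + 1) := by
    ext i
    simp only [mem_Icc, mem_Ico]
    omega
  rw [e]
  refine sum_congr rfl fun u hu => ?_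
  rw [mem_Ico] at hu
  have hs := h.st.self u (by omega)
  rw [← card_filter]
  have h2 : (Ico a (b + 1)).filter (fun w => u < w ∧ R u < w) = Ioc (R u) b := by
    ext w
    simp only [mem_filter, mem_Ico, mem_Ioc]
    omega
  rw [h2, Nat.card_Ioc]
  omega

/-- every window of `2k+1` consecutive vertices misses at least `k` pairs -/
theorem Hyp.window (h : Hyp k n R) {a : ℕ} (ha : a + 2 * k < n) :
    k ≤ missing R a (a + 2 * k) := by
  by_cases hex : ∃ i, a ≤ i ∧ i ≤ a + 2 * k ∧ a + 2 * k ≤ R i ∧ mL R a i = 0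
  · obtain ⟨i, h1, h2, h3, h4⟩ := hex
    have h5 := lf_split (R := R) h1
    have h6 := in_split (R := R) a i
    have h7 := h.deg i (by omega)
    have h8 : lf R i = i - a ∧ R i = a + 2 * k ∧ dg R i = 2 * k := by
      unfold dg rt at *
      omega
    have h9 := h.win i (by omega) h8.2.2
    rw [h8.1, h8.2.1] at h9
    have : i - (i - a) = a := by omega
    rwa [this] at h9
  · push Not at hex
    have hm := ALaux.missing_eq h (a := a) ha
    have h1 := sum_mL (R := R) (a := a) (v := a + 2 * k + 1) (fun w _ hw => h.st.self w (by omega))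
    have h2 : ∑ u ∈ Ico a (a + 2 * k + 1), 1 ≤
        ∑ u ∈ Ico a (a + 2 * k + 1), (mL R a u + (a + 2 * k + 1 - 1 - R u)) := by
      refine sum_le_sum fun u hu => ?_
      rw [mem_Ico] at hu
      have := hex u hu.1 (by omega)
      by_cases h3 : a + 2 * k ≤ R u
      · have := this h3
        omega
      · omega
    rw [sum_add_distrib, h1, ← hm] at h2
    simp only [sum_const, Nat.card_Ico, smul_eq_mul, mul_one] at h2
    omega

/-- The left neighbours of `j` are `j - lf R j, …, j - 1`. -/
lemma ALaux.left_iff (hR : Stair n R) {i j : ℕ} (hj : j < n) (hij : i < j) :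
    j - lf R j ≤ i ↔ j ≤ R i := by
  have h : lf R j + ((range j).filter (fun m => R m < j)).card = j := by
    unfold lf
    have h := card_filter_add_card_filter_not (s := range j) (fun m => j ≤ R m)
    rw [card_range] at h
    have h2 : (range j).filter (fun m => ¬ j ≤ R m) = (range j).filter (fun m => R m < j) := by
      refine filter_congr fun m _ => ?_
      rw [not_le]
    rw [h2] at h
    exact h
  have e : j - lf R j = ((range j).filter (fun m => R m < j)).card := by omega
  rw [e]
  constructor
  · intro h1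
    by_contra hcon
    push Not at hcon
    have hsub : range (i + 1) ⊆ (range j).filter (fun m => R m < j) := by
      intro m hm
      rw [mem_range] at hm
      rw [mem_filter, mem_range]
      refine ⟨by omega, lt_of_le_of_lt (hR.mono m i (by omega) (by omega)) hcon⟩
    have := card_le_card hsub
    rw [card_range] at this
    omega
  · intro h1
    have hsub : (range j).filter (fun m => R m < j) ⊆ range i := by
      intro m hm
      rw [mem_filter, mem_range] at hm
      rw [mem_range]
      by_contra hcon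
      push Not at hcon
      have := hR.mono i m hcon (by omega)
      omega
    have := card_le_card hsub
    rwa [card_range] at this

lemma ALaux.lf_le (R : ℕ → ℕ) (j : ℕ) : lf R j ≤ j := by
  unfold lf
  exact (card_filter_le _ _).trans (by simp)

lemma ALaux.small (h : Hyp k n R) {v c : ℕ} (hv : v < n) (hc : c ≤ v) (hc1 : 1 ≤ c)
    (hc2 : c ≤ 2 * k) : df k R v ≤ FL k R v c := by
  have h0 := FL_lower h hv.le hc (by omega)
  suffices H : (df k R v : ℤ) ≤ ∑ i ∈ range (v - c), ((R i + 1 - v : ℕ) : ℤ) +
      ∑ u ∈ Ico (v - c) v, |(2 * k + 1 : ℤ) - c - (R u + 1 - v : ℕ)| by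
    exact_mod_cast H.trans h0
  obtain ⟨e, he⟩ : ∃ e : ℕ, 2 * k + 1 = c + e := ⟨2 * k + 1 - c, by omega⟩
  have he' : (2 * k + 1 : ℤ) - c = e := by
    have : ((2 * k + 1 : ℕ) : ℤ) = ((c + e : ℕ) : ℤ) := by rw [he]
    push_cast at this
    linarith
  rw [he']
  have he1 : 1 ≤ e := by omega
  set p := lf R v with hp
  have hpv : p ≤ v := ALaux.lf_le R v
  have hdeg := h.deg v hv
  have hle : ∀ u, u < v - p → R u + 1 - v = 0 := by
    intro u hu
    have := (ALaux.left_iff h.st hv (i := u) (by omega)).not.1 (by omega)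
    omega
  have hge : ∀ u, v - p ≤ u → u < v → 1 ≤ R u + 1 - v := by
    intro u hu hu2
    have := (ALaux.left_iff h.st hv (i := u) (by omega)).1 (by omega)
    omega
  have hS0 : (0 : ℤ) ≤ ∑ i ∈ range (v - c), ((R i + 1 - v : ℕ) : ℤ) :=
    sum_nonneg fun i _ => by positivity
  have hS1 : (0 : ℤ) ≤ ∑ u ∈ Ico (v - c) v, |(e : ℤ) - (R u + 1 - v : ℕ)| :=
    sum_nonneg fun i _ => abs_nonneg _
  rcases Nat.eq_zero_or_pos p with hp0 | hp1
  · have h1 : ∑ u ∈ Ico (v - c) v, |(e : ℤ) - (R u + 1 - v : ℕ)| = c * e := by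
      have : ∀ u ∈ Ico (v - c) v, |(e : ℤ) - (R u + 1 - v : ℕ)| = e := by
        intro u hu
        rw [mem_Ico] at hu
        rw [hle u (by omega)]
        simp
      rw [sum_congr rfl this, sum_const, Nat.card_Ico]
      have : v - (v - c) = c := by omega
      rw [this, nsmul_eq_mul]
    rw [h1]
    have h2 : (df k R v : ℤ) ≤ 2 * k := by unfold df; omega
    have h3 : (2 * k : ℤ) = c + e - 1 := by linarith
    have h4 : (1 : ℤ) ≤ c := by exact_mod_cast hc1
    have h5 : (1 : ℤ) ≤ e := by exact_mod_cast he1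
    nlinarith
  · set q := R (v - 1) + 1 - v with hq
    have hq1 : 1 ≤ q := hge (v - 1) (by omega) (by omega)
    have hRv : R (v - 1) ≤ R v := h.st.mono _ _ (by omega) hv
    have hself := h.st.self v hv
    have hdf : (df k R v : ℤ) ≤ c + e - p - q := by
      unfold df dg rt at *
      omega
    have hkap : ∀ u, u < v → R u + 1 - v ≤ q := by
      intro u hu
      have := h.st.mono u (v - 1) (by omega) (by omega)
      omega
    have hpz : (1 : ℤ) ≤ p := by exact_mod_cast hp1
    have hqz : (1 : ℤ) ≤ q := by exact_mod_cast hq1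
    have hcz : (1 : ℤ) ≤ c := by exact_mod_cast hc1
    have hez : (1 : ℤ) ≤ e := by exact_mod_cast he1
    rcases le_or_gt p c with hpc | hpc
    · have hsplit : ∑ u ∈ Ico (v - c) v, |(e : ℤ) - (R u + 1 - v : ℕ)| =
          (c - p : ℤ) * e + ∑ u ∈ Ico (v - p) v, |(e : ℤ) - (R u + 1 - v : ℕ)| := by
        rw [← sum_Ico_consecutive _ (show v - c ≤ v - p by omega) (show v - p ≤ v by omega)]
        congr 1
        have : ∀ u ∈ Ico (v - c) (v - p), |(e : ℤ) - (R u + 1 - v : ℕ)| = e := by
          intro u hu
          rw [mem_Ico] at hu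
          rw [hle u (by omega)]
          simp
        rw [sum_congr rfl this, sum_const, Nat.card_Ico]
        have : v - p - (v - c) = c - p := by omega
        rw [this, nsmul_eq_mul, Nat.cast_sub hpc]
      rw [hsplit]
      rcases le_or_gt q e with hqe | hqe
      · have h1 : (p : ℤ) * (e - q) ≤ ∑ u ∈ Ico (v - p) v, |(e : ℤ) - (R u + 1 - v : ℕ)| := by
          have := card_nsmul_le_sum (Ico (v - p) v) (fun u => |(e : ℤ) - (R u + 1 - v : ℕ)|)
            ((e : ℤ) - q) (by
              intro u hu
              rw [mem_Ico] at hu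
              have := hkap u hu.2
              refine le_trans ?_ (le_abs_self _)
              omega)
          rw [Nat.card_Ico, nsmul_eq_mul] at this
          have e2 : v - (v - p) = p := by omega
          rwa [e2] at this
        have hpc' : (p : ℤ) ≤ c := by exact_mod_cast hpc
        have hqe' : (q : ℤ) ≤ e := by exact_mod_cast hqe
        nlinarith [mul_nonneg (sub_nonneg.2 hpz) (sub_nonneg.2 hqe'),
          mul_nonneg (sub_nonneg.2 hpc') (sub_nonneg.2 hez)]
      · have h1 : (q : ℤ) - e ≤ ∑ u ∈ Ico (v - p) v, |(e : ℤ) - (R u + 1 - v : ℕ)| := by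
          have h2 := single_le_sum (s := Ico (v - p) v)
            (f := fun u => |(e : ℤ) - (R u + 1 - v : ℕ)|) (fun i _ => abs_nonneg _)
            (show v - 1 ∈ Ico (v - p) v by rw [mem_Ico]; omega)
          refine le_trans ?_ h2
          rw [← hq, abs_sub_comm]
          exact le_abs_self _
        have hpc' : (p : ℤ) ≤ c := by exact_mod_cast hpc
        have hqe' : (e : ℤ) < q := by exact_mod_cast hqe
        nlinarith [mul_nonneg (sub_nonneg.2 hpc') (sub_nonneg.2 hez)]
    · rcases le_or_gt q e with hqe | hqe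
      · have h1 : (e : ℤ) - q ≤ ∑ u ∈ Ico (v - c) v, |(e : ℤ) - (R u + 1 - v : ℕ)| := by
          have h2 := single_le_sum (s := Ico (v - c) v)
            (f := fun u => |(e : ℤ) - (R u + 1 - v : ℕ)|) (fun i _ => abs_nonneg _)
            (show v - 1 ∈ Ico (v - c) v by rw [mem_Ico]; omega)
          refine le_trans ?_ h2
          rw [← hq]
          exact le_abs_self _
        have h2 : ((p : ℤ) - c) ≤ ∑ i ∈ range (v - c), ((R i + 1 - v : ℕ) : ℤ) := by
          have h3 : ∑ i ∈ Ico (v - p) (v - c), ((R i + 1 - v : ℕ) : ℤ) ≤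
              ∑ i ∈ range (v - c), ((R i + 1 - v : ℕ) : ℤ) := by
            apply sum_le_sum_of_subset_of_nonneg
            · intro i hi
              rw [mem_Ico] at hi
              rw [mem_range]
              omega
            · intro i _ _
              positivity
          refine le_trans ?_ h3
          have h4 := card_nsmul_le_sum (Ico (v - p) (v - c))
            (fun i => ((R i + 1 - v : ℕ) : ℤ)) 1 (by
              intro i hi
              rw [mem_Ico] at hi
              have := hge i hi.1 (by omega)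
              exact_mod_cast this)
          rw [Nat.card_Ico, nsmul_eq_mul, mul_one] at h4
          have e2 : v - c - (v - p) = p - c := by omega
          rw [e2, Nat.cast_sub hpc.le] at h4
          exact h4
        have hpc' : (c : ℤ) < p := by exact_mod_cast hpc
        linarith
      · have hpc' : (c : ℤ) < p := by exact_mod_cast hpc
        have hqe' : (e : ℤ) < q := by exact_mod_cast hqe
        linarith

lemma ALaux.base_window (h : Hyp k n R) {v : ℕ} (hv : v ≤ n) (hc : 2 * k + 1 ≤ v) :
    XX R v ≤ FL k R v (2 * k + 1) := by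
  have h0 := FL_lower h hv hc le_rfl
  have h1 : ((XX R v : ℕ) : ℤ) = ∑ i ∈ range (v - (2 * k + 1)), ((R i + 1 - v : ℕ) : ℤ) +
      ∑ u ∈ Ico (v - (2 * k + 1)) v, |(2 * k + 1 : ℤ) - (2 * k + 1 : ℕ) - (R u + 1 - v : ℕ)| := by
    unfold XX
    rw [Nat.cast_sum, range_eq_Ico, ← sum_Ico_consecutive _ (Nat.zero_le _)
      (show v - (2 * k + 1) ≤ v by omega), range_eq_Ico]
    congr 1
    refine sum_congr rfl fun u _ => ?_
    push_cast [-Nat.cast_sub]
    rw [sub_self, zero_sub, abs_neg, abs_of_nonneg (by positivity)]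
  rw [← h1] at h0
  exact_mod_cast h0

lemma ALaux.reduce (h : Hyp k n R) {v c : ℕ} (hv : v ≤ n) (hc : c ≤ v) (hc2 : 2 * k + 1 ≤ c) :
    FL k R v (c - (2 * k + 1)) ≤ FL k R v c := by
  have h1 := ALaux.base_window h (v := v - (c - (2 * k + 1))) (by omega) (by omega)
  unfold FL at *
  have e1 : v - (c - (2 * k + 1)) - (2 * k + 1) = v - c := by omega
  rw [e1] at h1
  rw [← sum_Ico_consecutive _ (show v - c ≤ v - (c - (2 * k + 1)) by omega)
    (show v - (c - (2 * k + 1)) ≤ v by omega)]
  omega

/-- fact (a), main case -/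
theorem Hyp.FL_ge (h : Hyp k n R) {v c : ℕ} (hv : v < n) (hc : c ≤ v) (hc1 : 1 ≤ c)
    (hdvd : ¬ (2 * k + 1) ∣ c) : df k R v ≤ FL k R v c := by
  induction c using Nat.strong_induction_on with
  | _ c ih =>
    rcases le_or_gt c (2 * k) with h1 | h1
    · exact ALaux.small h hv hc hc1 h1
    · have h2 : ¬ (2 * k + 1) ∣ (c - (2 * k + 1)) := by
        intro h3
        exact hdvd ((Nat.dvd_sub_iff_left (by omega) dvd_rfl).1 h3)
      have h3 : 1 ≤ c - (2 * k + 1) := by
        by_contra h4
        apply h2
        have : c - (2 * k + 1) = 0 := by omega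
        rw [this]
        exact dvd_zero _
      exact (ih _ (by omega) (by omega) h3 h2).trans (ALaux.reduce h hv.le hc (by omega))

/-- fact (a), windows -/
theorem Hyp.FL_ge_window (h : Hyp k n R) {v c : ℕ} (hv : v ≤ n) (hc : c ≤ v)
    (hdvd : (2 * k + 1) ∣ c) : XX R v ≤ FL k R v c := by
  induction c using Nat.strong_induction_on with
  | _ c ih =>
    rcases Nat.eq_zero_or_pos c with h1 | h1
    · rw [h1, ALaux.FL_zero]
    · have h4 := Nat.le_of_dvd h1 hdvd
      have h2 : (2 * k + 1) ∣ (c - (2 * k + 1)) := Nat.dvd_sub hdvd dvd_rfl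
      exact (ih _ (by omega) (by omega) h2).trans (ALaux.reduce h hv hc h4)

/-- the deficits near the first vertex of a window -/
lemma ALaux.claimL (h : Hyp k n R) {a : ℕ} (ha : a + 2 * k < n) :
    k ≤ ∑ u ∈ Icc a (R a), (a + 2 * k - R u) := by
  have hw := h.window ha
  rw [ALaux.missing_eq h ha] at hw
  have hself := h.st.self a (by omega)
  have hdeg := h.deg a (by omega)
  have hRa : R a ≤ a + 2 * k := by unfold dg rt at hdeg; omega
  by_cases hex : ∃ x, R a < x ∧ x ≤ a + 2 * k ∧ R x < a + 2 * k
  · obtain ⟨x, h1, h2, h3⟩ := hex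
    have hge : ∀ u ∈ Ioc a (R a), 1 ≤ a + 2 * k - R u := by
      intro u hu
      rw [mem_Ioc] at hu
      have := h.st.mono u x (by omega) (by omega)
      omega
    have h4 := card_nsmul_le_sum (Ioc a (R a)) (fun u => a + 2 * k - R u) 1 hge
    rw [Nat.card_Ioc, smul_eq_mul, mul_one] at h4
    have h5 : Icc a (R a) = insert a (Ioc a (R a)) := by
      ext i
      simp only [mem_Icc, mem_insert, mem_Ioc]
      omega
    rw [h5, sum_insert (by simp)]
    omega
  · push Not at hex
    refine hw.trans ?_
    rw [← sum_subset (s₁ := Icc a (R a)) (s₂ := Ico a (a + 2 * k + 1))]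
    · refine le_of_eq (sum_congr rfl fun u _ => ?_)
      omega
    · intro i hi
      rw [mem_Icc] at hi
      rw [mem_Ico]
      omega
    · intro i hi hi2
      rw [mem_Ico] at hi
      rw [mem_Icc] at hi2
      have := hex i (by omega) (by omega)
      omega

/-- the deficits near the last vertex of a window -/
lemma ALaux.claimR (h : Hyp k n R) {z : ℕ} (hz : z < n) (hz2 : 2 * k ≤ z) :
    k ≤ ∑ u ∈ Icc (z - lf R z) z, mL R (z - 2 * k) u := by
  have hw := h.window (a := z - 2 * k) (by omega)
  have e : z - 2 * k + 2 * k = z := by omega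
  rw [e, ALaux.missing_eq h hz, ← sum_mL (fun w _ hw => h.st.self w (by omega))] at hw
  have hdeg := h.deg z hz
  have hlf : lf R z ≤ 2 * k := by unfold dg at hdeg; omega
  by_cases hex : ∃ x, z - 2 * k ≤ x ∧ x < z - lf R z ∧ 1 ≤ mL R (z - 2 * k) x
  · obtain ⟨x, h1, h2, h3⟩ := hex
    unfold mL at h3
    obtain ⟨w, hw⟩ := card_pos.1 (show 0 < ((Ico (z - 2 * k) x).filter fun w => R w < x).card by
      omega)
    rw [mem_filter, mem_Ico] at hw
    have hge : ∀ u ∈ Ico (z - lf R z) z, 1 ≤ mL R (z - 2 * k) u := by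
      intro u hu
      rw [mem_Ico] at hu
      unfold mL
      apply card_pos.2
      refine ⟨w, ?_⟩
      rw [mem_filter, mem_Ico]
      omega
    have h4 := card_nsmul_le_sum (Ico (z - lf R z) z) (fun u => mL R (z - 2 * k) u) 1 hge
    rw [Nat.card_Ico, smul_eq_mul, mul_one] at h4
    have h5 : Icc (z - lf R z) z = insert z (Ico (z - lf R z) z) := by
      ext i
      simp only [mem_Icc, mem_insert, mem_Ico]
      omega
    rw [h5, sum_insert (by simp)]
    have h6 := lf_split (R := R) (a := z - 2 * k) (u := z) (by omega)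
    have h7 := in_split (R := R) (z - 2 * k) z
    have h8 := ALaux.lf_le R z
    omega
  · push Not at hex
    refine hw.trans ?_
    rw [← sum_subset (s₁ := Icc (z - lf R z) z) (s₂ := Ico (z - 2 * k) (z + 1))]
    · intro i hi
      rw [mem_Icc] at hi
      rw [mem_Ico]
      omega
    · intro i hi hi2
      rw [mem_Ico] at hi
      rw [mem_Icc] at hi2
      have := hex i (by omega) (by omega)
      omega

/-- an interval and its two cuts -/
lemma ALaux.interval (h : Hyp k n R) {a b : ℕ} (hab : a < b) (hb : b ≤ n) :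
    2 * k ≤ XX R a + XX R b + ∑ i ∈ Ico a b, df k R i := by
  have hA : ∑ u ∈ Ico a b, lA R a u ≤ XX R a := by
    rw [XX_split (R := R) (a := a) (v := b) hab.le]
    omega
  have hB : ∑ u ∈ Ico a b, (R u + 1 - b) ≤ XX R b := by
    unfold XX
    apply sum_le_sum_of_subset
    intro i hi
    rw [mem_Ico] at hi
    rw [mem_range]
    omega
  suffices H : 2 * k ≤ ∑ u ∈ Ico a b, (df k R u + lA R a u + (R u + 1 - b)) by
    rw [sum_add_distrib, sum_add_distrib] at H
    omega
  rcases le_or_gt (b - a) (2 * k) with hc | hc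
  · have h1 : ∀ u ∈ Ico a b, 2 * k + 1 - (b - a) ≤ df k R u + lA R a u + (R u + 1 - b) := by
      intro u hu
      rw [mem_Ico] at hu
      have := key h hu.1 hu.2 hb
      omega
    have h2 := card_nsmul_le_sum _ _ _ h1
    rw [Nat.card_Ico, smul_eq_mul] at h2
    refine le_trans ?_ h2
    obtain ⟨e, he⟩ : ∃ e : ℕ, 2 * k + 1 = (b - a) + e := ⟨2 * k + 1 - (b - a), by omega⟩
    have he1 : 1 ≤ e := by omega
    have hc1 : 1 ≤ b - a := by omega
    have : 2 * k + 1 - (b - a) = e := by omega
    rw [this]
    nlinarith [Nat.mul_le_mul hc1 he1, mul_comm (b - a - 1) (e - 1),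
      Nat.mul_le_mul (show 0 ≤ b - a - 1 by omega) (show 0 ≤ e - 1 by omega)]
  · have hL := ALaux.claimL h (a := a) (by omega)
    have hRr := ALaux.claimR h (z := b - 1) (by omega) (by omega)
    set z := b - 1 with hz
    have hself := h.st.self a (by omega)
    have hdega := h.deg a (by omega)
    have hdegz := h.deg z (by omega)
    have hlfz : lf R z ≤ 2 * k := by unfold dg at hdegz; omega
    have hlfz' := ALaux.lf_le R z
    have hRa : R a ≤ a + 2 * k := by unfold dg rt at hdega; omega
    have e1 : ∑ u ∈ Icc a (R a), (a + 2 * k - R u) =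
        ∑ u ∈ Ico a b, (if u ≤ R a then a + 2 * k - R u else 0) := by
      rw [← sum_filter]
      apply sum_congr _ fun _ _ => rfl
      ext i
      simp only [mem_Icc, mem_filter, mem_Ico]
      omega
    have e2 : ∑ u ∈ Icc (z - lf R z) z, mL R (z - 2 * k) u =
        ∑ u ∈ Ico a b, (if z - lf R z ≤ u then mL R (z - 2 * k) u else 0) := by
      rw [← sum_filter]
      apply sum_congr _ fun _ _ => rfl
      ext i
      simp only [mem_Icc, mem_filter, mem_Ico]
      omega
    rw [e1] at hL
    rw [e2] at hRr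
    have h3 : ∑ u ∈ Ico a b, ((if u ≤ R a then a + 2 * k - R u else 0) +
        (if z - lf R z ≤ u then mL R (z - 2 * k) u else 0)) ≤
        ∑ u ∈ Ico a b, (df k R u + lA R a u + (R u + 1 - b)) := by
      refine sum_le_sum fun u hu => ?_
      rw [mem_Ico] at hu
      have hdu := h.deg u (by omega)
      have hsu := h.st.self u (by omega)
      have hs1 := lf_split (R := R) hu.1
      have hs2 := in_split (R := R) a u
      -- left part
      have hpL : u ≤ R a → df k R u + lA R a u + R u = 2 * k + a := by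
        intro h4
        have h5 : mL R a u = 0 := by
          unfold mL
          rw [card_eq_zero, filter_eq_empty_iff]
          intro w hw
          rw [mem_Ico] at hw
          have := h.st.mono a w hw.1 (by omega)
          omega
        unfold df dg rt at *
        omega
      have hzu : z - lf R z ≤ u → z ≤ R u := by
        intro h4
        rcases Nat.lt_or_ge u z with h5 | h5
        · exact (ALaux.left_iff h.st (by omega) h5).1 h4
        · omega
      have hpR : z - lf R z ≤ u → mL R (z - 2 * k) u ≤ df k R u + (R u + 1 - b) := by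
        intro h4
        have h5 := hzu h4
        have h6 := lf_split (R := R) (a := z - 2 * k) (u := u) (by omega)
        have h7 := in_split (R := R) (z - 2 * k) u
        -- no left neighbour is smaller than `z - 2 k`
        have h8 : lA R (z - 2 * k) u = 0 := by
          by_contra hne
          have h9 : mL R (z - 2 * k) u = 0 := by
            unfold mL
            rw [card_eq_zero, filter_eq_empty_iff]
            intro w hw
            rw [mem_Ico] at hw
            obtain ⟨i, hi⟩ := card_pos.1 (Nat.pos_of_ne_zero hne)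
            rw [mem_filter, mem_range] at hi
            have := h.st.mono i w (by omega) (by omega)
            omega
          unfold dg rt at hdu
          omega
        unfold df dg rt at *
        omega
      by_cases c1 : u ≤ R a
      · have h4 := hpL c1
        by_cases c2 : z - lf R z ≤ u
        · have h5 := hpR c2
          have h6 := hzu c2
          rw [if_pos c1, if_pos c2]
          have h7 : mL R a u = 0 := by
            unfold mL
            rw [card_eq_zero, filter_eq_empty_iff]
            intro w hw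
            rw [mem_Ico] at hw
            have := h.st.mono a w hw.1 (by omega)
            omega
          unfold dg rt at hdu
          omega
        · rw [if_pos c1, if_neg c2]
          omega
      · by_cases c2 : z - lf R z ≤ u
        · have h5 := hpR c2
          rw [if_neg c1, if_pos c2]
          omega
        · rw [if_neg c1, if_neg c2]
          omega
    rw [sum_add_distrib] at h3
    omega

/-- fact (b) -/
theorem Hyp.FL_add (h : Hyp k n R) {v c c' : ℕ} (hv : v ≤ n) (hc : c ≤ v) (hc' : c' ≤ v)
    (h1 : c % 2 = 1) (h2 : c' % 2 = 0) : 2 * k ≤ FL k R v c + FL k R v c' := by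
  have hmain : ∀ d d' : ℕ, d ≤ v → d' < d → 2 * k ≤ FL k R v d + FL k R v d' := by
    intro d d' hd hdd
    have h3 := ALaux.interval h (a := v - d) (b := v - d') (by omega) (by omega)
    unfold FL
    rw [← sum_Ico_consecutive _ (show v - d ≤ v - d' by omega) (show v - d' ≤ v by omega)]
    omega
  rcases Nat.lt_or_ge c' c with h3 | h3
  · exact hmain c c' hc h3
  · rw [add_comm]
    exact hmain c' c hc' (by omega)

end Pool.Agent.Lib.P3f3a3b
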