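import Pool.Agent.Lib.P3f3a3b.ArithDefs
import Pool.Agent.Lib.P3f3a3b.ArithL

/-!
Module ArithR: the mirror images of the facts (a), (b), obtained from ArithL by reversing the
stair: `rev n R i = i + (number of left neighbours of n-1-i)`.
-/

set_option autoImplicit false

namespace Pool.Agent.Lib.P3f3a3b

open Finset

variable {k n : ℕ} {R : ℕ → ℕ}

/-- The reversed stair. -/
def rev (n : ℕ) (R : ℕ → ℕ) (i : ℕ) : ℕ := i + lf R (n - 1 - i)

lemma lf_le_self (R : ℕ → ℕ) (j : ℕ) : lf R j ≤ j := by
  unfold lf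
  exact (card_filter_le _ _).trans (by simp)

/-- The number of non-neighbours on the left. -/
lemma lf_add_nl (R : ℕ → ℕ) (j : ℕ) :
    lf R j + ((range j).filter (fun m => R m < j)).card = j := by
  unfold lf
  have h := card_filter_add_card_filter_not (s := range j) (fun m => j ≤ R m)
  rw [card_range] at h
  have h2 : (range j).filter (fun m => ¬ j ≤ R m) = (range j).filter (fun m => R m < j) := by
    refine filter_congr fun m _ => ?_
    rw [not_le]
  rw [h2] at h
  exact h

/-- The left neighbours of `j` are `j - lf R j, …, j - 1`. -/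
lemma left_iff (hR : Stair n R) {i j : ℕ} (hj : j < n) (hij : i < j) :
    j - lf R j ≤ i ↔ j ≤ R i := by
  have h := lf_add_nl R j
  have e : j - lf R j = ((range j).filter (fun m => R m < j)).card := by omega
  rw [e]
  constructor
  · intro h1
    by_contra hcon
    push Not at hcon
    have hsub : range (i + 1) ⊆ (range j).filter (fun m => R m < j) := by
      intro m hm
      rw [mem_range] at hm
      rw [mem_filter, mem_range]
      refine ⟨by omega, lt_of_le_of_lt (hR.mono m i (by omega) (by omega)) hcon⟩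
    have := card_le_card hsub
    rw [card_range] at this
    omega
  · intro h1
    have hsub : (range j).filter (fun m => R m < j) ⊆ range i := by
      intro m hm
      rw [mem_filter, mem_range] at hm
      rw [mem_range]
      by_contra hcon
      push Not at hcon
      have := hR.mono i m hcon (by omega)
      omega
    have := card_le_card hsub
    rwa [card_range] at this

lemma nl_mono (hR : Stair n R) {j j' : ℕ} (hj : j < n) (hjj : j' ≤ j) :
    j' - lf R j' ≤ j - lf R j := by
  have h := lf_add_nl R j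
  have h' := lf_add_nl R j'
  have hsub : (range j').filter (fun m => R m < j') ⊆ (range j).filter (fun m => R m < j) := by
    intro m hm
    rw [mem_filter, mem_range] at hm ⊢
    omega
  have := card_le_card hsub
  omega

lemma rev_stair (hR : Stair n R) : Stair n (rev n R) := by
  refine ⟨?_, ?_, ?_⟩
  · intro i j hij hj
    unfold rev
    have h := nl_mono hR (j := n - 1 - i) (j' := n - 1 - j) (by omega) (by omega)
    have h1 := lf_le_self R (n - 1 - i)
    have h2 := lf_le_self R (n - 1 - j)
    omega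
  · intro i _
    unfold rev
    omega
  · intro i hi
    unfold rev
    have h1 := lf_le_self R (n - 1 - i)
    omega

lemma rt_rev (n : ℕ) (R : ℕ → ℕ) (i : ℕ) : rt (rev n R) i = lf R (n - 1 - i) := by
  unfold rt rev
  omega

/-- `i' < i` are adjacent in the reversed graph iff `n-1-i < n-1-i'` are adjacent. -/
lemma rev_iff (hR : Stair n R) {i i' : ℕ} (hi : i < n) (hii : i' < i) :
    i ≤ rev n R i' ↔ n - 1 - i' ≤ R (n - 1 - i) := by
  have h := left_iff hR (i := n - 1 - i) (j := n - 1 - i') (by omega) (by omega)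
  rw [← h]
  unfold rev
  have h1 := lf_le_self R (n - 1 - i')
  omega

lemma lf_rev (hR : Stair n R) {i : ℕ} (hi : i < n) : lf (rev n R) i = rt R (n - 1 - i) := by
  unfold lf rt
  have h1 := hR.lt (n - 1 - i) (by omega)
  have h2 := hR.self (n - 1 - i) (by omega)
  have e : R (n - 1 - i) - (n - 1 - i) = (Ioc (n - 1 - i) (R (n - 1 - i))).card := by simp
  rw [e]
  refine card_bij' (fun a _ => n - 1 - a) (fun a _ => n - 1 - a) ?_ ?_ ?_ ?_
  · intro a ha
    rw [mem_filter, mem_range] at ha
    rw [mem_Ioc]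
    have := (rev_iff hR hi ha.1).1 ha.2
    omega
  · intro a ha
    rw [mem_Ioc] at ha
    rw [mem_filter, mem_range]
    refine ⟨by omega, ?_⟩
    rw [rev_iff hR hi (by omega)]
    have : n - 1 - (n - 1 - a) = a := by omega
    rw [this]
    exact ha.2
  · intro a ha
    rw [mem_filter, mem_range] at ha
    omega
  · intro a ha
    rw [mem_Ioc] at ha
    omega

lemma dg_rev (hR : Stair n R) {i : ℕ} (hi : i < n) : dg (rev n R) i = dg R (n - 1 - i) := by
  unfold dg
  rw [lf_rev hR hi, rt_rev]
  omega

lemma df_rev (k : ℕ) (hR : Stair n R) {i : ℕ} (hi : i < n) :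
    df k (rev n R) i = df k R (n - 1 - i) := by
  unfold df
  rw [dg_rev hR hi]

lemma missing_rev (hR : Stair n R) {a b : ℕ} (hab : a ≤ b) (hb : b < n) :
    missing (rev n R) (n - 1 - b) (n - 1 - a) = missing R a b := by
  unfold missing
  refine card_bij' (fun p _ => (n - 1 - p.2, n - 1 - p.1)) (fun p _ => (n - 1 - p.2, n - 1 - p.1))
    ?_ ?_ ?_ ?_
  · rintro ⟨p, q⟩ hp
    simp only [mem_filter, mem_product, mem_Icc] at hp ⊢
    have h := rev_iff hR (i := q) (i' := p) (by omega) (by omega)
    refine ⟨⟨by omega, by omega⟩, by omega, ?_⟩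
    by_contra hcon
    push Not at hcon
    have := h.2 hcon
    omega
  · rintro ⟨p, q⟩ hp
    simp only [mem_filter, mem_product, mem_Icc] at hp ⊢
    have h := rev_iff hR (i := n - 1 - p) (i' := n - 1 - q) (by omega) (by omega)
    have e1 : n - 1 - (n - 1 - q) = q := by omega
    have e2 : n - 1 - (n - 1 - p) = p := by omega
    rw [e1, e2] at h
    refine ⟨⟨by omega, by omega⟩, by omega, ?_⟩
    by_contra hcon
    push Not at hcon
    have := h.1 hcon
    omega
  · rintro ⟨p, q⟩ hp
    simp only [mem_filter, mem_product, mem_Icc] at hp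
    simp only [Prod.mk.injEq]
    omega
  · rintro ⟨p, q⟩ hp
    simp only [mem_filter, mem_product, mem_Icc] at hp
    simp only [Prod.mk.injEq]
    omega

theorem Hyp.rev (h : Hyp k n R) : Hyp k n (rev n R) := by
  refine ⟨h.hk, rev_stair h.st, ?_, ?_⟩
  · intro i hi
    rw [dg_rev h.st hi]
    exact h.deg _ (by omega)
  · intro i hi hd
    rw [dg_rev h.st hi] at hd
    have hw := h.win (n - 1 - i) (by omega) hd
    have h1 := h.st.lt (n - 1 - i) (by omega)
    have h2 := h.st.self (n - 1 - i) (by omega)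
    have h3 := lf_le_self R (n - 1 - i)
    have h4 := missing_rev h.st (a := n - 1 - i - lf R (n - 1 - i)) (b := R (n - 1 - i))
      (by omega) h1
    rw [← h4] at hw
    have e1 : i - lf (P3f3a3b.rev n R) i = n - 1 - R (n - 1 - i) := by
      rw [lf_rev h.st hi]
      unfold rt
      omega
    have e2 : P3f3a3b.rev n R i = n - 1 - (n - 1 - i - lf R (n - 1 - i)) := by
      unfold P3f3a3b.rev
      omega
    rw [e1, e2]
    exact hw

lemma XX_zero (R : ℕ → ℕ) : XX R 0 = 0 := by
  unfold XX
  simp

lemma XX_last (hR : Stair n R) : XX R n = 0 := by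
  unfold XX
  refine sum_eq_zero fun i hi => ?_
  have := hR.lt i (mem_range.1 hi)
  omega

lemma XX_rev (h : Hyp k n R) {v : ℕ} (hv : v ≤ n) : XX (rev n R) (n - v) = XX R v := by
  induction v with
  | zero => rw [Nat.sub_zero, XX_zero, XX_last (rev_stair h.st)]
  | succ v ih =>
    have h1 := ih (by omega)
    have h2 := h.XX_succ (v := v) (by omega)
    have h3 := h.rev.XX_succ (v := n - (v + 1)) (by omega)
    have e1 : n - (v + 1) + 1 = n - v := by omega
    have e2 : n - 1 - (n - (v + 1)) = v := by omega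
    rw [e1, lf_rev h.st (by omega), rt_rev, e2] at h3
    omega

lemma FR_eq_FL (h : Hyp k n R) {v s : ℕ} (hs : v + s ≤ n) :
    FR k R v s = FL k (rev n R) (n - v) s := by
  unfold FR FL
  have e1 : n - v - s = n - (v + s) := by omega
  rw [e1, XX_rev h hs]
  congr 1
  refine sum_bij' (fun i _ => n - 1 - i) (fun i _ => n - 1 - i) ?_ ?_ ?_ ?_ ?_
  · intro i hi
    rw [mem_Ico] at hi ⊢
    omega
  · intro i hi
    rw [mem_Ico] at hi ⊢
    omega
  · intro i hi
    rw [mem_Ico] at hi
    omega
  · intro i hi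
    rw [mem_Ico] at hi
    omega
  · intro i hi
    rw [mem_Ico] at hi
    rw [df_rev k h.st (by omega)]
    congr 1
    omega

theorem Hyp.FR_parity (h : Hyp k n R) {v s : ℕ} (hs : v + s ≤ n) :
    FR k R v s % 2 = XX R v % 2 := by
  rw [FR_eq_FL h hs, h.rev.FL_parity (by omega) (by omega), XX_rev h (by omega)]

theorem Hyp.FR_ge (h : Hyp k n R) {v s : ℕ} (hv : 1 ≤ v) (hs : v + s ≤ n) (hs1 : 1 ≤ s)
    (hdvd : ¬ (2 * k + 1) ∣ s) : df k R (v - 1) ≤ FR k R v s := by
  rw [FR_eq_FL h hs]
  have h1 := h.rev.FL_ge (v := n - v) (c := s) (by omega) (by omega) hs1 hdvd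
  rw [df_rev k h.st (by omega)] at h1
  have e : n - 1 - (n - v) = v - 1 := by omega
  rwa [e] at h1

theorem Hyp.FR_ge_window (h : Hyp k n R) {v s : ℕ} (hs : v + s ≤ n)
    (hdvd : (2 * k + 1) ∣ s) : XX R v ≤ FR k R v s := by
  rw [FR_eq_FL h hs, ← XX_rev h (v := v) (by omega)]
  exact h.rev.FL_ge_window (by omega) (by omega) hdvd

theorem Hyp.FR_add (h : Hyp k n R) {v s : ℕ} (hs : v + s ≤ n) (h1 : s % 2 = 1) :
    2 * k ≤ FR k R v s + XX R v := by
  rw [FR_eq_FL h hs, ← XX_rev h (v := v) (by omega)]
  have h2 := h.rev.FL_add (v := n - v) (c := s) (c' := 0) (by omega) (by omega) (by omega) h1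
    (by omega)
  have e : FL k (P3f3a3b.rev n R) (n - v) 0 = XX (P3f3a3b.rev n R) (n - v) := by
    unfold FL
    simp
  rw [e] at h2
  exact h2

end Pool.Agent.Lib.P3f3a3b
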