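import Pool.Agent.Lib.P3f3a3b.Dihedral

/-!
Proper edge colourings with pendant (reserved) colours, missing colours (`tok`), Kempe swaps
and the parity of the numbers of missing colours on a set `K`.
-/

set_option autoImplicit false
set_option linter.unusedSectionVars false
set_option linter.unusedVariables false

namespace Pool.Agent.Lib.P3f3a3b

open Finset
open scoped Classical

noncomputable section

variable {V C : Type*} [Fintype V] [Fintype C]

/-- A proper edge colouring of `H` by colours in `C`, together with sets `P v` of reserved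
(pendant) colours at the vertices, not used by any edge at `v`. -/
structure Col (H : SimpleGraph V) (C : Type*) where
  col : V → V → C
  symm : ∀ u v, H.Adj u v → col u v = col v u
  proper : ∀ u v w, H.Adj u v → H.Adj u w → col u v = col u w → v = w
  P : V → Finset C
  hP : ∀ u v, H.Adj u v → col u v ∉ P u

variable {H : SimpleGraph V}

namespace Col

/-- The tokens of `v`: colours that are neither used at `v` nor reserved at `v`. -/
def tok (s : Col H C) (v : V) : Finset C :=
  univ.filter (fun c => c ∉ s.P v ∧ ∀ w, H.Adj v w → s.col v w ≠ c)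

theorem mem_tok {s : Col H C} {v : V} {c : C} :
    c ∈ s.tok v ↔ c ∉ s.P v ∧ ∀ w, H.Adj v w → s.col v w ≠ c := by
  simp [tok]

/-- The colour `c` is used by an edge at `v`. -/
def Used (s : Col H C) (c : C) (v : V) : Prop := ∃ w, H.Adj v w ∧ s.col v w = c

/-- The neighbour of `v` along the edge coloured `c`, or `v` if there is none. -/
def nb (s : Col H C) (c : C) (v : V) : V :=
  if h : ∃ w, H.Adj v w ∧ s.col v w = c then h.choose else v

theorem nb_eq {s : Col H C} {c : C} {v w : V} (h : H.Adj v w) (hc : s.col v w = c) :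
    s.nb c v = w := by
  have hex : ∃ w, H.Adj v w ∧ s.col v w = c := ⟨w, h, hc⟩
  rw [nb, dif_pos hex]
  exact s.proper v _ w hex.choose_spec.1 h (by rw [hex.choose_spec.2, hc])

theorem nb_of_not {s : Col H C} {c : C} {v : V} (h : ¬ s.Used c v) : s.nb c v = v := by
  have h' : ¬ ∃ w, H.Adj v w ∧ s.col v w = c := h
  rw [nb, dif_neg h']

theorem used_adj {s : Col H C} {c : C} {v : V} (h : s.Used c v) :
    H.Adj v (s.nb c v) ∧ s.col v (s.nb c v) = c := by
  obtain ⟨w, h1, h2⟩ := h
  rw [nb_eq h1 h2]; exact ⟨h1, h2⟩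

theorem nb_eq_self_iff {s : Col H C} {c : C} {v : V} : s.nb c v = v ↔ ¬ s.Used c v := by
  constructor
  · intro h hu
    have := (used_adj hu).1
    rw [h] at this
    exact H.loopless.irrefl v this
  · exact nb_of_not

theorem nb_invol (s : Col H C) (c : C) : Function.Involutive (s.nb c) := by
  intro v
  by_cases h : s.Used c v
  · obtain ⟨h1, h2⟩ := used_adj h
    refine nb_eq h1.symm ?_
    rw [← s.symm _ _ h1, h2]
  · rw [nb_of_not h, nb_of_not h]

theorem not_used_of_tok {s : Col H C} {v : V} {c : C} (h : c ∈ s.tok v) : ¬ s.Used c v := by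
  rintro ⟨w, h1, h2⟩
  exact (mem_tok.mp h).2 w h1 h2

/-- `S` is a union of `(a,b)`-Kempe components. -/
def Closed (s : Col H C) (a b : C) (S : Finset V) : Prop :=
  ∀ u v, H.Adj u v → (s.col u v = a ∨ s.col u v = b) → u ∈ S → v ∈ S

theorem Closed.union {s : Col H C} {a b : C} {S T : Finset V} (h1 : s.Closed a b S)
    (h2 : s.Closed a b T) : s.Closed a b (S ∪ T) := by
  intro u v huv hc hu
  rw [mem_union] at hu ⊢
  rcases hu with hu | hu
  · exact Or.inl (h1 u v huv hc hu)
  · exact Or.inr (h2 u v huv hc hu)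

/-- The Kempe swap of the colours `a` and `b` on `S`. -/
def swap (s : Col H C) (a b : C) (S : Finset V) (hS : s.Closed a b S) : Col H C where
  col u v := if u ∈ S then Equiv.swap a b (s.col u v) else s.col u v
  symm u v huv := by
    have hs := s.symm u v huv
    by_cases hc : s.col u v = a ∨ s.col u v = b
    · have : u ∈ S ↔ v ∈ S :=
        ⟨hS u v huv hc, hS v u huv.symm (by rw [← hs]; exact hc)⟩
      by_cases hu : u ∈ S
      · rw [if_pos hu, if_pos (this.mp hu), hs]
      · rw [if_neg hu, if_neg (fun h => hu (this.mpr h)), hs]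
    · push Not at hc
      have h1 : Equiv.swap a b (s.col u v) = s.col u v := Equiv.swap_apply_of_ne_of_ne hc.1 hc.2
      have h2 : Equiv.swap a b (s.col v u) = s.col v u := by rw [← hs]; exact h1
      rw [h1, h2, ite_self, ite_self, hs]
  proper u v w huv huw h := by
    refine s.proper u v w huv huw ?_
    by_cases hu : u ∈ S
    · rw [if_pos hu, if_pos hu] at h
      exact (Equiv.swap a b).injective h
    · rw [if_neg hu, if_neg hu] at h
      exact h
  P v := if v ∈ S then (s.P v).image (Equiv.swap a b) else s.P v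
  hP u v huv := by
    have := s.hP u v huv
    by_cases hu : u ∈ S
    · rw [if_pos hu, if_pos hu, mem_image]
      rintro ⟨c, hc, h⟩
      exact this ((Equiv.swap a b).injective h ▸ hc)
    · rw [if_neg hu, if_neg hu]; exact this

theorem tok_swap {s : Col H C} {a b : C} {S : Finset V} (hS : s.Closed a b S) (v : V) :
    (s.swap a b S hS).tok v =
      if v ∈ S then (s.tok v).image (Equiv.swap a b) else s.tok v := by
  ext c
  by_cases hv : v ∈ S
  · rw [if_pos hv, mem_image, mem_tok]
    simp only [swap, if_pos hv, mem_image, not_exists, not_and]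
    constructor
    · rintro ⟨h1, h2⟩
      refine ⟨Equiv.swap a b c, mem_tok.mpr ⟨fun h => h1 _ h (Equiv.swap_apply_self _ _ _),
        fun w hw h => h2 w hw (by rw [h, Equiv.swap_apply_self])⟩, Equiv.swap_apply_self _ _ _⟩
    · rintro ⟨d, hd, rfl⟩
      obtain ⟨h1, h2⟩ := mem_tok.mp hd
      exact ⟨fun e he h => h1 ((Equiv.swap a b).injective h ▸ he),
        fun w hw h => h2 w hw ((Equiv.swap a b).injective h)⟩
  · rw [if_neg hv, mem_tok, mem_tok]
    simp only [swap, if_neg hv]

theorem mem_tok_swap {s : Col H C} {a b : C} {S : Finset V} (hS : s.Closed a b S) {v : V}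
    {c : C} : c ∈ (s.swap a b S hS).tok v ↔
      if v ∈ S then Equiv.swap a b c ∈ s.tok v else c ∈ s.tok v := by
  rw [tok_swap]
  by_cases hv : v ∈ S
  · rw [if_pos hv, if_pos hv, mem_image]
    constructor
    · rintro ⟨d, hd, rfl⟩; rw [Equiv.swap_apply_self]; exact hd
    · intro h; exact ⟨_, h, Equiv.swap_apply_self _ _ _⟩
  · rw [if_neg hv, if_neg hv]

theorem card_P_swap {s : Col H C} {a b : C} {S : Finset V} (hS : s.Closed a b S) (v : V) :
    ((s.swap a b S hS).P v).card = (s.P v).card := by
  simp only [swap]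
  by_cases hv : v ∈ S
  · rw [if_pos hv, card_image_of_injective _ (Equiv.swap a b).injective]
  · rw [if_neg hv]

theorem card_tok_swap {s : Col H C} {a b : C} {S : Finset V} (hS : s.Closed a b S) (v : V) :
    ((s.swap a b S hS).tok v).card = (s.tok v).card := by
  rw [tok_swap]
  by_cases hv : v ∈ S
  · rw [if_pos hv, card_image_of_injective _ (Equiv.swap a b).injective]
  · rw [if_neg hv]

/-- The `(a,b)`-Kempe component of `v`. -/
def comp (s : Col H C) (a b : C) (v : V) : Finset V :=
  univ.filter (fun u => Conn (s.nb a) (s.nb b) v u)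

theorem mem_comp {s : Col H C} {a b : C} {u v : V} :
    u ∈ s.comp a b v ↔ Conn (s.nb a) (s.nb b) v u := by simp [comp]

theorem self_mem_comp (s : Col H C) (a b : C) (v : V) : v ∈ s.comp a b v :=
  mem_comp.mpr (Conn.refl _ _ _)

theorem comp_closed (s : Col H C) (a b : C) (v : V) : s.Closed a b (s.comp a b v) := by
  intro x y hxy hc hx
  rw [mem_comp] at hx ⊢
  rcases hc with hc | hc
  · have := hx.left
    rwa [nb_eq hxy hc] at this
  · have := hx.right
    rwa [nb_eq hxy hc] at this

theorem comp_eq_of_mem {s : Col H C} {a b : C} {u v : V} (h : u ∈ s.comp a b v) :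
    s.comp a b u = s.comp a b v := by
  rw [mem_comp] at h
  ext w
  rw [mem_comp, mem_comp]
  exact ⟨fun h' => h.trans h', fun h' => (h.symm (s.nb_invol a) (s.nb_invol b)).trans h'⟩

theorem comp_comm (s : Col H C) (a b : C) (v : V) : s.comp a b v = s.comp b a v := by
  ext w
  rw [mem_comp, mem_comp]
  exact ⟨fun h => h.swap, fun h => h.swap⟩

/-- `v` has a token `a` or a token `b`. -/
def End (s : Col H C) (a b : C) (v : V) : Prop := a ∈ s.tok v ∨ b ∈ s.tok v

theorem End.isEnd {s : Col H C} {a b : C} {v : V} (h : s.End a b v) :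
    IsEnd (s.nb a) (s.nb b) v := by
  rcases h with h | h
  · exact Or.inl (nb_of_not (not_used_of_tok h))
  · exact Or.inr (nb_of_not (not_used_of_tok h))

theorem three_ends {s : Col H C} {a b : C} {u v w : V} (hv : s.End a b v) (hu : s.End a b u)
    (hw : s.End a b w) (h1 : u ∈ s.comp a b v) (h2 : w ∈ s.comp a b v) :
    v = u ∨ v = w ∨ u = w :=
  Pool.Agent.Lib.P3f3a3b.three_ends (s.nb_invol a) (s.nb_invol b) hv.isEnd hu.isEnd hw.isEnd
    (mem_comp.mp h1) (mem_comp.mp h2)

theorem eq_of_both {s : Col H C} {a b : C} {u v : V} (ha : a ∈ s.tok v) (hb : b ∈ s.tok v)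
    (h : u ∈ s.comp a b v) : u = v :=
  conn_of_both (nb_of_not (not_used_of_tok ha)) (nb_of_not (not_used_of_tok hb))
    (mem_comp.mp h)

/-- The number of vertices of `K` with a token `c`. -/
def cnt (s : Col H C) (K : Finset V) (c : C) : ℕ := (K.filter (fun v => c ∈ s.tok v)).card

/-- The number of `(a,b)`-ends of `S` inside `K` (a vertex with both tokens counts twice). -/
def ends (s : Col H C) (K : Finset V) (a b : C) (S : Finset V) : ℕ :=
  s.cnt (K ∩ S) a + s.cnt (K ∩ S) b

theorem cnt_union_disjoint {s : Col H C} {K L : Finset V} (h : Disjoint K L) (c : C) :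
    s.cnt (K ∪ L) c = s.cnt K c + s.cnt L c := by
  rw [cnt, filter_union, card_union_of_disjoint (disjoint_filter_filter h)]
  rfl

theorem cnt_split (s : Col H C) (K S : Finset V) (c : C) :
    s.cnt K c = s.cnt (K \ S) c + s.cnt (K ∩ S) c := by
  rw [← cnt_union_disjoint (disjoint_sdiff_inter K S), sdiff_union_inter]

theorem cnt_swap {s : Col H C} {a b : C} {S : Finset V} (hS : s.Closed a b S) (K : Finset V)
    (c : C) : (s.swap a b S hS).cnt K c =
      s.cnt (K \ S) c + s.cnt (K ∩ S) (Equiv.swap a b c) := by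
  rw [cnt_split _ K S]
  congr 1
  · unfold cnt
    congr 1
    apply filter_congr
    intro v hv
    rw [mem_sdiff] at hv
    rw [mem_tok_swap, if_neg hv.2]
  · unfold cnt
    congr 1
    apply filter_congr
    intro v hv
    rw [mem_inter] at hv
    rw [mem_tok_swap, if_pos hv.2]

theorem cnt_swap_of_ne {s : Col H C} {a b : C} {S : Finset V} (hS : s.Closed a b S)
    (K : Finset V) {c : C} (ha : c ≠ a) (hb : c ≠ b) :
    (s.swap a b S hS).cnt K c = s.cnt K c := by
  rw [cnt_swap, Equiv.swap_apply_of_ne_of_ne ha hb, ← cnt_split]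

/-- The colours with an odd number of tokens on `K`. -/
def odd (s : Col H C) (K : Finset V) : Finset C := univ.filter (fun c => Odd (s.cnt K c))

theorem mem_odd {s : Col H C} {K : Finset V} {c : C} : c ∈ s.odd K ↔ Odd (s.cnt K c) := by
  simp [odd]

theorem odd_swap_of_even {s : Col H C} {a b : C} {S : Finset V} (hS : s.Closed a b S)
    (K : Finset V) (h : Even (s.ends K a b S)) : (s.swap a b S hS).odd K = s.odd K := by
  ext c
  rw [mem_odd, mem_odd]
  by_cases ha : c = a
  · subst ha
    rw [cnt_swap, Equiv.swap_apply_left, cnt_split s K S c]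
    unfold ends at h
    rw [Nat.even_iff] at h
    rw [Nat.odd_iff, Nat.odd_iff]
    omega
  · by_cases hb : c = b
    · subst hb
      rw [cnt_swap, Equiv.swap_apply_right, cnt_split s K S c]
      unfold ends at h
      rw [Nat.even_iff] at h
      rw [Nat.odd_iff, Nat.odd_iff]
      omega
    · rw [cnt_swap_of_ne hS K ha hb]

theorem mem_odd_swap_of_odd {s : Col H C} {a b : C} {S : Finset V} (hab : a ≠ b)
    (hS : s.Closed a b S)
    (K : Finset V) (h : Odd (s.ends K a b S)) (c : C) :
    c ∈ (s.swap a b S hS).odd K ↔ (if c = a ∨ c = b then c ∉ s.odd K else c ∈ s.odd K) := by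
  rw [mem_odd, mem_odd]
  by_cases ha : c = a
  · subst ha
    rw [if_pos (Or.inl rfl), cnt_swap, Equiv.swap_apply_left, cnt_split s K S c]
    unfold ends at h
    rw [Nat.odd_iff] at h
    rw [Nat.odd_iff, Nat.odd_iff]
    omega
  · by_cases hb : c = b
    · subst hb
      rw [if_pos (Or.inr rfl), cnt_swap, Equiv.swap_apply_right, cnt_split s K S c]
      unfold ends at h
      rw [Nat.odd_iff] at h
      rw [Nat.odd_iff, Nat.odd_iff]
      omega
    · rw [if_neg (by tauto), cnt_swap_of_ne hS K ha hb]

/-- Swapping an odd chain between two colours of different parity keeps the number of odd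
colours. -/
theorem card_odd_swap_of_odd {s : Col H C} {a b : C} {S : Finset V} (hab : a ≠ b)
    (hS : s.Closed a b S) (K : Finset V) (h : Odd (s.ends K a b S))
    (hpar : a ∈ s.odd K ↔ b ∉ s.odd K) :
    ((s.swap a b S hS).odd K).card = (s.odd K).card := by
  have : (s.swap a b S hS).odd K = (s.odd K).image (Equiv.swap a b) := by
    ext c
    rw [mem_odd_swap_of_odd hab hS K h, mem_image]
    constructor
    · intro hc
      refine ⟨Equiv.swap a b c, ?_, Equiv.swap_apply_self _ _ _⟩
      by_cases ha : c = a
      · subst ha; rw [if_pos (Or.inl rfl)] at hc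
        rw [Equiv.swap_apply_left]; tauto
      · by_cases hb : c = b
        · subst hb; rw [if_pos (Or.inr rfl)] at hc
          rw [Equiv.swap_apply_right]; tauto
        · rw [if_neg (by tauto)] at hc
          rwa [Equiv.swap_apply_of_ne_of_ne ha hb]
    · rintro ⟨d, hd, rfl⟩
      by_cases ha : d = a
      · subst ha; rw [Equiv.swap_apply_left, if_pos (Or.inr rfl)]; tauto
      · by_cases hb : d = b
        · subst hb; rw [Equiv.swap_apply_right, if_pos (Or.inl rfl)]; tauto
        · rw [Equiv.swap_apply_of_ne_of_ne ha hb, if_neg (by tauto)]; exact hd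
  rw [this, card_image_of_injective _ (Equiv.swap a b).injective]

/-- A Kempe component has at most two ends. -/
theorem ends_comp_le_two {s : Col H C} {a b : C} (hab : a ≠ b) (K : Finset V) (v : V) :
    s.ends K a b (s.comp a b v) ≤ 2 := by
  set O := s.comp a b v with hO
  by_cases hboth : ∃ u ∈ K ∩ O, a ∈ s.tok u ∧ b ∈ s.tok u
  · obtain ⟨u, hu, ha, hb⟩ := hboth
    rw [mem_inter] at hu
    have hsub : K ∩ O ⊆ {u} := by
      intro w hw
      rw [mem_inter, hO, ← comp_eq_of_mem hu.2] at hw
      rw [mem_singleton]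
      exact eq_of_both ha hb hw.2
    unfold ends cnt
    have h1 : ((K ∩ O).filter (fun v => a ∈ s.tok v)).card ≤ 1 :=
      le_trans (card_le_card (filter_subset _ _)) (le_trans (card_le_card hsub) (by simp))
    have h2 : ((K ∩ O).filter (fun v => b ∈ s.tok v)).card ≤ 1 :=
      le_trans (card_le_card (filter_subset _ _)) (le_trans (card_le_card hsub) (by simp))
    omega
  · push Not at hboth
    have hdis : Disjoint ((K ∩ O).filter (fun v => a ∈ s.tok v))
        ((K ∩ O).filter (fun v => b ∈ s.tok v)) := by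
      rw [disjoint_left]
      intro w h1 h2
      rw [mem_filter] at h1 h2
      exact hboth w h1.1 h1.2 h2.2
    unfold ends cnt
    rw [← card_union_of_disjoint hdis]
    by_contra hlt
    push Not at hlt
    rw [two_lt_card] at hlt
    obtain ⟨x, hx, y, hy, z, hz, hxy, hxz, hyz⟩ := hlt
    have hE : ∀ w, w ∈ (K ∩ O).filter (fun v => a ∈ s.tok v) ∪
        (K ∩ O).filter (fun v => b ∈ s.tok v) → s.End a b w ∧ w ∈ O := by
      intro w hw
      rw [mem_union, mem_filter, mem_filter, mem_inter] at hw
      rcases hw with hw | hw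
      · exact ⟨Or.inl hw.2, hw.1.2⟩
      · exact ⟨Or.inr hw.2, hw.1.2⟩
    have hx' := hE x hx
    have hy' := hE y hy
    have hz' := hE z hz
    have hOx : O = s.comp a b x := (comp_eq_of_mem hx'.2).symm
    rcases three_ends hx'.1 hy'.1 hz'.1 (hOx ▸ hy'.2) (hOx ▸ hz'.2) with h | h | h
    · exact hxy h
    · exact hxz h
    · exact hyz h

end Col

end

end Pool.Agent.Lib.P3f3a3b
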