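import Pool.Agent.Lib.P3f3a3b.ArithL
import Pool.Agent.Lib.P3f3a3b.ArithR

/-!
Module Greedy: the greedy choice of the number of odd colours (closest to k).
-/

set_option autoImplicit false

namespace Pool.Agent.Lib.P3f3a3b

open Finset

variable {k n : ℕ} {R : ℕ → ℕ}

private lemma FL_zero (k : ℕ) (R : ℕ → ℕ) (v : ℕ) : FL k R v 0 = XX R v := by
  simp [FL]

private lemma FR_zero (k : ℕ) (R : ℕ → ℕ) (v : ℕ) : FR k R v 0 = XX R v := by
  simp [FR]

private lemma FL_succ (k : ℕ) (R : ℕ → ℕ) {v c : ℕ} (hc : c ≤ v) :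
    FL k R (v + 1) (c + 1) = FL k R v c + df k R v := by
  unfold FL
  have e : v + 1 - (c + 1) = v - c := by omega
  rw [e, sum_Ico_succ_top (by omega), add_assoc]

private lemma FR_succ (k : ℕ) (R : ℕ → ℕ) (v s : ℕ) :
    FR k R v (s + 1) = FR k R (v + 1) s + df k R v := by
  unfold FR
  have e : v + (s + 1) = v + 1 + s := by omega
  rw [e, sum_eq_sum_Ico_succ_bot (by omega)]
  omega

private lemma XX_of_lf {R : ℕ → ℕ} {v : ℕ} (h : lf R v = 0) : XX R v = 0 := by
  unfold XX
  refine sum_eq_zero fun i hi => ?_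
  unfold lf at h
  rw [card_eq_zero, filter_eq_empty_iff] at h
  have := h hi
  omega

theorem Hyp.INV_last (h : Hyp k n R) : INV k n R n 0 := by
  have h0 : XX R n = 0 := by
    unfold XX
    refine sum_eq_zero fun i hi => ?_
    have := h.st.lt i (mem_range.1 hi)
    omega
  refine ⟨by rw [h0], fun c _ _ => Nat.zero_le _, ?_, ?_, ?_⟩
  · intro c hc hc1
    have h1 := h.FL_add (v := n) (c := c) (c' := 0) le_rfl hc (Nat.zero_le _) hc1 rfl
    rw [FL_zero, h0] at h1
    omega
  · intro _
    left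
    exact ⟨0, Nat.zero_le _, rfl, by rw [FL_zero, h0]⟩
  · intro h1
    omega

/-- One step of the induction: from the cut `v+1` to the cut `v`; `α` and `β` are the numbers of
colours of the two parity classes reserved at the new vertex `v`. -/
theorem Hyp.INV_step (h : Hyp k n R) {v t : ℕ} (hv : v < n) (ht : INV k n R (v + 1) t) :
    ∃ τ α β : ℕ, INV k n R v τ ∧ α + β = df k R v ∧ τ + t + α = 2 * k + β ∧
      2 * rt R v + 2 * β ≤ XX R (v + 1) + t ∧
      (1 ≤ lf R v ∨ (β = 0 ∧ XX R (v + 1) = t)) ∧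
      (β = 0 ∨ 2 * β ≤ t + 1 ∨ 2 * k + β ≤ 2 * t + α + 2 ∨ β + rt R v ≤ t) ∧
      (α = 0 ∨ 2 * α + t ≤ 2 * k + 1 ∨
        (2 * t + α ≤ 2 * k + β + 2 ∧ α ≤ β + lf R v + 2) ∨
        XX R (v + 1) + t + α ≤ 2 * k + β + lf R v + rt R v ∨
        (XX R (v + 1) = t ∧ α + t ≤ 2 * k)) := by
  classical
  obtain ⟨t1, t2, t3, t4, t5⟩ := ht
  have hk := h.hk
  have hX := h.XX_succ hv
  have hd : df k R v + lf R v + rt R v = 2 * k := by
    have h1 := h.deg v hv
    unfold df
    unfold dg at h1 ⊢
    omega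
  set d := df k R v with hdd
  set X1 := XX R (v + 1) with hX1
  set X0 := XX R v with hX0
  have htX : t ≤ X1 := by
    have := t2 0 (Nat.zero_le _) rfl
    rwa [FL_zero] at this
  have ht2k : t ≤ 2 * k := by
    by_contra hcon
    rcases t5 (by omega) with ⟨c, _, _, h1⟩ | ⟨s, _, _, h1⟩ <;> omega
  have hL : ∀ c ≤ v, FL k R (v + 1) (c + 1) = FL k R v c + d := fun c hc => FL_succ k R hc
  have hpar : ∀ c ≤ v, FL k R v c % 2 = X0 % 2 := fun c hc => h.FL_parity hv.le hc
  -- admissible values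
  let Adm : ℕ → Prop := fun τ => τ % 2 = X0 % 2 ∧ (∀ c, c ≤ v → c % 2 = 0 → τ ≤ FL k R v c) ∧
    (∀ c, c ≤ v → c % 2 = 1 → 2 * k ≤ FL k R v c + τ) ∧ τ + t ≤ 2 * k + d ∧ 2 * k ≤ τ + t + d
  have hne : ∃ τ, Adm τ := by
    let P : ℕ → Prop := fun τ => τ % 2 = X0 % 2 ∧
      (∀ c, c ≤ v → c % 2 = 0 → τ ≤ FL k R v c) ∧ τ + t ≤ 2 * k + d
    have hP0 : P (X0 % 2) := by
      refine ⟨by omega, ?_, by omega⟩
      intro c hc _
      have := hpar c hc
      omega
    have hPle : ∀ τ, P τ → τ ≤ X0 := by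
      intro τ hτ
      have := hτ.2.1 0 (Nat.zero_le _) rfl
      rwa [FL_zero] at this
    set τ := Nat.findGreatest P X0 with hτ
    have hPτ : P τ := Nat.findGreatest_spec (hPle _ hP0) hP0
    have hmax : ¬ P (τ + 2) := by
      intro hP
      have := Nat.le_findGreatest (hPle _ hP) hP
      omega
    have hU : (∃ c, c ≤ v ∧ c % 2 = 0 ∧ FL k R v c = τ) ∨ τ + t = 2 * k + d := by
      by_contra hcon
      push Not at hcon
      obtain ⟨h1, h2⟩ := hcon
      apply hmax
      have hp := hPτ.1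
      refine ⟨by omega, ?_, ?_⟩
      · intro c hc hc0
        have e1 := h1 c hc hc0
        have e2 := hPτ.2.1 c hc hc0
        have e3 := hpar c hc
        omega
      · have := hPτ.2.2
        omega
    refine ⟨τ, hPτ.1, hPτ.2.1, ?_, hPτ.2.2, ?_⟩
    · intro c hc hc1
      rcases hU with ⟨c', hc', h0, h1⟩ | h1
      · have := h.FL_add hv.le hc hc' hc1 h0
        omega
      · have := t2 (c + 1) (by omega) (by omega)
        rw [hL c hc] at this
        omega
    · rcases hU with ⟨c', hc', h0, h1⟩ | h1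
      · have := t3 (c' + 1) (by omega) (by omega)
        rw [hL c' hc'] at this
        omega
      · omega
  -- the one closest to `k`
  obtain ⟨τ, hA, hmin⟩ : ∃ τ, Adm τ ∧ ∀ τ', Adm τ' → (τ - k) + (k - τ) ≤ (τ' - k) + (k - τ') := by
    have hex : ∃ m, ∃ τ, Adm τ ∧ (τ - k) + (k - τ) = m := by
      obtain ⟨τ, hτ⟩ := hne
      exact ⟨_, τ, hτ, rfl⟩
    obtain ⟨τ, hτ, h1⟩ := Nat.find_spec hex
    refine ⟨τ, hτ, fun τ' hτ' => ?_⟩
    rw [h1]
    exact Nat.find_min' hex ⟨τ', hτ', rfl⟩
  obtain ⟨a1, a2, a3, a4, a5⟩ := hA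
  have hτX : τ ≤ X0 := by
    have := a2 0 (Nat.zero_le _) rfl
    rwa [FL_zero] at this
  have M1 : τ + 1 < k → (∃ c, c ≤ v ∧ c % 2 = 0 ∧ τ = FL k R v c) ∨ τ + t = 2 * k + d := by
    intro hlt
    by_contra hcon
    push Not at hcon
    obtain ⟨h1, h2⟩ := hcon
    have hA2 : Adm (τ + 2) := by
      refine ⟨by omega, ?_, ?_, ?_, by omega⟩
      · intro c hc hc0
        have e1 := h1 c hc hc0
        have e2 := a2 c hc hc0
        have e3 := hpar c hc
        omega
      · intro c hc hc1
        have := a3 c hc hc1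
        omega
      · omega
    have := hmin _ hA2
    omega
  have M2 : k + 1 < τ → (∃ c, c ≤ v ∧ c % 2 = 1 ∧ τ + FL k R v c = 2 * k) ∨
      τ + t + d = 2 * k := by
    intro hlt
    by_contra hcon
    push Not at hcon
    obtain ⟨h1, h2⟩ := hcon
    have hA2 : Adm (τ - 2) := by
      refine ⟨by omega, ?_, ?_, by omega, ?_⟩
      · intro c hc hc0
        have e2 := a2 c hc hc0
        omega
      · intro c hc hc1
        have e1 := h1 c hc hc1
        have e2 := a3 c hc hc1
        have e3 := hpar c hc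
        omega
      · omega
    have := hmin _ hA2
    omega
  -- the invariant
  have hINV : INV k n R v τ := by
    refine ⟨a1, a2, a3, ?_, ?_⟩
    · intro hlt
      rcases M1 hlt with hh | hh
      · exact Or.inl hh
      · have ht5 : k + 1 < t ∨ (τ + 1 < k ∧ t ≤ k + 1) := by omega
        rcases ht5 with ht5 | ht5
        · rcases t5 ht5 with ⟨c, hc, hc1, e⟩ | ⟨s, hs, hs1, e⟩
          · obtain ⟨c', rfl⟩ : ∃ c', c = c' + 1 := ⟨c - 1, by omega⟩
            rw [hL c' (by omega)] at e
            have := a2 c' (by omega) (by omega)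
            left
            exact ⟨c', by omega, by omega, by omega⟩
          · right
            refine ⟨s + 1, by omega, by omega, ?_⟩
            rw [FR_succ]
            omega
        · omega
    · intro hlt
      rcases M2 hlt with hh | hh
      · exact Or.inl hh
      · rcases t4 (by omega) with ⟨c, hc, hc1, e⟩ | ⟨s, hs, hs1, e⟩
        · rcases Nat.eq_zero_or_pos c with hc0 | hc0
          · subst hc0
            rw [FL_zero] at e
            right
            refine ⟨1, by omega, rfl, ?_⟩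
            rw [show (1 : ℕ) = 0 + 1 from rfl, FR_succ, FR_zero]
            omega
          · obtain ⟨c', rfl⟩ : ∃ c', c = c' + 1 := ⟨c - 1, by omega⟩
            rw [hL c' (by omega)] at e
            have := a3 c' (by omega) (by omega)
            left
            exact ⟨c', by omega, by omega, by omega⟩
        · right
          refine ⟨s + 1, by omega, by omega, ?_⟩
          rw [FR_succ]
          omega
  -- fact (a)
  have fa : ∀ c, 1 ≤ c → c ≤ v → d ≤ FL k R v c ∨ X0 ≤ FL k R v c := by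
    intro c h1 h2
    by_cases hdv : (2 * k + 1) ∣ c
    · exact Or.inr (h.FL_ge_window hv.le h2 hdv)
    · exact Or.inl (h.FL_ge hv h2 h1 hdv)
  have fr : ∀ s, 1 ≤ s → v + 1 + s ≤ n → d ≤ FR k R (v + 1) s ∨ X1 ≤ FR k R (v + 1) s := by
    intro s h1 h2
    by_cases hdv : (2 * k + 1) ∣ s
    · exact Or.inr (h.FR_ge_window h2 hdv)
    · have := h.FR_ge (v := v + 1) (by omega) h2 h1 hdv
      rw [Nat.add_sub_cancel] at this
      exact Or.inl this
  have big : k + 1 ≤ d → t ≤ k + 1 ∧ (k ≤ t + 1 ∨ X1 = t) := by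
    intro hdk
    constructor
    · by_contra hcon
      rcases t5 (by omega) with ⟨c, hc, hc1, e⟩ | ⟨s, hs, hs1, e⟩
      · obtain ⟨c', rfl⟩ : ∃ c', c = c' + 1 := ⟨c - 1, by omega⟩
        rw [hL c' (by omega)] at e
        omega
      · rcases fr s (by omega) (by omega) with e1 | e1 <;> omega
    · by_contra hcon
      push Not at hcon
      rcases t4 (by omega) with ⟨c, hc, hc1, e⟩ | ⟨s, hs, hs1, e⟩
      · rcases Nat.eq_zero_or_pos c with hc0 | hc0
        · subst hc0
          rw [FL_zero] at e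
          omega
        · obtain ⟨c', rfl⟩ : ∃ c', c = c' + 1 := ⟨c - 1, by omega⟩
          rw [hL c' (by omega)] at e
          omega
      · rcases Nat.eq_zero_or_pos s with hs0 | hs0
        · subst hs0
          rw [FR_zero] at e
          omega
        · rcases fr s (by omega) (by omega) with e1 | e1 <;> omega
  have hodd : (τ + t + d) % 2 = 0 := by omega
  obtain ⟨β, hβ⟩ : ∃ β, τ + t + d = 2 * k + 2 * β := ⟨(τ + t + d - 2 * k) / 2, by omega⟩
  obtain ⟨α, hα⟩ : ∃ α, α + β = d := ⟨d - β, by omega⟩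
  refine ⟨τ, α, β, hINV, hα, by omega, by omega, ?_, ?_, ?_⟩
  · rcases Nat.eq_zero_or_pos (lf R v) with h0 | h0
    · right
      have := XX_of_lf h0
      omega
    · left
      exact h0
  · rcases Nat.lt_or_ge (k + 1) τ with h1 | h1
    · rcases M2 h1 with ⟨c, hc, hc1, e⟩ | e
      · rcases fa c (by omega) hc with e1 | e1 <;> omega
      · omega
    · rcases Nat.lt_or_ge k d with h2 | h2
      · obtain ⟨_, e⟩ := big h2
        omega
      · omega
  · rcases Nat.lt_or_ge (τ + 1) k with h1 | h1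
    · rcases M1 h1 with ⟨c, hc, hc1, e⟩ | e
      · rcases Nat.eq_zero_or_pos c with hc0 | hc0
        · subst hc0
          rw [FL_zero] at e
          omega
        · rcases fa c (by omega) hc with e1 | e1 <;> omega
      · omega
    · rcases Nat.lt_or_ge k d with h2 | h2
      · obtain ⟨_, e⟩ := big h2
        omega
      · omega

end Pool.Agent.Lib.P3f3a3b
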