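import Pool.Agent.Lib.P3f3a3b.Insert2
import Pool.Agent.Lib.P3f3a3b.Greedy

/-!
The right-to-left induction over the cuts: proof of `MainStatement`.
-/

set_option autoImplicit false
set_option linter.unusedSectionVars false
set_option linter.unusedVariables false

namespace Pool.Agent.Lib.P3f3a3b

open Finset
open scoped Classical

noncomputable section

/-- The subgraph induced by the vertices `≥ v`. -/
def cutG (n : ℕ) (R : ℕ → ℕ) (v : ℕ) : SimpleGraph (Fin n) where
  Adj i j := v ≤ i.val ∧ v ≤ j.val ∧ adj R i.val j.val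
  symm := ⟨fun i j h => ⟨h.2.1, h.1, h.2.2.symm⟩⟩
  loopless := ⟨fun i h => by rcases h.2.2 with h' | h' <;> exact lt_irrefl _ h'.1⟩

theorem cutG_adj {n : ℕ} {R : ℕ → ℕ} {v : ℕ} {i j : Fin n} :
    (cutG n R v).Adj i j ↔ v ≤ i.val ∧ v ≤ j.val ∧ adj R i.val j.val := Iff.rfl

/-- The vertices right of the cut `v`. -/
def rgt (n v : ℕ) : Finset (Fin n) := univ.filter (fun i => v ≤ i.val)

/-- A good state at the cut `v` with `t` odd colours. -/
def St (k n : ℕ) (R : ℕ → ℕ) (v t : ℕ) : Prop :=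
  ∃ s : Col (cutG n R v) (Fin (2 * k)),
    (∀ i : Fin n, i.val < v → (s.P i).card = 0) ∧
    (∀ i : Fin n, v ≤ i.val → (s.P i).card = df k R i.val) ∧
    (s.odd (rgt n v)).card = t

/-- The number of neighbours of `i` left of the cut `v`. -/
def lb (R : ℕ → ℕ) (v i : ℕ) : ℕ := ((range v).filter (fun j => i ≤ R j)).card

theorem card_fin_filter (n : ℕ) (p : ℕ → Prop) [DecidablePred p] :
    (univ.filter (fun i : Fin n => p i.val)).card = ((range n).filter p).card := by
  apply card_bij (fun i _ => i.val)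
  · intro i hi
    rw [mem_filter] at hi ⊢
    exact ⟨mem_range.mpr i.isLt, hi.2⟩
  · intro i _ j _ h; exact Fin.ext h
  · intro j hj
    rw [mem_filter, mem_range] at hj
    exact ⟨⟨j, hj.1⟩, by simpa using hj.2, rfl⟩

theorem deg_cut {n : ℕ} {R : ℕ → ℕ} (hR : Stair n R) {v : ℕ} {i : Fin n} (hi : v ≤ i.val) :
    (univ.filter (fun w => (cutG n R v).Adj i w)).card + lb R v i.val = dg R i.val := by
  have h1 : (univ.filter (fun w => (cutG n R v).Adj i w)).card =
      ((range n).filter (fun j => v ≤ j ∧ adj R i.val j)).card := by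
    rw [← card_fin_filter]
    congr 1
    ext w
    simp only [mem_filter, mem_univ, true_and, cutG_adj]
    exact ⟨fun h => h.2, fun h => ⟨hi, h⟩⟩
  have hRi := hR.lt i.val i.isLt
  have h2 : (range n).filter (fun j => v ≤ j ∧ adj R i.val j) =
      ((Ico v i.val).filter (fun j => i.val ≤ R j)) ∪ Ioc i.val (R i.val) := by
    ext j
    simp only [mem_filter, mem_range, mem_union, mem_Ico, mem_Ioc, adj]
    have := i.isLt
    constructor
    · rintro ⟨h3, h4, h5 | h5⟩
      · exact Or.inr h5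
      · exact Or.inl ⟨⟨h4, h5.1⟩, h5.2⟩
    · rintro (⟨⟨h3, h4⟩, h5⟩ | ⟨h3, h4⟩)
      · exact ⟨by omega, h3, Or.inr ⟨h4, h5⟩⟩
      · exact ⟨by omega, by omega, Or.inl ⟨h3, h4⟩⟩
  have h3 : Disjoint ((Ico v i.val).filter (fun j => i.val ≤ R j)) (Ioc i.val (R i.val)) := by
    rw [disjoint_left]
    intro j h4 h5
    rw [mem_filter, mem_Ico] at h4
    rw [mem_Ioc] at h5
    omega
  have h4 : (range i.val).filter (fun j => i.val ≤ R j) =
      ((range v).filter (fun j => i.val ≤ R j)) ∪
        ((Ico v i.val).filter (fun j => i.val ≤ R j)) := by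
    ext j
    simp only [mem_filter, mem_range, mem_union, mem_Ico]
    constructor
    · rintro ⟨h5, h6⟩
      by_cases h7 : j < v
      · exact Or.inl ⟨h7, h6⟩
      · exact Or.inr ⟨⟨by omega, h5⟩, h6⟩
    · rintro (⟨h5, h6⟩ | ⟨h5, h6⟩)
      · exact ⟨by omega, h6⟩
      · exact ⟨h5.2, h6⟩
  have h5 : Disjoint ((range v).filter (fun j => i.val ≤ R j))
      ((Ico v i.val).filter (fun j => i.val ≤ R j)) := by
    rw [disjoint_left]
    intro j h6 h7
    rw [mem_filter, mem_range] at h6
    rw [mem_filter, mem_Ico] at h7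
    omega
  rw [h1, h2, card_union_of_disjoint h3, Nat.card_Ioc]
  unfold dg lf rt lb
  rw [h4, card_union_of_disjoint h5]
  omega

theorem card_tok_state {k n : ℕ} {R : ℕ → ℕ} (h : Hyp k n R) {v : ℕ}
    (s : Col (cutG n R v) (Fin (2 * k))) {i : Fin n} (hi : v ≤ i.val)
    (hP : (s.P i).card = df k R i.val) : (s.tok i).card = lb R v i.val := by
  have h1 := s.card_tok i
  have h2 := deg_cut h.st hi
  have h3 := h.deg i.val i.isLt
  rw [hP, Fintype.card_fin] at h1
  unfold df at h1
  omega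

theorem lb_succ (R : ℕ → ℕ) (v i : ℕ) :
    lb R (v + 1) i = lb R v i + if i ≤ R v then 1 else 0 := by
  unfold lb
  rw [range_add_one, filter_insert]
  split_ifs with h
  · rw [card_insert_of_notMem (by simp)]
  · rfl

theorem lb_le {k n : ℕ} {R : ℕ → ℕ} (h : Hyp k n R) {v i : ℕ} (hvi : v < i) (hi : i < n) :
    lb R (v + 1) i ≤ lf R v + 1 := by
  rw [lb_succ]
  have h1 : lb R v i ≤ lf R v := by
    unfold lb lf
    apply card_le_card
    intro j hj
    rw [mem_filter, mem_range] at hj ⊢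
    exact ⟨hj.1, by omega⟩
  split_ifs <;> omega

theorem lb_eq_zero {k n : ℕ} {R : ℕ → ℕ} (h : Hyp k n R) {v i : ℕ} (hv : v < n)
    (hi : R v < i) : lb R (v + 1) i = 0 := by
  unfold lb
  rw [card_eq_zero, filter_eq_empty_iff]
  intro j hj h'
  rw [mem_range] at hj
  have := h.st.mono j v (by omega) hv
  omega

/-- The right neighbours of `v`. -/
def nbr (n : ℕ) (R : ℕ → ℕ) (v : ℕ) : Finset (Fin n) :=
  univ.filter (fun i => v < i.val ∧ i.val ≤ R v)

theorem card_nbr {k n : ℕ} {R : ℕ → ℕ} (h : Hyp k n R) {v : ℕ} (hv : v < n) :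
    (nbr n R v).card = rt R v := by
  unfold nbr rt
  rw [card_fin_filter n (fun i => v < i ∧ i ≤ R v)]
  have : (range n).filter (fun i => v < i ∧ i ≤ R v) = Ioc v (R v) := by
    ext i
    rw [mem_filter, mem_range, mem_Ioc]
    have := h.st.lt v hv
    constructor
    · exact fun h => h.2
    · exact fun h => ⟨by omega, h⟩
  rw [this, Nat.card_Ioc]

theorem sum_lb {k n : ℕ} {R : ℕ → ℕ} (h : Hyp k n R) {v : ℕ} (hv : v < n) :
    ∑ i ∈ nbr n R v, lb R (v + 1) i.val = XX R (v + 1) := by
  unfold XX lb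
  have h1 : ∀ i : Fin n, ((range (v + 1)).filter (fun j => i.val ≤ R j)).card =
      ∑ j ∈ range (v + 1), if i.val ≤ R j then 1 else 0 := by
    intro i; rw [card_filter]
  rw [sum_congr rfl (fun i _ => h1 i), sum_comm]
  apply sum_congr rfl
  intro j hj
  rw [mem_range] at hj
  have hjR := h.st.mono j v (by omega) hv
  have hjR' := h.st.lt j (by omega)
  rw [← card_filter]
  have h2 : (nbr n R v).filter (fun i => i.val ≤ R j) =
      univ.filter (fun i : Fin n => v < i.val ∧ i.val ≤ R j) := by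
    unfold nbr
    ext i
    simp only [mem_filter, mem_univ, true_and]
    constructor
    · rintro ⟨⟨h3, h4⟩, h5⟩; exact ⟨h3, h5⟩
    · rintro ⟨h3, h4⟩; exact ⟨⟨h3, by omega⟩, h4⟩
  rw [h2, card_fin_filter n (fun i => v < i ∧ i ≤ R j)]
  have : (range n).filter (fun i => v < i ∧ i ≤ R j) = Ioc v (R j) := by
    ext i
    rw [mem_filter, mem_range, mem_Ioc]
    constructor
    · exact fun h => h.2
    · exact fun h => ⟨by omega, h⟩
  rw [this, Nat.card_Ioc]
  omega

/-- Vertices without tokens do not matter for the parities. -/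
theorem odd_eq_of_subset {V C : Type*} [Fintype V] [Fintype C] {H : SimpleGraph V}
    (s : Col H C) {K L : Finset V} (hKL : K ⊆ L) (h : ∀ i ∈ L, i ∉ K → s.tok i = ∅) :
    s.odd L = s.odd K := by
  ext c
  rw [Col.mem_odd, Col.mem_odd]
  have : L.filter (fun i => c ∈ s.tok i) = K.filter (fun i => c ∈ s.tok i) := by
    ext i
    rw [mem_filter, mem_filter]
    constructor
    · rintro ⟨h1, h2⟩
      refine ⟨?_, h2⟩
      by_contra h3
      rw [h i h1 h3] at h2
      exact absurd h2 (notMem_empty c)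
    · rintro ⟨h1, h2⟩; exact ⟨hKL h1, h2⟩
  unfold Col.cnt
  rw [this]

theorem cutG_succ {k n : ℕ} {R : ℕ → ℕ} (h : Hyp k n R) (x : Fin n) (a b : Fin n) :
    (cutG n R x.val).Adj a b ↔ (cutG n R (x.val + 1)).Adj a b ∨
      (a = x ∧ b ∈ nbr n R x.val) ∨ (b = x ∧ a ∈ nbr n R x.val) := by
  simp only [cutG_adj, nbr, mem_filter, mem_univ, true_and, adj]
  constructor
  · rintro ⟨h1, h2, h3⟩
    by_cases ha : a = x
    · subst ha
      rcases h3 with h3 | h3
      · exact Or.inr (Or.inl ⟨rfl, h3⟩)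
      · omega
    · by_cases hb : b = x
      · subst hb
        rcases h3 with h3 | h3
        · omega
        · exact Or.inr (Or.inr ⟨rfl, h3⟩)
      · left
        have ha' : a.val ≠ x.val := fun e => ha (Fin.ext e)
        have hb' : b.val ≠ x.val := fun e => hb (Fin.ext e)
        exact ⟨by omega, by omega, h3⟩
  · rintro (⟨h1, h2, h3⟩ | ⟨h1, h2⟩ | ⟨h1, h2⟩)
    · exact ⟨by omega, by omega, h3⟩
    · subst h1; exact ⟨le_rfl, by omega, Or.inl h2⟩
    · subst h1; exact ⟨by omega, le_rfl, Or.inr h2⟩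

theorem state_last {k n : ℕ} {R : ℕ → ℕ} (h : Hyp k n R) : St k n R n 0 := by
  have hk := h.hk
  have hno : ∀ i j, ¬ (cutG n R n).Adj i j := by
    intro i j hij
    have := i.isLt
    have := hij.1
    omega
  refine ⟨⟨fun _ _ => ⟨0, by omega⟩, fun _ _ _ => rfl, fun u v _ huv => absurd huv (hno u v),
    fun _ => ∅, fun u v huv => absurd huv (hno u v)⟩, fun _ _ => by simp, fun i hi => ?_, ?_⟩
  · have := i.isLt; omega
  · have : rgt n n = ∅ := by
      unfold rgt
      rw [filter_eq_empty_iff]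
      intro i _ hi
      have := i.isLt; omega
    rw [this]
    unfold Col.odd Col.cnt
    simp

theorem state_step {k n : ℕ} {R : ℕ → ℕ} (h : Hyp k n R) {v t : ℕ} (hv : v < n)
    (ht : INV k n R (v + 1) t) (hs : St k n R (v + 1) t) :
    ∃ τ, INV k n R v τ ∧ St k n R v τ := by
  obtain ⟨s, hP0, hPd, hodd⟩ := hs
  obtain ⟨τ, α, β, hτ, hd, hcount, hstar, hp0, hβ, hα⟩ := h.INV_step hv ht
  refine ⟨τ, hτ, ?_⟩
  set x : Fin n := ⟨v, hv⟩ with hx
  set K := nbr n R v with hKdef
  have hmemK : ∀ i : Fin n, i ∈ K ↔ v < i.val ∧ i.val ≤ R v := by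
    intro i; rw [hKdef, nbr, mem_filter]; simp
  have hxK : x ∉ K := by rw [hmemK]; simp [hx]
  have hK : ∀ a ∈ K, ∀ b ∈ K, a ≠ b → (cutG n R (v + 1)).Adj a b := by
    intro a ha b hb hab
    rw [hmemK] at ha hb
    have hab' : a.val ≠ b.val := fun e => hab (Fin.ext e)
    refine ⟨by omega, by omega, ?_⟩
    have h1 := h.st.mono v a.val (by omega) a.isLt
    have h2 := h.st.mono v b.val (by omega) b.isLt
    unfold adj
    omega
  have hiso : ∀ w, ¬ (cutG n R (v + 1)).Adj x w := by
    intro w hw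
    have := hw.1
    simp only [hx] at this
    omega
  have hPx : s.P x = ∅ := card_eq_zero.mp (hP0 x (by simp [hx]))
  have htok : ∀ i : Fin n, v + 1 ≤ i.val → (s.tok i).card = lb R (v + 1) i.val :=
    fun i hi => card_tok_state h s hi (hPd i hi)
  have htokK : ∀ i ∈ K, (s.tok i).card = lb R (v + 1) i.val := by
    intro i hi
    rw [hmemK] at hi
    exact htok i (by omega)
  have hsum : ∑ i ∈ K, (s.tok i).card = XX R (v + 1) := by
    rw [sum_congr rfl htokK, hKdef, sum_lb h hv]
  have hoddK : s.odd (rgt n (v + 1)) = s.odd K := by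
    apply odd_eq_of_subset
    · intro i hi
      rw [hmemK] at hi
      rw [rgt, mem_filter]
      exact ⟨mem_univ _, by omega⟩
    · intro i hi hiK
      rw [rgt, mem_filter] at hi
      rw [hmemK] at hiK
      rw [← card_eq_zero, htok i hi.2, lb_eq_zero h hv (by omega)]
  rw [hoddK] at hodd
  have hcardK : K.card = rt R v := card_nbr h hv
  have hdeg := h.deg v hv
  have hdfdef : df k R v = 2 * k - dg R v := rfl
  have hdg : dg R v = lf R v + rt R v := rfl
  have hcC : Fintype.card (Fin (2 * k)) = 2 * k := Fintype.card_fin _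
  obtain ⟨s', m1, m2, m3⟩ := Col.insert_reserve2 (H' := cutG n R v) s hxK hK
    (cutG_succ h x) hiso hPx
    (fun i hi => by
      rw [htokK i hi, lb_succ]
      rw [hmemK] at hi
      rw [if_pos hi.2]; omega)
    (lf R v) α β
    (fun i hi => by
      rw [htokK i hi]
      rw [hmemK] at hi
      exact lb_le h hi.1 i.isLt)
    (by rw [hcardK, hcC]; omega)
    (by rw [hcardK, hsum, hodd]; omega)
    (by rw [hsum, hodd]; exact hp0)
    (by rw [hodd, hcC, hcardK]; exact hβ)
    (by rw [hsum, hodd, hcC, hcardK]; exact hα)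
  refine ⟨s', ?_, ?_, ?_⟩
  · intro i hi
    have : i ≠ x := fun e => by rw [e] at hi; simp [hx] at hi
    rw [m1 i this]
    exact hP0 i (by omega)
  · intro i hi
    by_cases hix : i = x
    · rw [hix, m2, hx, hd]
    · have : i.val ≠ v := fun e => hix (Fin.ext e)
      rw [m1 i hix]
      exact hPd i (by omega)
  · have hP' : ∀ i : Fin n, v ≤ i.val → (s'.P i).card = df k R i.val := by
      intro i hi
      by_cases hix : i = x
      · rw [hix, m2, hx, hd]
      · have : i.val ≠ v := fun e => hix (Fin.ext e)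
        rw [m1 i hix]
        exact hPd i (by omega)
    have hodd' : s'.odd (rgt n v) = s'.odd (insert x K) := by
      apply odd_eq_of_subset
      · intro i hi
        rw [mem_insert, hmemK] at hi
        rw [rgt, mem_filter]
        refine ⟨mem_univ _, ?_⟩
        rcases hi with hi | hi
        · rw [hi]
        · omega
      · intro i hi hiK
        rw [rgt, mem_filter] at hi
        rw [mem_insert, hmemK] at hiK
        push Not at hiK
        have h1 : i.val ≠ v := fun e => hiK.1 (Fin.ext e)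
        rw [← card_eq_zero, card_tok_state h s' hi.2 (hP' i hi.2)]
        have h2 := lb_eq_zero h hv (hiK.2 (by omega))
        rw [lb_succ] at h2
        omega
    have m3' : (s'.odd (insert x K)).card + (s.odd K).card + α =
        Fintype.card (Fin (2 * k)) + β := by
      rw [← m3]
      congr
      exact Subsingleton.elim _ _
    rw [hodd']
    rw [hodd, hcC] at m3'
    omega

theorem states {k n : ℕ} {R : ℕ → ℕ} (h : Hyp k n R) :
    ∀ m, m ≤ n → ∃ t, INV k n R (n - m) t ∧ St k n R (n - m) t := by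
  intro m
  induction m with
  | zero => intro _; exact ⟨0, by simpa using h.INV_last, by simpa using state_last h⟩
  | succ m ih =>
    intro hm
    obtain ⟨t, h1, h2⟩ := ih (by omega)
    have e : n - m = (n - (m + 1)) + 1 := by omega
    rw [e] at h1 h2
    exact state_step h (by omega) h1 h2

theorem mainStatement : MainStatement := by
  intro k n R hk hst hdeg hwin
  have h : Hyp k n R := ⟨hk, hst, hdeg, hwin⟩
  obtain ⟨t, _, s, _, _, _⟩ := states h n le_rfl
  have e : n - n = 0 := Nat.sub_self n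
  rw [e] at s
  refine ⟨fun i j => if hij : i < n ∧ j < n ∧ adj R i j then
      (s.col ⟨i, hij.1⟩ ⟨j, hij.2.1⟩).val else 0, ?_, ?_, ?_⟩
  · intro i j
    by_cases hij : i < n ∧ j < n ∧ adj R i j
    · have hji : j < n ∧ i < n ∧ adj R j i := ⟨hij.2.1, hij.1, hij.2.2.symm⟩
      simp only [dif_pos hij, dif_pos hji]
      rw [s.symm ⟨i, hij.1⟩ ⟨j, hij.2.1⟩ ⟨Nat.zero_le _, Nat.zero_le _, hij.2.2⟩]
    · have hji : ¬ (j < n ∧ i < n ∧ adj R j i) :=
        fun h' => hij ⟨h'.2.1, h'.1, h'.2.2.symm⟩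
      simp only [dif_neg hij, dif_neg hji]
  · intro i j hi hj hij
    simp only [dif_pos (show i < n ∧ j < n ∧ adj R i j from ⟨hi, hj, hij⟩)]
    exact (s.col ⟨i, hi⟩ ⟨j, hj⟩).isLt
  · intro i j l hi hj hl hij hil hjl heq
    simp only [dif_pos (show i < n ∧ j < n ∧ adj R i j from ⟨hi, hj, hij⟩),
      dif_pos (show i < n ∧ l < n ∧ adj R i l from ⟨hi, hl, hil⟩)] at heq
    have := s.proper ⟨i, hi⟩ ⟨j, hj⟩ ⟨l, hl⟩ ⟨Nat.zero_le _, Nat.zero_le _, hij⟩
      ⟨Nat.zero_le _, Nat.zero_le _, hil⟩ (Fin.ext heq)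
    exact hjl (congrArg Fin.val this)

end

end Pool.Agent.Lib.P3f3a3b
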