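import Pool.Agent.Lib.P3f3a3b.Reduction

/-!
The reduction of `Reduction.lean` for vertex types in any universe.
-/

set_option autoImplicit false
set_option linter.unusedSectionVars false
set_option linter.unusedVariables false

namespace Pool.Agent.Lib.P3f3a3b.U

open Finset Pool.Agent.Lib.P3f3a3b

universe u

/-- The interval property of an indifference order. -/
theorem interval_of_cliques {V : Type u} [Fintype V] [DecidableEq V] (G : SimpleGraph V)
    (f : V → ℕ) (hf : Function.Injective f)
    (hcl : ∀ S : Finset V, G.IsClique (S : Set V) →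
          (∀ T : Finset V, G.IsClique (T : Set V) → S ⊆ T → T = S) →
          ∀ u ∈ S, ∀ w ∈ S, ∀ x : V, f u ≤ f x → f x ≤ f w → x ∈ S)
    (u x w : V) (h : G.Adj u w) (h1 : f u < f x) (h2 : f x < f w) : G.Adj u x ∧ G.Adj x w := by
  classical
  let C : Finset (Finset V) := univ.filter (fun S => G.IsClique (S : Set V) ∧ u ∈ S ∧ w ∈ S)
  have hne : ({u, w} : Finset V) ∈ C := by
    simp only [C, mem_filter, mem_univ, true_and]
    refine ⟨?_, by simp, by simp⟩
    intro a ha b hb hab
    simp only [coe_insert, coe_singleton, Set.mem_insert_iff, Set.mem_singleton_iff] at ha hb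
    rcases ha with rfl | rfl <;> rcases hb with rfl | rfl
    · exact absurd rfl hab
    · exact h
    · exact h.symm
    · exact absurd rfl hab
  obtain ⟨S, hS, hmax⟩ := Finset.exists_max_image C (fun S => S.card) ⟨_, hne⟩
  simp only [C, mem_filter, mem_univ, true_and] at hS
  obtain ⟨hS1, hSu, hSw⟩ := hS
  have hSmax : ∀ T : Finset V, G.IsClique (T : Set V) → S ⊆ T → T = S := by
    intro T hT hST
    have hTC : T ∈ C := by
      simp only [C, mem_filter, mem_univ, true_and]
      exact ⟨hT, hST hSu, hST hSw⟩
    exact (Finset.eq_of_subset_of_card_le hST (hmax T hTC)).symm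
  have hx : x ∈ S := hcl S hS1 hSmax u hSu w hSw x h1.le h2.le
  constructor
  · exact hS1 (by exact_mod_cast hSu) (by exact_mod_cast hx) (fun e => by rw [e] at h1; exact lt_irrefl _ h1)
  · exact hS1 (by exact_mod_cast hx) (by exact_mod_cast hSw) (fun e => by rw [e] at h2; exact lt_irrefl _ h2)

/-- An indifference graph is given by a stair. -/
theorem exists_stair {V : Type u} [Fintype V] [DecidableEq V] (G : SimpleGraph V)
    (f : V → ℕ) (hf : Function.Injective f)
    (hcl : ∀ S : Finset V, G.IsClique (S : Set V) →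
          (∀ T : Finset V, G.IsClique (T : Set V) → S ⊆ T → T = S) →
          ∀ u ∈ S, ∀ w ∈ S, ∀ x : V, f u ≤ f x → f x ≤ f w → x ∈ S) :
    ∃ (R : ℕ → ℕ) (e : V ≃ Fin (Fintype.card V)), Stair (Fintype.card V) R ∧
      ∀ u v : V, G.Adj u v ↔ adj R (e u) (e v) := by
  classical
  let _ : LinearOrder V := LinearOrder.lift' f hf
  have hlt : ∀ u v : V, u < v ↔ f u < f v := fun u v => Iff.rfl
  let e' : Fin (Fintype.card V) ≃o V := Fintype.orderIsoFinOfCardEq V rfl
  let e : V ≃ Fin (Fintype.card V) := e'.symm.toEquiv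
  have he : ∀ u v : V, ((e u : ℕ) < (e v : ℕ)) ↔ f u < f v := by
    intro u v
    rw [← hlt, ← e'.symm.lt_iff_lt]
    rfl
  let A : ℕ → ℕ → Prop := fun i j => ∃ u v : V, (e u : ℕ) = i ∧ (e v : ℕ) = j ∧ G.Adj u v
  have hinj : ∀ u v : V, (e u : ℕ) = (e v : ℕ) → u = v := fun u v h => e.injective (Fin.ext h)
  obtain ⟨R, hR, hRA⟩ := stair_of_rel (Fintype.card V) A
    (by
      rintro i j ⟨u, v, rfl, rfl, _⟩
      exact ⟨(e u).2, (e v).2⟩)
    (by
      rintro i j ⟨u, v, hu, hv, h⟩
      exact ⟨v, u, hv, hu, h.symm⟩)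
    (by
      rintro i ⟨u, v, hu, hv, h⟩
      have := hinj u v (by omega)
      exact G.loopless.irrefl u (by rw [← this] at h; exact h))
    (by
      rintro i j l ⟨u, w, rfl, rfl, h⟩ hij hjl
      have hj : j < Fintype.card V := hjl.trans (e w).2
      obtain ⟨x, hx⟩ : ∃ x : V, (e x : ℕ) = j := ⟨e.symm ⟨j, hj⟩, by simp⟩
      subst hx
      obtain ⟨h1, h2⟩ := interval_of_cliques G f hf hcl u x w h ((he _ _).mp hij) ((he _ _).mp hjl)
      exact ⟨⟨u, x, rfl, rfl, h1⟩, ⟨x, w, rfl, rfl, h2⟩⟩)
  refine ⟨R, e, hR, ?_⟩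
  intro u v
  rw [← hRA _ _ (e u).2 (e v).2]
  constructor
  · intro h; exact ⟨u, v, rfl, rfl, h⟩
  · rintro ⟨u', v', hu, hv, h⟩
    rw [← hinj _ _ hu, ← hinj _ _ hv]; exact h

section transfer

variable {V : Type u} [Fintype V] [DecidableEq V] (G : SimpleGraph V) [DecidableRel G.Adj]
  {R : ℕ → ℕ} (e : V ≃ Fin (Fintype.card V))

open Classical in
theorem card_filter_transfer (P : V → Prop) (Q : ℕ → Prop) (h : ∀ v, P v ↔ Q (e v)) :
    (univ.filter P).card = ((range (Fintype.card V)).filter Q).card := by
  apply Finset.card_bij (fun v _ => (e v : ℕ))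
  · intro v hv
    simp only [mem_filter, mem_univ, true_and, mem_range] at hv ⊢
    exact ⟨(e v).2, (h v).mp hv⟩
  · intro v _ v' _ hvv
    exact e.injective (Fin.ext hvv)
  · intro j hj
    simp only [mem_filter, mem_range] at hj
    refine ⟨e.symm ⟨j, hj.1⟩, ?_, by simp⟩
    simp only [mem_filter, mem_univ, true_and]
    rw [h]
    simpa using hj.2

open Classical in
theorem sum_transfer (hadj : ∀ u v : V, G.Adj u v ↔ adj R (e u) (e v)) (S : Finset V)
    (W : Finset ℕ) (hSW : ∀ v, v ∈ S ↔ (e v : ℕ) ∈ W) (hW : ∀ j ∈ W, j < Fintype.card V) :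
    ∑ x ∈ S, (S.filter (fun z => G.Adj x z)).card =
      ((W ×ˢ W).filter (fun p => adj R p.1 p.2)).card := by
  have hWm : W = S.image (fun v => (e v : ℕ)) := by
    ext j
    simp only [mem_image]
    constructor
    · intro hj
      refine ⟨e.symm ⟨j, hW j hj⟩, ?_, by simp⟩
      rw [hSW]; simpa using hj
    · rintro ⟨v, hv, rfl⟩
      exact (hSW v).mp hv
  have hinj : Set.InjOn (fun v => (e v : ℕ)) (S : Set V) := fun u _ v _ h => e.injective (Fin.ext h)
  rw [card_filter, sum_product, hWm, sum_image hinj]
  refine sum_congr rfl fun x _ => ?_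
  rw [card_filter, sum_image hinj]
  refine sum_congr rfl fun y _ => ?_
  simp only [hadj]

end transfer

theorem reduction (hmain : MainStatement) :
    ∀ (V : Type u) [Fintype V] [DecidableEq V] (G : SimpleGraph V) [DecidableRel G.Adj],
      (∃ f : V → ℕ, Function.Injective f ∧
        ∀ S : Finset V, G.IsClique (S : Set V) →
          (∀ T : Finset V, G.IsClique (T : Set V) → S ⊆ T → T = S) →
          ∀ u ∈ S, ∀ w ∈ S, ∀ x : V, f u ≤ f x → f x ≤ f w → x ∈ S) →
      (¬ ∃ c : V → V → ℕ,
          (∀ u v : V, G.Adj u v → c u v = c v u) ∧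
          (∀ u v : V, G.Adj u v →
            c u v < Finset.univ.sup
              (fun y : V => (Finset.univ.filter (fun z : V => G.Adj y z)).card)) ∧
          (∀ u v w : V, G.Adj u v → G.Adj u w → v ≠ w → c u v ≠ c u w)) →
      ∃ v : V,
        (∃ x : V, (x = v ∨ G.Adj v x) ∧
          ((Finset.univ.filter (fun y : V => y = v ∨ G.Adj v y)).filter
              (fun z : V => G.Adj x z)).card
            = Finset.univ.sup
              (fun y : V => (Finset.univ.filter (fun z : V => G.Adj y z)).card)) ∧
        (∑ x ∈ Finset.univ.filter (fun y : V => y = v ∨ G.Adj v y),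
            ((Finset.univ.filter (fun y : V => y = v ∨ G.Adj v y)).filter
              (fun z : V => G.Adj x z)).card)
          > 2 * Finset.univ.sup
                (fun y : V => (Finset.univ.filter (fun z : V => G.Adj y z)).card)
              * ((Finset.univ.filter (fun y : V => y = v ∨ G.Adj v y)).card / 2) := by
  classical
  intro V _ _ G _ hf hnc
  obtain ⟨f, hfi, hcl⟩ := hf
  obtain ⟨R, e, hR, hadj⟩ := exists_stair G f hfi hcl
  set Δ := Finset.univ.sup (fun y : V => (Finset.univ.filter (fun z : V => G.Adj y z)).card)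
    with hΔ
  have hdeg : ∀ v : V, (Finset.univ.filter (fun z : V => G.Adj v z)).card = dg R (e v) := by
    intro v
    rw [dg_eq hR (e v).2]
    have h := card_filter_transfer e (fun z => G.Adj v z) (fun j => adj R (e v) j)
      (fun z => hadj v z)
    rw [← h]
    congr 1
    ext z
    simp
  have hdle : ∀ i, i < Fintype.card V → dg R i ≤ Δ := by
    intro i hi
    have h1 := hdeg (e.symm ⟨i, hi⟩)
    simp only [Equiv.apply_symm_apply] at h1
    rw [← h1, hΔ]
    exact Finset.le_sup (f := fun y : V => (Finset.univ.filter (fun z : V => G.Adj y z)).card)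
      (Finset.mem_univ _)
  -- no colouring
  have hnc' : ¬ Colourable (Fintype.card V) R Δ := by
    rintro ⟨c, hc1, hc2, hc3⟩
    apply hnc
    refine ⟨fun u v => c (e u) (e v), fun u v _ => hc1 _ _, ?_, ?_⟩
    · intro u v h
      exact hc2 _ _ (e u).2 (e v).2 ((hadj u v).mp h)
    · intro u v w h1 h2 hvw
      exact hc3 _ _ _ (e u).2 (e v).2 (e w).2 ((hadj u v).mp h1) ((hadj u w).mp h2)
        (fun h => hvw (e.injective (Fin.ext h)))
  by_contra hno
  push Not at hno
  apply hnc'
  rcases Nat.even_or_odd' Δ with ⟨k, hk | hk⟩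
  · -- even maximum degree
    rcases Nat.eq_zero_or_pos k with hk0 | hkpos
    · -- no edges
      have hΔ0 : Δ = 0 := by omega
      have hnoadj : ∀ i j, i < Fintype.card V → j < Fintype.card V → ¬ adj R i j := by
        intro i j hi hj h
        have h1 := hdle i hi
        rw [dg_eq hR hi, hΔ0, Nat.le_zero, card_eq_zero, filter_eq_empty_iff] at h1
        exact h1 (mem_range.mpr hj) h
      exact ⟨fun _ _ => 0, fun _ _ => rfl, fun i j hi hj h => absurd h (hnoadj i j hi hj),
        fun i j l hi hj _ h => absurd h (hnoadj i j hi hj)⟩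
    · rw [hk]
      apply hmain k (Fintype.card V) R hkpos hR (fun i hi => hk ▸ hdle i hi)
      intro i hi hdi
      set v : V := e.symm ⟨i, hi⟩ with hv
      have hev : ((e v : Fin _) : ℕ) = i := by simp [hv]
      have hwin := window_eq hR hi
      set N := Finset.univ.filter (fun y : V => y = v ∨ G.Adj v y) with hN
      have hNW : ∀ y, y ∈ N ↔ (e y : ℕ) ∈ Icc (i - lf R i) (R i) := by
        intro y
        rw [← hwin]
        simp only [hN, mem_filter, mem_univ, true_and, mem_range, (e y).2, hadj, hev]
        constructor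
        · rintro (h | h)
          · left; rw [h]; exact hev
          · right; exact h
        · rintro (h | h)
          · left; exact e.injective (Fin.ext (h.trans hev.symm))
          · right; exact h
      have hsum := sum_transfer G e hadj N (Icc (i - lf R i) (R i)) hNW (by
        intro j hj
        rw [mem_Icc] at hj
        exact lt_of_le_of_lt hj.2 (hR.lt i hi))
      have hcardW : (Icc (i - lf R i) (R i)).card = 2 * k + 1 := by
        rw [Nat.card_Icc]
        have h1 := hR.self i hi
        have h2 := lf_le R i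
        unfold dg rt at hdi
        omega
      have hcardN : N.card = 2 * k + 1 := by
        rw [← hcardW]
        apply Finset.card_bij (fun v _ => (e v : ℕ))
        · intro y hy; exact (hNW y).mp hy
        · intro y _ y' _ h; exact e.injective (Fin.ext h)
        · intro j hj
          have hjn : j < Fintype.card V := by
            rw [mem_Icc] at hj
            exact lt_of_le_of_lt hj.2 (hR.lt i hi)
          refine ⟨e.symm ⟨j, hjn⟩, ?_, by simp⟩
          rw [hNW]; simpa using hj
      have hmaxv : (N.filter (fun z : V => G.Adj v z)).card = Δ := by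
        have h1 : N.filter (fun z : V => G.Adj v z) =
            Finset.univ.filter (fun z : V => G.Adj v z) := by
          ext z
          simp only [hN, mem_filter, mem_univ, true_and]
          tauto
        rw [h1, hdeg v, hev, hdi, hk]
      have hle := hno v ⟨v, Or.inl rfl, hmaxv⟩
      rw [hsum, hcardN, hk] at hle
      have hpairs := sum_pairs R (Icc (i - lf R i) (R i))
      rw [hcardW] at hpairs
      have hdiv : (2 * k + 1) / 2 = k := by omega
      rw [hdiv] at hle
      unfold missing
      have e1 : (2 * k + 1) * (2 * k + 1) = 2 * (2 * k) * k + 4 * k + 1 := by ring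
      rw [e1] at hpairs
      omega
  · -- odd maximum degree
    exact colourable_odd hR Δ (by omega) hdle

end Pool.Agent.Lib.P3f3a3b.U
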