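import Pool.Agent.Lib.P3f3a3b.ChromDefs
import Pool.Agent.Lib.P3f3a3b.ReductionU
import Pool.Agent.Lib.P3f3a3b.Final

/-!
The chromatic index of indifference graphs: proof.
-/

set_option autoImplicit false

namespace Pool.Agent.Lib.P3f3a3b.Chrom

open Finset Pool.Agent.Lib.P3f3a3b

universe u

theorem maxDegree_inst {W : Type u} [Fintype W] (H : SimpleGraph W) (i1 i2 : DecidableRel H.Adj) :
    @SimpleGraph.maxDegree W H _ i1 = @SimpleGraph.maxDegree W H _ i2 := by
  rw [Subsingleton.elim i1 i2]

theorem card_edges_inst {W : Type u} (H : SimpleGraph W) (i1 i2 : Fintype H.edgeSet) :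
    (@SimpleGraph.edgeFinset W H i1).card = (@SimpleGraph.edgeFinset W H i2).card := by
  rw [Subsingleton.elim i1 i2]

theorem overfull_iff {W : Type u} [Fintype W] (H : SimpleGraph W) (i1 : DecidableRel H.Adj)
    (i2 : Fintype H.edgeSet) : Overfull H ↔
      @SimpleGraph.maxDegree W H _ i1 * (Fintype.card W / 2) <
        (@SimpleGraph.edgeFinset W H i2).card := by
  unfold Overfull
  rw [maxDegree_inst H _ i1, card_edges_inst H _ i2]

theorem card_filter_inst {W : Type u} {p : W → Prop} (s : Finset W) (i1 i2 : DecidablePred p) :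
    (@Finset.filter W p i1 s).card = (@Finset.filter W p i2 s).card := by
  rw [Subsingleton.elim i1 i2]

open Classical in
/-- A graph whose line graph has a proper colouring with `d` colours has at most `d⌊n/2⌋`
edges. -/
theorem card_edges_le {W : Type u} [Fintype W] (K : SimpleGraph W) (d : ℕ)
    (h : K.lineGraph.Colorable d) : K.edgeFinset.card ≤ d * (Fintype.card W / 2) := by
  obtain ⟨C⟩ := h
  let col : Sym2 W → ℕ := fun e => if he : e ∈ K.edgeSet then (C ⟨e, he⟩ : ℕ) else 0
  have hcol : ∀ e ∈ K.edgeFinset, col e ∈ range d := by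
    intro e he
    rw [SimpleGraph.mem_edgeFinset] at he
    simp only [col, he, dite_true, mem_range]
    exact (C ⟨e, he⟩).2
  rw [card_eq_sum_card_fiberwise hcol]
  refine (sum_le_card_nsmul _ _ (Fintype.card W / 2) ?_).trans (by simp)
  intro k _
  rw [Nat.le_div_iff_mul_le (by norm_num)]
  set M := K.edgeFinset.filter (fun e => col e = k) with hM
  have hdisj : (M : Set (Sym2 W)).PairwiseDisjoint (fun e => e.toFinset) := by
    intro e he f hf hef
    simp only [hM, coe_filter, Set.mem_ofPred_eq, SimpleGraph.mem_edgeFinset] at he hf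
    rw [Function.onFun, disjoint_left]
    intro v hve hvf
    rw [Sym2.mem_toFinset] at hve hvf
    have hadj : K.lineGraph.Adj ⟨e, he.1⟩ ⟨f, hf.1⟩ := by
      rw [SimpleGraph.lineGraph_adj_iff_exists]
      exact ⟨fun h => hef (congrArg Subtype.val h), v, hve, hvf⟩
    have hne := C.valid hadj
    apply hne
    have h1 : col e = (C ⟨e, he.1⟩ : ℕ) := by simp only [col, he.1, dite_true]
    have h2 : col f = (C ⟨f, hf.1⟩ : ℕ) := by simp only [col, hf.1, dite_true]
    exact Fin.ext (by rw [← h1, ← h2, he.2, hf.2])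
  have hcard : ∑ e ∈ M, e.toFinset.card = M.card * 2 := by
    rw [sum_const_nat]
    intro e he
    simp only [hM, mem_filter, SimpleGraph.mem_edgeFinset] at he
    exact Sym2.card_toFinset_of_not_isDiag e (K.not_isDiag_of_mem_edgeSet he.1)
  rw [← hcard, ← card_biUnion hdisj]
  exact card_le_univ _

open Classical in
/-- The number of colours of a proper edge colouring is at least the maximum degree. -/
theorem maxDegree_le {V : Type u} [Fintype V] (G : SimpleGraph V) (d : ℕ)
    (h : G.lineGraph.Colorable d) : G.maxDegree ≤ d := by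
  obtain ⟨C⟩ := h
  refine SimpleGraph.maxDegree_le_of_forall_degree_le _ _ fun v => ?_
  rw [← SimpleGraph.card_neighborFinset_eq_degree]
  have hmem : ∀ w ∈ G.neighborFinset v, s(v, w) ∈ G.edgeSet := by
    intro w hw
    simpa using hw
  calc (G.neighborFinset v).card = (G.neighborFinset v).attach.card := by simp
    _ ≤ (univ : Finset (Fin d)).card := by
        refine card_le_card_of_injOn (fun w => C ⟨s(v, w.1), hmem w.1 w.2⟩) (by simp) ?_
        intro w _ w' _ heq
        by_contra hne
        have hadj : G.lineGraph.Adj ⟨s(v, w.1), hmem w.1 w.2⟩ ⟨s(v, w'.1), hmem w'.1 w'.2⟩ := by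
          rw [SimpleGraph.lineGraph_adj_iff_exists]
          refine ⟨fun h => hne ?_, v, by simp, by simp⟩
          have := congrArg Subtype.val h
          simp only [Sym2.eq_iff, true_and] at this
          rcases this with h | ⟨h1, h2⟩
          · exact Subtype.ext h
          · exact Subtype.ext (h2.trans h1)
        exact C.valid hadj heq
    _ = d := by simp

/-- A symmetric function of two vertices gives a colouring of the line graph. -/
theorem colorable_of_fun {V : Type u} (G : SimpleGraph V) (d : ℕ) (c : V → V → ℕ)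
    (h1 : ∀ u v : V, G.Adj u v → c u v = c v u) (h2 : ∀ u v : V, G.Adj u v → c u v < d)
    (h3 : ∀ u v w : V, G.Adj u v → G.Adj u w → v ≠ w → c u v ≠ c u w) :
    G.lineGraph.Colorable d := by
  classical
  have key : ∀ (e : Sym2 V), e ∈ G.edgeSet → ∀ v, v ∈ e → ∃ w, G.Adj v w ∧ e = s(v, w) ∧
      c e.out.1 e.out.2 = c v w := by
    intro e he v hv
    have hout : s(e.out.1, e.out.2) = e := Quot.out_eq e
    have hadj : G.Adj e.out.1 e.out.2 := by
      rw [← SimpleGraph.mem_edgeSet]
      exact hout.symm ▸ he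
    rw [← hout, Sym2.mem_iff] at hv
    rcases hv with rfl | rfl
    · exact ⟨e.out.2, hadj, hout.symm, rfl⟩
    · exact ⟨e.out.1, hadj.symm, by rw [Sym2.eq_swap]; exact hout.symm, h1 _ _ hadj⟩
  refine ⟨SimpleGraph.Coloring.mk (fun e => ⟨c e.1.out.1 e.1.out.2, ?_⟩) ?_⟩
  · obtain ⟨w, hw, _, hc⟩ := key e.1 e.2 e.1.out.1 (Sym2.out_fst_mem _)
    rw [hc]
    exact h2 _ _ hw
  · intro e f hef heq
    rw [SimpleGraph.lineGraph_adj_iff_exists] at hef
    obtain ⟨hne, v, hve, hvf⟩ := hef
    obtain ⟨w, hw, he, hce⟩ := key e.1 e.2 v hve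
    obtain ⟨w', hw', hf, hcf⟩ := key f.1 f.2 v hvf
    have hww : w ≠ w' := by
      intro h
      apply hne
      apply Subtype.ext
      rw [he, hf, h]
    apply h3 v w w' hw hw' hww
    have := congrArg Fin.val heq
    simpa [hce, hcf] using this

open Classical in
/-- An enumeration of the vertices. -/
theorem exists_enum {V : Type u} [Fintype V] (G : SimpleGraph V) (hG : Indifference G) :
    ∃ f : V → ℕ, Function.Injective f ∧
      ∀ S : Finset V, G.IsClique (S : Set V) →
        (∀ T : Finset V, G.IsClique (T : Set V) → S ⊆ T → T = S) →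
        ∀ u ∈ S, ∀ w ∈ S, ∀ x : V, f u ≤ f x → f x ≤ f w → x ∈ S := by
  obtain ⟨lo, h⟩ := hG
  let e := (@Fintype.orderIsoFinOfCardEq V lo _ (Fintype.card V) rfl).symm
  refine ⟨fun v => (e v : ℕ), fun u v huv => e.injective (Fin.ext huv), ?_⟩
  intro S hS hmax u hu w hw x h1 h2
  have hM : Maximal G.IsClique (S : Set V) := by
    refine ⟨hS, fun T hT hST => ?_⟩
    have h3 := hmax T.toFinset (by rwa [Set.coe_toFinset]) (by
      intro y hy
      rw [Set.mem_toFinset]
      exact hST (by exact_mod_cast hy))
    intro y hy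
    rw [← h3]
    simpa using hy
  have h3 : x ∈ (S : Set V) := (h _ hM).out (by exact_mod_cast hu) (by exact_mod_cast hw)
    ⟨e.le_iff_le.mp (by exact_mod_cast h1), e.le_iff_le.mp (by exact_mod_cast h2)⟩
  exact_mod_cast h3

open Classical in
theorem degree_eq {V : Type u} [Fintype V] (G : SimpleGraph V) (v : V) :
    (univ.filter (fun z : V => G.Adj v z)).card = G.degree v := by
  rw [← SimpleGraph.card_neighborFinset_eq_degree]
  congr 1
  ext z
  simp

open Classical in
theorem sup_eq {V : Type u} [Fintype V] (G : SimpleGraph V) :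
    univ.sup (fun y : V => (univ.filter (fun z : V => G.Adj y z)).card) = G.maxDegree := by
  simp only [degree_eq]
  apply le_antisymm
  · exact Finset.sup_le fun v _ => G.degree_le_maxDegree v
  · exact SimpleGraph.maxDegree_le_of_forall_degree_le _ _ fun v =>
      Finset.le_sup (f := fun y => G.degree y) (mem_univ v)

open Classical in
/-- The closed neighbourhood of `v` in terms of finsets. -/
theorem nbhd_of {V : Type u} [Fintype V] (G : SimpleGraph V) (v : V)
    (h1 : ∃ x : V, (x = v ∨ G.Adj v x) ∧
      ((univ.filter (fun y : V => y = v ∨ G.Adj v y)).filter (fun z : V => G.Adj x z)).card =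
        G.maxDegree)
    (h2 : (∑ x ∈ univ.filter (fun y : V => y = v ∨ G.Adj v y),
        ((univ.filter (fun y : V => y = v ∨ G.Adj v y)).filter (fun z : V => G.Adj x z)).card) >
          2 * G.maxDegree * ((univ.filter (fun y : V => y = v ∨ G.Adj v y)).card / 2)) :
    (G.induce (insert v (G.neighborSet v))).maxDegree = G.maxDegree ∧
      Overfull (G.induce (insert v (G.neighborSet v))) := by
  set s : Set V := insert v (G.neighborSet v) with hs
  set S : Finset V := univ.filter (fun y : V => y = v ∨ G.Adj v y) with hS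
  have hmem : ∀ y, y ∈ S ↔ y ∈ s := by
    intro y
    simp [hs, hS]
  have hdeg : ∀ x : s, (G.induce s).degree x = (S.filter (fun z => G.Adj x z)).card := by
    intro x
    rw [← SimpleGraph.card_neighborFinset_eq_degree]
    refine card_bij (fun z _ => z.1) ?_ ?_ ?_
    · intro z hz
      rw [SimpleGraph.mem_neighborFinset] at hz
      rw [mem_filter]
      exact ⟨(hmem _).mpr z.2, hz⟩
    · intro z _ z' _ h
      exact Subtype.ext h
    · intro z hz
      rw [mem_filter] at hz
      refine ⟨⟨z, (hmem _).mp hz.1⟩, ?_, rfl⟩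
      rw [SimpleGraph.mem_neighborFinset]
      exact hz.2
  have hle : ∀ x : s, (G.induce s).degree x ≤ G.maxDegree := by
    intro x
    rw [hdeg]
    refine le_trans ?_ (G.degree_le_maxDegree x)
    rw [← degree_eq]
    exact card_le_card (fun z hz => by
      rw [mem_filter] at hz ⊢
      exact ⟨mem_univ _, hz.2⟩)
  have hmax : (G.induce s).maxDegree = G.maxDegree := by
    apply le_antisymm
    · exact SimpleGraph.maxDegree_le_of_forall_degree_le _ _ hle
    · obtain ⟨x, hx, hx2⟩ := h1
      have hxs : x ∈ s := (hmem x).mp (by simpa [hS] using hx)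
      rw [← hx2, ← hdeg ⟨x, hxs⟩]
      exact SimpleGraph.degree_le_maxDegree _ _
  refine ⟨hmax, ?_⟩
  have hcard : Fintype.card s = S.card := Fintype.card_of_subtype S hmem
  have hsum : ∑ x ∈ S, (S.filter (fun z => G.Adj x z)).card =
      2 * (G.induce s).edgeFinset.card := by
    rw [← SimpleGraph.sum_degrees_eq_twice_card_edges,
      sum_subtype S hmem (fun x => (S.filter (fun z => G.Adj x z)).card)]
    exact sum_congr rfl fun x _ => (hdeg x).symm
  have hfin : (G.induce s).maxDegree * (Fintype.card s / 2) < (G.induce s).edgeFinset.card := by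
    rw [hmax, hcard]
    rw [hsum, gt_iff_lt, mul_assoc] at h2
    exact Nat.lt_of_mul_lt_mul_left h2
  exact (overfull_iff _ _ _).mpr hfin

open Classical in
/-- Colourings with `Δ + 1` colours. -/
theorem colorable_succ {V : Type u} [Fintype V] (G : SimpleGraph V) (hG : Indifference G) :
    G.lineGraph.Colorable (G.maxDegree + 1) := by
  obtain ⟨f, hf, hcl⟩ := exists_enum G hG
  obtain ⟨R, e, hR, hadj⟩ := U.exists_stair G f hf hcl
  have hd : ∀ i, i < Fintype.card V → dg R i ≤ G.maxDegree := by
    intro i hi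
    have h := U.card_filter_transfer e (fun z => G.Adj (e.symm ⟨i, hi⟩) z) (fun j => adj R i j)
      (fun z => by rw [hadj]; simp)
    rw [dg_eq hR hi]
    have h2 := G.degree_le_maxDegree (e.symm ⟨i, hi⟩)
    rw [← degree_eq, h] at h2
    exact (card_filter_inst _ _ _).le.trans h2
  have key : ∀ m, m % 2 = 1 → G.maxDegree ≤ m → G.lineGraph.Colorable m := by
    intro m hm hle
    obtain ⟨c, hc1, hc2, hc3⟩ := colourable_odd hR m hm (fun i hi => (hd i hi).trans hle)
    refine colorable_of_fun G m (fun u v => c (e u) (e v)) (fun u v _ => hc1 _ _) ?_ ?_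
    · intro u v h
      exact hc2 _ _ (e u).2 (e v).2 ((hadj u v).mp h)
    · intro u v w h1 h2 hvw
      exact hc3 _ _ _ (e u).2 (e v).2 (e w).2 ((hadj u v).mp h1) ((hadj u w).mp h2)
        (fun h => hvw (e.injective (Fin.ext h)))
  rcases Nat.mod_two_eq_zero_or_one G.maxDegree with h | h
  · exact key _ (by omega) (by omega)
  · exact (key _ h le_rfl).mono (Nat.le_succ _)

open Classical in
/-- The chromatic index of a finite indifference graph is `Δ + 1` if the graph is
neighbourhood-overfull and `Δ` otherwise. -/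
theorem chrom_index {V : Type u} [Fintype V] (G : SimpleGraph V) (hG : Indifference G) :
    (G.lineGraph.chromaticNumber = G.maxDegree + 1 ↔ NbhdOverfull G) ∧
    (G.lineGraph.chromaticNumber = G.maxDegree ↔ ¬ NbhdOverfull G) := by
  have key1 : ¬ G.lineGraph.Colorable G.maxDegree → NbhdOverfull G := by
    intro h
    have h1 := U.reduction mainStatement V G (exists_enum G hG) (by
      rintro ⟨c, hc1, hc2, hc3⟩
      rw [sup_eq] at hc2
      exact h (colorable_of_fun G _ c hc1 hc2 hc3))
    obtain ⟨v, hv1, hv2⟩ := h1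
    rw [sup_eq] at hv1 hv2
    exact ⟨v, nbhd_of G v hv1 hv2⟩
  have key2 : NbhdOverfull G → ¬ G.lineGraph.Colorable G.maxDegree := by
    rintro ⟨v, h1, h2⟩ h
    have h3 := card_edges_le (G.induce (insert v (G.neighborSet v))) G.maxDegree
      (h.of_hom (SimpleGraph.Embedding.induce _).toCopy.toLineGraphEmbedding.toHom)
    refine Nat.not_le.mpr ?_ h3
    rw [← h1]
    exact (overfull_iff _ _ _).mp h2
  have key3 : G.lineGraph.chromaticNumber = G.maxDegree + 1 ↔ ¬ G.lineGraph.Colorable G.maxDegree := by
    rw [SimpleGraph.chromaticNumber_eq_iff_colorable_not_colorable]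
    exact ⟨fun h => h.2, fun h => ⟨colorable_succ G hG, h⟩⟩
  have key4 : G.lineGraph.chromaticNumber = G.maxDegree ↔ G.lineGraph.Colorable G.maxDegree := by
    constructor
    · intro h
      rw [← SimpleGraph.chromaticNumber_le_iff_colorable, h]
    · intro h
      apply le_antisymm h.chromaticNumber_le
      obtain ⟨m, hm⟩ : ∃ m : ℕ, G.lineGraph.chromaticNumber = m := by
        obtain ⟨m, hm⟩ := ENat.ne_top_iff_exists.mp
          (SimpleGraph.chromaticNumber_ne_top_iff_exists.mpr ⟨_, h⟩)
        exact ⟨m, hm.symm⟩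
      rw [hm]
      exact_mod_cast maxDegree_le G m (SimpleGraph.chromaticNumber_le_iff_colorable.mp hm.le)
  refine ⟨?_, ?_⟩
  · rw [key3]
    exact ⟨key1, key2⟩
  · rw [key4]
    exact ⟨fun h h2 => key2 h2 h, fun h => by_contra fun h2 => h (key1 h2)⟩

end Pool.Agent.Lib.P3f3a3b.Chrom
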