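import Mathlib

/-!
Definitions for the chromatic index of indifference graphs (MP_3f3a3b_co).
-/

set_option autoImplicit false

namespace Pool.Agent.Lib.P3f3a3b.Chrom

universe u

/-- Indifference graphs: in some linear order of the vertices the vertices of each maximal clique
are consecutive. -/
def Indifference {V : Type u} (G : SimpleGraph V) : Prop :=
  ∃ _ : LinearOrder V, ∀ S : Set V, Maximal G.IsClique S → S.OrdConnected

open Classical in
/-- A finite graph with `n` vertices and maximum degree `Δ` is overfull if it has more than
`Δ⌊n/2⌋` edges. -/
def Overfull {W : Type u} [Fintype W] (H : SimpleGraph W) : Prop :=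
  H.maxDegree * (Fintype.card W / 2) < H.edgeFinset.card

open Classical in
/-- The subgraph induced by the closed neighbourhood of some vertex is overfull and its maximum
degree is the maximum degree of the graph. -/
def NbhdOverfull {V : Type u} [Fintype V] (G : SimpleGraph V) : Prop :=
  ∃ v : V, (G.induce (insert v (G.neighborSet v))).maxDegree = G.maxDegree ∧
    Overfull (G.induce (insert v (G.neighborSet v)))

end Pool.Agent.Lib.P3f3a3b.Chrom
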