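import Pool.Agent.Lib.P3f3a3b.StuckBounds

/-!
Control of the numbers of free colours of `x` in the two parity classes.
-/

set_option autoImplicit false
set_option linter.unusedSectionVars false
set_option linter.unusedVariables false

namespace Pool.Agent.Lib.P3f3a3b

open Finset
open scoped Classical

noncomputable section

variable {V C : Type*} [Fintype V] [Fintype C]

namespace MC

theorem sum_cnt (s : MC V C) (K : Finset V) :
    ∑ c, s.cnt K c = ∑ v ∈ K, (s.tok v).card := by
  unfold cnt
  have h1 : ∀ c : C, (K.filter (fun v => c ∈ s.tok v)).card =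
      ∑ v ∈ K, if c ∈ s.tok v then 1 else 0 := fun c => by rw [card_filter]
  rw [sum_congr rfl (fun c _ => h1 c), sum_comm]
  apply sum_congr rfl
  intro v _
  rw [← card_filter]
  congr 1
  ext c; simp

theorem free_add {s : MC V C} {x : V} {K : Finset V} (hs : s.Star x K) :
    s.free x K true + s.free x K false + K.card = Fintype.card C := by
  have h1 := s.card_tok x
  rw [hs.hP, card_empty] at h1
  have h2 : ∑ u ∈ univ.erase x, s.mult x u = K.card := by
    have h3 : K ⊆ univ.erase x := by
      intro u hu
      rw [mem_erase]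
      exact ⟨fun e => hs.hxK (e ▸ hu), mem_univ _⟩
    rw [← sum_subset h3 (fun u hu huK => hs.hx0 u huK (ne_of_mem_erase hu)), card_eq_sum_ones]
    exact sum_congr rfl (fun w hw => hs.hx w hw)
  rw [h2] at h1
  have h4 : s.free x K true + s.free x K false = (s.tok x).card := by
    unfold free cls
    simp only [if_true, Bool.false_eq_true, if_false]
    rw [← card_union_of_disjoint, ← inter_union_distrib_left, union_compl, inter_univ]
    rw [disjoint_left]
    intro c h5 h6
    exact (mem_compl.mp (mem_inter.mp h6).2) (mem_inter.mp h5).2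
  omega

/-- Every free colour of `x` in `Y` and every used colour in `O` has a token on `K`. -/
theorem surplus_nonneg {s : MC V C} {x : V} {K : Finset V} (hs : s.Star x K) :
    s.free x K false + (s.odd (insert x K)).card ≤
      (∑ v ∈ K, (s.tok v).card) + s.free x K true := by
  set O := s.odd (insert x K) with hO
  have h1 : s.free x K true + (O \ s.tok x).card = O.card := by
    unfold free cls
    simp only [if_true]
    rw [inter_comm, ← hO, add_comm]
    exact card_sdiff_add_card_inter O (s.tok x)
  have h2 : ∀ c ∈ (s.tok x ∩ Oᶜ) ∪ (O \ s.tok x), 1 ≤ s.cnt K c := by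
    intro c hc
    rw [mem_union, mem_inter, mem_compl, mem_sdiff, hO, mem_odd, cnt_insert hs.hxK] at hc
    rcases hc with ⟨h3, h4⟩ | ⟨h3, h4⟩
    · rw [if_pos h3, Nat.odd_iff] at h4; omega
    · rw [if_neg h4, Nat.odd_iff] at h3; omega
  have h3 : Disjoint (s.tok x ∩ Oᶜ) (O \ s.tok x) := by
    rw [disjoint_left]
    intro c h5 h6
    exact (mem_sdiff.mp h6).2 (mem_inter.mp h5).1
  have h4 : s.free x K false + (O \ s.tok x).card ≤ ∑ v ∈ K, (s.tok v).card := by
    have e : s.free x K false = (s.tok x ∩ Oᶜ).card := by
      unfold free cls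
      simp only [Bool.false_eq_true, if_false]
      rw [← hO]
    rw [e, ← card_union_of_disjoint h3, ← sum_cnt, card_eq_sum_ones]
    calc ∑ _c ∈ (s.tok x ∩ Oᶜ) ∪ (O \ s.tok x), 1
        ≤ ∑ c ∈ (s.tok x ∩ Oᶜ) ∪ (O \ s.tok x), s.cnt K c := sum_le_sum h2
      _ ≤ ∑ c, s.cnt K c := sum_le_sum_of_subset (subset_univ _)
  omega

theorem Rel.sum_tok {s s' : MC V C} {x : V} {K : Finset V} (h : Rel x K s s') :
    ∑ v ∈ K, (s'.tok v).card = ∑ v ∈ K, (s.tok v).card :=
  sum_congr rfl (fun v _ => h.1.card_tok v)

/-- **Control.** `s` is a colouring in which `x` is joined (by simple edges) exactly to the clique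
`K`; `s.odd (insert x K)` is the class `O`, its complement (of size `t`) the class `Y`. -/
theorem control2 (s : MC V C) {x : V} {K : Finset V} (hxK : x ∉ K)
    (hK : ∀ a ∈ K, ∀ b ∈ K, a ≠ b → s.mult a b = 1)
    (hx : ∀ w ∈ K, s.mult x w = 1) (hx0 : ∀ w, w ∉ K → w ≠ x → s.mult x w = 0)
    (hPx : s.P x = ∅) (p α β t : ℕ) (hp : ∀ v ∈ K, (s.tok v).card ≤ p)
    (hαβ : α + β + p + K.card = Fintype.card C)
    (ht : (s.odd (insert x K)).card + t = Fintype.card C)
    (hstar : K.card + 2 * β ≤ (∑ v ∈ K, (s.tok v).card) + t)
    (hp0 : 1 ≤ p ∨ (β = 0 ∧ (∑ v ∈ K, (s.tok v).card) + K.card = t))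
    (hβ : β = 0 ∨ 2 * β ≤ t + 1 ∨ Fintype.card C + β ≤ 2 * t + α + 2 ∨ β + K.card ≤ t)
    (hα : α = 0 ∨ 2 * α + t ≤ Fintype.card C + 1 ∨
      (2 * t + α ≤ Fintype.card C + β + 2 ∧ α ≤ β + p + 2) ∨
      (∑ v ∈ K, (s.tok v).card) + t + α ≤ Fintype.card C + β + p ∨
      ((∑ v ∈ K, (s.tok v).card) + K.card = t ∧ α + t ≤ Fintype.card C)) :
    ∃ s' : MC V C, Same s s' ∧
      (s'.odd (insert x K)).card = (s.odd (insert x K)).card ∧
      α ≤ (s'.tok x ∩ s'.odd (insert x K)).card ∧
      β ≤ (s'.tok x ∩ (s'.odd (insert x K))ᶜ).card := by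
  have hs : s.Star x K := ⟨hxK, fun a ha b hb hab => (hK a ha b hb hab).ge, hx, hx0, hPx⟩
  have hY : ∀ s' : MC V C, (s'.odd (insert x K))ᶜ.card + (s'.odd (insert x K)).card =
      Fintype.card C := by
    intro s'
    rw [card_compl]
    have := card_le_univ (s'.odd (insert x K))
    omega
  -- the U-step
  have hU : ∀ s', Rel x K s s' → s'.free x K false < β →
      ∃ s'', Rel x K s' s'' ∧ s''.free x K false = s'.free x K false + 1 := by
    intro s' hr hlt
    by_contra hno
    have hst : s'.Stuck x K false := by
      intro s'' h1 h2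
      exact hno ⟨s'', h1, h2⟩
    have hs' := hs.of_rel hr
    have h1 := free_add hs'
    have h2 := surplus_nonneg hs'
    have h3 := hY s'
    have h4 := hr.sum_tok
    have h5 := hr.2
    have hp1 : 1 ≤ p := by omega
    have hOμ : s'.free x K true ≤ (s'.odd (insert x K)).card := by
      unfold free cls
      simp only [if_true]
      exact card_le_card inter_subset_right
    have hsur : s'.free x K false + ((s'.odd (insert x K)).card - s'.free x K true) + 2 ≤
        ∑ v ∈ K, (s'.tok v).card := by omega
    rcases hβ with h | h | h | h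
    · omega
    · have := stuck_U_PL hs' hst (by omega) hsur
      omega
    · have := stuck_U_thm hs' hst (by omega) hsur
        (p := p) (fun v hv => by rw [hr.1.card_tok]; exact hp v hv)
      omega
    · have h6 := card_KC (o := false) hs'
      have h7 : (s'.KC x K false).card ≤ K.card := card_le_card (filter_subset _ _)
      have h8 : (s'.cls x K false).card = (s'.odd (insert x K))ᶜ.card := by
        unfold cls; simp
      omega
  -- the D-step
  have hD : ∀ s', Rel x K s s' → s'.free x K true < α →
      ∃ s'', Rel x K s' s'' ∧ s''.free x K true = s'.free x K true + 1 := by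
    intro s' hr hlt
    by_contra hno
    have hst : s'.Stuck x K true := by
      intro s'' h1 h2
      exact hno ⟨s'', h1, h2⟩
    have hs' := hs.of_rel hr
    have h1 := free_add hs'
    have h2 := surplus_nonneg hs'
    have h3 := hY s'
    have h4 := hr.sum_tok
    have h5 := hr.2
    by_cases hp1 : 1 ≤ p
    · have hN : 2 ≤ s'.free x K false := by omega
      rcases hα with h | h | h | h | h
      · omega
      · have := stuck_D_PL hs' hst hN
        omega
      · have h6 := stuck_D_Z hs' hst hN (p := p)
          (fun v hv => by rw [hr.1.card_tok]; exact hp v hv)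
        set μ := s'.free x K true
        set ν := s'.free x K false
        have h7 : (p : ℤ) + 1 ≤ ((s'.odd (insert x K)).card : ℤ) - μ -
            (((s'.odd (insert x K))ᶜ.card : ℤ) - ν) + 1 := by
          omega
        have h8 : (μ : ℤ) ≤ ν := by omega
        have h9 : (0 : ℤ) < ν := by omega
        have h10 : (ν : ℤ) * (p + 1) ≤ p * μ := le_trans (mul_le_mul_of_nonneg_left h7 h9.le) h6
        have h11 : (p : ℤ) * μ ≤ p * ν := mul_le_mul_of_nonneg_left h8 (by positivity)
        nlinarith
      · omega
      · omega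
    · have hp' : p = 0 := by omega
      have h0 : ∑ v ∈ K, (s.tok v).card = 0 := by
        apply sum_eq_zero
        intro v hv
        have := hp v hv
        omega
      omega
  -- iterate the U-step
  have hU' : ∀ m, ∀ s', Rel x K s s' → s'.free x K false + m = β →
      ∃ s'', Rel x K s s'' ∧ s''.free x K false = β := by
    intro m
    induction m with
    | zero => intro s' hr h; exact ⟨s', hr, h⟩
    | succ m ih =>
      intro s' hr h
      obtain ⟨s'', h1, h2⟩ := hU s' hr (by omega)
      exact ih s'' (hr.trans h1) (by omega)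
  have hD' : ∀ m, ∀ s', Rel x K s s' → s'.free x K true + m = α →
      ∃ s'', Rel x K s s'' ∧ s''.free x K true = α := by
    intro m
    induction m with
    | zero => intro s' hr h; exact ⟨s', hr, h⟩
    | succ m ih =>
      intro s' hr h
      obtain ⟨s'', h1, h2⟩ := hD s' hr (by omega)
      exact ih s'' (hr.trans h1) (by omega)
  have hfin : ∃ s', Rel x K s s' ∧ α ≤ s'.free x K true ∧ β ≤ s'.free x K false := by
    have h0 := free_add hs
    by_cases h1 : s.free x K false < β
    · obtain ⟨s', hr, h2⟩ := hU' (β - s.free x K false) s (Rel.refl x K s) (by omega)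
      have h3 := free_add (hs.of_rel hr)
      exact ⟨s', hr, by omega, by omega⟩
    · by_cases h2 : s.free x K true < α
      · obtain ⟨s', hr, h4⟩ := hD' (α - s.free x K true) s (Rel.refl x K s) (by omega)
        have h3 := free_add (hs.of_rel hr)
        exact ⟨s', hr, by omega, by omega⟩
      · exact ⟨s, Rel.refl x K s, by omega, by omega⟩
  obtain ⟨s', hr, h1, h2⟩ := hfin
  refine ⟨s', hr.1, hr.2, ?_, ?_⟩
  · unfold free cls at h1
    simpa using h1
  · unfold free cls at h2
    simpa using h2

end MC

end

end Pool.Agent.Lib.P3f3a3b
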