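import Mathlib

/-!
Two involutions on a finite set: every orbit of the group they generate has at most two
`ends` (fixed points of one of the two involutions), and an orbit containing a common fixed
point is a singleton.
-/

set_option autoImplicit false

namespace Pool.Agent.Lib.P3f3a3b

variable {V : Type*}

/-- Being in the same orbit of the two maps `f`, `g`. -/
def Conn (f g : V → V) (u v : V) : Prop :=
  Relation.ReflTransGen (fun x y => y = f x ∨ y = g x) u v

theorem Conn.refl (f g : V → V) (u : V) : Conn f g u u := Relation.ReflTransGen.refl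

theorem Conn.trans {f g : V → V} {u v w : V} (h1 : Conn f g u v) (h2 : Conn f g v w) :
    Conn f g u w := Relation.ReflTransGen.trans h1 h2

theorem Conn.left {f g : V → V} {u v : V} (h : Conn f g u v) : Conn f g u (f v) :=
  Relation.ReflTransGen.tail h (Or.inl rfl)

theorem Conn.right {f g : V → V} {u v : V} (h : Conn f g u v) : Conn f g u (g v) :=
  Relation.ReflTransGen.tail h (Or.inr rfl)

theorem Conn.symm {f g : V → V} (hf : Function.Involutive f) (hg : Function.Involutive g)
    {u v : V} (h : Conn f g u v) : Conn f g v u := by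
  induction h with
  | refl => exact Conn.refl f g u
  | @tail b c _ hbc ih =>
    refine Conn.trans ?_ ih
    rcases hbc with h | h
    · have := (Conn.refl f g c).left
      rw [h, hf] at this
      rw [h]; exact this
    · have := (Conn.refl f g c).right
      rw [h, hg] at this
      rw [h]; exact this

/-- The rotation `f ∘ g`. -/
def rot {f g : V → V} (hf : Function.Involutive f) (hg : Function.Involutive g) :
    Equiv.Perm V := (hg.toPerm g).trans (hf.toPerm f)

theorem rot_apply {f g : V → V} (hf : Function.Involutive f) (hg : Function.Involutive g)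
    (v : V) : rot hf hg v = f (g v) := rfl

theorem rot_symm_apply {f g : V → V} (hf : Function.Involutive f) (hg : Function.Involutive g)
    (v : V) : (rot hf hg).symm v = g (f v) := by
  rw [Equiv.symm_apply_eq, rot_apply, hg, hf]

/-- `f (rot^k v) = rot^(-k) (f v)`. -/
theorem f_rot_zpow {f g : V → V} (hf : Function.Involutive f) (hg : Function.Involutive g)
    (k : ℤ) (v : V) : f (((rot hf hg) ^ k) v) = ((rot hf hg) ^ (-k)) (f v) := by
  have key : ∀ w, f (rot hf hg w) = (rot hf hg).symm (f w) := by
    intro w; rw [rot_apply, hf, rot_symm_apply, hf]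
  have key2 : ∀ w, f ((rot hf hg).symm w) = (rot hf hg) (f w) := by
    intro w; rw [rot_apply, rot_symm_apply]
  induction k using Int.induction_on generalizing v with
  | zero => simp
  | succ n ih =>
    rw [zpow_add_one, Equiv.Perm.mul_apply, ih, key, neg_add, zpow_add, Equiv.Perm.mul_apply,
      zpow_neg_one, Equiv.Perm.inv_def]
  | pred n ih =>
    rw [zpow_sub_one, Equiv.Perm.mul_apply, ih, Equiv.Perm.inv_def, key2, neg_sub', zpow_sub,
      Equiv.Perm.mul_apply]
    simp

theorem g_rot_zpow {f g : V → V} (hf : Function.Involutive f) (hg : Function.Involutive g)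
    (k : ℤ) (v : V) : g (((rot hf hg) ^ k) v) = ((rot hf hg) ^ (-k - 1)) (f v) := by
  have h : ∀ w, g w = f (rot hf hg w) := by intro w; rw [rot_apply, hf]
  rw [h, ← Equiv.Perm.mul_apply, ← zpow_one_add, f_rot_zpow hf hg]
  congr 2
  ring_nf

/-- If `f v = v` then the orbit of `v` consists of the `rot^k v`. -/
theorem conn_iff_zpow {f g : V → V} (hf : Function.Involutive f) (hg : Function.Involutive g)
    {v : V} (hv : f v = v) {u : V} (h : Conn f g v u) : ∃ k : ℤ, u = ((rot hf hg) ^ k) v := by
  induction h with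
  | refl => exact ⟨0, by simp⟩
  | tail _ hbc ih =>
    obtain ⟨k, rfl⟩ := ih
    rcases hbc with h | h
    · exact ⟨-k, by rw [h, f_rot_zpow hf hg, hv]⟩
    · exact ⟨-k - 1, by rw [h, g_rot_zpow hf hg, hv]⟩

theorem two_dvd_case {m k l : ℤ} (h : (m ∣ 2 * k ∨ m ∣ 2 * k + 1))
    (h' : (m ∣ 2 * l ∨ m ∣ 2 * l + 1)) : m ∣ k ∨ m ∣ l ∨ m ∣ k - l := by
  rcases Int.even_or_odd m with he | ho
  · have h2m : (2 : ℤ) ∣ m := he.two_dvd
    have hk : m ∣ 2 * k := by
      rcases h with h | h
      · exact h
      · have := dvd_trans h2m h; omega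
    have hl : m ∣ 2 * l := by
      rcases h' with h | h
      · exact h
      · have := dvd_trans h2m h; omega
    obtain ⟨m', rfl⟩ := h2m
    have hk' : m' ∣ k := (mul_dvd_mul_iff_left (by norm_num : (2 : ℤ) ≠ 0)).mp hk
    have hl' : m' ∣ l := (mul_dvd_mul_iff_left (by norm_num : (2 : ℤ) ≠ 0)).mp hl
    obtain ⟨x, rfl⟩ := hk'
    obtain ⟨y, rfl⟩ := hl'
    rcases Int.even_or_odd x with hx | hx
    · left
      obtain ⟨z, hz⟩ := hx
      exact ⟨z, by rw [hz]; ring⟩
    · rcases Int.even_or_odd y with hy | hy
      · right; left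
        obtain ⟨z, hz⟩ := hy
        exact ⟨z, by rw [hz]; ring⟩
      · right; right
        obtain ⟨z, hz⟩ := hx
        obtain ⟨w, hw⟩ := hy
        exact ⟨z - w, by rw [hz, hw]; ring⟩
  · have hc : IsCoprime m 2 := by
      obtain ⟨z, hz⟩ := ho
      exact ⟨1, -z, by rw [hz]; ring⟩
    rcases h with h | h
    · left; exact hc.dvd_of_dvd_mul_left h
    · rcases h' with h' | h'
      · right; left; exact hc.dvd_of_dvd_mul_left h'
      · right; right
        have : m ∣ 2 * (k - l) := by
          have := dvd_sub h h'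
          have h5 : 2 * (k - l) = 2 * k + 1 - (2 * l + 1) := by ring
          rw [h5]; exact this
        exact hc.dvd_of_dvd_mul_left this

/-- An end: a point fixed by one of the two maps. -/
def IsEnd (f g : V → V) (v : V) : Prop := f v = v ∨ g v = v

theorem IsEnd.swap {f g : V → V} {v : V} (h : IsEnd f g v) : IsEnd g f v := Or.symm h

theorem Conn.swap {f g : V → V} {u v : V} (h : Conn f g u v) : Conn g f u v := by
  induction h with
  | refl => exact Conn.refl g f u
  | tail _ hbc ih =>
    rcases hbc with h | h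
    · rw [h]; exact ih.right
    · rw [h]; exact ih.left

private theorem ends_aux {f g : V → V} (hf : Function.Involutive f)
    (hg : Function.Involutive g) {u v w : V} (hv : f v = v) (hu : IsEnd f g u)
    (hw : IsEnd f g w) (hvu : Conn f g v u) (hvw : Conn f g v w) : v = u ∨ v = w ∨ u = w := by
  classical
  obtain ⟨k, rfl⟩ := conn_iff_zpow hf hg hv hvu
  obtain ⟨l, rfl⟩ := conn_iff_zpow hf hg hv hvw
  set τ := rot hf hg with hτ
  -- the set of periods
  have hper : ∃ m : ℤ, ∀ n : ℤ, (τ ^ n) v = v ↔ m ∣ n := by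
    let S : AddSubgroup ℤ :=
      { carrier := {n | (τ ^ n) v = v}
        zero_mem' := by simp
        add_mem' := by
          intro a b ha hb
          simp only [Set.mem_ofPred_eq] at *
          rw [zpow_add, Equiv.Perm.mul_apply, hb, ha]
        neg_mem' := by
          intro a ha
          simp only [Set.mem_ofPred_eq] at *
          rw [zpow_neg, Equiv.Perm.inv_eq_iff_eq, ha] }
    obtain ⟨m, hm⟩ := Int.subgroup_cyclic S
    refine ⟨m, fun n => ?_⟩
    have : (τ ^ n) v = v ↔ n ∈ S := Iff.rfl
    rw [this, hm, ← AddSubgroup.zmultiples_eq_closure, Int.mem_zmultiples_iff]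
  obtain ⟨m, hm⟩ := hper
  have e1 : ∀ n : ℤ, IsEnd f g ((τ ^ n) v) → (m ∣ 2 * n ∨ m ∣ 2 * n + 1) := by
    intro n hn
    rcases hn with h | h
    · left
      rw [hτ, f_rot_zpow hf hg, hv, ← hτ] at h
      rw [← hm]
      have : (τ ^ n) ((τ ^ (-n)) v) = (τ ^ n) ((τ ^ n) v) := by rw [h]
      rw [← Equiv.Perm.mul_apply, ← zpow_add, ← Equiv.Perm.mul_apply, ← zpow_add] at this
      rw [two_mul, ← this]; simp
    · right
      rw [hτ, g_rot_zpow hf hg, hv, ← hτ] at h
      rw [← hm]
      have : (τ ^ (n + 1)) ((τ ^ (-n - 1)) v) = (τ ^ (n + 1)) ((τ ^ n) v) := by rw [h]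
      rw [← Equiv.Perm.mul_apply, ← zpow_add, ← Equiv.Perm.mul_apply, ← zpow_add] at this
      have h3 : (2 * n + 1 : ℤ) = n + 1 + n := by ring
      rw [h3, ← this]
      have h4 : (n + 1 + (-n - 1) : ℤ) = 0 := by ring
      rw [h4]; simp
  rcases two_dvd_case (e1 k hu) (e1 l hw) with h | h | h
  · left; rw [← hm] at h; exact h.symm
  · right; left; rw [← hm] at h; exact h.symm
  · right; right
    rw [← hm] at h
    have : (τ ^ l) ((τ ^ (k - l)) v) = (τ ^ l) v := by rw [h]
    rw [← Equiv.Perm.mul_apply, ← zpow_add] at this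
    rw [← this]; congr 2; ring

/-- An orbit has at most two ends. -/
theorem three_ends {f g : V → V} (hf : Function.Involutive f)
    (hg : Function.Involutive g) {u v w : V} (hv : IsEnd f g v) (hu : IsEnd f g u)
    (hw : IsEnd f g w) (hvu : Conn f g v u) (hvw : Conn f g v w) : v = u ∨ v = w ∨ u = w := by
  rcases hv with h | h
  · exact ends_aux hf hg h hu hw hvu hvw
  · exact ends_aux hg hf h hu.swap hw.swap hvu.swap hvw.swap

/-- A common fixed point is alone in its orbit. -/
theorem conn_of_both {f g : V → V} {u v : V} (h1 : f v = v) (h2 : g v = v)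
    (h : Conn f g v u) : u = v := by
  induction h with
  | refl => rfl
  | tail _ hbc ih =>
    rcases hbc with h | h
    · rw [h, ih, h1]
    · rw [h, ih, h2]

end Pool.Agent.Lib.P3f3a3b
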