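import Pool.Agent.Lib.P3f3a3b.InsertBase
import Pool.Agent.Lib.P3f3a3b.Control2

/-!
Insertion of a new vertex `x` joined to all vertices of the clique `K`, with control of the
numbers of its reserved colours in the two parity classes: the final form.  It follows from the
theorem `MC.control2` about edge colourings of multigraphs.
-/

set_option autoImplicit false
set_option linter.unusedSectionVars false
set_option linter.unusedVariables false

namespace Pool.Agent.Lib.P3f3a3b

open Finset
open scoped Classical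

noncomputable section

variable {V C : Type*} [Fintype V] [Fintype C]
variable {H H' : SimpleGraph V}

namespace Col

/-- The family of involutions of a colouring. -/
def toMC (s : Col H C) : MC V C where
  nb := s.nb
  invol := fun c v => s.nb_invol c v
  P := s.P
  hP := fun v c hc => nb_of_not (fun ⟨w, h1, h2⟩ => s.hP v w h1 (h2 ▸ hc))

theorem tok_toMC (s : Col H C) (v : V) : s.toMC.tok v = s.tok v := by
  ext c
  rw [MC.mem_tok, mem_tok]
  show c ∉ s.P v ∧ s.nb c v = v ↔ _
  rw [nb_eq_self_iff]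
  unfold Used
  push Not
  rfl

theorem cnt_toMC (s : Col H C) (K : Finset V) (c : C) : s.toMC.cnt K c = s.cnt K c := by
  unfold MC.cnt cnt
  simp only [tok_toMC]

theorem odd_toMC (s : Col H C) (K : Finset V) : s.toMC.odd K = s.odd K := by
  unfold MC.odd odd
  simp only [cnt_toMC]

theorem mult_toMC (s : Col H C) {u v : V} (huv : u ≠ v) :
    s.toMC.mult u v = if H.Adj u v then 1 else 0 := by
  unfold MC.mult
  show (univ.filter (fun c => s.nb c u = v)).card = _
  split_ifs with h
  · rw [card_eq_one]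
    refine ⟨s.col u v, ?_⟩
    ext c
    simp only [mem_filter, mem_univ, true_and, mem_singleton]
    constructor
    · intro h1
      by_cases hu : s.Used c u
      · have := (used_adj hu).2
        rw [h1] at this
        exact this.symm
      · rw [nb_of_not hu] at h1
        exact absurd h1 huv
    · intro h1
      exact nb_eq h h1.symm
  · rw [card_eq_zero, filter_eq_empty_iff]
    intro c _ h1
    by_cases hu : s.Used c u
    · have := (used_adj hu).1
      rw [h1] at this
      exact h this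
    · rw [nb_of_not hu] at h1
      exact huv h1

theorem exists_nb {s : Col H C} {m : MC V C} (h : MC.Same s.toMC m) {u v : V}
    (huv : H.Adj u v) : ∃ c, m.nb c u = v := by
  have h1 := h.1 u v huv.ne
  rw [mult_toMC s huv.ne, if_pos huv] at h1
  have h2 : 0 < (univ.filter (fun c => m.nb c u = v)).card := by
    unfold MC.mult at h1; omega
  obtain ⟨c, hc⟩ := card_pos.mp h2
  exact ⟨c, (mem_filter.mp hc).2⟩

theorem nb_unique {s : Col H C} {m : MC V C} (h : MC.Same s.toMC m) {u v : V}
    (huv : H.Adj u v) {c d : C} (hc : m.nb c u = v) (hd : m.nb d u = v) : c = d := by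
  have h1 := h.1 u v huv.ne
  rw [mult_toMC s huv.ne, if_pos huv] at h1
  unfold MC.mult at h1
  obtain ⟨e, he⟩ := card_eq_one.mp h1
  have h2 : c ∈ univ.filter (fun c => m.nb c u = v) := by simp [hc]
  have h3 : d ∈ univ.filter (fun c => m.nb c u = v) := by simp [hd]
  rw [he, mem_singleton] at h2 h3
  rw [h2, h3]

theorem adj_of_nb {s : Col H C} {m : MC V C} (h : MC.Same s.toMC m) {u : V} {c : C}
    (hc : m.nb c u ≠ u) : H.Adj u (m.nb c u) := by
  by_contra hno
  have h1 := h.1 u _ hc.symm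
  rw [mult_toMC s hc.symm, if_neg hno] at h1
  unfold MC.mult at h1
  rw [card_eq_zero, filter_eq_empty_iff] at h1
  exact h1 (mem_univ c) rfl

/-- The colouring of a simple graph given by a family of involutions. -/
def ofMC (s : Col H C) (m : MC V C) (h : MC.Same s.toMC m) : Col H C where
  col u v := if huv : H.Adj u v then (exists_nb h huv).choose else s.col u v
  symm u v huv := by
    rw [dif_pos huv, dif_pos huv.symm]
    apply nb_unique h huv (exists_nb h huv).choose_spec
    exact MC.nb_symm (exists_nb h huv.symm).choose_spec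
  proper u v w huv huw e := by
    rw [dif_pos huv, dif_pos huw] at e
    rw [← (exists_nb h huv).choose_spec, e, (exists_nb h huw).choose_spec]
  P := m.P
  hP u v huv := by
    rw [dif_pos huv]
    intro hc
    have h1 := m.hP u _ hc
    rw [(exists_nb h huv).choose_spec] at h1
    exact huv.ne h1.symm

theorem tok_ofMC (s : Col H C) (m : MC V C) (h : MC.Same s.toMC m) (v : V) :
    (s.ofMC m h).tok v = m.tok v := by
  ext c
  rw [MC.mem_tok, mem_tok]
  show c ∉ m.P v ∧ _ ↔ c ∉ m.P v ∧ _
  apply and_congr_right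
  intro _
  constructor
  · intro h1
    by_contra h2
    have h3 := adj_of_nb h h2
    apply h1 _ h3
    show (if huv : H.Adj v (m.nb c v) then (exists_nb h huv).choose else s.col v (m.nb c v)) = c
    rw [dif_pos h3]
    exact nb_unique h h3 (exists_nb h h3).choose_spec rfl
  · intro h1 w hw h2
    have h3 : (if huv : H.Adj v w then (exists_nb h huv).choose else s.col v w) = c := h2
    rw [dif_pos hw] at h3
    have h4 := (exists_nb h hw).choose_spec
    rw [h3, h1] at h4
    exact hw.ne h4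

theorem odd_ofMC (s : Col H C) (m : MC V C) (h : MC.Same s.toMC m) (K : Finset V) :
    (s.ofMC m h).odd K = m.odd K := by
  unfold MC.odd odd MC.cnt cnt
  simp only [tok_ofMC]

/-- **Insertion with reserved colours**, final form. -/
theorem insert_reserve2 (s : Col H C) {x : V} {K : Finset V} (hxK : x ∉ K)
    (hK : ∀ a ∈ K, ∀ b ∈ K, a ≠ b → H.Adj a b)
    (hH' : ∀ a b, H'.Adj a b ↔ H.Adj a b ∨ (a = x ∧ b ∈ K) ∨ (b = x ∧ a ∈ K))
    (hiso : ∀ w, ¬ H.Adj x w) (hPx : s.P x = ∅) (hpos : ∀ v ∈ K, 1 ≤ (s.tok v).card)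
    (p α β : ℕ) (hp : ∀ v ∈ K, (s.tok v).card ≤ p + 1)
    (hαβ : α + β + p + K.card = Fintype.card C)
    (hstar : 2 * K.card + 2 * β ≤ (∑ v ∈ K, (s.tok v).card) + (s.odd K).card)
    (hp0 : 1 ≤ p ∨ (β = 0 ∧ ∑ v ∈ K, (s.tok v).card = (s.odd K).card))
    (hβ : β = 0 ∨ 2 * β ≤ (s.odd K).card + 1 ∨
      Fintype.card C + β ≤ 2 * (s.odd K).card + α + 2 ∨ β + K.card ≤ (s.odd K).card)
    (hα : α = 0 ∨ 2 * α + (s.odd K).card ≤ Fintype.card C + 1 ∨
      (2 * (s.odd K).card + α ≤ Fintype.card C + β + 2 ∧ α ≤ β + p + 2) ∨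
      (∑ v ∈ K, (s.tok v).card) + (s.odd K).card + α ≤
        Fintype.card C + β + p + K.card ∨
      ((∑ v ∈ K, (s.tok v).card) = (s.odd K).card ∧
        α + (s.odd K).card ≤ Fintype.card C)) :
    ∃ s' : Col H' C, (∀ v, v ≠ x → (s'.P v).card = (s.P v).card) ∧
      (s'.P x).card = α + β ∧
      (s'.odd (insert x K)).card + (s.odd K).card + α = Fintype.card C + β := by
  obtain ⟨s₁, hP₁, hodd₁, htx₁, htv₁⟩ :=
    s.insert_plain hxK hK hH' hiso hPx hpos (by omega)
  have hPx₁ : s₁.P x = ∅ := card_P_empty (hP₁ x) hPx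
  have hsum : ∑ v ∈ K, (s₁.tok v).card + K.card = ∑ v ∈ K, (s.tok v).card := by
    rw [card_eq_sum_ones, ← sum_add_distrib]
    exact sum_congr rfl htv₁
  have htokMC : ∑ v ∈ K, (s₁.toMC.tok v).card = ∑ v ∈ K, (s₁.tok v).card :=
    sum_congr rfl (fun v _ => by rw [tok_toMC])
  have hne : ∀ w ∈ K, x ≠ w := fun w hw e => hxK (e ▸ hw)
  obtain ⟨m, hm, hmo, hmα, hmβ⟩ := MC.control2 s₁.toMC hxK
    (fun a ha b hb hab => by
      rw [mult_toMC s₁ hab, if_pos ((hH' a b).mpr (Or.inl (hK a ha b hb hab)))])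
    (fun w hw => by
      rw [mult_toMC s₁ (hne w hw), if_pos ((hH' x w).mpr (Or.inr (Or.inl ⟨rfl, hw⟩)))])
    (fun w hw hwx => by
      rw [mult_toMC s₁ (Ne.symm hwx), if_neg]
      intro h'
      rcases (hH' x w).mp h' with h1 | h1 | h1
      · exact hiso w h1
      · exact hw h1.2
      · exact hwx h1.1)
    hPx₁ p α β (s.odd K).card
    (fun v hv => by
      rw [tok_toMC]
      have := hp v hv
      have := htv₁ v hv
      omega)
    hαβ (by rw [odd_toMC]; exact hodd₁) (by rw [htokMC]; omega)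
    (by rw [htokMC]; omega) hβ (by rw [htokMC]; omega)
  set s₂ := s₁.ofMC m hm with hs₂
  set T := s₂.odd (insert x K) with hT
  have hTm : m.odd (insert x K) = T := by rw [hT, hs₂, odd_ofMC]
  have htokx : m.tok x = s₂.tok x := by rw [hs₂, tok_ofMC]
  rw [hTm, htokx] at hmα hmβ
  rw [hTm, odd_toMC] at hmo
  have k2 : ∀ v, (s₂.P v).card = (s₁.P v).card := fun v => hm.2 v
  obtain ⟨D₁, hD₁, hc₁⟩ := exists_subset_card_eq hmα
  obtain ⟨D₂, hD₂, hc₂⟩ := exists_subset_card_eq hmβ
  have hDsub : D₁ ∪ D₂ ⊆ s₂.tok x := by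
    intro c hc
    rcases mem_union.mp hc with h | h
    · exact (mem_inter.mp (hD₁ h)).1
    · exact (mem_inter.mp (hD₂ h)).1
  have hd1 : (D₁ ∪ D₂) ∩ T = D₁ := by
    ext c
    rw [mem_inter, mem_union]
    constructor
    · rintro ⟨h | h, h'⟩
      · exact h
      · exact absurd h' (mem_compl.mp (mem_inter.mp (hD₂ h)).2)
    · intro h; exact ⟨Or.inl h, (mem_inter.mp (hD₁ h)).2⟩
  have hd2 : (D₁ ∪ D₂) ∩ Tᶜ = D₂ := by
    ext c
    rw [mem_inter, mem_union]
    constructor
    · rintro ⟨h | h, h'⟩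
      · exact absurd (mem_inter.mp (hD₁ h)).2 (mem_compl.mp h')
      · exact h
    · intro h; exact ⟨Or.inr h, (mem_inter.mp (hD₂ h)).2⟩
  have hdis : Disjoint D₁ D₂ := by
    rw [disjoint_left]
    intro c h h'
    exact (mem_compl.mp (mem_inter.mp (hD₂ h')).2) (mem_inter.mp (hD₁ h)).2
  have hodd₃ := odd_reserve (s := s₂) hxK (hD := hDsub) (T := T) hT
  rw [hd1, hd2, hc₁, hc₂] at hodd₃
  refine ⟨s₂.reserve x (D₁ ∪ D₂) hDsub, ?_, ?_, ?_⟩
  · intro v hv
    simp only [reserve, if_neg hv]
    rw [k2, hP₁]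
  · have hPx₂ : s₂.P x = ∅ := card_P_empty (k2 x) hPx₁
    simp only [reserve, if_true]
    rw [hPx₂, empty_union, card_union_of_disjoint hdis, hc₁, hc₂]
  · omega

end Col

end

end Pool.Agent.Lib.P3f3a3b
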