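import Pool.Agent.Lib.P3f3a3b.Star

/-!
Insertion of a new vertex `x` joined to all vertices of the clique `K`: attaching `x`, reserving
colours at `x`, and the plain insertion given by the star extension.
-/

set_option autoImplicit false
set_option linter.unusedSectionVars false
set_option linter.unusedVariables false

namespace Pool.Agent.Lib.P3f3a3b

open Finset
open scoped Classical

noncomputable section

variable {V C : Type*} [Fintype V] [Fintype C]
variable {H H' : SimpleGraph V}

namespace Col

theorem card_P_empty {H₁ H₂ : SimpleGraph V} {s : Col H₁ C} {s' : Col H₂ C} {x : V} (h : (s'.P x).card = (s.P x).card)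
    (hx : s.P x = ∅) : s'.P x = ∅ := by
  rw [hx, card_empty, card_eq_zero] at h; exact h

theorem cnt_insert {s : Col H C} {x : V} {K : Finset V} (hxK : x ∉ K) (c : C) :
    s.cnt (insert x K) c = s.cnt K c + (if c ∈ s.tok x then 1 else 0) := by
  rw [cnt_eq_sum, sum_insert hxK, cnt_eq_sum, add_comm]

/-- Attach `x` to `K` with the colours `f`. -/
def attach (s : Col H C) (x : V) (K : Finset V) (f : V → C) (hxK : x ∉ K)
    (hH' : ∀ a b, H'.Adj a b ↔ H.Adj a b ∨ (a = x ∧ b ∈ K) ∨ (b = x ∧ a ∈ K))
    (hiso : ∀ w, ¬ H.Adj x w) (hf : Set.InjOn f K) (hft : ∀ v ∈ K, f v ∈ s.tok v)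
    (hPx : s.P x = ∅) : Col H' C where
  col a b := if a = x then f b else if b = x then f a else s.col a b
  symm a b hab := by
    have hne := hab.ne
    by_cases ha : a = x
    · have hb : b ≠ x := fun h => hne (ha.trans h.symm)
      rw [if_pos ha, if_neg hb, if_pos ha]
    · rw [if_neg ha]
      by_cases hb : b = x
      · rw [if_pos hb, if_pos hb]
      · rw [if_neg hb, if_neg hb, if_neg ha]
        apply s.symm
        rcases (hH' a b).mp hab with h | h | h
        · exact h
        · exact absurd h.1 ha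
        · exact absurd h.1 hb
  proper a b c hab hac h := by
    by_cases ha : a = x
    · rw [if_pos ha, if_pos ha] at h
      have key : ∀ w, H'.Adj a w → w ∈ K := by
        intro w hw
        rcases (hH' a w).mp hw with h' | h' | h'
        · exact absurd (ha ▸ h') (hiso w)
        · exact h'.2
        · exact absurd (ha ▸ h'.2) hxK
      exact hf (key b hab) (key c hac) h
    · rw [if_neg ha, if_neg ha] at h
      have key : ∀ w, H'.Adj a w → (w = x ∧ a ∈ K) ∨ (w ≠ x ∧ H.Adj a w) := by
        intro w hw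
        rcases (hH' a w).mp hw with h' | h' | h'
        · right
          refine ⟨fun e => hiso a ?_, h'⟩
          rw [← e]; exact h'.symm
        · exact absurd h'.1 ha
        · exact Or.inl h'
      rcases key b hab with ⟨h1, h2⟩ | ⟨h1, h2⟩ <;> rcases key c hac with ⟨h3, h4⟩ | ⟨h3, h4⟩
      · rw [h1, h3]
      · rw [if_pos h1, if_neg h3] at h
        exact absurd h.symm ((mem_tok.mp (hft a h2)).2 c h4)
      · rw [if_neg h1, if_pos h3] at h
        exact absurd h ((mem_tok.mp (hft a h4)).2 b h2)
      · rw [if_neg h1, if_neg h3] at h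
        exact s.proper a b c h2 h4 h
  P := s.P
  hP a b hab := by
    by_cases ha : a = x
    · rw [if_pos ha, ha, hPx]; simp
    · rw [if_neg ha]
      rcases (hH' a b).mp hab with h' | h' | h'
      · have hb : b ≠ x := fun e => hiso a (by rw [← e]; exact h'.symm)
        rw [if_neg hb]; exact s.hP a b h'
      · exact absurd h'.1 ha
      · rw [if_pos h'.1]; exact (mem_tok.mp (hft a h'.2)).1

section
variable {s : Col H C} {x : V} {K : Finset V} {f : V → C} {hxK : x ∉ K}
    {hH' : ∀ a b, H'.Adj a b ↔ H.Adj a b ∨ (a = x ∧ b ∈ K) ∨ (b = x ∧ a ∈ K)}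
    {hiso : ∀ w, ¬ H.Adj x w} {hf : Set.InjOn f K} {hft : ∀ v ∈ K, f v ∈ s.tok v}
    {hPx : s.P x = ∅}

theorem mem_tok_attach_x {c : C} :
    c ∈ (s.attach x K f hxK hH' hiso hf hft hPx).tok x ↔ ∀ v ∈ K, f v ≠ c := by
  rw [mem_tok]
  simp only [attach, if_true]
  constructor
  · rintro ⟨_, h⟩ v hv
    exact h v ((hH' x v).mpr (Or.inr (Or.inl ⟨rfl, hv⟩)))
  · intro h
    refine ⟨by rw [hPx]; simp, fun w hw => ?_⟩
    rcases (hH' x w).mp hw with h' | h' | h'
    · exact absurd h' (hiso w)
    · exact h w h'.2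
    · exact absurd h'.2 hxK

theorem mem_tok_attach {v : V} (hv : v ≠ x) {c : C} :
    c ∈ (s.attach x K f hxK hH' hiso hf hft hPx).tok v ↔
      c ∈ s.tok v ∧ (v ∈ K → c ≠ f v) := by
  rw [mem_tok, mem_tok]
  simp only [attach, if_neg hv]
  constructor
  · rintro ⟨h1, h2⟩
    refine ⟨⟨h1, fun w hw h => ?_⟩, fun hvK h => ?_⟩
    · have hwx : w ≠ x := fun e => hiso v (by rw [← e]; exact hw.symm)
      apply h2 w ((hH' v w).mpr (Or.inl hw))
      rw [if_neg hwx]; exact h
    · apply h2 x ((hH' v x).mpr (Or.inr (Or.inr ⟨rfl, hvK⟩)))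
      rw [if_pos rfl, h]
  · rintro ⟨⟨h1, h2⟩, h3⟩
    refine ⟨h1, fun w hw h => ?_⟩
    by_cases hwx : w = x
    · rw [if_pos hwx] at h
      rcases (hH' v w).mp hw with h' | h' | h'
      · exact hiso v (by rw [← hwx]; exact h'.symm)
      · exact hv h'.1
      · exact h3 h'.2 h.symm
    · rw [if_neg hwx] at h
      rcases (hH' v w).mp hw with h' | h' | h'
      · exact h2 w h' h
      · exact hv h'.1
      · exact hwx h'.1

theorem odd_attach :
    (s.attach x K f hxK hH' hiso hf hft hPx).odd (insert x K) = (s.odd K)ᶜ := by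
  set s' := s.attach x K f hxK hH' hiso hf hft hPx with hs'
  ext c
  rw [mem_odd, mem_compl, mem_odd, cnt_insert hxK]
  by_cases hc : ∃ v ∈ K, f v = c
  · obtain ⟨v, hvK, hvc⟩ := hc
    have h1 : c ∉ s'.tok x := by
      rw [hs', mem_tok_attach_x]; push Not; exact ⟨v, hvK, hvc⟩
    have h2 : s'.cnt K c + 1 = s.cnt K c := by
      have e : K.filter (fun w => c ∈ s.tok w) =
          insert v (K.filter (fun w => c ∈ s'.tok w)) := by
        ext w
        rw [mem_filter, mem_insert, mem_filter]
        constructor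
        · rintro ⟨h3, h4⟩
          by_cases hwv : w = v
          · exact Or.inl hwv
          · right
            refine ⟨h3, ?_⟩
            have hwx : w ≠ x := fun e => hxK (e ▸ h3)
            rw [hs', mem_tok_attach hwx]
            refine ⟨h4, fun _ e => hwv (hf h3 hvK (by rw [hvc, e]))⟩
        · rintro (h3 | ⟨h3, h4⟩)
          · rw [h3]; exact ⟨hvK, by rw [← hvc]; exact hft v hvK⟩
          · have hwx : w ≠ x := fun e => hxK (e ▸ h3)
            rw [hs', mem_tok_attach hwx] at h4
            exact ⟨h3, h4.1⟩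
      unfold cnt
      rw [e, card_insert_of_notMem]
      intro h3
      rw [mem_filter] at h3
      have hvx : v ≠ x := fun e => hxK (e ▸ hvK)
      rw [hs', mem_tok_attach hvx] at h3
      exact h3.2.2 hvK hvc.symm
    rw [if_neg h1, Nat.odd_iff, Nat.odd_iff]
    omega
  · push Not at hc
    have h1 : c ∈ s'.tok x := by rw [hs', mem_tok_attach_x]; exact hc
    have h2 : s'.cnt K c = s.cnt K c := by
      unfold cnt
      congr 1
      apply filter_congr
      intro w hw
      have hwx : w ≠ x := fun e => hxK (e ▸ hw)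
      rw [hs', mem_tok_attach hwx]
      constructor
      · exact fun h => h.1
      · exact fun h => ⟨h, fun _ e => hc w hw e.symm⟩
    rw [if_pos h1, h2, Nat.odd_iff, Nat.odd_iff]
    omega

theorem card_tok_attach_x : ((s.attach x K f hxK hH' hiso hf hft hPx).tok x).card + K.card =
    Fintype.card C := by
  have h1 : ((s.attach x K f hxK hH' hiso hf hft hPx).tok x) = (K.image f)ᶜ := by
    ext c
    rw [mem_tok_attach_x, mem_compl, mem_image]
    push Not
    rfl
  rw [h1, card_compl, card_image_of_injOn hf]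
  have : K.card ≤ Fintype.card C := by
    rw [← card_image_of_injOn hf]; exact card_le_univ _
  omega

theorem card_tok_attach {v : V} (hv : v ∈ K) :
    ((s.attach x K f hxK hH' hiso hf hft hPx).tok v).card + 1 = (s.tok v).card := by
  have hvx : v ≠ x := fun e => hxK (e ▸ hv)
  have h1 : s.tok v = insert (f v) ((s.attach x K f hxK hH' hiso hf hft hPx).tok v) := by
    ext c
    rw [mem_insert, mem_tok_attach hvx]
    constructor
    · intro h
      by_cases hc : c = f v
      · exact Or.inl hc
      · exact Or.inr ⟨h, fun _ => hc⟩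
    · rintro (h | h)
      · rw [h]; exact hft v hv
      · exact h.1
  rw [h1, card_insert_of_notMem]
  intro h
  rw [mem_tok_attach hvx] at h
  exact h.2 hv rfl

end

/-- Reserve the set `D` of tokens at `x`. -/
def reserve (s : Col H C) (x : V) (D : Finset C) (hD : D ⊆ s.tok x) : Col H C where
  col := s.col
  symm := s.symm
  proper := s.proper
  P v := if v = x then s.P v ∪ D else s.P v
  hP u v huv := by
    by_cases hu : u = x
    · rw [if_pos hu, mem_union]
      rintro (h | h)
      · exact s.hP u v huv h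
      · have := hD h
        rw [← hu] at this
        exact (mem_tok.mp this).2 v huv rfl
    · rw [if_neg hu]; exact s.hP u v huv

theorem mem_tok_reserve {s : Col H C} {x : V} {D : Finset C} {hD : D ⊆ s.tok x} {v : V}
    {c : C} : c ∈ (s.reserve x D hD).tok v ↔ c ∈ s.tok v ∧ (v = x → c ∉ D) := by
  rw [mem_tok, mem_tok]
  simp only [reserve]
  by_cases hv : v = x
  · rw [if_pos hv, mem_union]; tauto
  · rw [if_neg hv]; tauto

theorem odd_reserve {s : Col H C} {x : V} {K : Finset V} (hxK : x ∉ K) {D : Finset C}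
    {hD : D ⊆ s.tok x} {T : Finset C} (hT : T = s.odd (insert x K)) :
    ((s.reserve x D hD).odd (insert x K)).card + (D ∩ T).card =
      T.card + (D ∩ Tᶜ).card := by
  have h1 : (s.reserve x D hD).odd (insert x K) = (T \ D) ∪ (D ∩ Tᶜ) := by
    ext c
    rw [mem_odd, cnt_insert hxK, mem_union, mem_sdiff, mem_inter, mem_compl]
    have h2 : (s.reserve x D hD).cnt K c = s.cnt K c := by
      unfold cnt
      congr 1
      apply filter_congr
      intro w hw
      have hwx : w ≠ x := fun e => hxK (e ▸ hw)
      rw [mem_tok_reserve]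
      exact ⟨fun h => h.1, fun h => ⟨h, fun e => absurd e hwx⟩⟩
    have h3 : c ∈ T ↔ Odd (s.cnt K c + if c ∈ s.tok x then 1 else 0) := by
      rw [hT, mem_odd, cnt_insert hxK]
    rw [h2]
    by_cases hcD : c ∈ D
    · have hcx := hD hcD
      have h4 : c ∉ (s.reserve x D hD).tok x := by
        rw [mem_tok_reserve]; push Not; exact fun _ => ⟨rfl, hcD⟩
      rw [if_neg h4]
      rw [if_pos hcx] at h3
      rw [Nat.odd_iff] at h3 ⊢
      constructor
      · intro h5; right; exact ⟨hcD, fun h6 => by have := h3.mp h6; omega⟩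
      · rintro (⟨_, h5⟩ | ⟨_, h5⟩)
        · exact absurd hcD h5
        · have : ¬ _ := fun h6 => h5 (h3.mpr h6)
          omega
    · have h4 : c ∈ (s.reserve x D hD).tok x ↔ c ∈ s.tok x := by
        rw [mem_tok_reserve]; tauto
      simp only [h4]
      rw [← h3]; tauto
  have h5 : Disjoint (T \ D) (D ∩ Tᶜ) := by
    rw [disjoint_left]
    intro c h6 h7
    exact (mem_sdiff.mp h6).2 (mem_inter.mp h7).1
  rw [h1, card_union_of_disjoint h5]
  have h6 : (T \ D).card + (D ∩ T).card = T.card := by
    rw [inter_comm D T]; exact card_sdiff_add_card_inter T D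
  omega

/-- The star extension, with the new vertex as a vertex of the graph. -/
theorem insert_plain (s : Col H C) {x : V} {K : Finset V} (hxK : x ∉ K)
    (hK : ∀ a ∈ K, ∀ b ∈ K, a ≠ b → H.Adj a b)
    (hH' : ∀ a b, H'.Adj a b ↔ H.Adj a b ∨ (a = x ∧ b ∈ K) ∨ (b = x ∧ a ∈ K))
    (hiso : ∀ w, ¬ H.Adj x w) (hPx : s.P x = ∅) (hpos : ∀ v ∈ K, 1 ≤ (s.tok v).card)
    (hstar : 2 * K.card ≤ (∑ v ∈ K, (s.tok v).card) + (s.odd K).card) :
    ∃ s' : Col H' C, (∀ v, (s'.P v).card = (s.P v).card) ∧
      (s'.odd (insert x K)).card + (s.odd K).card = Fintype.card C ∧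
      (s'.tok x).card + K.card = Fintype.card C ∧
      (∀ v ∈ K, (s'.tok v).card + 1 = (s.tok v).card) := by
  obtain ⟨s₁, f, hf, hft, hodd, hP⟩ := s.exists_star hK hpos hstar
  refine ⟨s₁.attach x K f hxK hH' hiso hf hft (card_P_empty (hP x) hPx), hP, ?_,
    card_tok_attach_x, fun v hv => ?_⟩
  · rw [odd_attach, hodd, card_compl]
    have := card_le_univ (s.odd K)
    omega
  · rw [card_tok_attach hv, card_tok_eq (hP v)]

end Col

end

end Pool.Agent.Lib.P3f3a3b
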