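import Pool.Agent.Lib.P3f3a3b.Dihedral

/-!
Edge colourings of multigraphs as families of involutions: `nb c v` is the neighbour of `v`
along the edge coloured `c` (or `v` itself).  Kempe swaps, recolouring of one edge, exchange of
two rows, tokens (missing colours), parity classes.
-/

set_option autoImplicit false
set_option linter.unusedSectionVars false
set_option linter.unusedVariables false

namespace Pool.Agent.Lib.P3f3a3b

open Finset
open scoped Classical

noncomputable section

variable {V C : Type*} [Fintype V] [Fintype C]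

/-- A proper edge colouring of a multigraph on `V`, with reserved colours `P v`. -/
structure MC (V C : Type*) where
  nb : C → V → V
  invol : ∀ c v, nb c (nb c v) = v
  P : V → Finset C
  hP : ∀ v, ∀ c ∈ P v, nb c v = v

namespace MC

/-- The tokens (missing, not reserved colours) of `v`. -/
def tok (s : MC V C) (v : V) : Finset C := univ.filter (fun c => c ∉ s.P v ∧ s.nb c v = v)

theorem mem_tok {s : MC V C} {v : V} {c : C} : c ∈ s.tok v ↔ c ∉ s.P v ∧ s.nb c v = v := by
  simp [tok]

theorem nb_of_tok {s : MC V C} {v : V} {c : C} (h : c ∈ s.tok v) : s.nb c v = v :=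
  (mem_tok.mp h).2

theorem nb_invol (s : MC V C) (c : C) : Function.Involutive (s.nb c) := s.invol c

theorem nb_inj (s : MC V C) {c : C} {u v : V} (h : s.nb c u = s.nb c v) : u = v := by
  rw [← s.invol c u, h, s.invol]

theorem nb_symm {s : MC V C} {c : C} {u v : V} (h : s.nb c u = v) : s.nb c v = u := by
  rw [← h, s.invol]

/-- The multiplicity of the edge `uv`. -/
def mult (s : MC V C) (u v : V) : ℕ := (univ.filter (fun c => s.nb c u = v)).card

theorem mult_comm (s : MC V C) (u v : V) : s.mult u v = s.mult v u := by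
  unfold mult
  congr 1
  ext c
  simp only [mem_filter, mem_univ, true_and]
  exact ⟨fun h => nb_symm h, fun h => nb_symm h⟩

/-- The same multigraph and the same numbers of reserved colours. -/
def Same (s s' : MC V C) : Prop :=
  (∀ u v, u ≠ v → s'.mult u v = s.mult u v) ∧ ∀ v, (s'.P v).card = (s.P v).card

theorem Same.refl (s : MC V C) : Same s s := ⟨fun _ _ _ => rfl, fun _ => rfl⟩

theorem Same.trans {s s' s'' : MC V C} (h : Same s s') (h' : Same s' s'') : Same s s'' :=
  ⟨fun u v huv => (h'.1 u v huv).trans (h.1 u v huv), fun v => (h'.2 v).trans (h.2 v)⟩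

theorem Same.symm {s s' : MC V C} (h : Same s s') : Same s' s :=
  ⟨fun u v huv => (h.1 u v huv).symm, fun v => (h.2 v).symm⟩

theorem sum_mult (s : MC V C) (v : V) : ∑ u, s.mult v u = Fintype.card C := by
  unfold mult
  rw [← card_univ (α := C), card_eq_sum_card_fiberwise (f := fun c => s.nb c v) (t := univ)
    (fun _ _ => mem_univ _)]

theorem card_tok (s : MC V C) (v : V) :
    (s.tok v).card + (s.P v).card + ∑ u ∈ univ.erase v, s.mult v u = Fintype.card C := by
  rw [← s.sum_mult v, ← add_sum_erase univ (fun u => s.mult v u) (mem_univ v)]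
  congr 1
  have h : s.tok v ∪ s.P v = univ.filter (fun c => s.nb c v = v) := by
    ext c
    rw [mem_union, mem_tok]
    simp only [mem_filter, mem_univ, true_and]
    constructor
    · rintro (h | h)
      · exact h.2
      · exact s.hP v c h
    · intro h
      by_cases hc : c ∈ s.P v
      · exact Or.inr hc
      · exact Or.inl ⟨hc, h⟩
  have hd : Disjoint (s.tok v) (s.P v) := by
    rw [disjoint_left]; intro c h1 h2; exact (mem_tok.mp h1).1 h2
  rw [← card_union_of_disjoint hd, h]
  rfl

theorem Same.card_tok {s s' : MC V C} (h : Same s s') (v : V) :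
    (s'.tok v).card = (s.tok v).card := by
  have h1 := s.card_tok v
  have h2 := s'.card_tok v
  have h3 : ∑ u ∈ univ.erase v, s'.mult v u = ∑ u ∈ univ.erase v, s.mult v u :=
    sum_congr rfl (fun u hu => h.1 v u (Ne.symm (ne_of_mem_erase hu)))
  rw [h.2 v, h3] at h2
  omega

/-- `S` is a union of `(a,b)`-Kempe components. -/
def Closed (s : MC V C) (a b : C) (S : Finset V) : Prop :=
  ∀ v ∈ S, s.nb a v ∈ S ∧ s.nb b v ∈ S

theorem Closed.union {s : MC V C} {a b : C} {S T : Finset V} (h1 : s.Closed a b S)
    (h2 : s.Closed a b T) : s.Closed a b (S ∪ T) := by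
  intro v hv
  rw [mem_union] at hv
  rcases hv with hv | hv
  · exact ⟨mem_union_left _ (h1 v hv).1, mem_union_left _ (h1 v hv).2⟩
  · exact ⟨mem_union_right _ (h2 v hv).1, mem_union_right _ (h2 v hv).2⟩

theorem Closed.compl {s : MC V C} {a b : C} {S : Finset V} (h : s.Closed a b S) :
    s.Closed a b Sᶜ := by
  intro v hv
  rw [mem_compl] at hv
  refine ⟨?_, ?_⟩ <;> rw [mem_compl] <;> intro h' <;> apply hv
  · have := (h _ h').1; rwa [s.invol] at this
  · have := (h _ h').2; rwa [s.invol] at this

theorem Closed.nb_mem {s : MC V C} {a b c : C} {S : Finset V} (h : s.Closed a b S) {v : V}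
    (hc : c = a ∨ c = b) : s.nb c v ∈ S ↔ v ∈ S := by
  have key : ∀ u ∈ S, s.nb c u ∈ S := by
    intro u hu
    rcases hc with rfl | rfl
    · exact (h u hu).1
    · exact (h u hu).2
  constructor
  · intro h'
    have := key _ h'
    rwa [s.invol] at this
  · exact key v

/-- The Kempe swap of the colours `a` and `b` on `S`. -/
def swap (s : MC V C) (a b : C) (S : Finset V) (hS : s.Closed a b S) : MC V C where
  nb c v := if v ∈ S then s.nb (Equiv.swap a b c) v else s.nb c v
  invol c v := by
    by_cases hc : c = a ∨ c = b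
    · have hc' : Equiv.swap a b c = a ∨ Equiv.swap a b c = b := by
        rcases hc with rfl | rfl
        · right; exact Equiv.swap_apply_left _ _
        · left; exact Equiv.swap_apply_right _ _
      by_cases hv : v ∈ S
      · rw [if_pos hv, if_pos ((hS.nb_mem hc').mpr hv), s.invol]
      · rw [if_neg hv, if_neg (fun h => hv ((hS.nb_mem hc).mp h)), s.invol]
    · push Not at hc
      have e : Equiv.swap a b c = c := Equiv.swap_apply_of_ne_of_ne hc.1 hc.2
      simp only [e, ite_self, s.invol]
  P v := if v ∈ S then (s.P v).image (Equiv.swap a b) else s.P v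
  hP v c hc := by
    by_cases hv : v ∈ S
    · rw [if_pos hv, mem_image] at hc
      obtain ⟨d, hd, rfl⟩ := hc
      rw [if_pos hv, Equiv.swap_apply_self]
      exact s.hP v d hd
    · rw [if_neg hv] at hc
      rw [if_neg hv]
      exact s.hP v c hc

theorem swap_nb {s : MC V C} {a b : C} {S : Finset V} (hS : s.Closed a b S) (c : C) (v : V) :
    (s.swap a b S hS).nb c v = if v ∈ S then s.nb (Equiv.swap a b c) v else s.nb c v := rfl

theorem swap_nb_of_ne {s : MC V C} {a b : C} {S : Finset V} (hS : s.Closed a b S) {c : C}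
    (ha : c ≠ a) (hb : c ≠ b) (v : V) : (s.swap a b S hS).nb c v = s.nb c v := by
  rw [swap_nb, Equiv.swap_apply_of_ne_of_ne ha hb, ite_self]

theorem swap_nb_of_notMem {s : MC V C} {a b : C} {S : Finset V} (hS : s.Closed a b S) (c : C)
    {v : V} (hv : v ∉ S) : (s.swap a b S hS).nb c v = s.nb c v := by
  rw [swap_nb, if_neg hv]

theorem mem_tok_swap {s : MC V C} {a b : C} {S : Finset V} (hS : s.Closed a b S) {v : V}
    {c : C} : c ∈ (s.swap a b S hS).tok v ↔
      if v ∈ S then Equiv.swap a b c ∈ s.tok v else c ∈ s.tok v := by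
  rw [mem_tok, swap_nb]
  by_cases hv : v ∈ S
  · simp only [swap, if_pos hv, mem_image, mem_tok]
    constructor
    · rintro ⟨h1, h2⟩
      exact ⟨fun h => h1 ⟨_, h, Equiv.swap_apply_self _ _ _⟩, h2⟩
    · rintro ⟨h1, h2⟩
      refine ⟨?_, h2⟩
      rintro ⟨d, hd, rfl⟩
      rw [Equiv.swap_apply_self] at h1
      exact h1 hd
  · simp only [swap, if_neg hv, mem_tok]

theorem swap_same {s : MC V C} {a b : C} {S : Finset V} (hS : s.Closed a b S) :
    Same s (s.swap a b S hS) := by
  constructor
  · intro u v huv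
    unfold mult
    by_cases hu : u ∈ S
    · have : univ.filter (fun c => (s.swap a b S hS).nb c u = v) =
          (univ.filter (fun c => s.nb c u = v)).image (Equiv.swap a b) := by
        ext c
        simp only [mem_filter, mem_univ, true_and, mem_image, swap_nb, if_pos hu]
        constructor
        · intro h; exact ⟨_, h, Equiv.swap_apply_self _ _ _⟩
        · rintro ⟨d, hd, rfl⟩; rw [Equiv.swap_apply_self]; exact hd
      rw [this, card_image_of_injective _ (Equiv.swap a b).injective]
    · simp only [swap_nb, if_neg hu]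
  · intro v
    simp only [swap]
    by_cases hv : v ∈ S
    · rw [if_pos hv, card_image_of_injective _ (Equiv.swap a b).injective]
    · rw [if_neg hv]

/-- The `(a,b)`-Kempe component of `v`. -/
def comp (s : MC V C) (a b : C) (v : V) : Finset V :=
  univ.filter (fun u => Conn (s.nb a) (s.nb b) v u)

theorem mem_comp {s : MC V C} {a b : C} {u v : V} :
    u ∈ s.comp a b v ↔ Conn (s.nb a) (s.nb b) v u := by simp [comp]

theorem self_mem_comp (s : MC V C) (a b : C) (v : V) : v ∈ s.comp a b v :=
  mem_comp.mpr (Conn.refl _ _ _)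

theorem comp_closed (s : MC V C) (a b : C) (v : V) : s.Closed a b (s.comp a b v) := by
  intro x hx
  rw [mem_comp] at hx
  exact ⟨mem_comp.mpr hx.left, mem_comp.mpr hx.right⟩

theorem comp_eq_of_mem {s : MC V C} {a b : C} {u v : V} (h : u ∈ s.comp a b v) :
    s.comp a b u = s.comp a b v := by
  rw [mem_comp] at h
  ext w
  rw [mem_comp, mem_comp]
  exact ⟨fun h' => h.trans h', fun h' => (h.symm (s.nb_invol a) (s.nb_invol b)).trans h'⟩

theorem mem_comp_symm {s : MC V C} {a b : C} {u v : V} (h : u ∈ s.comp a b v) :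
    v ∈ s.comp a b u := by
  rw [comp_eq_of_mem h]; exact s.self_mem_comp a b v

theorem comp_comm (s : MC V C) (a b : C) (v : V) : s.comp a b v = s.comp b a v := by
  ext w
  rw [mem_comp, mem_comp]
  exact ⟨fun h => h.swap, fun h => h.swap⟩

theorem comp_disjoint {s : MC V C} {a b : C} {u v : V} (h : u ∉ s.comp a b v) :
    Disjoint (s.comp a b u) (s.comp a b v) := by
  rw [disjoint_left]
  intro w h1 h2
  apply h
  rw [← comp_eq_of_mem h2, comp_eq_of_mem h1]
  exact s.self_mem_comp a b u

/-- `v` has a token `a` or a token `b`. -/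
def End (s : MC V C) (a b : C) (v : V) : Prop := a ∈ s.tok v ∨ b ∈ s.tok v

theorem End.isEnd {s : MC V C} {a b : C} {v : V} (h : s.End a b v) :
    IsEnd (s.nb a) (s.nb b) v := by
  rcases h with h | h
  · exact Or.inl (nb_of_tok h)
  · exact Or.inr (nb_of_tok h)

theorem three_ends {s : MC V C} {a b : C} {u v w : V} (hv : s.End a b v) (hu : s.End a b u)
    (hw : s.End a b w) (h1 : u ∈ s.comp a b v) (h2 : w ∈ s.comp a b v) :
    v = u ∨ v = w ∨ u = w :=
  Pool.Agent.Lib.P3f3a3b.three_ends (s.nb_invol a) (s.nb_invol b) hv.isEnd hu.isEnd hw.isEnd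
    (mem_comp.mp h1) (mem_comp.mp h2)

theorem eq_of_both {s : MC V C} {a b : C} {u v : V} (ha : a ∈ s.tok v) (hb : b ∈ s.tok v)
    (h : u ∈ s.comp a b v) : u = v :=
  conn_of_both (nb_of_tok ha) (nb_of_tok hb) (mem_comp.mp h)

/-- The number of vertices of `K` with a token `c`. -/
def cnt (s : MC V C) (K : Finset V) (c : C) : ℕ := (K.filter (fun v => c ∈ s.tok v)).card

/-- The number of `(a,b)`-ends of `S` inside `K` (a vertex with both tokens counts twice). -/
def ends (s : MC V C) (K : Finset V) (a b : C) (S : Finset V) : ℕ :=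
  s.cnt (K ∩ S) a + s.cnt (K ∩ S) b

theorem cnt_union_disjoint {s : MC V C} {K L : Finset V} (h : Disjoint K L) (c : C) :
    s.cnt (K ∪ L) c = s.cnt K c + s.cnt L c := by
  rw [cnt, filter_union, card_union_of_disjoint (disjoint_filter_filter h)]
  rfl

theorem cnt_split (s : MC V C) (K S : Finset V) (c : C) :
    s.cnt K c = s.cnt (K \ S) c + s.cnt (K ∩ S) c := by
  rw [← cnt_union_disjoint (disjoint_sdiff_inter K S), sdiff_union_inter]

theorem cnt_insert {s : MC V C} {x : V} {K : Finset V} (hxK : x ∉ K) (c : C) :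
    s.cnt (insert x K) c = s.cnt K c + if c ∈ s.tok x then 1 else 0 := by
  unfold cnt
  rw [filter_insert]
  split_ifs with h
  · rw [card_insert_of_notMem (by simp [hxK])]
  · rfl

theorem cnt_swap {s : MC V C} {a b : C} {S : Finset V} (hS : s.Closed a b S) (K : Finset V)
    (c : C) : (s.swap a b S hS).cnt K c =
      s.cnt (K \ S) c + s.cnt (K ∩ S) (Equiv.swap a b c) := by
  rw [cnt_split _ K S]
  congr 1
  · unfold cnt
    congr 1
    apply filter_congr
    intro v hv
    rw [mem_sdiff] at hv
    rw [mem_tok_swap, if_neg hv.2]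
  · unfold cnt
    congr 1
    apply filter_congr
    intro v hv
    rw [mem_inter] at hv
    rw [mem_tok_swap, if_pos hv.2]

theorem cnt_swap_of_ne {s : MC V C} {a b : C} {S : Finset V} (hS : s.Closed a b S)
    (K : Finset V) {c : C} (ha : c ≠ a) (hb : c ≠ b) :
    (s.swap a b S hS).cnt K c = s.cnt K c := by
  rw [cnt_swap, Equiv.swap_apply_of_ne_of_ne ha hb, ← cnt_split]

/-- The colours with an odd number of tokens on `K`. -/
def odd (s : MC V C) (K : Finset V) : Finset C := univ.filter (fun c => Odd (s.cnt K c))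

theorem mem_odd {s : MC V C} {K : Finset V} {c : C} : c ∈ s.odd K ↔ Odd (s.cnt K c) := by
  simp [odd]

theorem odd_swap_of_even {s : MC V C} {a b : C} {S : Finset V} (hS : s.Closed a b S)
    (K : Finset V) (h : Even (s.ends K a b S)) : (s.swap a b S hS).odd K = s.odd K := by
  ext c
  rw [mem_odd, mem_odd]
  by_cases ha : c = a
  · subst ha
    rw [cnt_swap, Equiv.swap_apply_left, cnt_split s K S c]
    unfold ends at h
    rw [Nat.even_iff] at h
    rw [Nat.odd_iff, Nat.odd_iff]
    omega
  · by_cases hb : c = b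
    · subst hb
      rw [cnt_swap, Equiv.swap_apply_right, cnt_split s K S c]
      unfold ends at h
      rw [Nat.even_iff] at h
      rw [Nat.odd_iff, Nat.odd_iff]
      omega
    · rw [cnt_swap_of_ne hS K ha hb]

theorem mem_odd_swap_of_odd {s : MC V C} {a b : C} {S : Finset V} (hab : a ≠ b)
    (hS : s.Closed a b S)
    (K : Finset V) (h : Odd (s.ends K a b S)) (c : C) :
    c ∈ (s.swap a b S hS).odd K ↔ (if c = a ∨ c = b then c ∉ s.odd K else c ∈ s.odd K) := by
  rw [mem_odd, mem_odd]
  by_cases ha : c = a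
  · subst ha
    rw [if_pos (Or.inl rfl), cnt_swap, Equiv.swap_apply_left, cnt_split s K S c]
    unfold ends at h
    rw [Nat.odd_iff] at h
    rw [Nat.odd_iff, Nat.odd_iff]
    omega
  · by_cases hb : c = b
    · subst hb
      rw [if_pos (Or.inr rfl), cnt_swap, Equiv.swap_apply_right, cnt_split s K S c]
      unfold ends at h
      rw [Nat.odd_iff] at h
      rw [Nat.odd_iff, Nat.odd_iff]
      omega
    · rw [if_neg (by tauto), cnt_swap_of_ne hS K ha hb]

/-- Swapping an odd chain between two colours of different parity exchanges them in the set of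
odd colours. -/
theorem odd_swap_of_odd {s : MC V C} {a b : C} {S : Finset V} (hab : a ≠ b)
    (hS : s.Closed a b S) (K : Finset V) (h : Odd (s.ends K a b S))
    (hpar : a ∈ s.odd K ↔ b ∉ s.odd K) :
    (s.swap a b S hS).odd K = (s.odd K).image (Equiv.swap a b) := by
  ext c
  rw [mem_odd_swap_of_odd hab hS K h, mem_image]
  constructor
  · intro hc
    refine ⟨Equiv.swap a b c, ?_, Equiv.swap_apply_self _ _ _⟩
    by_cases ha : c = a
    · subst ha; rw [if_pos (Or.inl rfl)] at hc
      rw [Equiv.swap_apply_left]; tauto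
    · by_cases hb : c = b
      · subst hb; rw [if_pos (Or.inr rfl)] at hc
        rw [Equiv.swap_apply_right]; tauto
      · rw [if_neg (by tauto)] at hc
        rwa [Equiv.swap_apply_of_ne_of_ne ha hb]
  · rintro ⟨d, hd, rfl⟩
    by_cases ha : d = a
    · subst ha; rw [Equiv.swap_apply_left, if_pos (Or.inr rfl)]; tauto
    · by_cases hb : d = b
      · subst hb; rw [Equiv.swap_apply_right, if_pos (Or.inl rfl)]; tauto
      · rw [Equiv.swap_apply_of_ne_of_ne ha hb, if_neg (by tauto)]; exact hd

theorem card_odd_swap_of_odd {s : MC V C} {a b : C} {S : Finset V} (hab : a ≠ b)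
    (hS : s.Closed a b S) (K : Finset V) (h : Odd (s.ends K a b S))
    (hpar : a ∈ s.odd K ↔ b ∉ s.odd K) :
    ((s.swap a b S hS).odd K).card = (s.odd K).card := by
  rw [odd_swap_of_odd hab hS K h hpar, card_image_of_injective _ (Equiv.swap a b).injective]

/-- A Kempe component has at most two ends. -/
theorem ends_comp_le_two {s : MC V C} {a b : C} (hab : a ≠ b) (K : Finset V) (v : V) :
    s.ends K a b (s.comp a b v) ≤ 2 := by
  set O := s.comp a b v with hO
  by_cases hboth : ∃ u ∈ K ∩ O, a ∈ s.tok u ∧ b ∈ s.tok u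
  · obtain ⟨u, hu, ha, hb⟩ := hboth
    rw [mem_inter] at hu
    have hsub : K ∩ O ⊆ {u} := by
      intro w hw
      rw [mem_inter, hO, ← comp_eq_of_mem hu.2] at hw
      rw [mem_singleton]
      exact eq_of_both ha hb hw.2
    unfold ends cnt
    have h1 : ((K ∩ O).filter (fun v => a ∈ s.tok v)).card ≤ 1 :=
      le_trans (card_le_card (filter_subset _ _)) (le_trans (card_le_card hsub) (by simp))
    have h2 : ((K ∩ O).filter (fun v => b ∈ s.tok v)).card ≤ 1 :=
      le_trans (card_le_card (filter_subset _ _)) (le_trans (card_le_card hsub) (by simp))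
    omega
  · push Not at hboth
    have hdis : Disjoint ((K ∩ O).filter (fun v => a ∈ s.tok v))
        ((K ∩ O).filter (fun v => b ∈ s.tok v)) := by
      rw [disjoint_left]
      intro w h1 h2
      rw [mem_filter] at h1 h2
      exact hboth w h1.1 h1.2 h2.2
    unfold ends cnt
    rw [← card_union_of_disjoint hdis]
    by_contra hlt
    push Not at hlt
    rw [two_lt_card] at hlt
    obtain ⟨x, hx, y, hy, z, hz, hxy, hxz, hyz⟩ := hlt
    have hE : ∀ w, w ∈ (K ∩ O).filter (fun v => a ∈ s.tok v) ∪
        (K ∩ O).filter (fun v => b ∈ s.tok v) → s.End a b w ∧ w ∈ O := by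
      intro w hw
      rw [mem_union, mem_filter, mem_filter, mem_inter] at hw
      rcases hw with hw | hw
      · exact ⟨Or.inl hw.2, hw.1.2⟩
      · exact ⟨Or.inr hw.2, hw.1.2⟩
    have hx' := hE x hx
    have hy' := hE y hy
    have hz' := hE z hz
    have hOx : O = s.comp a b x := (comp_eq_of_mem hx'.2).symm
    rcases three_ends hx'.1 hy'.1 hz'.1 (hOx ▸ hy'.2) (hOx ▸ hz'.2) with h | h | h
    · exact hxy h
    · exact hxz h
    · exact hyz h

theorem cnt_ge_one {s : MC V C} {K : Finset V} {c : C} {v : V} (hv : v ∈ K)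
    (hc : c ∈ s.tok v) : 1 ≤ s.cnt K c := by
  unfold cnt
  exact card_pos.mpr ⟨v, mem_filter.mpr ⟨hv, hc⟩⟩

theorem ends_ge_one {s : MC V C} {K : Finset V} {a b : C} {S : Finset V} {v : V} (hv : v ∈ K)
    (hS : v ∈ S) (h : s.End a b v) : 1 ≤ s.ends K a b S := by
  unfold ends
  rcases h with h | h
  · have := cnt_ge_one (mem_inter.mpr ⟨hv, hS⟩) h
    omega
  · have := cnt_ge_one (mem_inter.mpr ⟨hv, hS⟩) h
    omega

/-- Two different ends, or one vertex with both tokens: at least two ends. -/
theorem ends_ge_two {s : MC V C} {K : Finset V} {a b : C} {S : Finset V} {u v : V}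
    (hu : u ∈ K) (hv : v ∈ K) (huS : u ∈ S) (hvS : v ∈ S) (huv : u ≠ v) (h1 : s.End a b u)
    (h2 : s.End a b v) : 2 ≤ s.ends K a b S := by
  have hE : ({u} : Finset V) ∪ {v} ⊆ (K ∩ S).filter (fun w => a ∈ s.tok w) ∪
      (K ∩ S).filter (fun w => b ∈ s.tok w) := by
    intro w hw
    rw [mem_union, mem_singleton, mem_singleton] at hw
    rw [mem_union, mem_filter, mem_filter, mem_inter]
    rcases hw with rfl | rfl
    · rcases h1 with h | h
      · exact Or.inl ⟨⟨hu, huS⟩, h⟩
      · exact Or.inr ⟨⟨hu, huS⟩, h⟩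
    · rcases h2 with h | h
      · exact Or.inl ⟨⟨hv, hvS⟩, h⟩
      · exact Or.inr ⟨⟨hv, hvS⟩, h⟩
  have h3 := card_le_card hE
  have h4 : (({u} : Finset V) ∪ {v}).card = 2 := by
    rw [← insert_eq, card_pair huv]
  have h5 := card_union_le ((K ∩ S).filter (fun w => a ∈ s.tok w))
    ((K ∩ S).filter (fun w => b ∈ s.tok w))
  unfold ends cnt
  omega

theorem ends_univ {s : MC V C} {K : Finset V} {a b : C} :
    s.ends K a b univ = s.cnt K a + s.cnt K b := by
  unfold ends; rw [inter_univ]

theorem ends_union {s : MC V C} {K : Finset V} {a b : C} {S T : Finset V}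
    (h : Disjoint S T) : s.ends K a b (S ∪ T) = s.ends K a b S + s.ends K a b T := by
  unfold ends
  rw [inter_union_distrib_left]
  have hd : Disjoint (K ∩ S) (K ∩ T) := by
    apply disjoint_of_subset_left (inter_subset_right)
    apply disjoint_of_subset_right (inter_subset_right)
    exact h
  rw [cnt_union_disjoint hd, cnt_union_disjoint hd]
  omega

theorem ends_compl {s : MC V C} {K : Finset V} {a b : C} {S : Finset V} :
    s.ends K a b S + s.ends K a b Sᶜ = s.cnt K a + s.cnt K b := by
  rw [← ends_union disjoint_compl_right, union_compl, ends_univ]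

end MC

end

end Pool.Agent.Lib.P3f3a3b
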