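import Pool.Agent.Lib.P3f3a3b.MCBasic

/-!
Definitions for the state of the insertion step: the colours of the star of `x`, the classes,
stuck states, chains.
-/

set_option autoImplicit false
set_option linter.unusedSectionVars false
set_option linter.unusedVariables false

namespace Pool.Agent.Lib.P3f3a3b

open Finset
open scoped Classical

noncomputable section

variable {V C : Type*} [Fintype V] [Fintype C]

namespace MC

/-- The colours with an odd (`b = true`) or an even (`b = false`) number of tokens on `Z`. -/
def cls (s : MC V C) (Z : Finset V) (b : Bool) : Finset C :=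
  univ.filter (fun c => (c ∈ s.odd Z ↔ b = true))

/-- The tokens of `x` in the class. -/
def cM (s : MC V C) (x : V) (K : Finset V) (b : Bool) : Finset C :=
  s.tok x ∩ s.cls (insert x K) b

/-- The tokens of `x` outside the class. -/
def cN (s : MC V C) (x : V) (K : Finset V) (b : Bool) : Finset C :=
  s.tok x \ s.cls (insert x K) b

/-- The colours of the class used at `x`. -/
def cE (s : MC V C) (x : V) (K : Finset V) (b : Bool) : Finset C :=
  s.cls (insert x K) b \ s.tok x

/-- The colours outside the class used at `x`. -/
def cF (s : MC V C) (x : V) (K : Finset V) (b : Bool) : Finset C :=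
  (s.cls (insert x K) b ∪ s.tok x)ᶜ

/-- The vertices `w` such that the colour of `x w` is in the class. -/
def yk (s : MC V C) (x : V) (K : Finset V) (b : Bool) : Finset V :=
  (s.cE x K b).image (fun e => s.nb e x)

/-- The colours of `M` leading from `i` to `yk`. -/
def dset (s : MC V C) (x : V) (K : Finset V) (b : Bool) (i : V) : Finset C :=
  (s.cM x K b).filter (fun g => s.nb g i ∈ s.yk x K b)

/-- `x` is joined exactly to the vertices of the clique `K`, by one edge each, and no state of
the same multigraph with the same number of odd colours has level one more. -/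
structure Stuck (s : MC V C) (x : V) (K : Finset V) (b : Bool) : Prop where
  hxK : x ∉ K
  star : ∀ w, w ≠ x → s.mult x w = if w ∈ K then 1 else 0
  clique : ∀ u ∈ K, ∀ w ∈ K, u ≠ w → 1 ≤ s.mult u w
  Px : s.P x = ∅
  max : ∀ s' : MC V C, Same s s' →
    (s'.odd (insert x K)).card = (s.odd (insert x K)).card →
    (s'.cM x K b).card ≠ (s.cM x K b).card + 1

/-- `s'` is a state with the same invariants as `s`. -/
structure Eqv (s s' : MC V C) (x : V) (K : Finset V) (b : Bool) : Prop where
  same : Same s s'
  odd : (s'.odd (insert x K)).card = (s.odd (insert x K)).card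
  lev : (s'.cM x K b).card = (s.cM x K b).card

/-- `Lnk s x c [a₀, a₁, …]`: `a₀` has the token `c`, and `a_{j+1}` has the token which is the
colour of the edge `x a_j`. -/
inductive Lnk (s : MC V C) (x : V) : C → List V → Prop
  | nil (c : C) : Lnk s x c []
  | cons {c c' : C} {a : V} {l : List V} : c ∈ s.tok a → s.nb c' x = a → Lnk s x c' l →
      Lnk s x c (a :: l)

/-- A stuck state (class of the even colours) with one surplus pair, of the colour `α ∈ N`, and
a chain `l` starting at a vertex with the token `α`. -/
structure Chn (s : MC V C) (x : V) (K : Finset V) (α : C) (l : List V) : Prop where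
  stuck : Stuck s x K false
  hα : α ∈ s.cN x K false
  two : s.cnt K α = 2
  one : ∀ c, c ≠ α → s.cnt K c ≤ 1
  hN : 2 ≤ (s.cN x K false).card
  ne : l ≠ []
  nodup : l.Nodup
  sub : ∀ a ∈ l, a ∈ K
  lnk : Lnk s x α l

end MC

end

end Pool.Agent.Lib.P3f3a3b
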