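import Pool.Agent.Lib.P3f3a3b.RowSw

/-!
Trails of the pair of rows `x`, `i`: `stp c c'` if the column `v = nb c x` of the colour `c` in
the row `x` has the colour `c' = f v` in the row `i`.  The exchange of the two rows along the
trail of a colour missing at `i`.
-/

set_option autoImplicit false
set_option linter.unusedSectionVars false
set_option linter.unusedVariables false

namespace Pool.Agent.Lib.P3f3a3b

open Finset
open scoped Classical

noncomputable section

variable {V C : Type*} [Fintype V] [Fintype C]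

namespace MC

/-- One step of the trail. -/
def stp (s : MC V C) (x i : V) (f : V → C) (c c' : C) : Prop :=
  s.nb c x ≠ x ∧ s.nb c x ≠ i ∧ c' = f (s.nb c x)

/-- The colours of the trail starting at `α`. -/
def trail (s : MC V C) (x i : V) (f : V → C) (α : C) : Finset C :=
  univ.filter (fun c => Relation.ReflTransGen (s.stp x i f) α c)

theorem mem_trail {s : MC V C} {x i : V} {f : V → C} {α c : C} :
    c ∈ s.trail x i f α ↔ Relation.ReflTransGen (s.stp x i f) α c := by
  simp [trail]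

theorem self_mem_trail (s : MC V C) (x i : V) (f : V → C) (α : C) : α ∈ s.trail x i f α :=
  mem_trail.mpr Relation.ReflTransGen.refl

/-- `f v` is the colour of an edge from `i` to `v`, for `v ∈ K - i`, and the star of `x` is
simple with leaves in `K`. -/
structure RowData (s : MC V C) (x i : V) (K : Finset V) (f : V → C) : Prop where
  hxi : x ≠ i
  hxK : x ∉ K
  hf : ∀ v ∈ K, v ≠ i → s.nb (f v) i = v
  hK : ∀ c, s.nb c x ≠ x → s.nb c x ∈ K
  hsimple : ∀ c c', s.nb c x ≠ x → s.nb c x = s.nb c' x → c = c'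
  hPx : s.P x = ∅

variable {s : MC V C} {x i : V} {K : Finset V} {f : V → C}

namespace RowData

variable (h : s.RowData x i K f)
include h

theorem nb_f {c : C} (h1 : s.nb c x ≠ x) (h2 : s.nb c x ≠ i) :
    s.nb (f (s.nb c x)) i = s.nb c x := h.hf _ (h.hK c h1) h2

theorem stp_inj {c c' d : C} (h1 : s.stp x i f c d) (h2 : s.stp x i f c' d) : c = c' := by
  obtain ⟨a1, a2, a3⟩ := h1
  obtain ⟨b1, b2, b3⟩ := h2
  apply h.hsimple c c' a1
  rw [← h.nb_f a1 a2, ← h.nb_f b1 b2, ← a3, ← b3]

/-- Colours of the trail other than the first one. -/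
theorem exists_pred {α c : C} (hc : c ∈ s.trail x i f α) (hne : c ≠ α) :
    ∃ d ∈ s.trail x i f α, s.stp x i f d c := by
  rw [mem_trail] at hc
  rcases Relation.ReflTransGen.cases_tail hc with e | ⟨d, hd, hdc⟩
  · exact absurd e hne
  · exact ⟨d, mem_trail.mpr hd, hdc⟩

theorem succ_mem {α c d : C} (hc : c ∈ s.trail x i f α) (hcd : s.stp x i f c d) :
    d ∈ s.trail x i f α := by
  rw [mem_trail] at hc ⊢
  exact hc.tail hcd

theorem nb_i_of_stp {c d : C} (hcd : s.stp x i f c d) : s.nb d i = s.nb c x := by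
  rw [hcd.2.2, h.nb_f hcd.1 hcd.2.1]

theorem nb_i_ne_of_stp {c d : C} (hcd : s.stp x i f c d) : s.nb d i ≠ i ∧ s.nb d i ≠ x := by
  rw [h.nb_i_of_stp hcd]
  exact ⟨hcd.2.1, hcd.1⟩

theorem nb_x_ne_i {α c : C} (hα : s.nb α i = i) (hc : c ∈ s.trail x i f α) :
    s.nb c x ≠ i := by
  intro e
  have e' : s.nb c i = x := nb_symm e
  by_cases hne : c = α
  · subst hne
    rw [hα] at e'
    exact h.hxi e'.symm
  · obtain ⟨d, _, hd⟩ := h.exists_pred hc hne
    exact (h.nb_i_ne_of_stp hd).2 e'

theorem not_P {α c : C} (hα : α ∈ s.tok i) (hc : c ∈ s.trail x i f α) :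
    c ∉ s.P x ∧ c ∉ s.P i := by
  refine ⟨by rw [h.hPx]; simp, ?_⟩
  intro hP
  by_cases hne : c = α
  · subst hne
    exact (mem_tok.mp hα).1 hP
  · obtain ⟨d, _, hd⟩ := h.exists_pred hc hne
    exact (h.nb_i_ne_of_stp hd).1 (s.hP i c hP)

/-- There is exactly one end. -/
theorem card_end {α : C} (hα : α ∈ s.tok i) :
    ((s.trail x i f α).filter (fun c => s.nb c x = x)).card = 1 := by
  set S := s.trail x i f α with hS
  have hαS : α ∈ S := s.self_mem_trail x i f α
  have himg : (S.filter (fun c => ¬ s.nb c x = x)).image (fun c => f (s.nb c x)) =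
      S.erase α := by
    ext d
    rw [mem_image, mem_erase]
    constructor
    · rintro ⟨c, hc, rfl⟩
      rw [mem_filter] at hc
      have h2 := h.nb_x_ne_i (nb_of_tok hα) hc.1
      refine ⟨?_, h.succ_mem hc.1 ⟨hc.2, h2, rfl⟩⟩
      intro e
      have := h.nb_f hc.2 h2
      rw [e, nb_of_tok hα] at this
      exact h2 this.symm
    · rintro ⟨h1, h2⟩
      obtain ⟨c, hc, hcd⟩ := h.exists_pred h2 h1
      exact ⟨c, mem_filter.mpr ⟨hc, hcd.1⟩, hcd.2.2.symm⟩
  have hinj : Set.InjOn (fun c => f (s.nb c x)) (S.filter (fun c => ¬ s.nb c x = x)) := by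
    intro c hc c' hc' hcc
    rw [mem_coe, mem_filter] at hc hc'
    have h1 := h.nb_x_ne_i (nb_of_tok hα) hc.1
    have h2 := h.nb_x_ne_i (nb_of_tok hα) hc'.1
    exact h.stp_inj (d := f (s.nb c x)) ⟨hc.2, h1, rfl⟩ ⟨hc'.2, h2, hcc⟩
  have h1 := card_image_of_injOn hinj
  rw [himg, card_erase_of_mem hαS] at h1
  have h2 := card_filter_add_card_filter_not (s := S) (fun c => s.nb c x = x)
  have h3 : 0 < S.card := card_pos.mpr ⟨α, hαS⟩
  omega

/-- The end of the trail. -/
theorem exists_end {α : C} (hα : α ∈ s.tok i) :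
    ∃ g ∈ s.trail x i f α, g ∈ s.tok x ∧
      ∀ c ∈ s.trail x i f α, s.nb c x = x → c = g := by
  obtain ⟨g, hg⟩ := card_eq_one.mp (h.card_end hα)
  have hg' : g ∈ (s.trail x i f α).filter (fun c => s.nb c x = x) := by rw [hg]; simp
  rw [mem_filter] at hg'
  refine ⟨g, hg'.1, mem_tok.mpr ⟨(h.not_P hα hg'.1).1, hg'.2⟩, ?_⟩
  intro c hc hcx
  have : c ∈ (s.trail x i f α).filter (fun c => s.nb c x = x) := mem_filter.mpr ⟨hc, hcx⟩
  rw [hg, mem_singleton] at this
  exact this

/-- The exchange of the rows `x`, `i` along the trail of `α ∈ tok i`. -/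
theorem rowsw_trail_same {α : C} (hα : α ∈ s.tok i) :
    Same s (s.rowsw x i (s.trail x i f α) (fun c hc => h.not_P hα hc)) := by
  apply rowsw_same
  intro v hvx hvi
  set S := s.trail x i f α with hS
  by_cases hex : ∃ c ∈ S, s.nb c x = v
  · obtain ⟨c, hc, hcv⟩ := hex
    have h1 : S.filter (fun c => s.nb c x = v) = {c} := by
      ext d
      rw [mem_filter, mem_singleton]
      constructor
      · rintro ⟨hd, hdv⟩
        refine (h.hsimple c d ?_ ?_).symm
        · rw [hcv]; exact hvx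
        · rw [hcv, hdv]
      · rintro rfl; exact ⟨hc, hcv⟩
    have hst : s.stp x i f c (f v) := ⟨by rw [hcv]; exact hvx, by rw [hcv]; exact hvi,
      by rw [hcv]⟩
    have h2 : S.filter (fun c => s.nb c i = v) = {f v} := by
      ext d
      rw [mem_filter, mem_singleton]
      constructor
      · rintro ⟨hd, hdv⟩
        have hdα : d ≠ α := by
          intro e; rw [e, nb_of_tok hα] at hdv; exact hvi hdv.symm
        obtain ⟨b, hb, hbd⟩ := h.exists_pred hd hdα
        have h3 := h.nb_i_of_stp hbd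
        rw [hbd.2.2, ← h3, hdv]
      · rintro rfl
        refine ⟨h.succ_mem hc hst, ?_⟩
        rw [h.nb_i_of_stp hst, hcv]
    rw [h1, h2, card_singleton, card_singleton]
  · push Not at hex
    have h1 : S.filter (fun c => s.nb c x = v) = ∅ := by
      rw [filter_eq_empty_iff]; intro c hc; exact hex c hc
    have h2 : S.filter (fun c => s.nb c i = v) = ∅ := by
      rw [filter_eq_empty_iff]
      intro d hd hdv
      have hdα : d ≠ α := by
        intro e; rw [e, nb_of_tok hα] at hdv; exact hvi hdv.symm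
      obtain ⟨b, hb, hbd⟩ := h.exists_pred hd hdα
      have h3 := h.nb_i_of_stp hbd
      rw [hdv] at h3
      exact hex b hb h3.symm
    rw [h1, h2]

/-- Row switch: `x` gets the token `α`, `i` gets the token `g`, the end of the trail. -/
theorem row_switch {α : C} (hα : α ∈ s.tok i) :
    ∃ g ∈ s.trail x i f α, g ∈ s.tok x ∧ ∃ u : MC V C, Same s u ∧
      (∀ Z : Finset V, x ∈ Z → i ∈ Z → u.odd Z = s.odd Z) ∧
      (∀ Z : Finset V, x ∈ Z → i ∈ Z → ∀ c, u.cnt Z c = s.cnt Z c) ∧
      (∀ c, c ∈ u.tok x ↔ c = α ∨ (c ∈ s.tok x ∧ c ≠ g)) ∧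
      (∀ c, c ∈ u.tok i ↔ c = g ∨ (c ∈ s.tok i ∧ c ≠ α)) ∧
      (∀ v, v ≠ x → v ≠ i → u.tok v = s.tok v) ∧
      (∀ c, c ∉ s.trail x i f α → ∀ v, u.nb c v = s.nb c v) ∧
      (∀ c ∈ s.trail x i f α, ∀ v, u.nb c v =
        Equiv.swap x i (s.nb c (Equiv.swap x i v))) ∧ u.P = s.P := by
  obtain ⟨g, hgS, hgx, hguniq⟩ := h.exists_end hα
  have htoki : ∀ c ∈ s.trail x i f α, c ∈ s.tok i → c = α := by
    intro c hc hci
    by_contra hne
    obtain ⟨d, _, hd⟩ := h.exists_pred hc hne
    exact (h.nb_i_ne_of_stp hd).1 (nb_of_tok hci)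
  refine ⟨g, hgS, hgx, s.rowsw x i (s.trail x i f α) (fun c hc => h.not_P hα hc),
    h.rowsw_trail_same hα, ?_, ?_, ?_, ?_, ?_, ?_, ?_, rfl⟩
  · intro Z hx hi; exact odd_rowsw hx hi
  · intro Z hx hi c; exact cnt_rowsw hx hi c
  · intro c
    rw [mem_tok_rowsw_x]
    by_cases hc : c ∈ s.trail x i f α
    · rw [if_pos hc]
      constructor
      · intro h1; exact Or.inl (htoki c hc h1)
      · rintro (rfl | ⟨h1, h2⟩)
        · exact hα
        · exact absurd (hguniq c hc (nb_of_tok h1)) h2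
    · rw [if_neg hc]
      constructor
      · intro h1
        exact Or.inr ⟨h1, fun e => hc (e ▸ hgS)⟩
      · rintro (rfl | ⟨h1, h2⟩)
        · exact absurd (s.self_mem_trail x i f c) hc
        · exact h1
  · intro c
    rw [mem_tok_rowsw_i]
    by_cases hc : c ∈ s.trail x i f α
    · rw [if_pos hc]
      constructor
      · intro h1; exact Or.inl (hguniq c hc (nb_of_tok h1))
      · rintro (rfl | ⟨h1, h2⟩)
        · exact hgx
        · exact absurd (htoki c hc h1) h2
    · rw [if_neg hc]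
      constructor
      · intro h1
        exact Or.inr ⟨h1, fun e => hc (e ▸ s.self_mem_trail x i f α)⟩
      · rintro (rfl | ⟨h1, h2⟩)
        · exact absurd hgS hc
        · exact h1
  · intro v hvx hvi
    ext c
    exact mem_tok_rowsw_other hvx hvi
  · intro c hc v; exact rowsw_nb_of_notMem hc v
  · intro c hc v; rw [rowsw_nb, if_pos hc]

end RowData

end MC

end

end Pool.Agent.Lib.P3f3a3b
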