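import Pool.Agent.Lib.P3f3a3b.MCStuck
import Pool.Agent.Lib.P3f3a3b.Trail

/-!
(PL): in a stuck state with an active vertex, the number of edges from `x` with colours of the
class is at most the level.
-/

set_option autoImplicit false
set_option linter.unusedSectionVars false
set_option linter.unusedVariables false

namespace Pool.Agent.Lib.P3f3a3b

open Finset
open scoped Classical

noncomputable section

variable {V C : Type*} [Fintype V] [Fintype C]

namespace MC

variable {s : MC V C} {x : V} {K : Finset V}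

namespace PLaux

open Relation

theorem stp_fun {s : MC V C} {x i : V} {f : V → C} : Relator.RightUnique (s.stp x i f) := by
  intro a b c h1 h2
  rw [h1.2.2, h2.2.2]

/-- A colour with a successor is not a token of `x`. -/
theorem stp_not_tok {s : MC V C} {x i : V} {f : V → C} {c d : C} (h : s.stp x i f c d) :
    c ∉ s.tok x := fun ht => h.1 (nb_of_tok ht)

/-- Two terminal colours of one trail are equal. -/
theorem term_unique {s : MC V C} {x i : V} {f : V → C} {a g g' : C}
    (h1 : ReflTransGen (s.stp x i f) a g) (h2 : ReflTransGen (s.stp x i f) a g')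
    (hg : s.nb g x = x) (hg' : s.nb g' x = x) : g = g' := by
  rcases ReflTransGen.total_of_right_unique stp_fun h1 h2 with h | h
  · rcases ReflTransGen.cases_head h with e | ⟨d, hd, _⟩
    · exact e
    · exact absurd hg hd.1
  · rcases ReflTransGen.cases_head h with e | ⟨d, hd, _⟩
    · exact e.symm
    · exact absurd hg' hd.1

theorem cycle {α : Type*} {r : α → α → Prop} (hr : Relator.RightUnique r) {a d : α}
    (ha : TransGen r a a) (h : ReflTransGen r a d) : TransGen r d d := by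
  induction h with
  | refl => exact ha
  | tail h1 h2 ih =>
    rename_i m d
    rcases TransGen.head'_iff.mp ih with ⟨d', h3, h4⟩
    have : d' = d := hr h3 h2
    subst this
    exact TransGen.tail' h4 h3

theorem no_cycle {s : MC V C} {x i : V} {f : V → C} {a g : C}
    (h : ReflTransGen (s.stp x i f) a g) (hg : s.nb g x = x) :
    ¬ TransGen (s.stp x i f) a a := by
  intro hc
  have h1 := cycle stp_fun hc h
  rcases TransGen.head'_iff.mp h1 with ⟨d, h2, _⟩
  exact h2.1 hg

end PLaux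

open PLaux Relation

theorem Stuck.rowData {b : Bool} (h : Stuck s x K b) {i : V} (hi : i ∈ K) {f : V → C}
    (hf : ∀ v ∈ K, v ≠ i → s.nb (f v) i = v) : s.RowData x i K f :=
  ⟨fun e => h.hxK (e ▸ hi), h.hxK, hf, fun c hc => h.nb_mem (fun ht => hc (nb_of_tok ht)),
    fun c c' hc he => h.nb_x_inj (fun ht => hc (nb_of_tok ht)) he, h.Px⟩

theorem Stuck.exists_row {b : Bool} (h : Stuck s x K b) {i : V} (hi : i ∈ K) :
    ∃ f : V → C, ∀ v ∈ K, v ≠ i → s.nb (f v) i = v := by
  have key : ∀ v : V, ∃ c : C, v ∈ K → v ≠ i → s.nb c i = v := by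
    intro v
    by_cases hv : v ∈ K ∧ v ≠ i
    · have := h.clique i hi v hv.1 (Ne.symm hv.2)
      unfold mult at this
      obtain ⟨c, hc⟩ := card_pos.mp (by omega : 0 < (univ.filter (fun c => s.nb c i = v)).card)
      exact ⟨c, fun _ _ => (mem_filter.mp hc).2⟩
    · by_cases hne : Nonempty C
      · exact ⟨hne.some, fun h1 h2 => absurd ⟨h1, h2⟩ hv⟩
      · exfalso
        -- there is a colour, since `x i` is an edge
        have h1 := h.star i (fun e => h.hxK (e ▸ hi))
        rw [if_pos hi] at h1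
        unfold mult at h1
        obtain ⟨c, _⟩ := card_pos.mp (by omega : 0 < (univ.filter (fun c => s.nb c x = i)).card)
        exact hne ⟨c⟩
  choose f hf using key
  exact ⟨f, hf⟩

/-- (PL1), with the state obtained by executing the path. -/
theorem Stuck.PL1 {b : Bool} (h : Stuck s x K b) {i : V} (hi : i ∈ K) {c : C}
    (hc : c ∈ s.cN x K b) (hci : c ∈ s.tok i) {f : V → C}
    (hf : ∀ v ∈ K, v ≠ i → s.nb (f v) i = v) {e : C} (he : e ∈ s.cE x K b) :
    ∃ g ∈ s.cM x K b, ReflTransGen (s.stp x i f) e g ∧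
      ∃ u : MC V C, Stuck u x K b ∧ g ∈ u.tok i ∧
        (∀ d, d ∈ u.cM x K b ↔ d = c ∨ (d ∈ s.cM x K b ∧ d ≠ g)) ∧
        (∀ d, d ∈ u.cN x K b ↔ d = e ∨ (d ∈ s.cN x K b ∧ d ≠ c)) ∧
        (∀ d, d ∈ u.cE x K b ↔ d = g ∨ (d ∈ s.cE x K b ∧ d ≠ e)) ∧
        (∀ d, d ≠ c → d ≠ e → ¬ ReflTransGen (s.stp x i f) e d → ∀ v, u.nb d v = s.nb d v) ∧
        u.nb e i = s.nb e i := by
  obtain ⟨_, S1, M1, N1, E1, F1', _, nbc, nbe, tok1⟩ := h.Xmove hc he
  have hix : i ∉ s.comp c e x := fun hm => (h.F1 hc he hi hm).1 hci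
  have nbi : ∀ d, (s.swap c e (s.comp c e x) (s.comp_closed c e x)).nb d i = s.nb d i :=
    fun d => swap_nb_of_notMem _ d hix
  have nbo : ∀ d, d ≠ c → d ≠ e → ∀ v,
      (s.swap c e (s.comp c e x) (s.comp_closed c e x)).nb d v = s.nb d v :=
    fun d h1 h2 v => swap_nb_of_ne _ h1 h2 v
  generalize s.swap c e (s.comp c e x) (s.comp_closed c e x) = s₁ at *
  have hci1 : c ∈ s₁.tok i := by rw [tok1 i hi]; exact hci
  have hf1 : ∀ v ∈ K, v ≠ i → s₁.nb (f v) i = v := fun v hv hvi => by rw [nbi]; exact hf v hv hvi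
  obtain ⟨g, hgS, hgx, u, hsame, hodd, hcnt, htx, hti, hto, hnb1, hnb2, hP⟩ :=
    (S1.rowData hi hf1).row_switch hci1
  have hcE1 : c ∈ s₁.cE x K b := by rw [E1]; exact mem_insert_self _ _
  have hcE1' := mem_cE.mp hcE1
  have hoddZ : u.odd (insert x K) = s₁.odd (insert x K) :=
    hodd _ (mem_insert_self _ _) (mem_insert_of_mem hi)
  have hce : c ≠ e := fun h' => by
    have h1 := mem_cN.mp hc
    have h2 := mem_cE.mp he
    rw [h'] at h1
    exact h2.1 h1.1
  have hgM1 : g ∈ s₁.cM x K b := by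
    by_contra hgM
    have hgb : ¬ (g ∈ s₁.odd (insert x K) ↔ b = true) := fun h' => hgM (mem_cM.mpr ⟨hgx, h'⟩)
    have h1 : u.cM x K b = insert c (s₁.cM x K b) := by
      ext d
      rw [mem_cM, htx, hoddZ, mem_insert, mem_cM]
      constructor
      · rintro ⟨h1 | h1, h2⟩
        · exact Or.inl h1
        · exact Or.inr ⟨h1.1, h2⟩
      · rintro (h1 | h1)
        · rw [h1]; exact ⟨Or.inl rfl, hcE1'.2⟩
        · refine ⟨Or.inr ⟨h1.1, ?_⟩, h1.2⟩
          rintro rfl
          exact hgb h1.2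
    apply S1.max u hsame (by rw [hoddZ])
    rw [h1, card_insert_of_notMem (fun h' => hcE1'.1 (mem_cM.mp h').1)]
  have hgM : g ∈ s.cM x K b := by rw [← M1]; exact hgM1
  have hgb := (mem_cM.mp hgM1).2
  have hcg : c ≠ g := fun h' => hcE1'.1 (h' ▸ hgx)
  have hMu : ∀ d, d ∈ u.cM x K b ↔ d = c ∨ (d ∈ s.cM x K b ∧ d ≠ g) := by
    intro d
    rw [mem_cM, htx, hoddZ, ← M1, mem_cM]
    constructor
    · rintro ⟨h1 | h1, h2⟩
      · exact Or.inl h1
      · exact Or.inr ⟨⟨h1.1, h2⟩, h1.2⟩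
    · rintro (h1 | h1)
      · rw [h1]; exact ⟨Or.inl rfl, hcE1'.2⟩
      · exact ⟨Or.inr ⟨h1.1.1, h1.2⟩, h1.1.2⟩
  have hMu' : u.cM x K b = insert c ((s₁.cM x K b).erase g) := by
    ext d
    rw [hMu, mem_insert, mem_erase, M1, and_comm]
  have hEu : Eqv s₁ u x K b := by
    refine ⟨hsame, by rw [hoddZ], ?_⟩
    rw [hMu', card_insert_of_notMem, card_erase_of_mem hgM1]
    · have := card_pos.mpr ⟨g, hgM1⟩
      omega
    · intro h'
      exact hcE1'.1 (mem_cM.mp (mem_erase.mp h').2).1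
  have hne_xe : s.nb e x ≠ x := h.nb_ne (mem_cE.mp he).1
  have hne_ie : s.nb e x ≠ i := by
    intro h'
    have h1 := mem_cF.mp (h.F2 hc hi hci h')
    exact h1.2 (mem_cE.mp he).2
  -- the trails
  have hpath : ∀ d, ReflTransGen (s₁.stp x i f) c d → d ≠ c → ReflTransGen (s.stp x i f) e d := by
    intro d hd
    induction hd with
    | refl => intro h'; exact absurd rfl h'
    | tail h1 h2 ih =>
      rename_i m d
      intro _
      by_cases hmc : m = c
      · subst hmc
        refine ReflTransGen.single ⟨hne_xe, hne_ie, ?_⟩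
        rw [h2.2.2, nbc]
      · have hme : m ≠ e := by
          rintro rfl
          exact h2.1 nbe
        refine (ih hmc).tail ?_
        obtain ⟨k1, k2, k3⟩ := h2
        rw [nbo m hmc hme] at k1 k2 k3
        exact ⟨k1, k2, k3⟩
  have heS : e ∉ s₁.trail x i f c := by
    intro h'
    have h1 := term_unique (mem_trail.mp h') (mem_trail.mp hgS) nbe (nb_of_tok hgx)
    rw [← h1] at hgM
    exact (mem_cE.mp he).1 (mem_cM.mp hgM).1
  refine ⟨g, hgM, hpath g (mem_trail.mp hgS) hcg.symm, u, S1.of_eqv hEu, ?_, hMu, ?_, ?_, ?_, ?_⟩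
  · rw [hti]; exact Or.inl rfl
  · intro d
    have h1 : d ∈ s₁.cN x K b ↔ d = e ∨ (d ∈ s.cN x K b ∧ d ≠ c) := by
      rw [N1, mem_insert, mem_erase]; tauto
    rw [← h1, mem_cN, mem_cN, htx, hoddZ]
    constructor
    · rintro ⟨h2 | h2, h3⟩
      · rw [h2] at h3; exact absurd hcE1'.2 h3
      · exact ⟨h2.1, h3⟩
    · rintro ⟨h2, h3⟩
      refine ⟨Or.inr ⟨h2, ?_⟩, h3⟩
      rintro rfl
      exact h3 hgb
  · intro d
    rw [mem_cE, htx, hoddZ]
    have h1 : (d ∈ s.cE x K b ∧ d ≠ e) ↔ d ≠ c ∧ d ∈ s₁.cE x K b := by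
      rw [E1, mem_insert, mem_erase]
      constructor
      · rintro ⟨h2, h3⟩
        refine ⟨?_, Or.inr ⟨h3, h2⟩⟩
        rintro rfl
        exact (mem_cE.mp h2).1 (mem_cN.mp hc).1
      · rintro ⟨h2, h3 | h3⟩
        · exact absurd h3 h2
        · exact ⟨h3.2, h3.1⟩
    rw [h1, mem_cE]
    constructor
    · rintro ⟨h2, h3⟩
      by_cases hdg : d = g
      · exact Or.inl hdg
      · refine Or.inr ⟨fun h' => h2 (Or.inl h'), fun h' => h2 (Or.inr ⟨h', hdg⟩), h3⟩
    · rintro (rfl | ⟨h2, h3, h4⟩)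
      · refine ⟨?_, hgb⟩
        rintro (h2 | h2)
        · exact hcg h2.symm
        · exact h2.2 rfl
      · refine ⟨?_, h4⟩
        rintro (h5 | h5)
        · exact h2 h5
        · exact h3 h5.1
  · intro d h1 h2 h3 v
    rw [hnb1 d (fun h' => h3 (hpath d (mem_trail.mp h') h1)), nbo d h1 h2]
  · rw [hnb1 e heS, nbi]

/-- (PL2) -/
theorem Stuck.PL2 {b : Bool} (h : Stuck s x K b) (hN : 2 ≤ (s.cN x K b).card) {i : V}
    (hi : i ∈ K) {c : C} (hc : c ∈ s.cN x K b) (hci : c ∈ s.tok i) {f : V → C}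
    (hf : ∀ v ∈ K, v ≠ i → s.nb (f v) i = v) {e e' : C} (he : e ∈ s.cE x K b)
    (he' : e' ∈ s.cE x K b) (hne : e ≠ e') (hr : ReflTransGen (s.stp x i f) e e') : False := by
  obtain ⟨g, hg, hreach, u, hu, hgi, hM, hN', hE, hnb, hnbe⟩ := h.PL1 hi hc hci hf he'
  have hgx : g ∈ s.tok x := (mem_cM.mp hg).1
  have hacyc : ¬ TransGen (s.stp x i f) e' e' := no_cycle hreach (nb_of_tok hgx)
  obtain ⟨β, hβ, hβc⟩ := exists_mem_ne (by omega : 1 < (s.cN x K b).card) c
  have hβx : β ∈ s.tok x := (mem_cN.mp hβ).1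
  have hcx : c ∈ s.tok x := (mem_cN.mp hc).1
  have he'x : e' ∉ s.tok x := (mem_cE.mp he').1
  have hβu : β ∈ u.cN x K b := (hN' β).mpr (Or.inr ⟨hβ, hβc⟩)
  have hgu : g ∈ u.cE x K b := (hE g).mpr (Or.inl rfl)
  obtain ⟨u', hu', hβi, hβu', hM', hN'', hE', hnb'⟩ : ∃ u' : MC V C, Stuck u' x K b ∧
      β ∈ u'.tok i ∧ β ∈ u'.cN x K b ∧ u'.cM x K b = u.cM x K b ∧
      u'.cN x K b = u.cN x K b ∧ u'.cE x K b = u.cE x K b ∧
      (∀ d, d ≠ β → d ≠ g → ∀ v, u'.nb d v = u.nb d v) := by
    by_cases hβi : β ∈ u.tok i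
    · exact ⟨u, hu, hβi, hβu, rfl, rfl, rfl, fun _ _ _ _ => rfl⟩
    · have hx : x ∉ u.comp β g i := by
        intro h'
        exact (hu.F1 hβu hgu hi (mem_comp_symm h')).2 hgi
      obtain ⟨_, k1, _, _, _, k2, k3, k4, _, _⟩ :=
        hu.Vmove hβu hgu (u.comp_closed β g i) hx
      refine ⟨_, k1, ?_, by rw [k3]; exact hβu, k2, k3, k4, ?_⟩
      · rw [mem_tok_swap, if_pos (self_mem_comp _ _ _ _), Equiv.swap_apply_left]
        exact hgi
      · intro d h1 h2 v
        exact swap_nb_of_ne _ h1 h2 v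
  obtain ⟨f₀, hf₀⟩ := hu'.exists_row hi
  set f' : V → C := fun v => if u'.nb (f v) i = v then f v else f₀ v with hf'
  have hf'1 : ∀ v ∈ K, v ≠ i → u'.nb (f' v) i = v := by
    intro v hv hvi
    simp only [hf']
    split_ifs with h1
    · exact h1
    · exact hf₀ v hv hvi
  have he_u' : e ∈ u'.cE x K b := by rw [hE', hE]; exact Or.inr ⟨he, hne⟩
  obtain ⟨g', hg', hreach', _⟩ := hu'.PL1 hi hβu' hβi hf'1 he_u'
  have hR := h.rowData hi hf
  -- the path from `e` to `e'` is also a path in `u'`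
  have key : ∀ d, ReflTransGen (s.stp x i f) e d → ReflTransGen (s.stp x i f) d e' →
      ReflTransGen (u'.stp x i f') e d := by
    intro d hd
    induction hd with
    | refl => intro _; exact ReflTransGen.refl
    | tail h1 h2 ih =>
      rename_i m d
      intro h3
      have h4 := ih (ReflTransGen.head h2 h3)
      refine h4.tail ?_
      have hmx : m ∉ s.tok x := stp_not_tok h2
      have hmR : ¬ ReflTransGen (s.stp x i f) e' m := by
        intro h5
        exact hacyc (TransGen.trans_left (TransGen.tail' h5 h2) h3)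
      have hmc : m ≠ c := fun h' => hmx (h' ▸ hcx)
      have hmβ : m ≠ β := fun h' => hmx (h' ▸ hβx)
      have hmg : m ≠ g := fun h' => hmx (h' ▸ hgx)
      have hme : m ≠ e' := fun h' => hmR (h' ▸ ReflTransGen.refl)
      have hm : ∀ v, u'.nb m v = s.nb m v := fun v => by
        rw [hnb' m hmβ hmg, hnb m hmc hme hmR]
      obtain ⟨k1, k2, k3⟩ := h2
      have hdi : s.nb d i = s.nb m x := hR.nb_i_of_stp ⟨k1, k2, k3⟩
      have hd' : u'.nb d i = s.nb d i := by
        by_cases hde : d = e'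
        · subst hde
          rw [hnb' d (fun h' => he'x (h' ▸ hβx)) (fun h' => he'x (h' ▸ hgx)), hnbe]
        · rcases ReflTransGen.cases_head h3 with h5 | ⟨d', h5, h6⟩
          · exact absurd h5 hde
          · have hdx : d ∉ s.tok x := stp_not_tok h5
            have hdR : ¬ ReflTransGen (s.stp x i f) e' d := by
              intro h7
              exact hacyc (TransGen.trans_left (TransGen.tail' h7 h5) h6)
            rw [hnb' d (fun h' => hdx (h' ▸ hβx)) (fun h' => hdx (h' ▸ hgx)),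
              hnb d (fun h' => hdx (h' ▸ hcx)) hde hdR]
      refine ⟨by rw [hm]; exact k1, by rw [hm]; exact k2, ?_⟩
      simp only [hf']
      rw [hm, ← k3, hd', hdi, if_pos rfl]
  have h1 := key e' hr ReflTransGen.refl
  have he'N : e' ∈ u'.cN x K b := by rw [hN'', hN']; exact Or.inl rfl
  have h2 := term_unique h1 hreach' (nb_of_tok (mem_cN.mp he'N).1) (nb_of_tok (mem_cM.mp hg').1)
  rw [← h2] at hg'
  exact (mem_cN.mp he'N).2 (mem_cM.mp hg').2

/-- **(PL)** -/
theorem Stuck.PL {b : Bool} (h : Stuck s x K b) (hN : 2 ≤ (s.cN x K b).card) {i : V}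
    (hi : i ∈ K) {c : C} (hc : c ∈ s.cN x K b) (hci : c ∈ s.tok i) :
    (s.cE x K b).card ≤ (s.cM x K b).card := by
  obtain ⟨f, hf⟩ := h.exists_row hi
  have hex : ∀ e : C, ∃ g : C, e ∈ s.cE x K b →
      g ∈ s.cM x K b ∧ ReflTransGen (s.stp x i f) e g := by
    intro e
    by_cases he : e ∈ s.cE x K b
    · obtain ⟨g, h1, h2, _⟩ := h.PL1 hi hc hci hf he
      exact ⟨g, fun _ => ⟨h1, h2⟩⟩
    · exact ⟨e, fun h' => absurd h' he⟩
  choose G hG using hex
  have hleft : Relator.RightUnique (Function.swap (s.stp x i f)) := by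
    intro a b c h1 h2
    exact (h.rowData hi hf).stp_inj h1 h2
  apply card_le_card_of_injOn G
  · intro e he
    exact (hG e he).1
  · intro e he e' he' hee
    by_contra hne
    have h1 := (hG e he).2
    have h2 := (hG e' he').2
    rw [← hee] at h2
    have h1' : ReflTransGen (Function.swap (s.stp x i f)) (G e) e := reflTransGen_swap.mpr h1
    have h2' : ReflTransGen (Function.swap (s.stp x i f)) (G e) e' := reflTransGen_swap.mpr h2
    rcases ReflTransGen.total_of_right_unique hleft h1' h2' with h3 | h3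
    · exact h.PL2 hN hi hc hci hf he' he (Ne.symm hne) (reflTransGen_swap.mp h3)
    · exact h.PL2 hN hi hc hci hf he he' hne (reflTransGen_swap.mp h3)

end MC

end

end Pool.Agent.Lib.P3f3a3b
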