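import Pool.Agent.Lib.P3f3a3b.MCDefs

/-!
Basic properties of stuck states: the facts (F1), (X), (V), (F2), (DIR).
-/

set_option autoImplicit false
set_option linter.unusedSectionVars false
set_option linter.unusedVariables false

namespace Pool.Agent.Lib.P3f3a3b

open Finset
open scoped Classical

noncomputable section

variable {V C : Type*} [Fintype V] [Fintype C]

namespace MC

variable {s s' s'' : MC V C} {x : V} {K : Finset V} {b : Bool}

/-! ### classes -/

theorem mem_cls {Z : Finset V} {c : C} : c ∈ s.cls Z b ↔ (c ∈ s.odd Z ↔ b = true) := by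
  simp [cls]

theorem mem_cM {c : C} : c ∈ s.cM x K b ↔ c ∈ s.tok x ∧ (c ∈ s.odd (insert x K) ↔ b = true) := by
  rw [cM, mem_inter, mem_cls]

theorem mem_cN {c : C} : c ∈ s.cN x K b ↔ c ∈ s.tok x ∧ ¬ (c ∈ s.odd (insert x K) ↔ b = true) := by
  rw [cN, mem_sdiff, mem_cls]

theorem mem_cE {c : C} : c ∈ s.cE x K b ↔ c ∉ s.tok x ∧ (c ∈ s.odd (insert x K) ↔ b = true) := by
  rw [cE, mem_sdiff, mem_cls, and_comm]

theorem mem_cF {c : C} : c ∈ s.cF x K b ↔ c ∉ s.tok x ∧ ¬ (c ∈ s.odd (insert x K) ↔ b = true) := by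
  rw [cF, mem_compl, mem_union, mem_cls]
  tauto

/-- Every colour is in exactly one of the four sets. -/
theorem four (s : MC V C) (x : V) (K : Finset V) (b : Bool) (c : C) :
    (c ∈ s.cM x K b ∧ c ∉ s.cN x K b ∧ c ∉ s.cE x K b ∧ c ∉ s.cF x K b) ∨
    (c ∉ s.cM x K b ∧ c ∈ s.cN x K b ∧ c ∉ s.cE x K b ∧ c ∉ s.cF x K b) ∨
    (c ∉ s.cM x K b ∧ c ∉ s.cN x K b ∧ c ∈ s.cE x K b ∧ c ∉ s.cF x K b) ∨
    (c ∉ s.cM x K b ∧ c ∉ s.cN x K b ∧ c ∉ s.cE x K b ∧ c ∈ s.cF x K b) := by
  rw [mem_cM, mem_cN, mem_cE, mem_cF]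
  by_cases h1 : c ∈ s.tok x <;> by_cases h2 : (c ∈ s.odd (insert x K) ↔ b = true) <;>
    simp [h1, h2]

theorem mem_odd_insert (hxK : x ∉ K) {c : C} : c ∈ s.odd (insert x K) ↔
    Odd (s.cnt K c + if c ∈ s.tok x then 1 else 0) := by
  rw [mem_odd, cnt_insert hxK]

/-- `c ∈ cM`, counted on `K`. -/
theorem cnt_of_cM_false (hxK : x ∉ K) {c : C} (h : c ∈ s.cM x K false) : Odd (s.cnt K c) := by
  rw [mem_cM, mem_odd_insert hxK] at h
  rw [if_pos h.1] at h
  have h2 : ¬ Odd (s.cnt K c + 1) := fun h3 => by simpa using h.2.mp h3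
  rw [Nat.odd_iff] at *
  omega

theorem cnt_of_cN_false (hxK : x ∉ K) {c : C} (h : c ∈ s.cN x K false) : Even (s.cnt K c) := by
  rw [mem_cN, mem_odd_insert hxK] at h
  rw [if_pos h.1] at h
  have h2 : Odd (s.cnt K c + 1) := by
    by_contra h3; exact h.2 ⟨fun h4 => absurd h4 h3, fun h4 => by simp at h4⟩
  rw [Nat.odd_iff] at h2
  rw [Nat.even_iff]
  omega

theorem cnt_of_cE_false (hxK : x ∉ K) {c : C} (h : c ∈ s.cE x K false) : Even (s.cnt K c) := by
  rw [mem_cE, mem_odd_insert hxK] at h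
  rw [if_neg h.1] at h
  have h2 : ¬ Odd (s.cnt K c + 0) := fun h3 => by simpa using h.2.mp h3
  rw [Nat.odd_iff] at h2
  rw [Nat.even_iff]
  omega

theorem cnt_of_cF_false (hxK : x ∉ K) {c : C} (h : c ∈ s.cF x K false) : Odd (s.cnt K c) := by
  rw [mem_cF, mem_odd_insert hxK] at h
  rw [if_neg h.1] at h
  have h2 : Odd (s.cnt K c + 0) := by
    by_contra h3; exact h.2 ⟨fun h4 => absurd h4 h3, fun h4 => by simp at h4⟩
  exact h2

theorem cnt_of_cM_true (hxK : x ∉ K) {c : C} (h : c ∈ s.cM x K true) : Even (s.cnt K c) := by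
  rw [mem_cM, mem_odd_insert hxK] at h
  rw [if_pos h.1] at h
  have h2 : Odd (s.cnt K c + 1) := h.2.mpr rfl
  rw [Nat.odd_iff] at h2
  rw [Nat.even_iff]
  omega

theorem cnt_of_cN_true (hxK : x ∉ K) {c : C} (h : c ∈ s.cN x K true) : Odd (s.cnt K c) := by
  rw [mem_cN, mem_odd_insert hxK] at h
  rw [if_pos h.1] at h
  have h2 : ¬ Odd (s.cnt K c + 1) := fun h3 => h.2 ⟨fun _ => rfl, fun _ => h3⟩
  rw [Nat.odd_iff] at *
  omega

theorem cnt_of_cE_true (hxK : x ∉ K) {c : C} (h : c ∈ s.cE x K true) : Odd (s.cnt K c) := by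
  rw [mem_cE, mem_odd_insert hxK] at h
  rw [if_neg h.1] at h
  exact h.2.mpr rfl

theorem cnt_of_cF_true (hxK : x ∉ K) {c : C} (h : c ∈ s.cF x K true) : Even (s.cnt K c) := by
  rw [mem_cF, mem_odd_insert hxK] at h
  rw [if_neg h.1] at h
  have h2 : ¬ Odd (s.cnt K c + 0) := fun h3 => h.2 ⟨fun _ => rfl, fun _ => h3⟩
  rw [Nat.odd_iff] at h2
  rw [Nat.even_iff]
  omega

/-! ### equivalent states -/

theorem Eqv.refl (s : MC V C) (x : V) (K : Finset V) (b : Bool) : Eqv s s x K b :=
  ⟨Same.refl s, rfl, rfl⟩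

theorem Eqv.trans (h : Eqv s s' x K b) (h' : Eqv s' s'' x K b) : Eqv s s'' x K b :=
  ⟨h.same.trans h'.same, h'.odd.trans h.odd, h'.lev.trans h.lev⟩

theorem Eqv.symm (h : Eqv s s' x K b) : Eqv s' s x K b :=
  ⟨h.same.symm, h.odd.symm, h.lev.symm⟩

/-- The number of colours in the class. -/
theorem card_cls (s : MC V C) (Z : Finset V) (b : Bool) :
    (s.cls Z b).card = if b = true then (s.odd Z).card else Fintype.card C - (s.odd Z).card := by
  cases b
  · have h : s.cls Z false = (s.odd Z)ᶜ := by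
      ext c; rw [mem_cls, mem_compl]; simp
    rw [h, card_compl]; simp
  · have h : s.cls Z true = s.odd Z := by
      ext c; rw [mem_cls]; simp
    rw [h]; simp

theorem card_cM_add_cN (s : MC V C) (x : V) (K : Finset V) (b : Bool) :
    (s.cM x K b).card + (s.cN x K b).card = (s.tok x).card := by
  rw [cM, cN, add_comm]; exact card_sdiff_add_card_inter _ _

theorem card_cM_add_cE (s : MC V C) (x : V) (K : Finset V) (b : Bool) :
    (s.cM x K b).card + (s.cE x K b).card = (s.cls (insert x K) b).card := by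
  rw [cM, cE, add_comm, inter_comm]; exact card_sdiff_add_card_inter _ _

theorem card_four (s : MC V C) (x : V) (K : Finset V) (b : Bool) :
    (s.cM x K b).card + (s.cN x K b).card + (s.cE x K b).card + (s.cF x K b).card =
      Fintype.card C := by
  have h1 : (s.cls (insert x K) b ∪ s.tok x).card + (s.cF x K b).card = Fintype.card C := by
    rw [cF, card_add_card_compl]
  have h2 := card_union_add_card_inter (s.cls (insert x K) b) (s.tok x)
  have h3 := s.card_cM_add_cN x K b
  have h4 := s.card_cM_add_cE x K b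
  have h5 : (s.cls (insert x K) b ∩ s.tok x).card = (s.cM x K b).card := by
    rw [cM, inter_comm]
  omega

theorem Eqv.card_cls (h : Eqv s s' x K b) :
    (s'.cls (insert x K) b).card = (s.cls (insert x K) b).card := by
  rw [MC.card_cls, MC.card_cls, h.odd]

theorem Eqv.card_cN (h : Eqv s s' x K b) : (s'.cN x K b).card = (s.cN x K b).card := by
  have h1 := s.card_cM_add_cN x K b
  have h2 := s'.card_cM_add_cN x K b
  have h3 := h.same.card_tok x
  have h4 := h.lev
  omega

theorem Eqv.card_cE (h : Eqv s s' x K b) : (s'.cE x K b).card = (s.cE x K b).card := by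
  have h1 := s.card_cM_add_cE x K b
  have h2 := s'.card_cM_add_cE x K b
  have h3 := h.card_cls
  have h4 := h.lev
  omega

theorem Eqv.card_cF (h : Eqv s s' x K b) : (s'.cF x K b).card = (s.cF x K b).card := by
  have h1 := s.card_four x K b
  have h2 := s'.card_four x K b
  have h3 := h.card_cN
  have h4 := h.card_cE
  have h5 := h.lev
  omega

theorem Stuck.of_eqv (h : Stuck s x K b) (he : Eqv s s' x K b) : Stuck s' x K b where
  hxK := h.hxK
  star w hw := by rw [he.same.1 x w (Ne.symm hw), h.star w hw]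
  clique u hu w hw huw := by rw [he.same.1 u w huw]; exact h.clique u hu w hw huw
  Px := by
    have := he.same.2 x
    rw [h.Px, card_empty] at this
    exact card_eq_zero.mp this
  max s'' hs hodd hlev := h.max s'' (he.same.trans hs) (hodd.trans he.odd) (by
    rw [hlev, he.lev])

/-! ### the star of `x` -/

theorem Stuck.mem_tok_x (h : Stuck s x K b) {e : C} : e ∈ s.tok x ↔ s.nb e x = x := by
  rw [mem_tok, h.Px]; simp

theorem Stuck.nb_ne (h : Stuck s x K b) {e : C} (he : e ∉ s.tok x) : s.nb e x ≠ x :=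
  fun h' => he (h.mem_tok_x.mpr h')

/-- A colour which is not a token of `x` leads to `K`. -/
theorem Stuck.nb_mem (h : Stuck s x K b) {e : C} (he : e ∉ s.tok x) : s.nb e x ∈ K := by
  by_contra hK
  have h1 := h.star _ (h.nb_ne he)
  rw [if_neg hK] at h1
  unfold mult at h1
  rw [card_eq_zero] at h1
  have : e ∈ univ.filter (fun c => s.nb c x = s.nb e x) := by simp
  rw [h1] at this
  simp at this

/-- The edges `x w` are simple. -/
theorem Stuck.nb_x_inj (h : Stuck s x K b) {e e' : C} (he : e ∉ s.tok x)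
    (h' : s.nb e x = s.nb e' x) : e = e' := by
  have h1 := h.star _ (h.nb_ne he)
  rw [if_pos (h.nb_mem he)] at h1
  unfold mult at h1
  rw [card_eq_one] at h1
  obtain ⟨d, hd⟩ := h1
  have h2 : e ∈ univ.filter (fun c => s.nb c x = s.nb e x) := by simp
  have h3 : e' ∈ univ.filter (fun c => s.nb c x = s.nb e x) := by simp [h']
  rw [hd, mem_singleton] at h2 h3
  rw [h2, h3]

theorem Stuck.exists_col (h : Stuck s x K b) {w : V} (hw : w ∈ K) :
    ∃ e, e ∉ s.tok x ∧ s.nb e x = w := by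
  have hwx : w ≠ x := fun h' => h.hxK (h' ▸ hw)
  have h1 := h.star _ hwx
  rw [if_pos hw] at h1
  unfold mult at h1
  rw [card_eq_one] at h1
  obtain ⟨d, hd⟩ := h1
  have h2 : d ∈ univ.filter (fun c => s.nb c x = w) := by rw [hd]; simp
  rw [mem_filter] at h2
  refine ⟨d, fun h3 => hwx ?_, h2.2⟩
  rw [← h2.2, nb_of_tok h3]

theorem Stuck.mem_yk (h : Stuck s x K b) {w : V} :
    w ∈ s.yk x K b ↔ ∃ e ∈ s.cE x K b, s.nb e x = w := by
  rw [yk, mem_image]

/-- `w ∈ K` is in `yk` iff the colour of the edge `x w` is in `cE`. -/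
theorem Stuck.mem_yk_iff (h : Stuck s x K b) {e : C} (he : e ∉ s.tok x) :
    s.nb e x ∈ s.yk x K b ↔ e ∈ s.cE x K b := by
  rw [h.mem_yk]
  constructor
  · rintro ⟨e', h1, h2⟩
    rw [h.nb_x_inj he h2.symm]; exact h1
  · intro h1; exact ⟨e, h1, rfl⟩

theorem notMem_of_cE {e : C} (he : e ∈ s.cE x K b) : e ∉ s.tok x := (mem_cE.mp he).1

theorem Stuck.yk_sub (h : Stuck s x K b) : s.yk x K b ⊆ K := by
  intro w hw
  rw [h.mem_yk] at hw
  obtain ⟨e, he, rfl⟩ := hw
  exact h.nb_mem (notMem_of_cE he)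

theorem Stuck.card_yk (h : Stuck s x K b) : (s.yk x K b).card = (s.cE x K b).card := by
  rw [yk, card_image_of_injOn]
  intro e he e' he' hee
  exact h.nb_x_inj (notMem_of_cE he) hee

theorem Stuck.card_K (h : Stuck s x K b) : (s.cE x K b).card + (s.cF x K b).card = K.card := by
  have h1 : ((s.tok x)ᶜ).card = K.card := by
    have h2 : ((s.tok x)ᶜ).image (fun e => s.nb e x) = K := by
      ext w
      rw [mem_image]
      constructor
      · rintro ⟨e, he, rfl⟩
        exact h.nb_mem (mem_compl.mp he)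
      · intro hw
        obtain ⟨e, he, he'⟩ := h.exists_col hw
        exact ⟨e, mem_compl.mpr he, he'⟩
    rw [← h2, card_image_of_injOn]
    intro e he e' he' hee
    exact h.nb_x_inj (mem_compl.mp he) hee
  have h3 := card_add_card_compl (s.tok x)
  have h4 := s.card_four x K b
  have h5 := s.card_cM_add_cN x K b
  omega

/-! ### Kempe swaps -/

theorem comp_subset {c e : C} {S : Finset V} (hS : s.Closed c e S) {v : V} (hv : v ∈ S) :
    s.comp c e v ⊆ S := by
  intro u hu
  rw [mem_comp] at hu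
  induction hu with
  | refl => exact hv
  | tail _ hbc ih =>
    rcases hbc with h | h
    · rw [h]; exact (hS _ ih).1
    · rw [h]; exact (hS _ ih).2

theorem comp_disjoint_of_notMem {c e : C} {S : Finset V} (hS : s.Closed c e S) {v : V}
    (hv : v ∉ S) : Disjoint S (s.comp c e v) := by
  rw [disjoint_left]
  intro w hw hw'
  exact hv (comp_subset hS hw (mem_comp_symm hw'))

/-- The tokens of `x` after a swap of a set containing `x`. -/
theorem tok_swap_mem {c e : C} {S : Finset V} (hS : s.Closed c e S) {v : V} (hv : v ∈ S)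
    (hc : c ∈ s.tok v) (he : e ∉ s.tok v) :
    (s.swap c e S hS).tok v = insert e ((s.tok v).erase c) := by
  ext d
  rw [mem_tok_swap, if_pos hv, mem_insert, mem_erase]
  by_cases h1 : d = c
  · rw [h1, Equiv.swap_apply_left]
    have : c ≠ e := fun h => he (h ▸ hc)
    tauto
  · by_cases h2 : d = e
    · rw [h2, Equiv.swap_apply_right]; tauto
    · rw [Equiv.swap_apply_of_ne_of_ne h1 h2]; tauto

theorem tok_swap_mem' {c e : C} {S : Finset V} (hS : s.Closed c e S) {v : V} (hv : v ∈ S)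
    (hc : c ∉ s.tok v) (he : e ∈ s.tok v) :
    (s.swap c e S hS).tok v = insert c ((s.tok v).erase e) := by
  ext d
  rw [mem_tok_swap, if_pos hv, mem_insert, mem_erase]
  by_cases h1 : d = c
  · rw [h1, Equiv.swap_apply_left]; tauto
  · by_cases h2 : d = e
    · rw [h2, Equiv.swap_apply_right]
      have : c ≠ e := fun h => hc (h ▸ he)
      constructor
      · intro h3; exact absurd h3 hc
      · rintro (h3 | h3)
        · exact absurd h3.symm this
        · exact absurd rfl h3.1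
    · rw [Equiv.swap_apply_of_ne_of_ne h1 h2]; tauto

theorem tok_swap_of_notMem {c e : C} {S : Finset V} (hS : s.Closed c e S) {v : V}
    (hv : v ∉ S) : (s.swap c e S hS).tok v = s.tok v := by
  ext d; rw [mem_tok_swap, if_neg hv]

theorem tok_swap_none {c e : C} {S : Finset V} (hS : s.Closed c e S) {v : V}
    (hc : c ∉ s.tok v) (he : e ∉ s.tok v) : (s.swap c e S hS).tok v = s.tok v := by
  ext d
  rw [mem_tok_swap]
  by_cases hv : v ∈ S
  · rw [if_pos hv]
    by_cases h1 : d = c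
    · rw [h1, Equiv.swap_apply_left]; tauto
    · by_cases h2 : d = e
      · rw [h2, Equiv.swap_apply_right]; tauto
      · rw [Equiv.swap_apply_of_ne_of_ne h1 h2]
  · rw [if_neg hv]

/-- In a stuck state the swap of a closed set containing `x` has an odd number of ends. -/
theorem Stuck.not_even (h : Stuck s x K b) {c e : C} (hc : c ∈ s.cN x K b)
    (he : e ∈ s.cE x K b) {S : Finset V} (hS : s.Closed c e S) (hx : x ∈ S) :
    ¬ Even (s.ends (insert x K) c e S) := by
  intro hev
  rw [mem_cN] at hc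
  rw [mem_cE] at he
  have hce : c ≠ e := fun h => he.1 (h ▸ hc.1)
  have hodd := odd_swap_of_even hS (insert x K) hev
  apply h.max (s.swap c e S hS) (swap_same hS) (by rw [hodd])
  have h1 : (s.swap c e S hS).cM x K b = insert e (s.cM x K b) := by
    ext d
    rw [mem_cM, hodd, tok_swap_mem hS hx hc.1 he.1, mem_insert, mem_insert, mem_erase, mem_cM]
    constructor
    · rintro ⟨h1 | h1, h2⟩
      · exact Or.inl h1
      · exact Or.inr ⟨h1.2, h2⟩
    · rintro (h1 | h1)
      · rw [h1]; exact ⟨Or.inl rfl, he.2⟩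
      · refine ⟨Or.inr ⟨?_, h1.1⟩, h1.2⟩
        intro h2; rw [h2] at h1; exact hc.2 h1.2
  rw [h1, card_insert_of_notMem]
  rw [mem_cM]; exact fun h2 => he.1 h2.1

theorem Stuck.ends_x (h : Stuck s x K b) {c e : C} (hc : c ∈ s.cN x K b)
    (he : e ∈ s.cE x K b) : s.ends (insert x K) c e (s.comp c e x) = 1 := by
  have h1 := h.not_even hc he (s.comp_closed c e x) (s.self_mem_comp c e x)
  rw [mem_cN] at hc
  rw [mem_cE] at he
  have hce : c ≠ e := fun h => he.1 (h ▸ hc.1)
  have h2 := ends_comp_le_two (s := s) hce (insert x K) x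
  rw [Nat.even_iff] at h1
  omega

/-- (F1) The `(c,e)`-component of `x` has no other end in `K`. -/
theorem Stuck.F1 (h : Stuck s x K b) {c e : C} (hc : c ∈ s.cN x K b) (he : e ∈ s.cE x K b)
    {v : V} (hv : v ∈ K) (hvS : v ∈ s.comp c e x) : c ∉ s.tok v ∧ e ∉ s.tok v := by
  by_contra hcon
  have hE : s.End c e v := by unfold End; tauto
  have h1 := h.ends_x hc he
  have hvx : v ≠ x := fun h' => h.hxK (h' ▸ hv)
  have h2 := ends_ge_two (mem_insert_of_mem hv) (mem_insert_self x K) hvS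
    (s.self_mem_comp c e x) hvx hE (Or.inl (mem_cN.mp hc).1)
  omega

/-- (F1) All other closed sets have an even number of ends. -/
theorem Stuck.F1_even (h : Stuck s x K b) {c e : C} (hc : c ∈ s.cN x K b)
    (he : e ∈ s.cE x K b) {S : Finset V} (hS : s.Closed c e S) (hx : x ∉ S) :
    Even (s.ends (insert x K) c e S) := by
  by_contra hcon
  rw [Nat.not_even_iff_odd] at hcon
  apply h.not_even hc he (hS.union (s.comp_closed c e x))
    (mem_union_right _ (s.self_mem_comp c e x))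
  rw [ends_union (comp_disjoint_of_notMem hS hx), h.ends_x hc he]
  exact hcon.add_odd odd_one

/-- (V) Swapping a closed set which does not contain `x`. -/
theorem Stuck.Vmove (h : Stuck s x K b) {c e : C} (hc : c ∈ s.cN x K b)
    (he : e ∈ s.cE x K b) {S : Finset V} (hS : s.Closed c e S) (hx : x ∉ S) :
    Eqv s (s.swap c e S hS) x K b ∧ Stuck (s.swap c e S hS) x K b ∧
    (s.swap c e S hS).odd (insert x K) = s.odd (insert x K) ∧
    (s.swap c e S hS).tok x = s.tok x ∧ (∀ d, (s.swap c e S hS).nb d x = s.nb d x) ∧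
    (s.swap c e S hS).cM x K b = s.cM x K b ∧ (s.swap c e S hS).cN x K b = s.cN x K b ∧
    (s.swap c e S hS).cE x K b = s.cE x K b ∧ (s.swap c e S hS).cF x K b = s.cF x K b ∧
    (s.swap c e S hS).yk x K b = s.yk x K b := by
  have hodd := odd_swap_of_even hS (insert x K) (h.F1_even hc he hS hx)
  have htok := tok_swap_of_notMem hS hx
  have hnb : ∀ d, (s.swap c e S hS).nb d x = s.nb d x := fun d => swap_nb_of_notMem hS d hx
  have hM : (s.swap c e S hS).cM x K b = s.cM x K b := by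
    ext d; rw [mem_cM, mem_cM, hodd, htok]
  have hN : (s.swap c e S hS).cN x K b = s.cN x K b := by
    ext d; rw [mem_cN, mem_cN, hodd, htok]
  have hE : (s.swap c e S hS).cE x K b = s.cE x K b := by
    ext d; rw [mem_cE, mem_cE, hodd, htok]
  have hF : (s.swap c e S hS).cF x K b = s.cF x K b := by
    ext d; rw [mem_cF, mem_cF, hodd, htok]
  have heq : Eqv s (s.swap c e S hS) x K b := ⟨swap_same hS, by rw [hodd], by rw [hM]⟩
  refine ⟨heq, h.of_eqv heq, hodd, htok, hnb, hM, hN, hE, hF, ?_⟩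
  unfold yk
  rw [hE]
  apply image_congr
  intro e _
  exact hnb e

/-- The four sets after an exchange of the roles of `c ∈ N` and `e ∈ E`. -/
theorem sets_of_change {c e : C} (hc : c ∈ s.cN x K b) (he : e ∈ s.cE x K b)
    (hct : c ∉ s'.tok x) (het : e ∈ s'.tok x)
    (hcc : (c ∈ s'.odd (insert x K) ↔ b = true))
    (hee : ¬ (e ∈ s'.odd (insert x K) ↔ b = true))
    (hdt : ∀ d, d ≠ c → d ≠ e → (d ∈ s'.tok x ↔ d ∈ s.tok x))
    (hcl : ∀ d, d ≠ c → d ≠ e → (d ∈ s'.odd (insert x K) ↔ d ∈ s.odd (insert x K))) :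
    s'.cM x K b = s.cM x K b ∧ s'.cN x K b = insert e ((s.cN x K b).erase c) ∧
    s'.cE x K b = insert c ((s.cE x K b).erase e) ∧ s'.cF x K b = s.cF x K b := by
  have hc' := mem_cN.mp hc
  have he' := mem_cE.mp he
  have hce : c ≠ e := fun h => he'.1 (h ▸ hc'.1)
  have fc := four s x K b c
  have fe := four s x K b e
  have fc' := four s' x K b c
  have fe' := four s' x K b e
  have c1 : c ∈ s'.cE x K b := mem_cE.mpr ⟨hct, hcc⟩
  have e1 : e ∈ s'.cN x K b := mem_cN.mpr ⟨het, hee⟩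
  refine ⟨?_, ?_, ?_, ?_⟩
  · ext d
    by_cases h1 : d = c
    · rw [h1]
      exact ⟨fun h2 => absurd (mem_cM.mp h2).1 hct, fun h2 => absurd (mem_cM.mp h2).2 hc'.2⟩
    · by_cases h2 : d = e
      · rw [h2]
        exact ⟨fun h2 => absurd (mem_cM.mp h2).2 hee, fun h2 => absurd (mem_cM.mp h2).1 he'.1⟩
      · rw [mem_cM, mem_cM, hdt d h1 h2, hcl d h1 h2]
  · ext d
    rw [mem_insert, mem_erase]
    by_cases h1 : d = c
    · rw [h1]
      exact ⟨fun h2 => absurd (mem_cN.mp h2).1 hct,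
        fun h2 => h2.elim (fun h3 => absurd h3 hce) (fun h3 => absurd rfl h3.1)⟩
    · by_cases h2 : d = e
      · rw [h2]
        exact ⟨fun _ => Or.inl rfl, fun _ => e1⟩
      · rw [mem_cN, mem_cN, hdt d h1 h2, hcl d h1 h2]
        exact ⟨fun h3 => Or.inr ⟨h1, h3⟩, fun h3 => h3.elim (fun h4 => absurd h4 h2)
          (fun h4 => h4.2)⟩
  · ext d
    rw [mem_insert, mem_erase]
    by_cases h1 : d = c
    · rw [h1]
      exact ⟨fun _ => Or.inl rfl, fun _ => c1⟩
    · by_cases h2 : d = e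
      · rw [h2]
        exact ⟨fun h2 => absurd het (mem_cE.mp h2).1,
          fun h2 => h2.elim (fun h3 => absurd h3.symm hce) (fun h3 => absurd rfl h3.1)⟩
      · rw [mem_cE, mem_cE, hdt d h1 h2, hcl d h1 h2]
        exact ⟨fun h3 => Or.inr ⟨h2, h3⟩, fun h3 => h3.elim (fun h4 => absurd h4 h1)
          (fun h4 => h4.2)⟩
  · ext d
    by_cases h1 : d = c
    · rw [h1]
      exact ⟨fun h2 => absurd hcc (mem_cF.mp h2).2, fun h2 => absurd hc'.1 (mem_cF.mp h2).1⟩
    · by_cases h2 : d = e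
      · rw [h2]
        exact ⟨fun h2 => absurd het (mem_cF.mp h2).1, fun h2 => absurd he'.2 (mem_cF.mp h2).2⟩
      · rw [mem_cF, mem_cF, hdt d h1 h2, hcl d h1 h2]

/-- (X) Swapping the component of `x`: the colours `c` and `e` exchange their classes. -/
theorem Stuck.Xmove (h : Stuck s x K b) {c e : C} (hc : c ∈ s.cN x K b)
    (he : e ∈ s.cE x K b) :
    Eqv s (s.swap c e (s.comp c e x) (s.comp_closed c e x)) x K b ∧
    Stuck (s.swap c e (s.comp c e x) (s.comp_closed c e x)) x K b ∧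
    (s.swap c e (s.comp c e x) (s.comp_closed c e x)).cM x K b = s.cM x K b ∧
    (s.swap c e (s.comp c e x) (s.comp_closed c e x)).cN x K b =
      insert e ((s.cN x K b).erase c) ∧
    (s.swap c e (s.comp c e x) (s.comp_closed c e x)).cE x K b =
      insert c ((s.cE x K b).erase e) ∧
    (s.swap c e (s.comp c e x) (s.comp_closed c e x)).cF x K b = s.cF x K b ∧
    (s.swap c e (s.comp c e x) (s.comp_closed c e x)).yk x K b = s.yk x K b ∧
    (s.swap c e (s.comp c e x) (s.comp_closed c e x)).nb c x = s.nb e x ∧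
    (s.swap c e (s.comp c e x) (s.comp_closed c e x)).nb e x = x ∧
    (∀ v ∈ K, (s.swap c e (s.comp c e x) (s.comp_closed c e x)).tok v = s.tok v) := by
  set s' := s.swap c e (s.comp c e x) (s.comp_closed c e x) with hs'
  have hx := s.self_mem_comp c e x
  have hc' := mem_cN.mp hc
  have he' := mem_cE.mp he
  have hce : c ≠ e := fun h => he'.1 (h ▸ hc'.1)
  have hodd : Odd (s.ends (insert x K) c e (s.comp c e x)) := by
    rw [h.ends_x hc he]; exact odd_one
  have hoddc := mem_odd_swap_of_odd hce (s.comp_closed c e x) (insert x K) hodd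
  rw [← hs'] at hoddc
  have hpar : (c ∈ s.odd (insert x K) ↔ e ∉ s.odd (insert x K)) := by
    have h1 := hc'.2
    have h2 := he'.2
    tauto
  have hcard := card_odd_swap_of_odd hce (s.comp_closed c e x) (insert x K) hodd hpar
  have htok : s'.tok x = insert e ((s.tok x).erase c) := tok_swap_mem _ hx hc'.1 he'.1
  have hclass : ∀ d, d ≠ c → d ≠ e → (d ∈ s'.odd (insert x K) ↔ d ∈ s.odd (insert x K)) := by
    intro d h1 h2
    rw [hoddc, if_neg (by tauto)]
  have hcc : (c ∈ s'.odd (insert x K) ↔ b = true) := by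
    rw [hoddc, if_pos (Or.inl rfl)]
    have h1 := hc'.2
    tauto
  have hee : ¬ (e ∈ s'.odd (insert x K) ↔ b = true) := by
    rw [hoddc, if_pos (Or.inr rfl)]
    have h1 := he'.2
    tauto
  have key : ∀ d, (d ∈ s'.tok x ↔ (d = e ∨ (d ≠ c ∧ d ∈ s.tok x))) := by
    intro d; rw [htok, mem_insert, mem_erase]
  have hct : c ∉ s'.tok x := by
    rw [key]; rintro (h1 | h1)
    · exact hce h1
    · exact h1.1 rfl
  have het : e ∈ s'.tok x := (key e).mpr (Or.inl rfl)
  have hdt : ∀ d, d ≠ c → d ≠ e → (d ∈ s'.tok x ↔ d ∈ s.tok x) := by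
    intro d h1 h2
    rw [key]
    exact ⟨fun h3 => h3.elim (fun h4 => absurd h4 h2) (fun h4 => h4.2), fun h3 =>
      Or.inr ⟨h1, h3⟩⟩
  obtain ⟨hM, hN, hE, hF⟩ := sets_of_change (x := x) (K := K) (b := b) hc he hct het hcc hee hdt
    hclass
  have heq : Eqv s s' x K b := ⟨swap_same _, hcard, by rw [hM]⟩
  have hnbc : s'.nb c x = s.nb e x := by
    rw [hs', swap_nb, if_pos hx, Equiv.swap_apply_left]
  have hnbe : s'.nb e x = x := by
    rw [hs', swap_nb, if_pos hx, Equiv.swap_apply_right]; exact nb_of_tok hc'.1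
  refine ⟨heq, h.of_eqv heq, hM, hN, hE, hF, ?_, hnbc, hnbe, ?_⟩
  · ext w
    rw [h.mem_yk, (h.of_eqv heq).mem_yk, hE]
    constructor
    · rintro ⟨d, hd, rfl⟩
      rw [mem_insert, mem_erase] at hd
      rcases hd with rfl | hd
      · exact ⟨e, he, hnbc.symm⟩
      · refine ⟨d, hd.2, ?_⟩
        have hdc : d ≠ c := fun h' => (mem_cE.mp hd.2).1 (h' ▸ hc'.1)
        rw [hs', swap_nb_of_ne _ hdc hd.1]
    · rintro ⟨d, hd, rfl⟩
      by_cases h1 : d = e
      · subst h1; exact ⟨c, mem_insert_self _ _, hnbc⟩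
      · refine ⟨d, mem_insert_of_mem (mem_erase.mpr ⟨h1, hd⟩), ?_⟩
        have hdc : d ≠ c := fun h' => (mem_cE.mp hd).1 (h' ▸ hc'.1)
        rw [hs', swap_nb_of_ne _ hdc h1]
  · intro v hv
    by_cases hvS : v ∈ s.comp c e x
    · obtain ⟨h1, h2⟩ := h.F1 hc he hv hvS
      exact tok_swap_none _ h1 h2
    · exact tok_swap_of_notMem _ hvS

/-- (F2) If `i` has a token of `N`, the colour of the edge `x i` is not in the class. -/
theorem Stuck.F2 (h : Stuck s x K b) {c e : C} (hc : c ∈ s.cN x K b) {i : V} (hi : i ∈ K)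
    (hci : c ∈ s.tok i) (he : s.nb e x = i) : e ∈ s.cF x K b := by
  have hix : i ≠ x := fun h' => h.hxK (h' ▸ hi)
  have het : e ∉ s.tok x := fun h' => hix (by rw [← he, nb_of_tok h'])
  by_contra hF
  have heE : e ∈ s.cE x K b := by
    rcases four s x K b e with h1 | h1 | h1 | h1
    · exact absurd (mem_cM.mp h1.1).1 het
    · exact absurd (mem_cN.mp h1.2.1).1 het
    · exact h1.2.2.1
    · exact absurd h1.2.2.2 hF
  have hmem : i ∈ s.comp c e x := by
    rw [← he]; exact (s.comp_closed c e x x (s.self_mem_comp c e x)).2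
  exact (h.F1 hc heE hi hmem).1 hci

/-! ### recolouring a path with one or two edges -/

/-- The four sets after a move with the same odd colours, `c` leaves and `e` enters the tokens
of `x`, both outside the class. -/
theorem sets_of_shift {c e : C} (hc : c ∈ s.cN x K b) (he : e ∈ s.cF x K b)
    (hodd : s'.odd (insert x K) = s.odd (insert x K))
    (htok : s'.tok x = insert e ((s.tok x).erase c)) :
    s'.cM x K b = s.cM x K b ∧ s'.cN x K b = insert e ((s.cN x K b).erase c) ∧
    s'.cE x K b = s.cE x K b ∧ s'.cF x K b = insert c ((s.cF x K b).erase e) := by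
  have hc' := mem_cN.mp hc
  have he' := mem_cF.mp he
  have hce : c ≠ e := fun h => he'.1 (h ▸ hc'.1)
  have hct : c ∉ s'.tok x := by
    rw [htok, mem_insert, mem_erase]; rintro (h1 | h1)
    · exact hce h1
    · exact h1.1 rfl
  have het : e ∈ s'.tok x := by rw [htok]; exact mem_insert_self _ _
  have hdt : ∀ d, d ≠ c → d ≠ e → (d ∈ s'.tok x ↔ d ∈ s.tok x) := by
    intro d h1 h2
    rw [htok, mem_insert, mem_erase]
    exact ⟨fun h3 => h3.elim (fun h4 => absurd h4 h2) (fun h4 => h4.2), fun h3 =>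
      Or.inr ⟨h1, h3⟩⟩
  refine ⟨?_, ?_, ?_, ?_⟩
  · ext d
    rw [mem_cM, mem_cM, hodd]
    by_cases h1 : d = c
    · rw [h1]; exact ⟨fun h2 => absurd h2.1 hct, fun h2 => absurd h2.2 hc'.2⟩
    · by_cases h2 : d = e
      · rw [h2]; exact ⟨fun h2 => absurd h2.2 he'.2, fun h2 => absurd h2.1 he'.1⟩
      · rw [hdt d h1 h2]
  · ext d
    rw [mem_insert, mem_erase, mem_cN, mem_cN, hodd]
    by_cases h1 : d = c
    · rw [h1]
      exact ⟨fun h2 => absurd h2.1 hct,
        fun h2 => h2.elim (fun h3 => absurd h3 hce) (fun h3 => absurd rfl h3.1)⟩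
    · by_cases h2 : d = e
      · rw [h2]; exact ⟨fun _ => Or.inl rfl, fun _ => ⟨het, he'.2⟩⟩
      · rw [hdt d h1 h2]
        exact ⟨fun h3 => Or.inr ⟨h1, h3⟩, fun h3 => h3.elim (fun h4 => absurd h4 h2)
          (fun h4 => h4.2)⟩
  · ext d
    rw [mem_cE, mem_cE, hodd]
    by_cases h1 : d = c
    · rw [h1]; exact ⟨fun h2 => absurd h2.2 hc'.2, fun h2 => absurd hc'.1 h2.1⟩
    · by_cases h2 : d = e
      · rw [h2]; exact ⟨fun h2 => absurd het h2.1, fun h2 => absurd h2.2 he'.2⟩
      · rw [hdt d h1 h2]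
  · ext d
    rw [mem_insert, mem_erase, mem_cF, mem_cF, hodd]
    by_cases h1 : d = c
    · rw [h1]; exact ⟨fun _ => Or.inl rfl, fun _ => ⟨hct, hc'.2⟩⟩
    · by_cases h2 : d = e
      · rw [h2]
        exact ⟨fun h2 => absurd het h2.1,
          fun h2 => h2.elim (fun h3 => absurd h3.symm hce) (fun h3 => absurd rfl h3.1)⟩
      · rw [hdt d h1 h2]
        exact ⟨fun h3 => Or.inr ⟨h2, h3⟩, fun h3 => h3.elim (fun h4 => absurd h4 h1)
          (fun h4 => h4.2)⟩

/-- The four sets after a move with the same odd colours, `f` leaves and `e` enters the tokens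
of `x`, both in the class. -/
theorem sets_of_exch {f e : C} (hf : f ∈ s.cM x K b) (he : e ∈ s.cE x K b)
    (hodd : s'.odd (insert x K) = s.odd (insert x K))
    (htok : s'.tok x = insert e ((s.tok x).erase f)) :
    s'.cM x K b = insert e ((s.cM x K b).erase f) ∧ s'.cN x K b = s.cN x K b ∧
    s'.cE x K b = insert f ((s.cE x K b).erase e) ∧ s'.cF x K b = s.cF x K b := by
  have hf' := mem_cM.mp hf
  have he' := mem_cE.mp he
  have hce : f ≠ e := fun h => he'.1 (h ▸ hf'.1)
  have hct : f ∉ s'.tok x := by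
    rw [htok, mem_insert, mem_erase]; rintro (h1 | h1)
    · exact hce h1
    · exact h1.1 rfl
  have het : e ∈ s'.tok x := by rw [htok]; exact mem_insert_self _ _
  have hdt : ∀ d, d ≠ f → d ≠ e → (d ∈ s'.tok x ↔ d ∈ s.tok x) := by
    intro d h1 h2
    rw [htok, mem_insert, mem_erase]
    exact ⟨fun h3 => h3.elim (fun h4 => absurd h4 h2) (fun h4 => h4.2), fun h3 =>
      Or.inr ⟨h1, h3⟩⟩
  refine ⟨?_, ?_, ?_, ?_⟩
  · ext d
    rw [mem_insert, mem_erase, mem_cM, mem_cM, hodd]
    by_cases h1 : d = f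
    · rw [h1]
      exact ⟨fun h2 => absurd h2.1 hct,
        fun h2 => h2.elim (fun h3 => absurd h3 hce) (fun h3 => absurd rfl h3.1)⟩
    · by_cases h2 : d = e
      · rw [h2]; exact ⟨fun _ => Or.inl rfl, fun _ => ⟨het, he'.2⟩⟩
      · rw [hdt d h1 h2]
        exact ⟨fun h3 => Or.inr ⟨h1, h3⟩, fun h3 => h3.elim (fun h4 => absurd h4 h2)
          (fun h4 => h4.2)⟩
  · ext d
    rw [mem_cN, mem_cN, hodd]
    by_cases h1 : d = f
    · rw [h1]; exact ⟨fun h2 => absurd h2.1 hct, fun h2 => absurd hf'.2 h2.2⟩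
    · by_cases h2 : d = e
      · rw [h2]; exact ⟨fun h2 => absurd he'.2 h2.2, fun h2 => absurd h2.1 he'.1⟩
      · rw [hdt d h1 h2]
  · ext d
    rw [mem_insert, mem_erase, mem_cE, mem_cE, hodd]
    by_cases h1 : d = f
    · rw [h1]; exact ⟨fun _ => Or.inl rfl, fun _ => ⟨hct, hf'.2⟩⟩
    · by_cases h2 : d = e
      · rw [h2]
        exact ⟨fun h2 => absurd het h2.1,
          fun h2 => h2.elim (fun h3 => absurd h3.symm hce) (fun h3 => absurd rfl h3.1)⟩
      · rw [hdt d h1 h2]
        exact ⟨fun h3 => Or.inr ⟨h2, h3⟩, fun h3 => h3.elim (fun h4 => absurd h4 h1)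
          (fun h4 => h4.2)⟩
  · ext d
    rw [mem_cF, mem_cF, hodd]
    by_cases h1 : d = f
    · rw [h1]; exact ⟨fun h2 => absurd hf'.2 h2.2, fun h2 => absurd hf'.1 h2.1⟩
    · by_cases h2 : d = e
      · rw [h2]; exact ⟨fun h2 => absurd het h2.1, fun h2 => absurd he'.2 h2.2⟩
      · rw [hdt d h1 h2]

/-- Recolour the edge `x i` (colour `e`) with the common token `c` of `x` and `i`. -/
theorem shift_closed {c e : C} {i : V} (hcx : c ∈ s.tok x) (hci : c ∈ s.tok i)
    (he : s.nb e x = i) : s.Closed c e {x, i} := by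
  intro v hv
  rw [mem_insert, mem_singleton] at hv
  rcases hv with rfl | rfl
  · rw [nb_of_tok hcx, he]
    exact ⟨mem_insert_self _ _, mem_insert_of_mem (mem_singleton_self _)⟩
  · rw [nb_of_tok hci, nb_symm he]
    exact ⟨mem_insert_of_mem (mem_singleton_self _), mem_insert_self _ _⟩

theorem swap_P_of_notMem {c e : C} {S : Finset V} (hS : s.Closed c e S) {v : V}
    (hc : c ∉ s.P v) (he : e ∉ s.P v) : (s.swap c e S hS).P v = s.P v := by
  change (if v ∈ S then (s.P v).image (Equiv.swap c e) else s.P v) = s.P v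
  split_ifs with hv
  · have : ∀ d ∈ s.P v, Equiv.swap c e d = d := fun d hd =>
      Equiv.swap_apply_of_ne_of_ne (fun h => hc (h ▸ hd)) (fun h => he (h ▸ hd))
    ext d
    rw [mem_image]
    constructor
    · rintro ⟨d', h1, h2⟩
      rw [this d' h1] at h2; rw [← h2]; exact h1
    · intro h1; exact ⟨d, h1, this d h1⟩
  · rfl

theorem notMem_P_of_nb {c : C} {v : V} (h : s.nb c v ≠ v) : c ∉ s.P v :=
  fun h' => h (s.hP v c h')

theorem Stuck.shift (h : Stuck s x K b) {c e : C} {i : V} (hi : i ∈ K)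
    (hcx : c ∈ s.cN x K b) (hci : c ∈ s.tok i) (he : s.nb e x = i) :
    ∃ s' : MC V C, Eqv s s' x K b ∧ Stuck s' x K b ∧
      (∀ v, s'.P v = s.P v) ∧
      s'.nb c x = i ∧ s'.nb c i = x ∧ s'.nb e x = x ∧ s'.nb e i = i ∧
      (∀ v, v ≠ x → v ≠ i → ∀ d, s'.nb d v = s.nb d v) ∧
      (∀ d, d ≠ c → d ≠ e → ∀ v, s'.nb d v = s.nb d v) ∧
      s'.tok x = insert e ((s.tok x).erase c) ∧
      s'.tok i = insert e ((s.tok i).erase c) ∧
      (∀ v, v ≠ x → v ≠ i → s'.tok v = s.tok v) ∧
      s'.odd (insert x K) = s.odd (insert x K) ∧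
      s'.cM x K b = s.cM x K b ∧
      s'.cN x K b = insert e ((s.cN x K b).erase c) ∧
      s'.cE x K b = s.cE x K b ∧
      s'.cF x K b = insert c ((s.cF x K b).erase e) ∧
      s'.yk x K b = s.yk x K b := by
  have hix : i ≠ x := fun h' => h.hxK (h' ▸ hi)
  have hctx : c ∈ s.tok x := (mem_cN.mp hcx).1
  have heF := h.F2 hcx hi hci he
  have hetx : e ∉ s.tok x := (mem_cF.mp heF).1
  have hei : s.nb e i = x := nb_symm he
  have heti : e ∉ s.tok i := fun h' => hix (by rw [← hei, nb_of_tok h'])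
  have hce : c ≠ e := fun h' => hetx (h' ▸ hctx)
  have hS := shift_closed hctx hci he
  have hxS : x ∈ ({x, i} : Finset V) := mem_insert_self _ _
  have hiS : i ∈ ({x, i} : Finset V) := mem_insert_of_mem (mem_singleton_self _)
  have hends : s.ends (insert x K) c e {x, i} = 2 := by
    have h1 : insert x K ∩ {x, i} = {x, i} := by
      apply inter_eq_right.mpr
      intro v hv
      rw [mem_insert, mem_singleton] at hv
      rcases hv with rfl | rfl
      · exact mem_insert_self _ _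
      · exact mem_insert_of_mem hi
    unfold ends cnt
    rw [h1]
    have h2 : ({x, i} : Finset V).filter (fun v => c ∈ s.tok v) = {x, i} := by
      apply filter_true_of_mem
      intro v hv
      rw [mem_insert, mem_singleton] at hv
      rcases hv with rfl | rfl
      · exact hctx
      · exact hci
    have h3 : ({x, i} : Finset V).filter (fun v => e ∈ s.tok v) = ∅ := by
      apply filter_false_of_mem
      intro v hv
      rw [mem_insert, mem_singleton] at hv
      rcases hv with rfl | rfl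
      · exact hetx
      · exact heti
    rw [h2, h3, card_pair hix.symm, card_empty]
  have hodd := odd_swap_of_even hS (insert x K) (by rw [hends]; exact even_two)
  have htx := tok_swap_mem hS hxS hctx hetx
  have hti := tok_swap_mem hS hiS hci heti
  obtain ⟨hM, hN, hE, hF⟩ := sets_of_shift (b := b) hcx heF hodd htx
  have heq : Eqv s (s.swap c e _ hS) x K b := ⟨swap_same hS, by rw [hodd], by rw [hM]⟩
  have hother : ∀ d, d ≠ c → d ≠ e → ∀ v, (s.swap c e _ hS).nb d v = s.nb d v :=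
    fun d h1 h2 v => swap_nb_of_ne hS h1 h2 v
  have hout : ∀ v, v ≠ x → v ≠ i → v ∉ ({x, i} : Finset V) := by
    intro v h1 h2 h3
    rw [mem_insert, mem_singleton] at h3
    exact h3.elim h1 h2
  refine ⟨s.swap c e _ hS, heq, h.of_eqv heq, ?_, ?_, ?_, ?_, ?_, ?_, hother, htx, hti, ?_,
    hodd, hM, hN, hE, hF, ?_⟩
  · intro v
    by_cases hv : v ∈ ({x, i} : Finset V)
    · rw [mem_insert, mem_singleton] at hv
      rcases hv with rfl | rfl
      · apply swap_P_of_notMem <;> rw [h.Px] <;> simp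
      · apply swap_P_of_notMem
        · exact (mem_tok.mp hci).1
        · exact notMem_P_of_nb (by rw [hei]; exact hix.symm)
    · change (if v ∈ ({x, i} : Finset V) then _ else _) = _
      rw [if_neg hv]
  · rw [swap_nb, if_pos hxS, Equiv.swap_apply_left, he]
  · rw [swap_nb, if_pos hiS, Equiv.swap_apply_left, hei]
  · rw [swap_nb, if_pos hxS, Equiv.swap_apply_right, nb_of_tok hctx]
  · rw [swap_nb, if_pos hiS, Equiv.swap_apply_right, nb_of_tok hci]
  · intro v h1 h2 d
    exact swap_nb_of_notMem hS d (hout v h1 h2)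
  · intro v h1 h2
    exact tok_swap_of_notMem hS (hout v h1 h2)
  · unfold yk
    rw [hE]
    apply image_congr
    intro d hd
    have hd' := mem_cE.mp hd
    exact hother d (fun h' => hd'.1 (h' ▸ hctx)) (fun h' => (mem_cF.mp heF).2 (h' ▸ hd'.2)) x

/-- Exchange: the edge `x w` has the colour `e`, a token of `i`; the edge `i w` has the
colour `f`, a token of `x`.  Recolour `i w` with `e` and `x w` with `f`. -/
theorem Stuck.exch (h : Stuck s x K b) {e f : C} {i w : V} (hi : i ∈ K)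
    (hei : e ∈ s.tok i) (he : s.nb e x = w) (hwx : w ≠ x) (hwi : w ≠ i) (hf : s.nb f i = w)
    (hfM : f ∈ s.cM x K b) (heE : e ∈ s.cE x K b) :
    ∃ s' : MC V C, Eqv s s' x K b ∧ Stuck s' x K b ∧
      (∀ v, s'.P v = s.P v) ∧
      s'.nb f x = w ∧ s'.nb f w = x ∧ s'.nb f i = i ∧ s'.nb e i = w ∧ s'.nb e w = i ∧
      s'.nb e x = x ∧
      (∀ v, v ≠ x → v ≠ i → v ≠ w → ∀ d, s'.nb d v = s.nb d v) ∧
      (∀ d, d ≠ e → d ≠ f → ∀ v, s'.nb d v = s.nb d v) ∧
      s'.tok x = insert e ((s.tok x).erase f) ∧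
      s'.tok i = insert f ((s.tok i).erase e) ∧
      (∀ v, v ≠ x → v ≠ i → s'.tok v = s.tok v) ∧
      s'.odd (insert x K) = s.odd (insert x K) ∧
      s'.cM x K b = insert e ((s.cM x K b).erase f) ∧
      s'.cN x K b = s.cN x K b ∧
      s'.cE x K b = insert f ((s.cE x K b).erase e) ∧
      s'.cF x K b = s.cF x K b ∧
      s'.yk x K b = s.yk x K b := by
  have hix : i ≠ x := fun h' => h.hxK (h' ▸ hi)
  have hftx : f ∈ s.tok x := (mem_cM.mp hfM).1
  have hetx : e ∉ s.tok x := (mem_cE.mp heE).1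
  have hfe : f ≠ e := fun h' => hetx (h' ▸ hftx)
  have hfti : f ∉ s.tok i := fun h' => hwi (by rw [← hf, nb_of_tok h'])
  have hew : s.nb e w = x := nb_symm he
  have hfw : s.nb f w = i := nb_symm hf
  have hetw : e ∉ s.tok w := fun h' => hwx (by rw [← hew, nb_of_tok h'])
  have hftw : f ∉ s.tok w := fun h' => hwi (by rw [← hfw, nb_of_tok h'])
  have hwK : w ∈ K := by rw [← he]; exact h.nb_mem hetx
  have hxS : x ∈ ({x, i, w} : Finset V) := by simp
  have hiS : i ∈ ({x, i, w} : Finset V) := by simp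
  have hwS : w ∈ ({x, i, w} : Finset V) := by simp
  have hS : s.Closed f e {x, i, w} := by
    intro v hv
    rw [mem_insert, mem_insert, mem_singleton] at hv
    rcases hv with rfl | rfl | rfl
    · rw [nb_of_tok hftx, he]; exact ⟨hxS, hwS⟩
    · rw [hf, nb_of_tok hei]; exact ⟨hwS, hiS⟩
    · rw [hfw, hew]; exact ⟨hiS, hxS⟩
  have hends : s.ends (insert x K) f e {x, i, w} = 2 := by
    have h1 : insert x K ∩ {x, i, w} = {x, i, w} := by
      apply inter_eq_right.mpr
      intro v hv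
      rw [mem_insert, mem_insert, mem_singleton] at hv
      rcases hv with rfl | rfl | rfl
      · exact mem_insert_self _ _
      · exact mem_insert_of_mem hi
      · exact mem_insert_of_mem hwK
    unfold ends cnt
    rw [h1]
    have h2 : ({x, i, w} : Finset V).filter (fun v => f ∈ s.tok v) = {x} := by
      ext v
      rw [mem_filter, mem_insert, mem_insert, mem_singleton, mem_singleton]
      constructor
      · rintro ⟨rfl | rfl | rfl, h3⟩
        · rfl
        · exact absurd h3 hfti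
        · exact absurd h3 hftw
      · intro h3; rw [h3]; exact ⟨Or.inl rfl, hftx⟩
    have h3 : ({x, i, w} : Finset V).filter (fun v => e ∈ s.tok v) = {i} := by
      ext v
      rw [mem_filter, mem_insert, mem_insert, mem_singleton, mem_singleton]
      constructor
      · rintro ⟨rfl | rfl | rfl, h3⟩
        · exact absurd h3 hetx
        · rfl
        · exact absurd h3 hetw
      · intro h3; rw [h3]; exact ⟨Or.inr (Or.inl rfl), hei⟩
    rw [h2, h3, card_singleton, card_singleton]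
  have hodd := odd_swap_of_even hS (insert x K) (by rw [hends]; exact even_two)
  have htx := tok_swap_mem hS hxS hftx hetx
  have hti := tok_swap_mem' hS hiS hfti hei
  obtain ⟨hM, hN, hE, hF⟩ := sets_of_exch (b := b) hfM heE hodd htx
  have hcardM : (insert e ((s.cM x K b).erase f)).card = (s.cM x K b).card := by
    rw [card_insert_of_notMem, card_erase_add_one hfM]
    intro h'
    exact hetx (mem_cM.mp (mem_erase.mp h').2).1
  have heq : Eqv s (s.swap f e _ hS) x K b := ⟨swap_same hS, by rw [hodd], by rw [hM, hcardM]⟩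
  have hother : ∀ d, d ≠ e → d ≠ f → ∀ v, (s.swap f e _ hS).nb d v = s.nb d v :=
    fun d h1 h2 v => swap_nb_of_ne hS h2 h1 v
  have hout : ∀ v, v ≠ x → v ≠ i → v ≠ w → v ∉ ({x, i, w} : Finset V) := by
    intro v h1 h2 h3 h4
    rw [mem_insert, mem_insert, mem_singleton] at h4
    exact h4.elim h1 (fun h5 => h5.elim h2 h3)
  have hnbfx : (s.swap f e _ hS).nb f x = w := by
    rw [swap_nb, if_pos hxS, Equiv.swap_apply_left, he]
  refine ⟨s.swap f e _ hS, heq, h.of_eqv heq, ?_, hnbfx, ?_, ?_, ?_, ?_, ?_, ?_, hother,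
    htx, hti, ?_, hodd, hM, hN, hE, hF, ?_⟩
  · intro v
    by_cases hv : v ∈ ({x, i, w} : Finset V)
    · rw [mem_insert, mem_insert, mem_singleton] at hv
      rcases hv with rfl | rfl | rfl
      · apply swap_P_of_notMem <;> rw [h.Px] <;> simp
      · apply swap_P_of_notMem
        · exact notMem_P_of_nb (by rw [hf]; exact hwi)
        · exact (mem_tok.mp hei).1
      · apply swap_P_of_notMem
        · exact notMem_P_of_nb (by rw [hfw]; exact hwi.symm)
        · exact notMem_P_of_nb (by rw [hew]; exact hwx.symm)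
    · change (if v ∈ ({x, i, w} : Finset V) then _ else _) = _
      rw [if_neg hv]
  · rw [swap_nb, if_pos hwS, Equiv.swap_apply_left, hew]
  · rw [swap_nb, if_pos hiS, Equiv.swap_apply_left, nb_of_tok hei]
  · rw [swap_nb, if_pos hiS, Equiv.swap_apply_right, hf]
  · rw [swap_nb, if_pos hwS, Equiv.swap_apply_right, hfw]
  · rw [swap_nb, if_pos hxS, Equiv.swap_apply_right, nb_of_tok hftx]
  · intro v h1 h2 h3 d
    exact swap_nb_of_notMem hS d (hout v h1 h2 h3)
  · intro v h1 h2
    by_cases h3 : v = w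
    · rw [h3]; exact tok_swap_none hS hftw hetw
    · exact tok_swap_of_notMem hS (hout v h1 h2 h3)
  · ext v
    rw [h.mem_yk, (h.of_eqv heq).mem_yk, hE]
    constructor
    · rintro ⟨d, hd, rfl⟩
      rw [mem_insert, mem_erase] at hd
      rcases hd with hd | hd
      · exact ⟨e, heE, by rw [hd, hnbfx, he]⟩
      · refine ⟨d, hd.2, ?_⟩
        have hdf : d ≠ f := fun h' => (mem_cE.mp hd.2).1 (h' ▸ hftx)
        rw [hother d hd.1 hdf]
    · rintro ⟨d, hd, rfl⟩
      by_cases h1 : d = e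
      · exact ⟨f, mem_insert_self _ _, by rw [h1, hnbfx, he]⟩
      · refine ⟨d, mem_insert_of_mem (mem_erase.mpr ⟨h1, hd⟩), ?_⟩
        have hdf : d ≠ f := fun h' => (mem_cE.mp hd).1 (h' ▸ hftx)
        rw [hother d h1 hdf]

/-! ### the colours of the row of an active vertex -/

/-- An active vertex is not in `yk`. -/
theorem Stuck.notMem_yk (h : Stuck s x K b) {i : V} (hi : i ∈ K) {c : C}
    (hc : c ∈ s.cN x K b) (hci : c ∈ s.tok i) : i ∉ s.yk x K b := by
  intro h'
  rw [h.mem_yk] at h'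
  obtain ⟨e, he, hei⟩ := h'
  exact (mem_cF.mp (h.F2 hc hi hci hei)).2 (mem_cE.mp he).2

/-- `x` is not in the component of a vertex of `K` with a token. -/
theorem Stuck.x_notMem (h : Stuck s x K b) {c e : C} (hc : c ∈ s.cN x K b)
    (he : e ∈ s.cE x K b) {v : V} (hv : v ∈ K) (hvt : c ∈ s.tok v ∨ e ∈ s.tok v) :
    x ∉ s.comp c e v := by
  intro hx
  have := h.F1 hc he hv (mem_comp_symm hx)
  tauto

/-- (F5) -/
theorem Stuck.F5 (h : Stuck s x K b) {i : V} (hi : i ∈ K)
    {c f : C} (hc : c ∈ s.cN x K b) (hci : c ∈ s.tok i) (hf : s.nb f i ∈ s.yk x K b) :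
    f ∉ s.cN x K b := by
  intro hfN
  have hix : i ≠ x := fun h' => h.hxK (h' ▸ hi)
  obtain ⟨e, he, hei⟩ := h.mem_yk.mp hf
  have hetx := (mem_cE.mp he).1
  have hftx := (mem_cN.mp hfN).1
  have hctx := (mem_cN.mp hc).1
  have hwi : s.nb f i ≠ i := by
    intro h'; rw [h'] at hf; exact h.notMem_yk hi hc hci hf
  have hfc : f ≠ c := fun h' => hwi (by rw [h']; exact nb_of_tok hci)
  have hfe : f ≠ e := fun h' => hetx (h' ▸ hftx)
  have hce : c ≠ e := fun h' => hetx (h' ▸ hctx)
  have hxS := h.x_notMem hc he hi (Or.inl hci)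
  obtain ⟨heq, hst, hodd, htx, hnx, hM, hN, hE, hF, hyk⟩ :=
    h.Vmove hc he (s.comp_closed c e i) hxS
  set s₁ := s.swap c e (s.comp c e i) (s.comp_closed c e i) with hs₁
  have hiS := s.self_mem_comp c e i
  have het : e ∈ s₁.tok i := by
    rw [hs₁, mem_tok_swap, if_pos hiS, Equiv.swap_apply_right]; exact hci
  have h1 : s₁.nb f i = s.nb f i := by rw [hs₁, swap_nb_of_ne _ hfc hfe]
  have h2 : s₁.nb e x = s.nb f i := by rw [hnx, hei]
  have hfN₁ : f ∈ s₁.cN x K b := by rw [hN]; exact hfN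
  have heE₁ : e ∈ s₁.cE x K b := by rw [hE]; exact he
  have hmem : i ∈ s₁.comp f e x := by
    have h3 := (s₁.comp_closed f e x x (s₁.self_mem_comp f e x)).2
    rw [h2] at h3
    have h4 := (s₁.comp_closed f e x _ h3).1
    rwa [← h1, s₁.invol] at h4
  exact (hst.F1 hfN₁ heE₁ hi hmem).2 het

/-- (F6) -/
theorem Stuck.F6 (h : Stuck s x K b) (hN : 2 ≤ (s.cN x K b).card) {i : V} (hi : i ∈ K)
    {c f : C} (hc : c ∈ s.cN x K b) (hci : c ∈ s.tok i) (hf : s.nb f i ∈ s.yk x K b) :
    f ∉ s.cE x K b := by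
  intro hfE
  obtain ⟨heq, hst, hM, hN', hE, hF, hyk, hnc, hne, htok⟩ := h.Xmove hc hfE
  set s₁ := s.swap c f (s.comp c f x) (s.comp_closed c f x) with hs₁
  have hctx := (mem_cN.mp hc).1
  have hftx := (mem_cE.mp hfE).1
  have hcf : c ≠ f := fun h' => hftx (h' ▸ hctx)
  have hiS : i ∉ s.comp c f x := fun h' => (h.F1 hc hfE hi h').1 hci
  obtain ⟨β, hβ, hβc⟩ : ∃ β ∈ s.cN x K b, β ≠ c := by
    by_contra hcon
    push Not at hcon
    have : s.cN x K b ⊆ {c} := fun d hd => mem_singleton.mpr (hcon d hd)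
    have := card_le_card this
    rw [card_singleton] at this
    omega
  have hβf : β ≠ f := fun h' => hftx (h' ▸ (mem_cN.mp hβ).1)
  have hβ₁ : β ∈ s₁.cN x K b := by
    rw [hN', mem_insert, mem_erase]; exact Or.inr ⟨hβc, hβ⟩
  have hc₁ : c ∈ s₁.cE x K b := by rw [hE]; exact mem_insert_self _ _
  have hci₁ : c ∈ s₁.tok i := by rw [htok i hi]; exact hci
  have hxS₁ := hst.x_notMem hβ₁ hc₁ hi (Or.inr hci₁)
  obtain ⟨heq₂, hst₂, hodd₂, htx₂, hnx₂, hM₂, hN₂, hE₂, hF₂, hyk₂⟩ :=
    hst.Vmove hβ₁ hc₁ (s₁.comp_closed β c i) hxS₁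
  set s₂ := s₁.swap β c (s₁.comp β c i) (s₁.comp_closed β c i) with hs₂
  have hβi : β ∈ s₂.tok i := by
    rw [hs₂, mem_tok_swap, if_pos (s₁.self_mem_comp β c i), Equiv.swap_apply_left]
    exact hci₁
  have h1 : s₂.nb f i = s.nb f i := by
    rw [hs₂, swap_nb_of_ne _ hβf.symm hcf.symm, hs₁, swap_nb_of_notMem _ _ hiS]
  have hf₂ : f ∈ s₂.cN x K b := by rw [hN₂, hN']; exact mem_insert_self _ _
  refine hst₂.F5 hi (by rw [hN₂]; exact hβ₁) hβi ?_ hf₂
  rw [h1, hyk₂, hyk]; exact hf

/-- (F5), (F6): a colour leading from an active vertex to `yk` is in `M` or in `F`. -/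
theorem Stuck.F56 (h : Stuck s x K b) (hN : 2 ≤ (s.cN x K b).card) {i : V} (hi : i ∈ K)
    {c f : C} (hc : c ∈ s.cN x K b) (hci : c ∈ s.tok i) (hf : s.nb f i ∈ s.yk x K b) :
    f ∈ s.cM x K b ∨ f ∈ s.cF x K b := by
  rcases four s x K b f with h1 | h1 | h1 | h1
  · exact Or.inl h1.1
  · exact absurd h1.2.1 (h.F5 hi hc hci hf)
  · exact absurd h1.2.2.1 (h.F6 hN hi hc hci hf)
  · exact Or.inr h1.2.2.2

/-- (DIR) -/
theorem Stuck.dir (h : Stuck s x K b) (hN : 2 ≤ (s.cN x K b).card) {i : V} (hi : i ∈ K)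
    {c : C} (hc : c ∈ s.cN x K b) (hci : c ∈ s.tok i) :
    (s.cE x K b).card + 1 ≤ (s.dset x K b i).card + (s.cF x K b).card := by
  have hix : i ≠ x := fun h' => h.hxK (h' ▸ hi)
  obtain ⟨r, hr, hri⟩ := h.exists_col hi
  have hrF := h.F2 hc hi hci hri
  have hex : ∀ e ∈ s.cE x K b, ∃ f, s.nb f i = s.nb e x := by
    intro e he
    have hwK := h.nb_mem (mem_cE.mp he).1
    have hwi : i ≠ s.nb e x := by
      intro h'
      exact h.notMem_yk hi hc hci (h.mem_yk.mpr ⟨e, he, h'.symm⟩)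
    have h1 := h.clique i hi _ hwK hwi
    unfold mult at h1
    obtain ⟨f, hf⟩ := card_pos.mp h1
    exact ⟨f, (mem_filter.mp hf).2⟩
  choose! g hg using hex
  have hinj : Set.InjOn g (s.cE x K b) := by
    intro e he e' he' hee
    apply h.nb_x_inj (mem_cE.mp he).1
    rw [← hg e he, ← hg e' he', hee]
  have hsub : (s.cE x K b).image g ⊆ s.dset x K b i ∪ (s.cF x K b).erase r := by
    intro f hf
    rw [mem_image] at hf
    obtain ⟨e, he, rfl⟩ := hf
    have hyk : s.nb (g e) i ∈ s.yk x K b := by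
      rw [hg e he]; exact h.mem_yk.mpr ⟨e, he, rfl⟩
    rw [mem_union, mem_erase, dset, mem_filter]
    rcases h.F56 hN hi hc hci hyk with h1 | h1
    · exact Or.inl ⟨h1, hyk⟩
    · right
      refine ⟨?_, h1⟩
      intro h2
      have h3 : s.nb r i = x := nb_symm hri
      rw [← h2, hg e he] at h3
      exact h.nb_ne (mem_cE.mp he).1 h3
  have h1 := card_le_card hsub
  rw [card_image_of_injOn hinj] at h1
  have h2 := card_union_le (s.dset x K b i) ((s.cF x K b).erase r)
  have h3 := card_erase_add_one hrF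
  omega

end MC

end

end Pool.Agent.Lib.P3f3a3b
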