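import Pool.Agent.Lib.P3f3a3b.MCStuck

/-!
(Z): the inequality for stuck states, class of the odd colours.
-/

set_option autoImplicit false
set_option linter.unusedSectionVars false
set_option linter.unusedVariables false

namespace Pool.Agent.Lib.P3f3a3b

open Finset
open scoped Classical

noncomputable section

variable {V C : Type*} [Fintype V] [Fintype C]

namespace MC

variable {s : MC V C} {x : V} {K : Finset V}

namespace MCZaux

theorem disj (h : Stuck s x K true) (hN : 2 ≤ (s.cN x K true).card) {a a' : V} {c c' : C}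
    (ha : a ∈ K) (ha' : a' ∈ K) (hc : c ∈ s.cN x K true) (hc' : c' ∈ s.cN x K true)
    (hca : c ∈ s.tok a) (hca' : c' ∈ s.tok a') (hne : a ≠ a') (hcc : c ≠ c') :
    Disjoint (s.dset x K true a) (s.dset x K true a') := by
  rw [disjoint_left]
  intro g hg hg'
  rw [dset, mem_filter] at hg hg'
  obtain ⟨hgM, hgy⟩ := hg
  obtain ⟨-, hgy'⟩ := hg'
  obtain ⟨e, heE, hew⟩ := h.mem_yk.mp hgy
  set w := s.nb g a with hw
  have hcx : c ∈ s.tok x := (mem_cN.mp hc).1
  have hcx' : c' ∈ s.tok x := (mem_cN.mp hc').1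
  have hex : e ∉ s.tok x := (mem_cE.mp heE).1
  have hgx : g ∈ s.tok x := (mem_cM.mp hgM).1
  have hce : c ≠ e := fun hh => hex (hh ▸ hcx)
  have hc'e : c' ≠ e := fun hh => hex (hh ▸ hcx')
  have hge : g ≠ e := fun hh => hex (hh ▸ hgx)
  have hgc : g ≠ c := by
    intro hh
    subst hh
    exact (mem_cN.mp hc).2 (mem_cM.mp hgM).2
  have hwK : w ∈ K := h.yk_sub hgy
  have hwx : w ≠ x := fun hh => h.hxK (hh ▸ hwK)
  have hEF : ∀ d, d ∈ s.cE x K true → d ∈ s.cF x K true → False := by
    intro d h1 h2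
    exact (mem_cF.mp h2).2 (mem_cE.mp h1).2
  have hwa : w ≠ a := by
    intro hh
    exact hEF e heE (h.F2 hc ha hca (hew.trans hh))
  have hwa' : a' ≠ w := by
    intro hh
    exact hEF e heE (h.F2 hc' ha' hca' (hew.trans hh.symm))
  have hxS : x ∉ s.comp c e a := by
    intro hh
    have h1 := mem_comp_symm hh
    exact (h.F1 hc heE ha h1).1 hca
  obtain ⟨h1a, h1s, h1o, h1t, h1n, h1M, h1N, h1E, h1F, h1y⟩ :=
    h.Vmove hc heE (s.comp_closed c e a) hxS
  set s1 := s.swap c e (s.comp c e a) (s.comp_closed c e a) with hs1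
  have hea : e ∈ s1.tok a := by
    rw [hs1, mem_tok_swap, if_pos (s.self_mem_comp c e a), Equiv.swap_apply_right]
    exact hca
  have hc'a' : c' ∈ s1.tok a' := by
    rw [hs1, mem_tok_swap, Equiv.swap_apply_of_ne_of_ne (Ne.symm hcc) hc'e, ite_self]
    exact hca'
  have hga : s1.nb g a = w := by
    rw [hs1, swap_nb_of_ne _ hgc hge]
  have hga' : s1.nb g a' = s.nb g a' := by
    rw [hs1, swap_nb_of_ne _ hgc hge]
  have hex1 : s1.nb e x = w := by rw [h1n]; exact hew
  obtain ⟨s2, h2a, h2s, -, -, -, -, -, -, h2n, -, -, -, h2t, -, h2M, h2N, h2E, h2F, h2y⟩ :=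
    h1s.exch ha hea hex1 hwx hwa hga (by rw [h1M]; exact hgM) (by rw [h1E]; exact heE)
  have hxa' : a' ≠ x := fun hh => h.hxK (hh ▸ ha')
  have hN2 : 2 ≤ (s2.cN x K true).card := by rw [h2N, h1N]; exact hN
  have hc'N2 : c' ∈ s2.cN x K true := by rw [h2N, h1N]; exact hc'
  have hc't2 : c' ∈ s2.tok a' := by rw [h2t a' hxa' (Ne.symm hne)]; exact hc'a'
  have hg2 : s2.nb g a' ∈ s2.yk x K true := by
    rw [h2y, h1y, h2n a' hxa' (Ne.symm hne) hwa', hga']
    exact hgy'
  have hgE2 : g ∈ s2.cE x K true := by rw [h2E]; exact mem_insert_self _ _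
  rcases h2s.F56 hN2 ha' hc'N2 hc't2 hg2 with hh | hh
  · exact (mem_cE.mp hgE2).1 (mem_cM.mp hh).1
  · exact (mem_cF.mp hh).2 (mem_cE.mp hgE2).2

end MCZaux

/-- **(Z)** -/
theorem Stuck.Z (h : Stuck s x K true) (hN : 2 ≤ (s.cN x K true).card) {p : ℕ}
    (hp : ∀ v ∈ K, (s.tok v).card ≤ p) :
    (s.cN x K true).card * ((s.cE x K true).card + 1) ≤
      p * (s.cM x K true).card + (s.cN x K true).card * (s.cF x K true).card := by
  have hhold : ∀ c ∈ s.cN x K true, ∃ a ∈ K, c ∈ s.tok a := by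
    intro c hc
    have h1 := cnt_of_cN_true h.hxK hc
    have h2 : 0 < s.cnt K c := h1.pos
    unfold cnt at h2
    obtain ⟨a, ha⟩ := card_pos.mp h2
    rw [mem_filter] at ha
    exact ⟨a, ha.1, ha.2⟩
  haveI : Nonempty V := ⟨x⟩
  choose! f hfK hft using hhold
  set H := (s.cN x K true).image f with hH
  have hcard : (s.cN x K true).card ≤ p * H.card := by
    have h1 := card_le_mul_card_image (f := f) (s.cN x K true) p (fun a ha => by
      rw [mem_image] at ha
      obtain ⟨c, hc, rfl⟩ := ha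
      refine le_trans (card_le_card ?_) (hp (f c) (hfK c hc))
      intro d hd
      rw [mem_filter] at hd
      rw [← hd.2]
      exact hft d hd.1)
    exact h1
  have hdis : ∀ a ∈ H, ∀ a' ∈ H, a ≠ a' →
      Disjoint (s.dset x K true a) (s.dset x K true a') := by
    intro a ha a' ha' hne
    rw [hH, mem_image] at ha ha'
    obtain ⟨c, hc, rfl⟩ := ha
    obtain ⟨c', hc', rfl⟩ := ha'
    exact MCZaux.disj h hN (hfK c hc) (hfK c' hc') hc hc' (hft c hc) (hft c' hc') hne
      (fun hh => hne (by rw [hh]))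
  have hsum : ∑ a ∈ H, (s.dset x K true a).card ≤ (s.cM x K true).card := by
    rw [← card_biUnion hdis]
    apply card_le_card
    intro g hg
    rw [mem_biUnion] at hg
    obtain ⟨a, -, hg⟩ := hg
    rw [dset, mem_filter] at hg
    exact hg.1
  have hdir : ∀ a ∈ H, (s.cE x K true).card + 1 ≤
      (s.dset x K true a).card + (s.cF x K true).card := by
    intro a ha
    rw [hH, mem_image] at ha
    obtain ⟨c, hc, rfl⟩ := ha
    exact h.dir hN (hfK c hc) hc (hft c hc)
  have hsum2 : H.card * ((s.cE x K true).card + 1) ≤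
      (s.cM x K true).card + H.card * (s.cF x K true).card := by
    calc H.card * ((s.cE x K true).card + 1)
        = ∑ a ∈ H, ((s.cE x K true).card + 1) := by rw [sum_const, smul_eq_mul]
      _ ≤ ∑ a ∈ H, ((s.dset x K true a).card + (s.cF x K true).card) := sum_le_sum hdir
      _ = ∑ a ∈ H, (s.dset x K true a).card + H.card * (s.cF x K true).card := by
          rw [sum_add_distrib, sum_const, smul_eq_mul]
      _ ≤ _ := by gcongr
  rcases le_total ((s.cE x K true).card + 1) (s.cF x K true).card with hle | hle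
  · calc (s.cN x K true).card * ((s.cE x K true).card + 1)
        ≤ (s.cN x K true).card * (s.cF x K true).card := Nat.mul_le_mul_left _ hle
      _ ≤ _ := Nat.le_add_left _ _
  · obtain ⟨r, hr⟩ := Nat.exists_eq_add_of_le hle
    rw [hr] at hsum2 ⊢
    have h3 : H.card * r ≤ (s.cM x K true).card := by nlinarith
    have h4 : (s.cN x K true).card * r ≤ p * H.card * r := Nat.mul_le_mul_right _ hcard
    have h5 : p * H.card * r ≤ p * (s.cM x K true).card := by
      rw [mul_assoc]; exact Nat.mul_le_mul_left _ h3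
    nlinarith

end MC

end

end Pool.Agent.Lib.P3f3a3b
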