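import Mathlib

/-!
The combinatorial model of indifference graphs used for MP_3f3a3b_co: the vertices are
`0, …, n-1` and `i < j` are adjacent iff `j ≤ R i`.
-/

set_option autoImplicit false
set_option linter.unusedSectionVars false
set_option linter.unusedVariables false

namespace Pool.Agent.Lib.P3f3a3b

open Finset

/-- `R` describes an indifference graph on `0, …, n-1`: `R i` is the last vertex of the closed
neighbourhood of `i`. -/
structure Stair (n : ℕ) (R : ℕ → ℕ) : Prop where
  mono : ∀ i j, i ≤ j → j < n → R i ≤ R j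
  self : ∀ i, i < n → i ≤ R i
  lt : ∀ i, i < n → R i < n

/-- Adjacency. -/
def adj (R : ℕ → ℕ) (i j : ℕ) : Prop := (i < j ∧ j ≤ R i) ∨ (j < i ∧ i ≤ R j)

/-- The number of left neighbours. -/
def lf (R : ℕ → ℕ) (i : ℕ) : ℕ := ((range i).filter (fun j => i ≤ R j)).card

/-- The number of right neighbours. -/
def rt (R : ℕ → ℕ) (i : ℕ) : ℕ := R i - i

/-- The degree. -/
def dg (R : ℕ → ℕ) (i : ℕ) : ℕ := lf R i + rt R i

/-- The number of non-adjacent pairs in the interval `[a, b]`. -/
def missing (R : ℕ → ℕ) (a b : ℕ) : ℕ :=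
  ((Icc a b ×ˢ Icc a b).filter (fun p => p.1 < p.2 ∧ R p.1 < p.2)).card

/-- The graph has a proper edge colouring by the colours `0, …, q-1`. -/
def Colourable (n : ℕ) (R : ℕ → ℕ) (q : ℕ) : Prop :=
  ∃ c : ℕ → ℕ → ℕ, (∀ i j, c i j = c j i) ∧
    (∀ i j, i < n → j < n → adj R i j → c i j < q) ∧
    (∀ i j l, i < n → j < n → l < n → adj R i j → adj R i l → j ≠ l → c i j ≠ c i l)

/-- The combinatorial statement to be proved: an indifference graph of maximum degree at most
`2k` in which every closed neighbourhood of a vertex of degree `2k` misses at least `k` pairs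
has a proper edge colouring with `2k` colours. -/
def MainStatement : Prop :=
  ∀ (k n : ℕ) (R : ℕ → ℕ), 1 ≤ k → Stair n R → (∀ i, i < n → dg R i ≤ 2 * k) →
    (∀ i, i < n → dg R i = 2 * k → k ≤ missing R (i - lf R i) (R i)) →
    Colourable n R (2 * k)

end Pool.Agent.Lib.P3f3a3b
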