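import Pool.Agent.Lib.P3f3a3b.StuckBasic

/-!
The two basic moves (X) and (V) of stuck states.
-/

set_option autoImplicit false
set_option linter.unusedSectionVars false
set_option linter.unusedVariables false

namespace Pool.Agent.Lib.P3f3a3b

open Finset
open scoped Classical

noncomputable section

variable {V C : Type*} [Fintype V] [Fintype C]

namespace MC

variable {s : MC V C} {x : V} {K : Finset V} {o : Bool}

theorem mem_cls_not {c : C} : c ∈ s.cls x K (!o) ↔ c ∉ s.cls x K o := by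
  cases o <;> simp [cls]

theorem mem_cls_iff {c : C} : c ∈ s.cls x K o ↔ (c ∈ s.odd (insert x K) ↔ o = true) := by
  cases o <;> simp [cls]

theorem free_add_free (s : MC V C) (x : V) (K : Finset V) (o : Bool) :
    s.free x K o + s.free x K (!o) = (s.tok x).card := by
  unfold free
  rw [← card_union_of_disjoint]
  · congr 1
    ext c
    rw [mem_union, mem_inter, mem_inter, mem_cls_not]
    tauto
  · rw [disjoint_left]
    intro c h5 h6
    rw [mem_inter, mem_cls_not] at h6
    exact h6.2 (mem_inter.mp h5).2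

theorem Rel.free_not {s' : MC V C} (hr : Rel x K s s') (h : s'.free x K o = s.free x K o) :
    s'.free x K (!o) = s.free x K (!o) := by
  have h1 := free_add_free s x K o
  have h2 := free_add_free s' x K o
  have h3 := hr.1.card_tok x
  omega

theorem exists_free {c : C} (hc : c ∈ s.tok x) (hcC : c ∉ s.cls x K o) :
    1 ≤ s.free x K (!o) := by
  unfold free
  exact card_pos.mpr ⟨c, mem_inter.mpr ⟨hc, mem_cls_not.mpr hcC⟩⟩

/-- Move (X). -/
theorem Stuck.moveX (hs : s.Star x K) (h : s.Stuck x K o) {c e : C} (hc : c ∈ s.tok x)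
    (hcC : c ∉ s.cls x K o) (he : e ∉ s.tok x) (heC : e ∈ s.cls x K o) :
    ∃ s' : MC V C, Rel x K s s' ∧ s'.Stuck x K o ∧ s'.Star x K ∧
      s'.free x K o = s.free x K o ∧
      c ∈ s'.cls x K o ∧ e ∉ s'.cls x K o ∧
      (∀ d, d ≠ c → d ≠ e → (d ∈ s'.cls x K o ↔ d ∈ s.cls x K o)) ∧
      c ∉ s'.tok x ∧ e ∈ s'.tok x ∧
      (∀ d, d ≠ c → d ≠ e → (d ∈ s'.tok x ↔ d ∈ s.tok x)) ∧
      s'.nb c x = s.nb e x ∧ (∀ d, d ≠ c → d ≠ e → ∀ v, s'.nb d v = s.nb d v) ∧
      (∀ i ∈ K, c ∈ s.tok i → (∀ d, s'.nb d i = s.nb d i) ∧ s'.tok i = s.tok i) := by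
  have hce : c ≠ e := fun h => he (h ▸ hc)
  have hends := h.ends_comp_x hs hc hcC he heC
  have hodd1 : Odd (s.ends (insert x K) c e (s.comp c e x)) := by rw [hends]; decide
  have hxc : x ∈ s.comp c e x := s.self_mem_comp c e x
  set S := s.comp c e x with hS
  have hcl : s.Closed c e S := s.comp_closed c e x
  have hpar : c ∈ s.odd (insert x K) ↔ e ∉ s.odd (insert x K) := by
    rw [mem_cls_iff] at hcC heC
    clear * - hcC heC
    tauto
  have hrel : Rel x K s (s.swap c e S hcl) :=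
    ⟨swap_same hcl, card_odd_swap_of_odd hce hcl _ hodd1 hpar⟩
  have hcls : ∀ d, d ∈ (s.swap c e S hcl).cls x K o ↔
      (if d = c ∨ d = e then d ∉ s.cls x K o else d ∈ s.cls x K o) := by
    intro d
    rw [mem_cls_iff, mem_cls_iff, mem_odd_swap_of_odd hce hcl _ hodd1]
    by_cases hd : d = c ∨ d = e
    · rw [if_pos hd, if_pos hd]
      by_cases hp : d ∈ s.odd (insert x K) <;> by_cases hq : o = true <;>
        simp only [hp, hq, not_true_eq_false, not_false_eq_true, true_iff, false_iff, iff_true,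
          not_not]
    · rw [if_neg hd, if_neg hd]
  have htok : ∀ d, d ∈ (s.swap c e S hcl).tok x ↔ Equiv.swap c e d ∈ s.tok x := by
    intro d
    rw [mem_tok_swap, if_pos hxc]
  have k1 : c ∈ (s.swap c e S hcl).cls x K o := by
    rw [hcls, if_pos (Or.inl rfl)]; exact hcC
  have k2 : e ∉ (s.swap c e S hcl).cls x K o := by
    rw [hcls, if_pos (Or.inr rfl)]; push Not; exact heC
  have k3 : ∀ d, d ≠ c → d ≠ e →
      (d ∈ (s.swap c e S hcl).cls x K o ↔ d ∈ s.cls x K o) := by
    intro d h1 h2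
    rw [hcls, if_neg (fun h' => h'.elim h1 h2)]
  have k4 : c ∉ (s.swap c e S hcl).tok x := by
    rw [htok, Equiv.swap_apply_left]; exact he
  have k5 : e ∈ (s.swap c e S hcl).tok x := by
    rw [htok, Equiv.swap_apply_right]; exact hc
  have k6 : ∀ d, d ≠ c → d ≠ e → (d ∈ (s.swap c e S hcl).tok x ↔ d ∈ s.tok x) := by
    intro d h1 h2
    rw [htok, Equiv.swap_apply_of_ne_of_ne h1 h2]
  have hfree : (s.swap c e S hcl).free x K o = s.free x K o := by
    have e1 : (s.swap c e S hcl).tok x ∩ (s.swap c e S hcl).cls x K o =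
        s.tok x ∩ s.cls x K o := by
      ext d
      rw [mem_inter, mem_inter]
      by_cases h1 : d = c
      · rw [h1]
        exact ⟨fun h' => absurd h'.1 k4, fun h' => absurd h'.2 hcC⟩
      · by_cases h2 : d = e
        · rw [h2]
          exact ⟨fun h' => absurd h'.2 k2, fun h' => absurd h'.1 he⟩
        · rw [k6 d h1 h2, k3 d h1 h2]
    unfold free
    rw [e1]
  refine ⟨s.swap c e S hcl, hrel, h.of_rel hrel hfree, hs.of_rel hrel, hfree, k1, k2, k3, k4,
    k5, k6, ?_, ?_, ?_⟩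
  · rw [swap_nb, if_pos hxc, Equiv.swap_apply_left]
  · intro d h1 h2 v
    exact swap_nb_of_ne hcl h1 h2 v
  · intro i hi hci
    have hiS : i ∉ S := by
      intro hiS
      have h2 := ends_ge_two (mem_insert_self x K) (mem_insert_of_mem hi) hxc hiS
        (fun e => hs.hxK (e ▸ hi)) (Or.inl hc) (Or.inl hci : s.End c e i)
      omega
    refine ⟨fun d => swap_nb_of_notMem hcl d hiS, ?_⟩
    ext d
    rw [mem_tok_swap, if_neg hiS]

/-- Move (V). -/
theorem Stuck.moveV (hs : s.Star x K) (h : s.Stuck x K o) {b g : C} (hb : b ∈ s.tok x)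
    (hbC : b ∉ s.cls x K o) (hg : g ∉ s.tok x) (hgC : g ∈ s.cls x K o) {i : V} (hi : i ∈ K)
    (hend : s.End b g i) :
    ∃ s' : MC V C, Rel x K s s' ∧ s'.odd (insert x K) = s.odd (insert x K) ∧
      s'.Stuck x K o ∧ s'.Star x K ∧
      (∀ d, d ≠ b → d ≠ g → ∀ v, s'.nb d v = s.nb d v) ∧
      (∀ d, s'.nb d x = s.nb d x) ∧ s'.tok x = s.tok x ∧
      (∀ d, d ∈ s'.tok i ↔ Equiv.swap b g d ∈ s.tok i) ∧
      (∀ v d, d ≠ b → d ≠ g → (d ∈ s'.tok v ↔ d ∈ s.tok v)) := by
  have hbg : b ≠ g := fun h => hg (h ▸ hb)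
  have hends := h.ends_comp_x hs hb hbC hg hgC
  have hxi : x ≠ i := fun e => hs.hxK (e ▸ hi)
  have hix : i ∉ s.comp b g x := by
    intro hiS
    have h2 := ends_ge_two (mem_insert_self x K) (mem_insert_of_mem hi)
      (s.self_mem_comp b g x) hiS hxi (Or.inl hb) hend
    omega
  have heven := h.even_ends hs hb hbC hg hgC hix
  have hiS : i ∈ s.comp b g i := s.self_mem_comp b g i
  have hxS : x ∉ s.comp b g i := fun h' => hix (mem_comp_symm h')
  set S := s.comp b g i with hS
  have hcl : s.Closed b g S := s.comp_closed b g i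
  have hodd : (s.swap b g S hcl).odd (insert x K) = s.odd (insert x K) :=
    odd_swap_of_even hcl _ heven
  have hrel : Rel x K s (s.swap b g S hcl) := ⟨swap_same hcl, by rw [hodd]⟩
  have htokx : (s.swap b g S hcl).tok x = s.tok x := by
    ext d
    rw [mem_tok_swap, if_neg hxS]
  have hfree : (s.swap b g S hcl).free x K o = s.free x K o := by
    unfold free cls
    rw [htokx, hodd]
  refine ⟨s.swap b g S hcl, hrel, hodd, h.of_rel hrel hfree, hs.of_rel hrel,
    fun d h1 h2 v => swap_nb_of_ne hcl h1 h2 v, fun d => swap_nb_of_notMem hcl d hxS, htokx,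
    fun d => ?_, fun v d h1 h2 => ?_⟩
  · rw [mem_tok_swap, if_pos hiS]
  · rw [mem_tok_swap, Equiv.swap_apply_of_ne_of_ne h1 h2, ite_self]

end MC

end

end Pool.Agent.Lib.P3f3a3b
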