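import Pool.Agent.Lib.P3f3a3b.StuckBasic

/-!
Virtual edges and the normal form for the U-step.
(The lemmas on virtual edges are those of `MCVirtual.lean`, written by helper48.)
-/

set_option autoImplicit false
set_option linter.unusedSectionVars false
set_option linter.unusedVariables false

namespace Pool.Agent.Lib.P3f3a3b

open Finset
open scoped Classical

noncomputable section

variable {V C : Type*} [Fintype V] [Fintype C]

namespace MC

variable {s : MC V C} {x : V} {K : Finset V} {o : Bool}

namespace NormAux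

/-- `s'` is `s` with one more edge `u u'`, of the colour `c`. -/
structure Virt (s s' : MC V C) (c : C) (u u' : V) : Prop where
  ne : u ≠ u'
  P : ∀ v, s'.P v = s.P v
  nb : ∀ d v, s'.nb d v = if d = c then Equiv.swap u u' (s.nb c v) else s.nb d v
  hu : c ∈ s.tok u
  hu' : c ∈ s.tok u'

theorem nb_comm_swap {s : MC V C} {c : C} {u u' : V} (hu : s.nb c u = u) (hu' : s.nb c u' = u')
    (v : V) : s.nb c (Equiv.swap u u' v) = Equiv.swap u u' (s.nb c v) := by
  by_cases h1 : v = u
  · subst h1; rw [hu, Equiv.swap_apply_left, hu']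
  · by_cases h2 : v = u'
    · subst h2; rw [hu', Equiv.swap_apply_right, hu]
    · rw [Equiv.swap_apply_of_ne_of_ne h1 h2, Equiv.swap_apply_of_ne_of_ne]
      · intro h; exact h1 (s.nb_inj (h.trans hu.symm))
      · intro h; exact h2 (s.nb_inj (h.trans hu'.symm))

/-- Add a virtual edge. -/
def addE (s : MC V C) (c : C) (u u' : V) (huv : u ≠ u') (hu : c ∈ s.tok u)
    (hu' : c ∈ s.tok u') : MC V C where
  nb d v := if d = c then Equiv.swap u u' (s.nb c v) else s.nb d v
  invol d v := by
    by_cases hd : d = c
    · subst hd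
      simp only [if_true]
      rw [nb_comm_swap (nb_of_tok hu) (nb_of_tok hu'), Equiv.swap_apply_self, s.invol]
    · simp only [if_neg hd, s.invol]
  P v := s.P v
  hP v d hd := by
    by_cases hdc : d = c
    · subst hdc
      rw [if_pos rfl, s.hP v d hd]
      refine Equiv.swap_apply_of_ne_of_ne ?_ ?_
      · rintro rfl; exact (mem_tok.mp hu).1 hd
      · rintro rfl; exact (mem_tok.mp hu').1 hd
    · rw [if_neg hdc]; exact s.hP v d hd

theorem virt_addE (s : MC V C) (c : C) (u u' : V) (huv : u ≠ u') (hu : c ∈ s.tok u)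
    (hu' : c ∈ s.tok u') : Virt s (addE s c u u' huv hu hu') c u u' :=
  ⟨huv, fun _ => rfl, fun _ _ => rfl, hu, hu'⟩

/-- Delete an edge. -/
def delE (s : MC V C) (g : C) (u u' : V) (h : s.nb g u = u') : MC V C where
  nb d v := if d = g ∧ (v = u ∨ v = u') then v else s.nb d v
  invol d v := by
    by_cases hd : d = g
    · subst hd
      by_cases hv : v = u ∨ v = u'
      · simp only [true_and, if_pos hv]
      · have hv' : ¬ (s.nb d v = u ∨ s.nb d v = u') := by
          rintro (h' | h')
          · exact hv (Or.inr (by rw [← h, ← h', s.invol]))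
          · exact hv (Or.inl (s.nb_inj (h'.trans h.symm)))
        simp only [true_and, if_neg hv, if_neg hv', s.invol]
    · have e1 : ∀ w : V, ¬ (d = g ∧ (w = u ∨ w = u')) := fun w hw => hd hw.1
      simp only [if_neg (e1 _), s.invol]
  P v := s.P v
  hP v d hd := by
    by_cases hc : d = g ∧ (v = u ∨ v = u')
    · rw [if_pos hc]
    · rw [if_neg hc]; exact s.hP v d hd

theorem virt_delE (s : MC V C) (g : C) (u u' : V) (huv : u ≠ u') (h : s.nb g u = u') :
    Virt (delE s g u u' h) s g u u' := by
  have h2 : s.nb g u' = u := nb_symm h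
  refine ⟨huv, fun _ => rfl, ?_, ?_, ?_⟩
  · intro d v
    by_cases hd : d = g
    · subst hd
      rw [if_pos rfl]
      show s.nb d v = Equiv.swap u u' (if d = d ∧ (v = u ∨ v = u') then v else s.nb d v)
      by_cases hv1 : v = u
      · subst hv1; rw [if_pos ⟨rfl, Or.inl rfl⟩, Equiv.swap_apply_left, h]
      · by_cases hv2 : v = u'
        · subst hv2; rw [if_pos ⟨rfl, Or.inr rfl⟩, Equiv.swap_apply_right, h2]
        · rw [if_neg (by rintro ⟨_, h' | h'⟩; exacts [hv1 h', hv2 h'])]
          rw [Equiv.swap_apply_of_ne_of_ne]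
          · intro h'; exact hv2 (by rw [← h, ← h', s.invol])
          · intro h'; exact hv1 (s.nb_inj (h'.trans h.symm))
    · rw [if_neg hd]
      show s.nb d v = (if d = g ∧ (v = u ∨ v = u') then v else s.nb d v)
      rw [if_neg (fun h' => hd h'.1)]
  · rw [mem_tok]
    constructor
    · intro hP
      have := s.hP u g hP
      rw [h] at this
      exact huv this.symm
    · show (if g = g ∧ (u = u ∨ u = u') then u else s.nb g u) = u
      rw [if_pos ⟨rfl, Or.inl rfl⟩]
  · rw [mem_tok]
    constructor
    · intro hP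
      have := s.hP u' g hP
      rw [h2] at this
      exact huv this
    · show (if g = g ∧ (u' = u ∨ u' = u') then u' else s.nb g u') = u'
      rw [if_pos ⟨rfl, Or.inr rfl⟩]

variable {s' : MC V C} {c : C} {u u' : V}

theorem Virt.nb_other (h : Virt s s' c u u') {v : V} (h1 : v ≠ u) (h2 : v ≠ u') (d : C) :
    s'.nb d v = s.nb d v := by
  rw [h.nb]
  split_ifs with hd
  · subst hd
    refine Equiv.swap_apply_of_ne_of_ne ?_ ?_
    · intro h'; exact h1 (s.nb_inj (h'.trans (nb_of_tok h.hu).symm))
    · intro h'; exact h2 (s.nb_inj (h'.trans (nb_of_tok h.hu').symm))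
  · rfl

theorem Virt.nb_u (h : Virt s s' c u u') : s'.nb c u = u' := by
  rw [h.nb, if_pos rfl, nb_of_tok h.hu, Equiv.swap_apply_left]

theorem Virt.nb_u' (h : Virt s s' c u u') : s'.nb c u' = u := by
  rw [h.nb, if_pos rfl, nb_of_tok h.hu', Equiv.swap_apply_right]

theorem Virt.mem_tok' (h : Virt s s' c u u') {v : V} {d : C} :
    d ∈ s'.tok v ↔ d ∈ s.tok v ∧ ¬ (d = c ∧ (v = u ∨ v = u')) := by
  by_cases hc : d = c ∧ (v = u ∨ v = u')
  · have : d ∉ s'.tok v := by
      obtain ⟨rfl, rfl | rfl⟩ := hc
      · intro h'; have := nb_of_tok h'; rw [h.nb_u] at this; exact h.ne this.symm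
      · intro h'; have := nb_of_tok h'; rw [h.nb_u'] at this; exact h.ne this
    tauto
  · have : s'.nb d v = s.nb d v := by
      by_cases hd : d = c
      · apply h.nb_other
        · rintro rfl; exact hc ⟨hd, Or.inl rfl⟩
        · rintro rfl; exact hc ⟨hd, Or.inr rfl⟩
      · rw [h.nb, if_neg hd]
    rw [mem_tok, mem_tok, this, h.P]
    tauto

theorem Virt.tok_other (h : Virt s s' c u u') {v : V} (h1 : v ≠ u) (h2 : v ≠ u') :
    s'.tok v = s.tok v := by
  ext d
  rw [h.mem_tok']
  constructor
  · exact fun h' => h'.1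
  · intro h'
    refine ⟨h', ?_⟩
    rintro ⟨_, rfl | rfl⟩
    · exact h1 rfl
    · exact h2 rfl

theorem Virt.tok_sub (h : Virt s s' c u u') (v : V) : s'.tok v ⊆ s.tok v := by
  intro d hd
  exact (h.mem_tok'.mp hd).1

theorem Virt.mult (h : Virt s s' c u u') {a b : V} (hab : a ≠ b) :
    s'.mult a b = s.mult a b + if (a = u ∧ b = u') ∨ (a = u' ∧ b = u) then 1 else 0 := by
  unfold MC.mult
  split_ifs with hc
  · have hca : s.nb c a = a := by
      rcases hc with ⟨rfl, _⟩ | ⟨rfl, _⟩
      · exact nb_of_tok h.hu
      · exact nb_of_tok h.hu'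
    have hcb : s'.nb c a = b := by
      rcases hc with ⟨rfl, rfl⟩ | ⟨rfl, rfl⟩
      · exact h.nb_u
      · exact h.nb_u'
    have : univ.filter (fun d => s'.nb d a = b) =
        insert c (univ.filter (fun d => s.nb d a = b)) := by
      ext d
      rw [mem_insert, mem_filter, mem_filter]
      by_cases hd : d = c
      · subst hd; simp [hcb]
      · rw [h.nb, if_neg hd]; simp [hd]
    rw [this, card_insert_of_notMem]
    rw [mem_filter]
    rintro ⟨_, h'⟩
    exact hab (hca.symm.trans h')
  · rw [add_zero]
    congr 1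
    ext d
    rw [mem_filter, mem_filter]
    by_cases hd : d = c
    · subst hd
      by_cases h1 : a = u
      · subst h1
        rw [h.nb_u, nb_of_tok h.hu]
        simp only [mem_univ, true_and]
        constructor
        · intro h'; exact absurd (Or.inl ⟨rfl, h'.symm⟩) hc
        · intro h'; exact absurd h' hab
      · by_cases h2 : a = u'
        · subst h2
          rw [h.nb_u', nb_of_tok h.hu']
          simp only [mem_univ, true_and]
          constructor
          · intro h'; exact absurd (Or.inr ⟨rfl, h'.symm⟩) hc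
          · intro h'; exact absurd h' hab
        · rw [h.nb_other h1 h2]
    · rw [h.nb, if_neg hd]

theorem Virt.cnt_ne (h : Virt s s' c u u') (Z : Finset V) {d : C} (hd : d ≠ c) :
    s'.cnt Z d = s.cnt Z d := by
  unfold MC.cnt
  congr 1
  apply filter_congr
  intro v _
  rw [h.mem_tok']
  tauto

theorem Virt.cnt_eq (h : Virt s s' c u u') {Z : Finset V} (hu : u ∈ Z) (hu' : u' ∈ Z) :
    s.cnt Z c = s'.cnt Z c + 2 := by
  unfold MC.cnt
  have e : Z.filter (fun v => c ∈ s.tok v) =
      Z.filter (fun v => c ∈ s'.tok v) ∪ {u, u'} := by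
    ext v
    rw [mem_union, mem_filter, mem_filter, h.mem_tok', mem_insert, mem_singleton]
    constructor
    · rintro ⟨h1, h2⟩
      by_cases h3 : v = u ∨ v = u'
      · exact Or.inr h3
      · left; exact ⟨h1, h2, fun h4 => h3 h4.2⟩
    · rintro (⟨h1, h2, _⟩ | rfl | rfl)
      · exact ⟨h1, h2⟩
      · exact ⟨hu, h.hu⟩
      · exact ⟨hu', h.hu'⟩
  have hd : Disjoint (Z.filter (fun v => c ∈ s'.tok v)) {u, u'} := by
    rw [disjoint_left]
    intro v hv hv'
    rw [mem_filter, h.mem_tok'] at hv
    rw [mem_insert, mem_singleton] at hv'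
    exact hv.2.2 ⟨rfl, hv'⟩
  rw [e, card_union_of_disjoint hd, card_pair h.ne]

theorem Virt.odd (h : Virt s s' c u u') {Z : Finset V} (hu : u ∈ Z) (hu' : u' ∈ Z) :
    s'.odd Z = s.odd Z := by
  ext d
  rw [mem_odd, mem_odd]
  by_cases hd : d = c
  · subst hd
    rw [h.cnt_eq hu hu', Nat.odd_iff, Nat.odd_iff]
    omega
  · rw [h.cnt_ne Z hd]

theorem Virt.cls (h : Virt s s' c u u') (hu : u ∈ K) (hu' : u' ∈ K) (b : Bool) :
    s'.cls x K b = s.cls x K b := by
  unfold MC.cls
  rw [h.odd (mem_insert_of_mem hu) (mem_insert_of_mem hu')]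

theorem Virt.sum_tok (h : Virt s s' c u u') (hu : u ∈ K) :
    ∑ v ∈ K, (s'.tok v).card < ∑ v ∈ K, (s.tok v).card := by
  apply Finset.sum_lt_sum
  · intro v _; exact card_le_card (h.tok_sub v)
  · refine ⟨u, hu, card_lt_card ?_⟩
    refine Finset.ssubset_iff_of_subset (h.tok_sub u) |>.2 ⟨c, h.hu, ?_⟩
    rw [h.mem_tok']
    tauto

theorem Virt.free (h : Virt s s' c u u') (hx : x ∉ K) (hu : u ∈ K) (hu' : u' ∈ K) (b : Bool) :
    s'.free x K b = s.free x K b := by
  have h1 : x ≠ u := fun e => hx (by rw [e]; exact hu)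
  have h2 : x ≠ u' := fun e => hx (by rw [e]; exact hu')
  unfold MC.free
  rw [h.cls hu hu', h.tok_other h1 h2]

theorem Virt.star (h : Virt s s' c u u') (hs : s.Star x K) (hu : u ∈ K) (hu' : u' ∈ K) :
    s'.Star x K := by
  have hxu : x ≠ u := by rintro rfl; exact hs.hxK hu
  have hxu' : x ≠ u' := by rintro rfl; exact hs.hxK hu'
  refine ⟨hs.hxK, ?_, ?_, ?_, ?_⟩
  · intro a ha b hb hab
    rw [h.mult hab]
    have := hs.hK a ha b hb hab
    omega
  · intro w hw
    have hwx : x ≠ w := by rintro rfl; exact hs.hxK hw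
    rw [h.mult hwx, if_neg (by rintro (⟨h', _⟩ | ⟨h', _⟩); exacts [hxu h', hxu' h']),
      add_zero]
    exact hs.hx w hw
  · intro w hw hwx
    rw [h.mult (Ne.symm hwx), if_neg (by rintro (⟨h', _⟩ | ⟨h', _⟩); exacts [hxu h', hxu' h']),
      add_zero]
    exact hs.hx0 w hw hwx
  · rw [h.P]; exact hs.hP

/-- Stuckness is inherited. -/
theorem Virt.stuck (h : Virt s s' c u u') (hx : x ∉ K) (hst : s.Stuck x K o) (hu : u ∈ K)
    (hu' : u' ∈ K) : s'.Stuck x K o := by
  intro t ht
  have hm : 1 ≤ t.mult u u' := by
    rw [ht.1.1 u u' h.ne, h.mult h.ne, if_pos (Or.inl ⟨rfl, rfl⟩)]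
    omega
  unfold MC.mult at hm
  obtain ⟨g, hg⟩ := card_pos.mp hm
  rw [mem_filter] at hg
  have hv := virt_delE t g u u' h.ne hg.2
  set t' := delE t g u u' hg.2 with ht'
  have hsame : Same s t' := by
    constructor
    · intro a b hab
      have h1 := hv.mult hab
      have h2 := h.mult hab
      have h3 := ht.1.1 a b hab
      omega
    · intro v
      rw [← hv.P, ht.1.2, h.P]
  have huZ : u ∈ insert x K := mem_insert_of_mem hu
  have hu'Z : u' ∈ insert x K := mem_insert_of_mem hu'
  have hodd' : (t'.odd (insert x K)).card = (s.odd (insert x K)).card := by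
    rw [← hv.odd huZ hu'Z, ht.2, h.odd huZ hu'Z]
  have := hst t' ⟨hsame, hodd'⟩
  rw [← hv.free hx hu hu', ← h.free hx hu hu'] at this
  exact this

/-- Among three holders of `c` one is alone in its component. -/
theorem exists_single {c α : C} (hne : c ≠ α) (h3 : s.cnt K c = 3) (h0 : s.cnt K α = 0) :
    ∃ v ∈ K, c ∈ s.tok v ∧ s.cnt (K ∩ s.comp c α v) c = 1 := by
  have hpos : ∀ (Z : Finset V), 1 ≤ s.cnt Z c → ∃ v ∈ Z, c ∈ s.tok v := by
    intro Z hZ
    unfold MC.cnt at hZ
    obtain ⟨v, hv⟩ := card_pos.mp hZ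
    rw [mem_filter] at hv
    exact ⟨v, hv.1, hv.2⟩
  obtain ⟨v, hv, hcv⟩ := hpos K (by omega)
  have h1 : 1 ≤ s.cnt (K ∩ s.comp c α v) c :=
    cnt_ge_one (mem_inter.mpr ⟨hv, s.self_mem_comp c α v⟩) hcv
  have h2 : s.cnt (K ∩ s.comp c α v) c ≤ 2 := by
    have := ends_comp_le_two (s := s) hne K v
    unfold MC.ends at this
    omega
  rcases Nat.lt_or_ge (s.cnt (K ∩ s.comp c α v) c) 2 with hlt | hge
  · exact ⟨v, hv, hcv, by omega⟩
  · have hsp := s.cnt_split K (s.comp c α v) c
    obtain ⟨w, hw, hcw⟩ := hpos (K \ s.comp c α v) (by omega)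
    rw [mem_sdiff] at hw
    refine ⟨w, hw.1, hcw, ?_⟩
    have h4 : 1 ≤ s.cnt (K ∩ s.comp c α w) c :=
      cnt_ge_one (mem_inter.mpr ⟨hw.1, s.self_mem_comp c α w⟩) hcw
    have h5 : s.cnt (K ∩ s.comp c α w) c ≤ s.cnt (K \ s.comp c α v) c := by
      unfold MC.cnt
      apply card_le_card
      apply filter_subset_filter
      intro y hy
      rw [mem_inter] at hy
      rw [mem_sdiff]
      refine ⟨hy.1, fun hy' => ?_⟩
      exact (disjoint_left.mp (comp_disjoint hw.2)) hy.2 hy'
    omega

theorem mem_cls_false {c : C} : c ∈ s.cls x K false ↔ c ∉ s.odd (insert x K) := by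
  simp [MC.cls]

theorem mem_cls_true {c : C} : c ∈ s.cls x K true ↔ c ∈ s.odd (insert x K) := by
  simp [MC.cls]

/-- Parity of the number of tokens on `K`. -/
theorem odd_iff (hx : x ∉ K) (c : C) :
    c ∈ s.odd (insert x K) ↔ (c ∈ s.tok x ↔ Even (s.cnt K c)) := by
  rw [mem_odd, cnt_insert hx]
  by_cases h : c ∈ s.tok x
  · rw [if_pos h]
    simp only [h, true_iff]
    rw [Nat.odd_add_one, Nat.not_odd_iff_even]
  · rw [if_neg h]
    simp only [h, false_iff, add_zero]
    rw [Nat.not_even_iff_odd]

theorem free_add (s : MC V C) (x : V) (K : Finset V) :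
    s.free x K true + s.free x K false = (s.tok x).card := by
  unfold MC.free
  have : s.tok x ∩ s.cls x K false = s.tok x \ s.cls x K true := by
    ext c
    rw [mem_inter, mem_sdiff, mem_cls_false, mem_cls_true]
  rw [this]
  exact card_inter_add_card_sdiff _ _

theorem free_true_of {s' : MC V C} (hr : Rel x K s s')
    (hf : s'.free x K false = s.free x K false) : s'.free x K true = s.free x K true := by
  have h1 := free_add s x K
  have h2 := free_add s' x K
  have h3 := hr.1.card_tok x
  omega

/-- Swap away from `x` with an even number of ends. -/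
theorem rel_swap_even {c α : C} {S : Finset V} (hS : s.Closed c α S) (hx : x ∉ S)
    (hev : Even (s.ends (insert x K) c α S)) :
    Rel x K s (s.swap c α S hS) ∧ (s.swap c α S hS).free x K false = s.free x K false := by
  have hodd := odd_swap_of_even hS (insert x K) hev
  have htok : (s.swap c α S hS).tok x = s.tok x := by
    ext d; rw [mem_tok_swap, if_neg hx]
  refine ⟨⟨swap_same hS, by rw [hodd]⟩, ?_⟩
  unfold MC.free MC.cls
  rw [hodd, htok]

/-- One surplus pair: the normal form is reached by one Kempe swap. -/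
theorem one_pair (hs : s.Star x K) (h : s.Stuck x K false) (hN : 2 ≤ s.free x K true)
    {c : C} (hc2 : 2 ≤ s.cnt K c) (hc3 : s.cnt K c ≤ 3) (hone : ∀ d, d ≠ c → s.cnt K d ≤ 1) :
    ∃ (s' : MC V C) (a : C), Rel x K s s' ∧ s'.free x K false = s.free x K false ∧
      s'.NF x K a := by
  have hxK := hs.hxK
  obtain ⟨α, hα⟩ : (s.tok x ∩ s.cls x K true).Nonempty := by
    apply card_pos.mp
    unfold MC.free at hN
    omega
  rw [mem_inter, mem_cls_true] at hα
  obtain ⟨hαx, hαO⟩ := hα
  have hαev : Even (s.cnt K α) := ((odd_iff hxK α).mp hαO).mp hαx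
  by_cases hcα : c = α
  · subst hcα
    refine ⟨s, c, Rel.refl x K s, rfl, hαx, ?_, hone⟩
    rw [Nat.even_iff] at hαev
    omega
  have h0 : s.cnt K α = 0 := by
    have := hone α (Ne.symm hcα)
    rw [Nat.even_iff] at hαev
    omega
  -- a swap with exactly two ends, both `c`-holders
  have key : ∀ (S : Finset V) (hS : s.Closed c α S) (hx : x ∉ S) (hcS : s.cnt (K ∩ S) c = 2),
      ∃ (s' : MC V C) (a : C), Rel x K s s' ∧ s'.free x K false = s.free x K false ∧
        s'.NF x K a := by
    intro S hS hx hcS
    have hsp0 := s.cnt_split K S α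
    have hspc := s.cnt_split K S c
    have hends : s.ends (insert x K) c α S = 2 := by
      unfold MC.ends
      rw [insert_inter_of_notMem hx]
      omega
    obtain ⟨hrel, hfree⟩ := rel_swap_even (K := K) hS hx (by rw [hends]; exact even_two)
    refine ⟨_, α, hrel, hfree, ?_, ?_, ?_⟩
    · rw [mem_tok_swap, if_neg hx]; exact hαx
    · rw [cnt_swap, Equiv.swap_apply_right]; omega
    · intro d hd
      by_cases hdc : d = c
      · subst hdc
        rw [cnt_swap, Equiv.swap_apply_left]; omega
      · rw [cnt_swap_of_ne hS K hdc hd]; exact hone d hdc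
  by_cases hcx : c ∈ s.tok x
  · by_cases hcO : c ∈ s.odd (insert x K)
    · -- `c ∈ N`
      have hev : Even (s.cnt K c) := ((odd_iff hxK c).mp hcO).mp hcx
      refine ⟨s, c, Rel.refl x K s, rfl, hcx, ?_, hone⟩
      rw [Nat.even_iff] at hev
      omega
    · -- `c ∈ M`
      have hnev : ¬ Even (s.cnt K c) := by
        intro hev
        exact hcO ((odd_iff hxK c).mpr ⟨fun _ => hev, fun _ => hcx⟩)
      have h3 : s.cnt K c = 3 := by
        rw [Nat.even_iff] at hnev
        omega
      obtain ⟨v, hv, hcv, hv1⟩ := exists_single hcα h3 h0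
      have hxv : x ∉ s.comp c α v := by
        intro hx
        have h1 : v ∈ s.comp c α x := mem_comp_symm hx
        have h2 := eq_of_both hcx hαx h1
        rw [h2] at hv
        exact hxK hv
      have hS := s.comp_closed c α v
      have hsp0 := s.cnt_split K (s.comp c α v) α
      have hspc := s.cnt_split K (s.comp c α v) c
      have hends : s.ends (insert x K) c α (s.comp c α v) = 1 := by
        unfold MC.ends
        rw [insert_inter_of_notMem hxv]
        omega
      have hoddE : Odd (s.ends (insert x K) c α (s.comp c α v)) := by rw [hends]; exact odd_one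
      have hpar : c ∈ s.odd (insert x K) ↔ α ∉ s.odd (insert x K) := by tauto
      have hmem := mem_odd_swap_of_odd hcα hS (insert x K) hoddE
      have htok : (s.swap c α _ hS).tok x = s.tok x := by
        ext d; rw [mem_tok_swap, if_neg hxv]
      have hM' : (s.swap c α _ hS).tok x ∩ (s.swap c α _ hS).cls x K false =
          insert α ((s.tok x ∩ s.cls x K false).erase c) := by
        ext d
        rw [mem_inter, htok, mem_cls_false, hmem, mem_insert, mem_erase, mem_inter, mem_cls_false]
        by_cases h1 : d = c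
        · subst h1
          rw [if_pos (Or.inl rfl)]
          constructor
          · rintro ⟨_, h2⟩
            exact absurd hcO h2
          · rintro (h2 | ⟨h2, _⟩)
            · exact absurd h2 hcα
            · exact absurd rfl h2
        · by_cases h2 : d = α
          · subst h2
            rw [if_pos (Or.inr rfl)]
            constructor
            · intro _; exact Or.inl rfl
            · intro _
              exact ⟨hαx, not_not.mpr hαO⟩
          · rw [if_neg (by tauto)]
            constructor
            · intro h3; exact Or.inr ⟨h1, h3⟩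
            · rintro (h3 | h3)
              · exact absurd h3 h2
              · exact h3.2
      have hfree : (s.swap c α _ hS).free x K false = s.free x K false := by
        unfold MC.free
        have hM : c ∈ s.tok x ∩ s.cls x K false := by
          rw [mem_inter, mem_cls_false]; exact ⟨hcx, hcO⟩
        rw [hM', card_insert_of_notMem, card_erase_of_mem hM]
        · have : 0 < (s.tok x ∩ s.cls x K false).card := card_pos.mpr ⟨c, hM⟩
          omega
        · rw [mem_erase, mem_inter, mem_cls_false]
          rintro ⟨_, _, h2⟩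
          exact h2 hαO
      refine ⟨_, c, ⟨swap_same hS, card_odd_swap_of_odd hcα hS (insert x K) hoddE hpar⟩,
        hfree, ?_, ?_, ?_⟩
      · rw [htok]; exact hcx
      · rw [cnt_swap, Equiv.swap_apply_left]; omega
      · intro d hd
        by_cases hdα : d = α
        · subst hdα
          rw [cnt_swap, Equiv.swap_apply_right]; omega
        · rw [cnt_swap_of_ne hS K hd hdα]; exact hone d hd
  · set T := s.comp c α x with hT
    have hxT : x ∈ T := s.self_mem_comp c α x
    have hTcl : s.Closed c α T := s.comp_closed c α x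
    have hcompl : ∀ (W : Finset V), s.cnt (K ∩ Wᶜ) c + s.cnt (K ∩ W) c = s.cnt K c := by
      intro W
      rw [s.cnt_split K W c]
      congr 2
      ext v
      rw [mem_inter, mem_compl, mem_sdiff]
    by_cases hcO : c ∈ s.odd (insert x K)
    · -- `c` is used at `x` and odd
      have hnev : ¬ Even (s.cnt K c) := by
        intro hev
        exact hcx (((odd_iff hxK c).mp hcO).mpr hev)
      have h3 : s.cnt K c = 3 := by
        rw [Nat.even_iff] at hnev
        omega
      have hle : s.cnt (K ∩ T) c ≤ 1 := by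
        have h4 := ends_comp_le_two (s := s) hcα (insert x K) x
        rw [← hT] at h4
        unfold MC.ends at h4
        rw [insert_inter_of_mem hxT, cnt_insert (fun h' => hxK (mem_inter.mp h').1),
          cnt_insert (fun h' => hxK (mem_inter.mp h').1), if_neg hcx, if_pos hαx] at h4
        omega
      rcases Nat.eq_zero_or_pos (s.cnt (K ∩ T) c) with hz | hpos
      · obtain ⟨v, hv, hcv, hv1⟩ := exists_single hcα h3 h0
        have hvT : v ∉ T := by
          intro h'
          have := cnt_ge_one (mem_inter.mpr ⟨hv, h'⟩) hcv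
          omega
        have hdis : Disjoint T (s.comp c α v) := (comp_disjoint hvT).symm
        have hU : s.Closed c α (T ∪ s.comp c α v) := hTcl.union (s.comp_closed c α v)
        refine key _ hU.compl (by rw [mem_compl, not_not]; exact mem_union_left _ hxT) ?_
        have h5 := hcompl (T ∪ s.comp c α v)
        have h6 : s.cnt (K ∩ (T ∪ s.comp c α v)) c = 1 := by
          rw [inter_union_distrib_left, cnt_union_disjoint, hz, hv1]
          apply disjoint_of_subset_left inter_subset_right
          apply disjoint_of_subset_right inter_subset_right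
          exact hdis
        omega
      · refine key _ hTcl.compl (by rw [mem_compl, not_not]; exact hxT) ?_
        have h5 := hcompl T
        omega
    · -- `c` is used at `x` and even
      have hev : Even (s.cnt K c) := by
        by_contra hnev
        exact hcO ((odd_iff hxK c).mpr ⟨fun h' => absurd h' hcx, fun h' => absurd h' hnev⟩)
      have h2 : s.cnt K c = 2 := by
        rw [Nat.even_iff] at hev
        omega
      refine key _ hTcl.compl (by rw [mem_compl, not_not]; exact hxT) ?_
      have h5 := hcompl T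
      have h6 := Stuck.ends_comp_x hs h hαx (by rw [mem_cls_false, not_not]; exact hαO) hcx
        (mem_cls_false.mpr hcO)
      rw [comp_comm, ← hT] at h6
      unfold MC.ends at h6
      rw [insert_inter_of_mem hxT, cnt_insert (fun h' => hxK (mem_inter.mp h').1),
        cnt_insert (fun h' => hxK (mem_inter.mp h').1), if_neg hcx, if_pos hαx] at h6
      omega

/-- The number of tokens on `K`, counted by colours. -/
theorem sum_tok_eq (s : MC V C) (K : Finset V) :
    ∑ v ∈ K, (s.tok v).card = ∑ c : C, s.cnt K c := by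
  unfold MC.cnt
  simp only [card_filter, ← sum_comm (s := K)]
  refine sum_congr rfl fun v _ => ?_
  rw [← card_filter]
  congr 1
  ext c
  simp

theorem exists_two (hs : s.Star x K)
    (hsur : s.free x K false + ((s.odd (insert x K)).card - s.free x K true) + 2 ≤
      ∑ v ∈ K, (s.tok v).card) : ∃ c, 2 ≤ s.cnt K c := by
  by_contra hcon
  push Not at hcon
  have h1 : ∑ c : C, s.cnt K c ≤
      ((s.tok x ∩ s.cls x K false) ∪ (s.odd (insert x K) \ s.tok x)).card := by
    rw [card_eq_sum_ones, ← sum_filter_add_sum_filter_not univ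
      (fun c => c ∈ (s.tok x ∩ s.cls x K false) ∪ (s.odd (insert x K) \ s.tok x))]
    have e1 : ∑ c ∈ univ.filter
        (fun c => ¬ c ∈ (s.tok x ∩ s.cls x K false) ∪ (s.odd (insert x K) \ s.tok x)),
        s.cnt K c = 0 := by
      apply sum_eq_zero
      intro c hc
      rw [mem_filter, mem_union, mem_inter, mem_sdiff, mem_cls_false] at hc
      have h2 := hcon c
      have h3 := odd_iff (s := s) hs.hxK c
      have h4 : Even (s.cnt K c) := by
        by_contra h5
        have := hc.2
        tauto
      rw [Nat.even_iff] at h4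
      omega
    rw [e1, add_zero]
    have e2 : univ.filter (fun c => c ∈ (s.tok x ∩ s.cls x K false) ∪
        (s.odd (insert x K) \ s.tok x)) =
        (s.tok x ∩ s.cls x K false) ∪ (s.odd (insert x K) \ s.tok x) := by
      ext c; simp
    rw [e2]
    apply sum_le_sum
    intro c _
    have := hcon c
    omega
  have h2 := card_union_le (s.tok x ∩ s.cls x K false) (s.odd (insert x K) \ s.tok x)
  have h3 : (s.odd (insert x K) \ s.tok x).card + s.free x K true =
      (s.odd (insert x K)).card := by
    unfold MC.free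
    have : s.tok x ∩ s.cls x K true = s.odd (insert x K) ∩ s.tok x := by
      ext c
      rw [mem_inter, mem_inter, mem_cls_true]
      tauto
    rw [this]
    exact card_sdiff_add_card_inter _ _
  rw [sum_tok_eq] at hsur
  unfold MC.free at h3 hsur
  omega

end NormAux

open NormAux

/-- Add virtual edges (one for every pair of equal tokens in `K`) until exactly one surplus pair
is left, then move it to a colour of `N` by Kempe swaps. -/
theorem exists_NF (hs : s.Star x K) (h : s.Stuck x K false) (hN : 2 ≤ s.free x K true)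
    (hsur : s.free x K false + ((s.odd (insert x K)).card - s.free x K true) + 2 ≤
      ∑ v ∈ K, (s.tok v).card) {p : ℕ} (hp : ∀ v ∈ K, (s.tok v).card ≤ p) :
    ∃ (s' : MC V C) (a : C), s'.Star x K ∧ s'.Stuck x K false ∧ s'.NF x K a ∧
      s'.free x K true = s.free x K true ∧ s'.free x K false = s.free x K false ∧
      (s'.odd (insert x K)).card = (s.odd (insert x K)).card ∧
      (∀ v ∈ K, (s'.tok v).card ≤ p) := by
  have hex := exists_two hs hsur
  clear hsur
  induction hm : ∑ v ∈ K, (s.tok v).card using Nat.strong_induction_on generalizing s with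
  | _ m ih =>
    obtain ⟨c, hc⟩ := hex
    have hc' := hc
    unfold MC.cnt at hc'
    obtain ⟨u, hu, u', hu', huv⟩ := one_lt_card.mp hc'
    rw [mem_filter] at hu hu'
    have hv := virt_addE s c u u' huv hu.2 hu'.2
    set s₁ := addE s c u u' huv hu.2 hu'.2 with hs₁
    by_cases hsur' : ∃ d, 2 ≤ s₁.cnt K d
    · obtain ⟨s', a, h1, h2, h3, h4, h5, h6, h7⟩ := ih (∑ v ∈ K, (s₁.tok v).card)
        (by rw [← hm]; exact hv.sum_tok hu.1) (s := s₁) (hv.star hs hu.1 hu'.1)
        (hv.stuck hs.hxK h hu.1 hu'.1) (by rw [hv.free hs.hxK hu.1 hu'.1]; exact hN)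
        (fun v hvK => (card_le_card (hv.tok_sub v)).trans (hp v hvK)) hsur' rfl
      refine ⟨s', a, h1, h2, h3, ?_, ?_, ?_, h7⟩
      · rw [h4, hv.free hs.hxK hu.1 hu'.1]
      · rw [h5, hv.free hs.hxK hu.1 hu'.1]
      · rw [h6, hv.odd (mem_insert_of_mem hu.1) (mem_insert_of_mem hu'.1)]
    · push Not at hsur'
      have h1 := hv.cnt_eq hu.1 hu'.1
      have h2 := hsur' c
      obtain ⟨s', a, hrel, hfree, hnf⟩ := one_pair hs h hN hc (by omega) (by
        intro d hd
        have h3 := hsur' d
        rw [hv.cnt_ne K hd] at h3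
        omega)
      refine ⟨s', a, hs.of_rel hrel, h.of_rel hrel hfree, hnf, free_true_of hrel hfree, hfree,
        hrel.2, ?_⟩
      intro v hvK
      rw [hrel.1.card_tok v]
      exact hp v hvK

end MC

end

end Pool.Agent.Lib.P3f3a3b
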