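import Pool.Agent.Lib.P3f3a3b.StuckDefs

/-!
The exchange of the rows of two vertices `x` and `i` on a balanced set of colours, and the
execution of a path of the row digraph.
-/

set_option autoImplicit false
set_option linter.unusedSectionVars false
set_option linter.unusedVariables false

namespace Pool.Agent.Lib.P3f3a3b

open Finset
open scoped Classical

noncomputable section

variable {V C : Type*} [Fintype V] [Fintype C]

namespace MC

/-- Exchange the rows of `x` and `i` on the colours of `Δ`. -/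
def rowx (s : MC V C) (x i : V) (Δ : Finset C) (hx : ∀ c ∈ Δ, c ∉ s.P x)
    (hi : ∀ c ∈ Δ, c ∉ s.P i) : MC V C where
  nb c v := if c ∈ Δ then Equiv.swap x i (s.nb c (Equiv.swap x i v)) else s.nb c v
  invol c v := by
    by_cases hc : c ∈ Δ
    · simp only [if_pos hc, Equiv.swap_apply_self, s.invol]
    · simp only [if_neg hc, s.invol]
  P := s.P
  hP v c hc := by
    by_cases hcΔ : c ∈ Δ
    · rw [if_pos hcΔ]
      have h1 : v ≠ x := fun e => hx c hcΔ (e ▸ hc)
      have h2 : v ≠ i := fun e => hi c hcΔ (e ▸ hc)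
      rw [Equiv.swap_apply_of_ne_of_ne h1 h2, s.hP v c hc, Equiv.swap_apply_of_ne_of_ne h1 h2]
    · rw [if_neg hcΔ]; exact s.hP v c hc

section
variable {s : MC V C} {x i : V} {Δ : Finset C} {hx : ∀ c ∈ Δ, c ∉ s.P x}
  {hi : ∀ c ∈ Δ, c ∉ s.P i}

theorem rowx_nb_of_notMem {c : C} (hc : c ∉ Δ) (v : V) :
    (s.rowx x i Δ hx hi).nb c v = s.nb c v := by
  simp only [rowx, if_neg hc]

theorem rowx_nb_of_mem {c : C} (hc : c ∈ Δ) (v : V) :
    (s.rowx x i Δ hx hi).nb c v = Equiv.swap x i (s.nb c (Equiv.swap x i v)) := by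
  simp only [rowx, if_pos hc]

theorem mem_tok_rowx_of_ne {v : V} (h1 : v ≠ x) (h2 : v ≠ i) :
    (s.rowx x i Δ hx hi).tok v = s.tok v := by
  ext c
  rw [mem_tok, mem_tok]
  show c ∉ s.P v ∧ _ ↔ _
  apply and_congr_right
  intro _
  by_cases hc : c ∈ Δ
  · rw [rowx_nb_of_mem hc, Equiv.swap_apply_of_ne_of_ne h1 h2]
    constructor
    · intro h
      have := congrArg (Equiv.swap x i) h
      rwa [Equiv.swap_apply_self, Equiv.swap_apply_of_ne_of_ne h1 h2] at this
    · intro h
      rw [h, Equiv.swap_apply_of_ne_of_ne h1 h2]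
  · rw [rowx_nb_of_notMem hc]

theorem mem_tok_rowx_x {c : C} : c ∈ (s.rowx x i Δ hx hi).tok x ↔
    if c ∈ Δ then c ∈ s.tok i else c ∈ s.tok x := by
  rw [mem_tok]
  show c ∉ s.P x ∧ _ ↔ _
  by_cases hc : c ∈ Δ
  · rw [if_pos hc, rowx_nb_of_mem hc, Equiv.swap_apply_left, mem_tok]
    constructor
    · rintro ⟨_, h⟩
      refine ⟨hi c hc, ?_⟩
      have := congrArg (Equiv.swap x i) h
      rwa [Equiv.swap_apply_self, Equiv.swap_apply_left] at this
    · rintro ⟨_, h⟩
      exact ⟨hx c hc, by rw [h, Equiv.swap_apply_right]⟩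
  · rw [if_neg hc, rowx_nb_of_notMem hc, mem_tok]

theorem mem_tok_rowx_i {c : C} : c ∈ (s.rowx x i Δ hx hi).tok i ↔
    if c ∈ Δ then c ∈ s.tok x else c ∈ s.tok i := by
  rw [mem_tok]
  show c ∉ s.P i ∧ _ ↔ _
  by_cases hc : c ∈ Δ
  · rw [if_pos hc, rowx_nb_of_mem hc, Equiv.swap_apply_right, mem_tok]
    constructor
    · rintro ⟨_, h⟩
      refine ⟨hx c hc, ?_⟩
      have := congrArg (Equiv.swap x i) h
      rwa [Equiv.swap_apply_self, Equiv.swap_apply_right] at this
    · rintro ⟨_, h⟩
      exact ⟨hi c hc, by rw [h, Equiv.swap_apply_left]⟩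
  · rw [if_neg hc, rowx_nb_of_notMem hc, mem_tok]

theorem rowx_same (hxi : x ≠ i)
    (hbal : ∀ v, v ≠ x → v ≠ i → (Δ.filter (fun c => s.nb c x = v)).card =
      (Δ.filter (fun c => s.nb c i = v)).card) : Same s (s.rowx x i Δ hx hi) := by
  refine ⟨?_, fun v => rfl⟩
  -- mult splits over Δ and its complement
  have hsplit : ∀ (t : MC V C) (u v : V), t.mult u v =
      (Δᶜ.filter (fun c => t.nb c u = v)).card + (Δ.filter (fun c => t.nb c u = v)).card := by
    intro t u v
    unfold mult
    rw [← card_union_of_disjoint]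
    · congr 1
      ext c
      simp only [mem_filter, mem_univ, true_and, mem_union, mem_compl]
      tauto
    · rw [disjoint_left]
      intro c h1 h2
      exact (mem_compl.mp (mem_filter.mp h1).1) (mem_filter.mp h2).1
  have hout : ∀ u v : V, (Δᶜ.filter (fun c => (s.rowx x i Δ hx hi).nb c u = v)).card =
      (Δᶜ.filter (fun c => s.nb c u = v)).card := by
    intro u v
    congr 1
    apply filter_congr
    intro c hc
    rw [rowx_nb_of_notMem (mem_compl.mp hc)]
  have hin : ∀ u v : V, (Δ.filter (fun c => (s.rowx x i Δ hx hi).nb c u = v)).card =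
      (Δ.filter (fun c => s.nb c (Equiv.swap x i u) = Equiv.swap x i v)).card := by
    intro u v
    congr 1
    apply filter_congr
    intro c hc
    rw [rowx_nb_of_mem hc]
    constructor
    · intro h
      rw [← h, Equiv.swap_apply_self]
    · intro h
      rw [h, Equiv.swap_apply_self]
  intro u v huv
  rw [hsplit, hsplit s, hout, hin]
  congr 1
  by_cases hux : u = x
  · subst hux
    rw [Equiv.swap_apply_left]
    by_cases hvi : v = i
    · subst hvi
      rw [Equiv.swap_apply_right]
      congr 1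
      apply filter_congr
      intro c _
      exact ⟨fun h => nb_symm h, fun h => nb_symm h⟩
    · rw [Equiv.swap_apply_of_ne_of_ne (Ne.symm huv) hvi]
      exact (hbal v (Ne.symm huv) hvi).symm
  · by_cases hui : u = i
    · subst hui
      rw [Equiv.swap_apply_right]
      by_cases hvx : v = x
      · subst hvx
        rw [Equiv.swap_apply_left]
        congr 1
        apply filter_congr
        intro c _
        exact ⟨fun h => nb_symm h, fun h => nb_symm h⟩
      · rw [Equiv.swap_apply_of_ne_of_ne hvx (Ne.symm huv)]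
        exact hbal v hvx (Ne.symm huv)
    · rw [Equiv.swap_apply_of_ne_of_ne hux hui]
      have hflip : ∀ a b : V, (Δ.filter (fun c => s.nb c a = b)).card =
          (Δ.filter (fun c => s.nb c b = a)).card := by
        intro a b
        congr 1
        apply filter_congr
        intro c _
        exact ⟨fun h => nb_symm h, fun h => nb_symm h⟩
      by_cases hvx : v = x
      · subst hvx
        rw [Equiv.swap_apply_left, hflip u i, hflip u v]
        exact (hbal u hux hui).symm
      · by_cases hvi : v = i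
        · subst hvi
          rw [Equiv.swap_apply_right, hflip u x, hflip u v]
          exact hbal u hux hui
        · rw [Equiv.swap_apply_of_ne_of_ne hvx hvi]

theorem cnt_rowx {K : Finset V} (hxK : x ∉ K) (hiK : i ∈ K) (c : C) :
    (s.rowx x i Δ hx hi).cnt (insert x K) c = s.cnt (insert x K) c := by
  have hxi : x ≠ i := fun e => hxK (e ▸ hiK)
  have hx' : x ∉ insert i (K.erase i) := by
    rw [insert_erase hiK]; exact hxK
  have hi' : i ∉ K.erase i := notMem_erase i K
  have hK : insert x K = insert x (insert i (K.erase i)) := by rw [insert_erase hiK]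
  rw [hK, cnt_insert hx', cnt_insert hi', cnt_insert hx', cnt_insert hi']
  have h1 : (s.rowx x i Δ hx hi).cnt (K.erase i) c = s.cnt (K.erase i) c := by
    unfold cnt
    congr 1
    apply filter_congr
    intro v hv
    have hvx : v ≠ x := fun e => hxK (by rw [← e]; exact mem_of_mem_erase hv)
    rw [mem_tok_rowx_of_ne hvx (ne_of_mem_erase hv)]
  rw [h1]
  by_cases hc : c ∈ Δ
  · simp only [mem_tok_rowx_x, mem_tok_rowx_i, if_pos hc]
    omega
  · simp only [mem_tok_rowx_x, mem_tok_rowx_i, if_neg hc]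

theorem odd_rowx {K : Finset V} (hxK : x ∉ K) (hiK : i ∈ K) :
    (s.rowx x i Δ hx hi).odd (insert x K) = s.odd (insert x K) := by
  ext c
  rw [mem_odd, mem_odd, cnt_rowx hxK hiK]

end

/-! The row digraph. -/

/-- The arcs of the row digraph of `x` and `i`: from the colour of the edge `xv` to the chosen
colour `f v` of an edge `iv`. -/
def Arc (s : MC V C) (x : V) (K : Finset V) (i : V) (f : V → C) (c c' : C) : Prop :=
  s.nb c x ∈ K ∧ s.nb c x ≠ i ∧ c' = f (s.nb c x)

/-- The colour of the edge `xv` is unique. -/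
theorem Star.uniq {s : MC V C} {x : V} {K : Finset V} (hs : s.Star x K) {v : V} (hv : v ∈ K)
    {c d : C} (hc : s.nb c x = v) (hd : s.nb d x = v) : c = d := by
  have h1 := hs.hx v hv
  unfold mult at h1
  obtain ⟨e, he⟩ := card_eq_one.mp h1
  have h2 : c ∈ univ.filter (fun c => s.nb c x = v) := by simp [hc]
  have h3 : d ∈ univ.filter (fun c => s.nb c x = v) := by simp [hd]
  rw [he, mem_singleton] at h2 h3
  rw [h2, h3]

theorem Star.exists_col {s : MC V C} {x : V} {K : Finset V} (hs : s.Star x K) {v : V}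
    (hv : v ∈ K) : ∃ c, s.nb c x = v := by
  have h1 := hs.hx v hv
  unfold mult at h1
  obtain ⟨e, he⟩ := card_eq_one.mp h1
  have h2 : e ∈ univ.filter (fun c => s.nb c x = v) := by rw [he]; exact mem_singleton_self e
  exact ⟨e, (mem_filter.mp h2).2⟩

/-- A colour is free at `x` or leads to a vertex of `K`. -/
theorem Star.nb_mem {s : MC V C} {x : V} {K : Finset V} (hs : s.Star x K) {c : C}
    (hc : c ∉ s.tok x) : s.nb c x ∈ K := by
  have h1 : s.nb c x ≠ x := by
    intro h
    apply hc
    rw [mem_tok, hs.hP]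
    exact ⟨notMem_empty c, h⟩
  by_contra h2
  have h3 := hs.hx0 _ h2 h1
  unfold mult at h3
  rw [card_eq_zero, filter_eq_empty_iff] at h3
  exact h3 (mem_univ c) rfl

theorem Star.notMem_tok_iff {s : MC V C} {x : V} {K : Finset V} (hs : s.Star x K) {c : C} :
    c ∉ s.tok x ↔ s.nb c x ∈ K := by
  constructor
  · exact hs.nb_mem
  · intro h h'
    rw [nb_of_tok h'] at h
    exact hs.hxK h

/-- A choice of colours for the edges from `i` into `K`. -/
def Tr (s : MC V C) (K : Finset V) (i : V) (f : V → C) : Prop :=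
  ∀ v ∈ K, v ≠ i → s.nb (f v) i = v

/-- **Execution of a path.** `a` is a token of `i`, used at `x`; `Δ` is the set of colours
reachable from `a`. -/
theorem exec {s : MC V C} {x : V} {K : Finset V} (hs : s.Star x K) {i : V} (hi : i ∈ K)
    {f : V → C} (hf : s.Tr K i f) {a : C} (hai : a ∈ s.tok i) (hax : a ∉ s.tok x)
    {Δ : Finset C} (hΔ : ∀ c, c ∈ Δ ↔ Relation.ReflTransGen (s.Arc x K i f) a c) :
    ∃ (s' : MC V C) (g : C), Rel x K s s' ∧ s'.odd (insert x K) = s.odd (insert x K) ∧
      g ∈ Δ ∧ g ∈ s.tok x ∧ (∀ c ∈ Δ, c ∈ s.tok x → c = g) ∧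
      (∀ c, c ∈ s'.tok x ↔ c = a ∨ (c ∈ s.tok x ∧ c ≠ g)) ∧
      g ∈ s'.tok i ∧
      (∀ c, c ∉ Δ → ∀ v, s'.nb c v = s.nb c v) := by
  have hxi : x ≠ i := fun e => hs.hxK (e ▸ hi)
  have hxP : ∀ c ∈ Δ, c ∉ s.P x := fun c _ => by rw [hs.hP]; exact notMem_empty c
  -- elements of Δ other than a are values of f
  have hval : ∀ c ∈ Δ, c = a ∨ ∃ v ∈ K, v ≠ i ∧ c = f v ∧
      ∃ b ∈ Δ, s.nb b x = v := by
    intro c hc
    rcases Relation.ReflTransGen.cases_tail ((hΔ c).mp hc) with h | ⟨b, hb, hbc⟩
    · exact Or.inl h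
    · exact Or.inr ⟨s.nb b x, hbc.1, hbc.2.1, hbc.2.2, b, (hΔ b).mpr hb, rfl⟩
  have hiP : ∀ c ∈ Δ, c ∉ s.P i := by
    intro c hc hcP
    rcases hval c hc with rfl | ⟨v, hv, hvi, rfl, _⟩
    · exact (mem_tok.mp hai).1 hcP
    · have := s.hP i _ hcP
      rw [hf v hv hvi] at this
      exact hvi this
  have haΔ : a ∈ Δ := (hΔ a).mpr Relation.ReflTransGen.refl
  have hai' := nb_of_tok hai
  -- balance
  have hbal : ∀ v, v ≠ x → v ≠ i → (Δ.filter (fun c => s.nb c x = v)).card =
      (Δ.filter (fun c => s.nb c i = v)).card := by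
    intro v hvx hvi
    have hR : ∀ c ∈ Δ, s.nb c i = v → v ∈ K ∧ c = f v ∧ ∃ b ∈ Δ, s.nb b x = v := by
      intro c hc hcv
      rcases hval c hc with rfl | ⟨w, hw, hwi, rfl, hb⟩
      · rw [hai'] at hcv; exact absurd hcv.symm hvi
      · rw [hf w hw hwi] at hcv
        subst hcv
        exact ⟨hw, rfl, hb⟩
    by_cases hvK : v ∈ K
    · obtain ⟨r, hr⟩ := hs.exists_col hvK
      by_cases hrΔ : r ∈ Δ
      · have h1 : Δ.filter (fun c => s.nb c x = v) = {r} := by
          ext c
          rw [mem_filter, mem_singleton]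
          constructor
          · rintro ⟨_, h⟩; exact hs.uniq hvK h hr
          · rintro rfl; exact ⟨hrΔ, hr⟩
        have h2 : Δ.filter (fun c => s.nb c i = v) = {f v} := by
          ext c
          rw [mem_filter, mem_singleton]
          constructor
          · rintro ⟨hc, h⟩; exact (hR c hc h).2.1
          · rintro rfl
            refine ⟨(hΔ _).mpr (Relation.ReflTransGen.tail ((hΔ r).mp hrΔ) ?_), hf v hvK hvi⟩
            exact ⟨by rw [hr]; exact hvK, by rw [hr]; exact hvi, by rw [hr]⟩
        rw [h1, h2, card_singleton, card_singleton]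
      · have h1 : Δ.filter (fun c => s.nb c x = v) = ∅ := by
          rw [filter_eq_empty_iff]
          intro c hc h
          exact hrΔ (hs.uniq hvK h hr ▸ hc)
        have h2 : Δ.filter (fun c => s.nb c i = v) = ∅ := by
          rw [filter_eq_empty_iff]
          intro c hc h
          obtain ⟨_, _, b, hb, hbv⟩ := hR c hc h
          exact hrΔ (hs.uniq hvK hbv hr ▸ hb)
        rw [h1, h2]
    · have h1 : Δ.filter (fun c => s.nb c x = v) = ∅ := by
        rw [filter_eq_empty_iff]
        intro c hc h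
        by_cases hct : c ∈ s.tok x
        · rw [nb_of_tok hct] at h; exact hvx h.symm
        · have := hs.nb_mem hct
          rw [h] at this
          exact hvK this
      have h2 : Δ.filter (fun c => s.nb c i = v) = ∅ := by
        rw [filter_eq_empty_iff]
        intro c hc h
        exact hvK (hR c hc h).1
      rw [h1, h2]
  have hsame : Same s (s.rowx x i Δ hxP hiP) := rowx_same hxi hbal
  have hodd : (s.rowx x i Δ hxP hiP).odd (insert x K) = s.odd (insert x K) :=
    odd_rowx hs.hxK hi
  have htoki : ∀ c ∈ Δ, c ∈ s.tok i ↔ c = a := by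
    intro c hc
    constructor
    · intro h
      rcases hval c hc with rfl | ⟨v, hv, hvi, rfl, _⟩
      · rfl
      · have := nb_of_tok h
        rw [hf v hv hvi] at this
        exact absurd this hvi
    · rintro rfl; exact hai
  -- exactly one free colour of x in Δ
  have hcard := hsame.card_tok x
  have htokx : (s.rowx x i Δ hxP hiP).tok x = insert a (s.tok x \ Δ) := by
    ext c
    rw [mem_tok_rowx_x, mem_insert, mem_sdiff]
    by_cases hc : c ∈ Δ
    · rw [if_pos hc, htoki c hc]; tauto
    · rw [if_neg hc]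
      constructor
      · intro h; exact Or.inr ⟨h, hc⟩
      · rintro (h | h)
        · exact absurd (h ▸ haΔ) hc
        · exact h.1
  have hone : (s.tok x ∩ Δ).card = 1 := by
    rw [htokx, card_insert_of_notMem (by
      rw [mem_sdiff]; exact fun h => hax h.1)] at hcard
    have := card_sdiff_add_card_inter (s.tok x) Δ
    omega
  obtain ⟨g, hg⟩ := card_eq_one.mp hone
  have hg' : g ∈ s.tok x ∩ Δ := by rw [hg]; exact mem_singleton_self g
  rw [mem_inter] at hg'
  have huniq : ∀ c ∈ Δ, c ∈ s.tok x → c = g := by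
    intro c h1 h2
    have : c ∈ s.tok x ∩ Δ := mem_inter.mpr ⟨h2, h1⟩
    rw [hg, mem_singleton] at this
    exact this
  refine ⟨s.rowx x i Δ hxP hiP, g, ⟨hsame, by rw [hodd]⟩, hodd, hg'.2, hg'.1, huniq, ?_, ?_, ?_⟩
  · intro c
    rw [htokx, mem_insert, mem_sdiff]
    apply or_congr_right
    apply and_congr_right
    intro hc
    constructor
    · intro h e; exact h (e ▸ hg'.2)
    · intro h h'; exact h (huniq c h' hc)
  · rw [mem_tok_rowx_i, if_pos hg'.2]; exact hg'.1
  · intro c hc v
    exact rowx_nb_of_notMem hc v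

end MC

end

end Pool.Agent.Lib.P3f3a3b
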