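import Pool.Agent.Lib.P3f3a3b.MoveXV
import Pool.Agent.Lib.P3f3a3b.RowX

/-!
(PL): the paths of the row digraph of `x` and an active vertex `i`.
-/

set_option autoImplicit false
set_option linter.unusedSectionVars false
set_option linter.unusedVariables false

namespace Pool.Agent.Lib.P3f3a3b

open Finset
open scoped Classical

noncomputable section

variable {V C : Type*} [Fintype V] [Fintype C]

namespace MC

variable {s : MC V C} {x : V} {K : Finset V} {o : Bool}

open Relation

/-- (PL1): apply (X) to `c` and `e`, then execute the path. -/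
theorem Stuck.pl1 (hs : s.Star x K) (h : s.Stuck x K o) {i : V}
    (hi : i ∈ K) {c : C} (hci : c ∈ s.tok i) (hc : c ∈ s.tok x) (hcC : c ∉ s.cls x K o)
    {f : V → C} (hf : s.Tr K i f) {e : C} (he : e ∉ s.tok x) (heC : e ∈ s.cls x K o) :
    ∃ (s' : MC V C) (g : C), Rel x K s s' ∧ s'.Stuck x K o ∧ s'.Star x K ∧
      s'.free x K o = s.free x K o ∧
      g ∈ s.tok x ∧ g ∈ s.cls x K o ∧ TransGen (s.Arc x K i f) e g ∧
      ¬ TransGen (s.Arc x K i f) e e ∧
      (∀ d, TransGen (s.Arc x K i f) e d → d ∈ s.tok x → d = g) ∧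
      (∀ d, d ∈ s'.tok x ↔ d = e ∨ (d ∈ s.tok x ∧ d ≠ g)) ∧
      e ∉ s'.cls x K o ∧ c ∈ s'.cls x K o ∧
      (∀ d, d ≠ c → d ≠ e → (d ∈ s'.cls x K o ↔ d ∈ s.cls x K o)) ∧
      g ∈ s'.tok i ∧
      (∀ d, d ≠ c → d ≠ e → ¬ TransGen (s.Arc x K i f) e d → ∀ v, s'.nb d v = s.nb d v) ∧
      s'.nb e i = s.nb e i := by
  have hce : c ≠ e := fun h => he (h ▸ hc)
  obtain ⟨s₁, r1, hst1, hstar1, hfree1, k1, k2, k3, k4, k5, k6, k7, k8, k9⟩ :=
    h.moveX hs hc hcC he heC
  obtain ⟨k9a, k9b⟩ := k9 i hi hci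
  have hei : s.nb e x ≠ i := by
    intro h'
    apply h.not_KC hs hi hci hc hcC
    unfold KC
    rw [mem_filter]
    exact ⟨hi, e, heC, h'⟩
  have hf1 : s₁.Tr K i f := fun v hv hvi => by rw [k9a]; exact hf v hv hvi
  -- c is never reached
  have hcnot : ∀ d, ¬ s.Arc x K i f d c := by
    intro d hd
    have h1 := hf _ hd.1 hd.2.1
    rw [← hd.2.2, nb_of_tok hci] at h1
    exact hd.2.1 h1.symm
  have hcnot' : ¬ TransGen (s.Arc x K i f) e c := by
    intro h'
    rcases TransGen.tail'_iff.mp h' with ⟨d, _, hd⟩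
    exact hcnot d hd
  -- reachability in s₁ and in s
  have hreach : ∀ d, ReflTransGen (s₁.Arc x K i f) c d ↔
      d = c ∨ TransGen (s.Arc x K i f) e d := by
    intro d
    constructor
    · intro h'
      induction h' with
      | refl => exact Or.inl rfl
      | @tail b d hcb hbd ih =>
        right
        rcases ih with rfl | ih
        · refine TransGen.single ⟨?_, ?_, ?_⟩
          · rw [← k7]; exact hbd.1
          · rw [← k7]; exact hbd.2.1
          · rw [← k7]; exact hbd.2.2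
        · have hbc : b ≠ c := fun e' => hcnot' (e' ▸ ih)
          have hbe : b ≠ e := by
            intro e'
            have h1 := hbd.1
            rw [e', nb_of_tok k5] at h1
            exact hs.hxK h1
          refine TransGen.tail ih ⟨?_, ?_, ?_⟩
          · rw [← k8 b hbc hbe]; exact hbd.1
          · rw [← k8 b hbc hbe]; exact hbd.2.1
          · rw [← k8 b hbc hbe]; exact hbd.2.2
    · rintro (rfl | h')
      · exact ReflTransGen.refl
      · have hstart : ∀ d, s.Arc x K i f e d → ReflTransGen (s₁.Arc x K i f) c d := by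
          intro d hd
          refine ReflTransGen.single ⟨?_, ?_, ?_⟩
          · rw [k7]; exact hd.1
          · rw [k7]; exact hd.2.1
          · rw [k7]; exact hd.2.2
        induction h' with
        | single hd => exact hstart _ hd
        | @tail b d heb hbd ih =>
          by_cases hbe : b = e
          · subst hbe; exact hstart _ hbd
          · have hbc : b ≠ c := by
              intro e'
              have h1 := hbd.1
              rw [e', nb_of_tok hc] at h1
              exact hs.hxK h1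
            refine ReflTransGen.tail ih ⟨?_, ?_, ?_⟩
            · rw [k8 b hbc hbe]; exact hbd.1
            · rw [k8 b hbc hbe]; exact hbd.2.1
            · rw [k8 b hbc hbe]; exact hbd.2.2
  set Δ : Finset C := univ.filter (fun d => ReflTransGen (s₁.Arc x K i f) c d) with hΔ
  have hΔ' : ∀ d, d ∈ Δ ↔ ReflTransGen (s₁.Arc x K i f) c d := by
    intro d; rw [hΔ, mem_filter]; simp
  obtain ⟨s₂, g, r2, hodd2, m1, m2, m3, m4, m5, m6⟩ :=
    exec hstar1 hi hf1 (by rw [k9b]; exact hci) k4 hΔ'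
  have hcls2 : s₂.cls x K o = s₁.cls x K o := by unfold cls; rw [hodd2]
  have hgc : g ≠ c := fun e' => k4 (e' ▸ m2)
  -- g is in the class
  have hgcls : g ∈ s₁.cls x K o := by
    by_contra hg
    apply hst1 s₂ r2
    unfold free
    rw [hcls2]
    have h1 : s₂.tok x ∩ s₁.cls x K o = insert c (s₁.tok x ∩ s₁.cls x K o) := by
      ext d
      rw [mem_inter, mem_insert, mem_inter, m4]
      constructor
      · rintro ⟨h1 | h1, h2⟩
        · exact Or.inl h1
        · exact Or.inr ⟨h1.1, h2⟩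
      · rintro (h1 | h1)
        · subst h1; exact ⟨Or.inl rfl, k1⟩
        · exact ⟨Or.inr ⟨h1.1, fun e' => hg (e' ▸ h1.2)⟩, h1.2⟩
    rw [h1, card_insert_of_notMem]
    intro h2
    exact k4 (mem_inter.mp h2).1
  have hge : g ≠ e := fun e' => k2 (e' ▸ hgcls)
  have hgx : g ∈ s.tok x := (k6 g hgc hge).mp m2
  have hgC : g ∈ s.cls x K o := (k3 g hgc hge).mp hgcls
  have heΔ : e ∉ Δ := fun h' => hge (m3 e h' k5).symm
  have hno : ¬ TransGen (s.Arc x K i f) e e := fun h' =>
    heΔ ((hΔ' e).mpr ((hreach e).mpr (Or.inr h')))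
  have hfree2 : s₂.free x K o = s₁.free x K o := by
    unfold free
    rw [hcls2]
    have h1 : s₂.tok x ∩ s₁.cls x K o = insert c ((s₁.tok x ∩ s₁.cls x K o).erase g) := by
      ext d
      rw [mem_inter, mem_insert, mem_erase, mem_inter, m4]
      constructor
      · rintro ⟨h1 | h1, h2⟩
        · exact Or.inl h1
        · exact Or.inr ⟨h1.2, h1.1, h2⟩
      · rintro (h1 | ⟨h1, h2, h3⟩)
        · subst h1; exact ⟨Or.inl rfl, k1⟩
        · exact ⟨Or.inr ⟨h2, h1⟩, h3⟩
    have h2 : g ∈ s₁.tok x ∩ s₁.cls x K o := mem_inter.mpr ⟨m2, hgcls⟩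
    have h3 := card_pos.mpr ⟨g, h2⟩
    rw [h1, card_insert_of_notMem, card_erase_of_mem h2]
    · omega
    · intro h4
      exact k4 (mem_inter.mp (mem_of_mem_erase h4)).1
  refine ⟨s₂, g, r1.trans r2, hst1.of_rel r2 hfree2, hstar1.of_rel r2, hfree2.trans hfree1,
    hgx, hgC, ?_, hno, ?_, ?_, ?_, ?_, ?_, m5, ?_, ?_⟩
  · rcases (hreach g).mp ((hΔ' g).mp m1) with h' | h'
    · exact absurd h' hgc
    · exact h'
  · intro d hd hdx
    have hdc : d ≠ c := fun e' => hcnot' (e' ▸ hd)
    have hde : d ≠ e := fun e' => hno (e' ▸ hd)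
    exact m3 d ((hΔ' d).mpr ((hreach d).mpr (Or.inr hd))) ((k6 d hdc hde).mpr hdx)
  · intro d
    rw [m4]
    by_cases h1 : d = c
    · subst h1
      exact ⟨fun _ => Or.inr ⟨hc, Ne.symm hgc⟩, fun _ => Or.inl rfl⟩
    · by_cases h2 : d = e
      · subst h2
        exact ⟨fun _ => Or.inl rfl, fun _ => Or.inr ⟨k5, Ne.symm hge⟩⟩
      · rw [k6 d h1 h2]; tauto
  · rw [hcls2]; exact k2
  · rw [hcls2]; exact k1
  · intro d h1 h2
    rw [hcls2]; exact k3 d h1 h2
  · intro d h1 h2 h3 v
    rw [m6 d _ v, k8 d h1 h2]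
    intro h4
    rcases (hreach d).mp ((hΔ' d).mp h4) with h5 | h5
    · exact h1 h5
    · exact h3 h5
  · rw [m6 e heΔ, k9a]

/-- (PL2): the paths of two colours of `C - M` are disjoint. -/
theorem Stuck.pl2 (hs : s.Star x K) (h : s.Stuck x K o) (hN : 2 ≤ s.free x K (!o)) {i : V}
    (hi : i ∈ K) {c : C} (hci : c ∈ s.tok i) (hc : c ∈ s.tok x) (hcC : c ∉ s.cls x K o)
    {f : V → C} (hf : s.Tr K i f) {e l : C} (he : e ∉ s.tok x) (heC : e ∈ s.cls x K o)
    (hl : l ∉ s.tok x) (hlC : l ∈ s.cls x K o) :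
    ¬ TransGen (s.Arc x K i f) e l := by
  intro hel
  obtain ⟨_, _, _, _, _, _, _, _, _, hee, _⟩ := h.pl1 hs hi hci hc hcC hf he heC
  have hne : e ≠ l := fun e' => hee (by rw [← e'] at hel; exact hel)
  obtain ⟨s₂, g, r2, hst2, hstar2, hfree2, hgx, hgC, hlg, hll, huniq, htok2, hlcls2, hccls2,
    hcls2, hgi, hnb2, hnbl⟩ := h.pl1 hs hi hci hc hcC hf hl hlC
  have hgc : g ≠ c := fun e' => hcC (e' ▸ hgC)
  have hgl : g ≠ l := fun e' => hl (e' ▸ hgx)
  have hcl : c ≠ l := fun e' => hl (e' ▸ hc)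
  have hec : e ≠ c := fun e' => he (e' ▸ hc)
  have hl2 : l ∈ s₂.tok x := (htok2 l).mpr (Or.inl rfl)
  have hg2 : g ∉ s₂.tok x := by
    rw [htok2]; push Not; exact ⟨hgl, fun _ => rfl⟩
  have hgcls2 : g ∈ s₂.cls x K o := (hcls2 g hgc hgl).mpr hgC
  -- a second colour b of N
  have hN2 : 2 ≤ s₂.free x K (!o) := by rw [r2.free_not hfree2]; exact hN
  obtain ⟨b, hb, hbl⟩ : ∃ b ∈ s₂.tok x ∩ s₂.cls x K (!o), b ≠ l := by
    have h1 : 1 < (s₂.tok x ∩ s₂.cls x K (!o)).card := hN2
    obtain ⟨b, hb, hbl⟩ := exists_mem_ne h1 l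
    exact ⟨b, hb, hbl⟩
  rw [mem_inter, mem_cls_not] at hb
  obtain ⟨hb2, hbC2⟩ := hb
  have hbx : b ∈ s.tok x ∧ b ≠ g := by
    rcases (htok2 b).mp hb2 with h' | h'
    · exact absurd h' hbl
    · exact h'
  obtain ⟨s₃, r3, hodd3, hst3, hstar3, hnb3, hnbx3, htokx3, htoki3, _⟩ :=
    hst2.moveV hstar2 hb2 hbC2 hg2 hgcls2 hi (Or.inr hgi)
  have hcls3 : s₃.cls x K o = s₂.cls x K o := by unfold cls; rw [hodd3]
  have hbi3 : b ∈ s₃.tok i := by rw [htoki3, Equiv.swap_apply_left]; exact hgi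
  have hl3 : l ∈ s₃.tok x := by rw [htokx3]; exact hl2
  have hlC3 : l ∉ s₃.cls x K o := by rw [hcls3]; exact hlcls2
  have he3 : e ∉ s₃.tok x := by
    rw [htokx3, htok2]; push Not; exact ⟨hne, fun h' => absurd h' he⟩
  have heC3 : e ∈ s₃.cls x K o := by rw [hcls3, hcls2 e hec hne]; exact heC
  -- the new transversal
  have hex : ∀ v ∈ K, v ≠ i → ∃ d, s₃.nb d i = v := by
    intro v hv hvi
    have h1 := hstar3.hK i hi v hv (Ne.symm hvi)
    unfold mult at h1
    obtain ⟨d, hd⟩ := card_pos.mp h1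
    exact ⟨d, (mem_filter.mp hd).2⟩
  set f₃ : V → C := fun v => if s₃.nb (f v) i = v then f v else
    if h' : ∃ d, s₃.nb d i = v then h'.choose else f v with hf₃
  have hf3 : s₃.Tr K i f₃ := by
    intro v hv hvi
    by_cases h1 : s₃.nb (f v) i = v
    · simp only [hf₃, if_pos h1]; exact h1
    · simp only [hf₃, if_neg h1, dif_pos (hex v hv hvi)]
      exact (hex v hv hvi).choose_spec
  -- sinks
  have hsink : ∀ d d', d ∈ s.tok x → ¬ s.Arc x K i f d d' := by
    intro d d' hd hA
    have h1 := hA.1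
    rw [nb_of_tok hd] at h1
    exact hs.hxK h1
  have hsink' : ∀ d d', d ∈ s.tok x → ¬ TransGen (s.Arc x K i f) d d' := by
    intro d d' hd hA
    rcases TransGen.head'_iff.mp hA with ⟨d'', h1, _⟩
    exact hsink d d'' hd h1
  have hcnot' : ∀ d, ¬ TransGen (s.Arc x K i f) d c := by
    intro d h'
    rcases TransGen.tail'_iff.mp h' with ⟨d', _, hd⟩
    have h1 := hf _ hd.1 hd.2.1
    rw [← hd.2.2, nb_of_tok hci] at h1
    exact hd.2.1 h1.symm
  -- arcs of the path are arcs of s₃
  have harc : ∀ d d', (d = e ∨ TransGen (s.Arc x K i f) e d) → s.Arc x K i f d d' →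
      (d' = l ∨ TransGen (s.Arc x K i f) d' l) → s₃.Arc x K i f₃ d d' := by
    intro d d' hd hdd' hd'
    have hdl : TransGen (s.Arc x K i f) d l := by
      rcases hd' with rfl | hd'
      · exact TransGen.single hdd'
      · exact TransGen.head hdd' hd'
    have hdx : d ∉ s.tok x := fun h' => hsink' d l h' hdl
    have h1 : d ≠ c := fun e' => hdx (e' ▸ hc)
    have h2 : d ≠ l := fun e' => hll (by rw [e'] at hdl; exact hdl)
    have h3 : ¬ TransGen (s.Arc x K i f) l d := fun h' => hll (h'.trans hdl)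
    have h4 : s₃.nb d x = s.nb d x := by rw [hnbx3, hnb2 d h1 h2 h3]
    refine ⟨by rw [h4]; exact hdd'.1, by rw [h4]; exact hdd'.2.1, ?_⟩
    rw [h4, hdd'.2.2]
    have h5 : s₃.nb (f (s.nb d x)) i = s.nb d x := by
      have h6 := hf _ hdd'.1 hdd'.2.1
      rw [← hdd'.2.2] at h6 ⊢
      have h7 : d' ≠ g := by
        intro e'
        rcases hd' with h' | h'
        · exact hgl (e'.symm.trans h')
        · exact hsink' g l hgx (e' ▸ h')
      have h8 : d' ≠ b := by
        intro e'
        rcases hd' with h' | h'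
        · exact hbl (e'.symm.trans h')
        · exact hsink' b l hbx.1 (e' ▸ h')
      rw [hnb3 d' h8 h7]
      rcases hd' with h' | h'
      · rw [h', hnbl, ← h']; exact h6
      · have h9 : d' ≠ l := fun e' => hll (by rw [e'] at h'; exact h')
        have h10 : d' ≠ c := fun e' => hcnot' d (e' ▸ TransGen.single hdd')
        have h11 : ¬ TransGen (s.Arc x K i f) l d' := fun h'' => hll (h''.trans h')
        rw [hnb2 d' h10 h9 h11]; exact h6
    simp only [hf₃, if_pos h5]
  -- the path is preserved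
  have hpath : ∀ d, TransGen (s.Arc x K i f) e d →
      (d = l ∨ TransGen (s.Arc x K i f) d l) → TransGen (s₃.Arc x K i f₃) e d := by
    intro d hd
    induction hd with
    | single hd => intro h'; exact TransGen.single (harc _ _ (Or.inl rfl) hd h')
    | @tail b' d' heb hbd ih =>
      intro h'
      have h1 : TransGen (s.Arc x K i f) b' l := by
        rcases h' with rfl | h'
        · exact TransGen.single hbd
        · exact TransGen.head hbd h'
      exact TransGen.tail (ih (Or.inr h1)) (harc _ _ (Or.inr heb) hbd h')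
  have hel3 := hpath l hel (Or.inl rfl)
  have hbC3 : b ∉ s₃.cls x K o := by rw [hcls3]; exact hbC2
  have hbx3 : b ∈ s₃.tok x := by rw [htokx3]; exact hb2
  obtain ⟨_, g', _, _, _, _, _, hg'C, _, _, huniq', _⟩ :=
    hst3.pl1 hstar3 hi hbi3 hbx3 hbC3 hf3 he3 heC3
  have := huniq' l hel3 hl3
  exact hlC3 (this ▸ hg'C)

/-- There is a transversal containing a given colour. -/
theorem Star.exists_Tr (hs : s.Star x K) {i : V} (hi : i ∈ K) : ∃ f, s.Tr K i f := by
  have hex : ∀ v ∈ K, v ≠ i → ∃ d, s.nb d i = v := by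
    intro v hv hvi
    have h1 := hs.hK i hi v hv (Ne.symm hvi)
    unfold mult at h1
    obtain ⟨d, hd⟩ := card_pos.mp h1
    exact ⟨d, (mem_filter.mp hd).2⟩
  obtain ⟨c0⟩ : Nonempty (V → C) := by
    by_cases hne : ∃ v ∈ K, v ≠ i
    · obtain ⟨v, hv, hvi⟩ := hne
      exact ⟨fun _ => (hex v hv hvi).choose⟩
    · obtain ⟨d, _⟩ := hs.exists_col hi
      exact ⟨fun _ => d⟩
  refine ⟨fun v => if h' : ∃ d, s.nb d i = v then h'.choose else c0 v, fun v hv hvi => ?_⟩
  simp only [dif_pos (hex v hv hvi)]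
  exact (hex v hv hvi).choose_spec

/-- (PL1)/(PL2), direct edges: a colour leading from an active vertex `i` to `KC` is neither in
`N` nor in `C - M`. -/
theorem Stuck.direct (hs : s.Star x K) (h : s.Stuck x K o) (hN : 2 ≤ s.free x K (!o)) {i : V}
    (hi : i ∈ K) {c : C} (hci : c ∈ s.tok i) (hc : c ∈ s.tok x) (hcC : c ∉ s.cls x K o) {g : C}
    (hg : s.nb g i ∈ s.KC x K o) : (g ∈ s.tok x ↔ g ∈ s.cls x K o) := by
  obtain ⟨f₀, hf₀⟩ := hs.exists_Tr hi
  set w := s.nb g i with hw
  have hwi : w ≠ i := fun e => h.not_KC hs hi hci hc hcC (e ▸ hg)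
  unfold KC at hg
  rw [mem_filter] at hg
  obtain ⟨hwK, e, heC, hew⟩ := hg
  have he : e ∉ s.tok x := by rw [hs.notMem_tok_iff, hew]; exact hwK
  set f : V → C := Function.update f₀ w g with hfdef
  have hf : s.Tr K i f := by
    intro v hv hvi
    by_cases hvw : v = w
    · subst hvw; rw [hfdef, Function.update_self]
    · rw [hfdef, Function.update_of_ne hvw]; exact hf₀ v hv hvi
  have harc : s.Arc x K i f e g := by
    refine ⟨by rw [hew]; exact hwK, by rw [hew]; exact hwi, ?_⟩
    rw [hew, hfdef, Function.update_self]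
  obtain ⟨_, g', _, _, _, _, _, hg'C, _, _, huniq, _⟩ := h.pl1 hs hi hci hc hcC hf he heC
  constructor
  · intro hgx
    rw [huniq g (TransGen.single harc) hgx]; exact hg'C
  · intro hgC
    by_contra hgx
    exact h.pl2 hs hN hi hci hc hcC hf he heC hgx hgC (TransGen.single harc)

/-- Two paths ending in the same colour are comparable. -/
theorem comparable {i : V} {f : V → C} (hs : s.Star x K) (hf : s.Tr K i f) {a b g : C}
    (ha : TransGen (s.Arc x K i f) a g) (hb : TransGen (s.Arc x K i f) b g) :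
    a = b ∨ TransGen (s.Arc x K i f) a b ∨ TransGen (s.Arc x K i f) b a := by
  have hru : Relator.RightUnique (Function.swap (s.Arc x K i f)) := by
    intro p q r hq hr
    obtain ⟨q1, q2, q3⟩ := hq
    obtain ⟨r1, r2, r3⟩ := hr
    have e1 := hf _ q1 q2
    have e2 := hf _ r1 r2
    rw [← q3] at e1
    rw [← r3] at e2
    exact hs.uniq q1 rfl (e2.symm.trans e1)
  have ha' : ReflTransGen (Function.swap (s.Arc x K i f)) g a :=
    reflTransGen_swap.mpr ha.to_reflTransGen
  have hb' : ReflTransGen (Function.swap (s.Arc x K i f)) g b :=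
    reflTransGen_swap.mpr hb.to_reflTransGen
  rcases ReflTransGen.total_of_right_unique hru ha' hb' with h' | h'
  · have h1 := reflTransGen_swap.mp h'
    rcases reflTransGen_iff_eq_or_transGen.mp h1 with h2 | h2
    · exact Or.inl h2
    · exact Or.inr (Or.inr h2)
  · have h1 := reflTransGen_swap.mp h'
    rcases reflTransGen_iff_eq_or_transGen.mp h1 with h2 | h2
    · exact Or.inl h2.symm
    · exact Or.inr (Or.inl h2)

/-- (PL): the paths end in different colours of `M`. -/
theorem Stuck.card_KC_le (hs : s.Star x K) (h : s.Stuck x K o) (hN : 2 ≤ s.free x K (!o)) {i : V}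
    (hi : i ∈ K) {c : C} (hci : c ∈ s.tok i) (hc : c ∈ s.tok x) (hcC : c ∉ s.cls x K o) :
    (s.KC x K o).card ≤ s.free x K o := by
  obtain ⟨f, hf⟩ := hs.exists_Tr hi
  have hcard : (s.cls x K o \ s.tok x).card = (s.KC x K o).card := by
    have h1 := card_KC (o := o) hs
    have h2 := card_sdiff_add_card_inter (s.cls x K o) (s.tok x)
    unfold free at h1
    rw [inter_comm (s.tok x)] at h1
    omega
  rw [← hcard]
  have hend : ∀ e ∈ s.cls x K o \ s.tok x, ∃ g ∈ s.tok x ∩ s.cls x K o,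
      TransGen (s.Arc x K i f) e g := by
    intro e he
    rw [mem_sdiff] at he
    obtain ⟨_, g, _, _, _, _, hgx, hgC, hg, _⟩ := h.pl1 hs hi hci hc hcC hf he.2 he.1
    exact ⟨g, mem_inter.mpr ⟨hgx, hgC⟩, hg⟩
  choose! φ hφ1 hφ2 using hend
  unfold free
  apply card_le_card_of_injOn φ hφ1
  intro a ha b hb hab
  have ha' := mem_sdiff.mp ha
  have hb' := mem_sdiff.mp hb
  have h1 := hφ2 a ha
  have h2 := hφ2 b hb
  rw [hab] at h1
  rcases comparable hs hf h1 h2 with h3 | h3 | h3
  · exact h3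
  · exact absurd h3 (h.pl2 hs hN hi hci hc hcC hf ha'.2 ha'.1 hb'.2 hb'.1)
  · exact absurd h3 (h.pl2 hs hN hi hci hc hcC hf hb'.2 hb'.1 ha'.2 ha'.1)

/-- (DIR). -/
theorem Stuck.dir (hs : s.Star x K) (h : s.Stuck x K o) (hN : 2 ≤ s.free x K (!o)) {i : V}
    (hi : i ∈ K) {c : C} (hci : c ∈ s.tok i) (hc : c ∈ s.tok x) (hcC : c ∉ s.cls x K o) :
    (s.KC x K o).card + 1 ≤ (s.DD x K o i).card + (s.KC x K (!o)).card := by
  obtain ⟨f, hf⟩ := hs.exists_Tr hi
  have hiKC : i ∉ s.KC x K o := h.not_KC hs hi hci hc hcC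
  obtain ⟨r, hr⟩ := hs.exists_col hi
  have hrx : r ∉ s.tok x := by rw [hs.notMem_tok_iff, hr]; exact hi
  have hrC : r ∉ s.cls x K o := by
    intro h'
    apply hiKC
    unfold KC
    rw [mem_filter]
    exact ⟨hi, r, h', hr⟩
  have hcard : (s.cls x K (!o) \ s.tok x).card = (s.KC x K (!o)).card := by
    have h1 := card_KC (o := !o) hs
    have h2 := card_sdiff_add_card_inter (s.cls x K (!o)) (s.tok x)
    unfold free at h1
    rw [inter_comm (s.tok x)] at h1
    omega
  have hrmem : r ∈ s.cls x K (!o) \ s.tok x := mem_sdiff.mpr ⟨mem_cls_not.mpr hrC, hrx⟩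
  have himg : (s.KC x K o).image f ⊆ s.DD x K o i ∪ (s.cls x K (!o) \ s.tok x).erase r := by
    intro d hd
    rw [mem_image] at hd
    obtain ⟨w, hw, rfl⟩ := hd
    have hwK : w ∈ K := by
      unfold KC at hw
      exact (mem_filter.mp hw).1
    have hwi : w ≠ i := fun e => hiKC (e ▸ hw)
    have hfw := hf w hwK hwi
    have hdir := h.direct hs hN hi hci hc hcC (g := f w) (by rw [hfw]; exact hw)
    rw [mem_union]
    by_cases h1 : f w ∈ s.tok x
    · left
      unfold DD
      rw [mem_filter, mem_inter]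
      exact ⟨⟨h1, hdir.mp h1⟩, by rw [hfw]; exact hw⟩
    · right
      rw [mem_erase, mem_sdiff, mem_cls_not]
      refine ⟨?_, fun h2 => h1 (hdir.mpr h2), h1⟩
      intro e
      rw [e] at hfw
      have h3 : s.nb r i = x := nb_symm hr
      rw [h3] at hfw
      exact hs.hxK (hfw ▸ hwK)
  have h1 : ((s.KC x K o).image f).card = (s.KC x K o).card := by
    apply card_image_of_injOn
    intro a ha b hb hab
    have haK : a ∈ K := by
      have : a ∈ s.KC x K o := ha
      unfold KC at this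
      exact (mem_filter.mp this).1
    have hbK : b ∈ K := by
      have : b ∈ s.KC x K o := hb
      unfold KC at this
      exact (mem_filter.mp this).1
    have hai : a ≠ i := fun e => hiKC (e ▸ ha)
    have hbi : b ≠ i := fun e => hiKC (e ▸ hb)
    rw [← hf a haK hai, ← hf b hbK hbi]
    show s.nb (f a) i = s.nb (f b) i
    rw [hab]
  have h2 := card_le_card himg
  have h3 := card_union_le (s.DD x K o i) ((s.cls x K (!o) \ s.tok x).erase r)
  rw [card_erase_of_mem hrmem] at h3
  have h4 := card_pos.mpr ⟨r, hrmem⟩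
  omega

end MC

end

end Pool.Agent.Lib.P3f3a3b
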