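import Pool.Agent.Lib.P3f3a3b.Model

/-!
Reduction of the frozen statement S08303 to `MainStatement`.
-/

set_option autoImplicit false
set_option linter.unusedSectionVars false
set_option linter.unusedVariables false

namespace Pool.Agent.Lib.P3f3a3b

open Finset

/-- An interval relation on `0, …, n-1` is given by a stair. -/
theorem stair_of_rel (n : ℕ) (A : ℕ → ℕ → Prop) (hlt : ∀ i j, A i j → i < n ∧ j < n)
    (hs : ∀ i j, A i j → A j i) (hirr : ∀ i, ¬ A i i)
    (hint : ∀ i j l, A i l → i < j → j < l → A i j ∧ A j l) :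
    ∃ R : ℕ → ℕ, Stair n R ∧ ∀ i j, i < n → j < n → (A i j ↔ adj R i j) := by
  classical
  let F : ℕ → Finset ℕ := fun i => (range n).filter (fun j => j = i ∨ (i < j ∧ A i j))
  let R : ℕ → ℕ := fun i => (F i).sup id
  have hF : ∀ i, i < n → i ∈ F i := fun i hi => by simp [F, hi]
  have hRmem : ∀ i, i < n → R i ∈ F i := by
    intro i hi
    have h := Finset.exists_mem_eq_sup (F i) ⟨i, hF i hi⟩ id
    obtain ⟨j, hj, hj2⟩ := h
    show (F i).sup id ∈ F i
    rw [hj2]
    exact hj
  have hle : ∀ i j, i < n → j ∈ F i → j ≤ R i := fun i j hi hj => Finset.le_sup (f := id) hj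
  have hself : ∀ i, i < n → i ≤ R i := fun i hi => hle i i hi (hF i hi)
  have hRlt : ∀ i, i < n → R i < n := by
    intro i hi
    have := hRmem i hi
    simp only [F, mem_filter, mem_range] at this
    exact this.1
  have hkey : ∀ i j, i < n → j < n → i < j → (A i j ↔ j ≤ R i) := by
    intro i j hi hj hij
    constructor
    · intro h
      exact hle i j hi (by simp [F, hj, hij, h])
    · intro h
      have hm := hRmem i hi
      simp only [F, mem_filter, mem_range] at hm
      rcases hm.2 with h0 | ⟨h1, h2⟩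
      · omega
      · rcases Nat.lt_or_ge j (R i) with h3 | h3
        · exact (hint i j (R i) h2 hij h3).1
        · have : j = R i := le_antisymm h h3
          rw [this]; exact h2
  refine ⟨R, ⟨?_, hself, hRlt⟩, ?_⟩
  · intro i j hij hj
    have hi : i < n := lt_of_le_of_lt hij hj
    rcases Nat.lt_or_ge j (R i) with h | h
    · rcases Nat.eq_or_lt_of_le hij with h0 | h0
      · rw [h0]
      · have h1 : A i (R i) := (hkey i (R i) hi (hRlt i hi) (by omega)).mpr le_rfl
        have h2 : A j (R i) := (hint i j (R i) h1 h0 h).2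
        exact (hkey j (R i) hj (hRlt i hi) h).mp h2
    · exact h.trans (hself j hj)
  · intro i j hi hj
    rcases lt_trichotomy i j with h | h | h
    · rw [hkey i j hi hj h]
      unfold adj
      constructor
      · intro h1; exact Or.inl ⟨h, h1⟩
      · rintro (h1 | h1)
        · exact h1.2
        · omega
    · subst h
      unfold adj
      constructor
      · intro h1; exact absurd h1 (hirr i)
      · rintro (h1 | h1) <;> omega
    · constructor
      · intro h1
        exact Or.inr ⟨h, (hkey j i hj hi h).mp (hs _ _ h1)⟩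
      · rintro (h1 | h1)
        · omega
        · exact hs _ _ ((hkey j i hj hi h).mpr h1.2)

/-- The interval property of an indifference order. -/
theorem interval_of_cliques {V : Type} [Fintype V] [DecidableEq V] (G : SimpleGraph V)
    (f : V → ℕ) (hf : Function.Injective f)
    (hcl : ∀ S : Finset V, G.IsClique (S : Set V) →
          (∀ T : Finset V, G.IsClique (T : Set V) → S ⊆ T → T = S) →
          ∀ u ∈ S, ∀ w ∈ S, ∀ x : V, f u ≤ f x → f x ≤ f w → x ∈ S)
    (u x w : V) (h : G.Adj u w) (h1 : f u < f x) (h2 : f x < f w) : G.Adj u x ∧ G.Adj x w := by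
  classical
  let C : Finset (Finset V) := univ.filter (fun S => G.IsClique (S : Set V) ∧ u ∈ S ∧ w ∈ S)
  have hne : ({u, w} : Finset V) ∈ C := by
    simp only [C, mem_filter, mem_univ, true_and]
    refine ⟨?_, by simp, by simp⟩
    intro a ha b hb hab
    simp only [coe_insert, coe_singleton, Set.mem_insert_iff, Set.mem_singleton_iff] at ha hb
    rcases ha with rfl | rfl <;> rcases hb with rfl | rfl
    · exact absurd rfl hab
    · exact h
    · exact h.symm
    · exact absurd rfl hab
  obtain ⟨S, hS, hmax⟩ := Finset.exists_max_image C (fun S => S.card) ⟨_, hne⟩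
  simp only [C, mem_filter, mem_univ, true_and] at hS
  obtain ⟨hS1, hSu, hSw⟩ := hS
  have hSmax : ∀ T : Finset V, G.IsClique (T : Set V) → S ⊆ T → T = S := by
    intro T hT hST
    have hTC : T ∈ C := by
      simp only [C, mem_filter, mem_univ, true_and]
      exact ⟨hT, hST hSu, hST hSw⟩
    exact (Finset.eq_of_subset_of_card_le hST (hmax T hTC)).symm
  have hx : x ∈ S := hcl S hS1 hSmax u hSu w hSw x h1.le h2.le
  constructor
  · exact hS1 (by exact_mod_cast hSu) (by exact_mod_cast hx) (fun e => by rw [e] at h1; exact lt_irrefl _ h1)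
  · exact hS1 (by exact_mod_cast hx) (by exact_mod_cast hSw) (fun e => by rw [e] at h2; exact lt_irrefl _ h2)

/-- An indifference graph is given by a stair. -/
theorem exists_stair {V : Type} [Fintype V] [DecidableEq V] (G : SimpleGraph V)
    (f : V → ℕ) (hf : Function.Injective f)
    (hcl : ∀ S : Finset V, G.IsClique (S : Set V) →
          (∀ T : Finset V, G.IsClique (T : Set V) → S ⊆ T → T = S) →
          ∀ u ∈ S, ∀ w ∈ S, ∀ x : V, f u ≤ f x → f x ≤ f w → x ∈ S) :
    ∃ (R : ℕ → ℕ) (e : V ≃ Fin (Fintype.card V)), Stair (Fintype.card V) R ∧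
      ∀ u v : V, G.Adj u v ↔ adj R (e u) (e v) := by
  classical
  let _ : LinearOrder V := LinearOrder.lift' f hf
  have hlt : ∀ u v : V, u < v ↔ f u < f v := fun u v => Iff.rfl
  let e' : Fin (Fintype.card V) ≃o V := Fintype.orderIsoFinOfCardEq V rfl
  let e : V ≃ Fin (Fintype.card V) := e'.symm.toEquiv
  have he : ∀ u v : V, ((e u : ℕ) < (e v : ℕ)) ↔ f u < f v := by
    intro u v
    rw [← hlt, ← e'.symm.lt_iff_lt]
    rfl
  let A : ℕ → ℕ → Prop := fun i j => ∃ u v : V, (e u : ℕ) = i ∧ (e v : ℕ) = j ∧ G.Adj u v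
  have hinj : ∀ u v : V, (e u : ℕ) = (e v : ℕ) → u = v := fun u v h => e.injective (Fin.ext h)
  obtain ⟨R, hR, hRA⟩ := stair_of_rel (Fintype.card V) A
    (by
      rintro i j ⟨u, v, rfl, rfl, _⟩
      exact ⟨(e u).2, (e v).2⟩)
    (by
      rintro i j ⟨u, v, hu, hv, h⟩
      exact ⟨v, u, hv, hu, h.symm⟩)
    (by
      rintro i ⟨u, v, hu, hv, h⟩
      have := hinj u v (by omega)
      exact G.loopless.irrefl u (by rw [← this] at h; exact h))
    (by
      rintro i j l ⟨u, w, rfl, rfl, h⟩ hij hjl
      have hj : j < Fintype.card V := hjl.trans (e w).2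
      obtain ⟨x, hx⟩ : ∃ x : V, (e x : ℕ) = j := ⟨e.symm ⟨j, hj⟩, by simp⟩
      subst hx
      obtain ⟨h1, h2⟩ := interval_of_cliques G f hf hcl u x w h ((he _ _).mp hij) ((he _ _).mp hjl)
      exact ⟨⟨u, x, rfl, rfl, h1⟩, ⟨x, w, rfl, rfl, h2⟩⟩)
  refine ⟨R, e, hR, ?_⟩
  intro u v
  rw [← hRA _ _ (e u).2 (e v).2]
  constructor
  · intro h; exact ⟨u, v, rfl, rfl, h⟩
  · rintro ⟨u', v', hu, hv, h⟩
    rw [← hinj _ _ hu, ← hinj _ _ hv]; exact h

section counting

variable {n : ℕ} {R : ℕ → ℕ}

open Classical in
theorem dg_eq (hR : Stair n R) {i : ℕ} (hi : i < n) :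
    dg R i = ((range n).filter (fun j => adj R i j)).card := by
  have h : (range n).filter (fun j => adj R i j) =
      (range i).filter (fun j => i ≤ R j) ∪ Ioc i (R i) := by
    ext j
    simp only [mem_filter, mem_range, mem_union, mem_Ioc, adj]
    constructor
    · rintro ⟨hj, h1 | h1⟩
      · exact Or.inr h1
      · exact Or.inl h1
    · rintro (h1 | h1)
      · exact ⟨h1.1.trans hi, Or.inr h1⟩
      · exact ⟨lt_of_le_of_lt h1.2 (hR.lt i hi), Or.inl h1⟩
  rw [h, card_union_of_disjoint]
  · simp [dg, lf, rt]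
  · rw [Finset.disjoint_left]
    intro j hj hj2
    simp only [mem_filter, mem_range, mem_Ioc] at hj hj2
    omega

theorem left_eq (hR : Stair n R) {i : ℕ} (hi : i < n) :
    (range i).filter (fun j => i ≤ R j) = Ico (i - lf R i) i := by
  rcases ((range i).filter (fun j => i ≤ R j)).eq_empty_or_nonempty with h0 | h0
  · have : lf R i = 0 := by unfold lf; rw [h0]; rfl
    rw [h0, this]; simp
  · obtain ⟨a, ha, hmin⟩ := Finset.exists_min_image _ id h0
    simp only [mem_filter, mem_range] at ha
    have hset : (range i).filter (fun j => i ≤ R j) = Ico a i := by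
      ext j
      simp only [mem_filter, mem_range, mem_Ico]
      constructor
      · intro hj
        exact ⟨hmin j (by simp [hj]), hj.1⟩
      · intro hj
        exact ⟨hj.2, ha.2.trans (hR.mono a j hj.1 (hj.2.trans hi))⟩
    have hl : lf R i = i - a := by unfold lf; rw [hset]; simp
    rw [hset, hl]
    congr 1
    omega

theorem lf_le (R : ℕ → ℕ) (i : ℕ) : lf R i ≤ i := by
  unfold lf
  calc _ ≤ (range i).card := card_filter_le _ _
    _ = i := card_range i

open Classical in
theorem window_eq (hR : Stair n R) {i : ℕ} (hi : i < n) :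
    (range n).filter (fun j => j = i ∨ adj R i j) = Icc (i - lf R i) (R i) := by
  have h := left_eq hR hi
  ext j
  have hj := Finset.ext_iff.mp h j
  simp only [mem_filter, mem_range, mem_Ico] at hj
  simp only [mem_filter, mem_range, mem_Icc, adj]
  have h1 := hR.self i hi
  have h2 := hR.lt i hi
  have h3 := lf_le R i
  constructor
  · rintro ⟨h4, h5 | h5 | h5⟩
    · omega
    · omega
    · have := hj.mp h5; omega
  · intro h4
    refine ⟨by omega, ?_⟩
    rcases lt_trichotomy j i with h5 | h5 | h5
    · right; right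
      exact hj.mpr ⟨h4.1, h5⟩
    · left; exact h5
    · right; left; exact ⟨h5, h4.2⟩

open Classical in
theorem sum_pairs (R : ℕ → ℕ) (W : Finset ℕ) :
    ((W ×ˢ W).filter (fun p => adj R p.1 p.2)).card +
      2 * ((W ×ˢ W).filter (fun p => p.1 < p.2 ∧ R p.1 < p.2)).card + W.card =
      W.card * W.card := by
  let s1 := (W ×ˢ W).filter (fun p => p.1 < p.2 ∧ p.2 ≤ R p.1)
  let s2 := (W ×ˢ W).filter (fun p => p.2 < p.1 ∧ p.1 ≤ R p.2)
  let s3 := (W ×ˢ W).filter (fun p => p.1 < p.2 ∧ R p.1 < p.2)
  let s4 := (W ×ˢ W).filter (fun p => p.2 < p.1 ∧ R p.2 < p.1)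
  let s5 := (W ×ˢ W).filter (fun p => p.1 = p.2)
  have hadj : (W ×ˢ W).filter (fun p => adj R p.1 p.2) = s1 ∪ s2 := by
    ext p
    simp only [s1, s2, mem_union, mem_filter, adj]
    tauto
  have h12 : Disjoint s1 s2 := by
    rw [Finset.disjoint_left]
    intro p h1 h2
    simp only [s1, s2, mem_filter] at h1 h2
    omega
  have h43 : s4.card = s3.card := by
    apply Finset.card_bij (fun p _ => (p.2, p.1))
    · intro p hp
      simp only [s4, s3, mem_filter, mem_product] at hp ⊢
      tauto
    · intro p _ p' _ h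
      simp only [Prod.mk.injEq] at h
      exact Prod.ext h.2 h.1
    · intro p hp
      refine ⟨(p.2, p.1), ?_, rfl⟩
      simp only [s4, s3, mem_filter, mem_product] at hp ⊢
      tauto
  have h5 : s5.card = W.card := by
    have : s5 = W.diag := by
      ext p
      simp only [s5, mem_filter, mem_product, mem_diag]
      constructor
      · intro h; exact ⟨h.1.1, h.2⟩
      · intro h; exact ⟨⟨h.1, h.2 ▸ h.1⟩, h.2⟩
    rw [this, diag_card]
  have hall : W ×ˢ W = ((s1 ∪ s2) ∪ (s3 ∪ s4)) ∪ s5 := by
    ext p
    simp only [s1, s2, s3, s4, s5, mem_union, mem_filter, mem_product]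
    constructor
    · intro h
      rcases lt_trichotomy p.1 p.2 with h1 | h1 | h1
      · rcases Nat.lt_or_ge (R p.1) p.2 with h2 | h2
        · exact Or.inl (Or.inr (Or.inl ⟨h, h1, h2⟩))
        · exact Or.inl (Or.inl (Or.inl ⟨h, h1, h2⟩))
      · exact Or.inr ⟨h, h1⟩
      · rcases Nat.lt_or_ge (R p.2) p.1 with h2 | h2
        · exact Or.inl (Or.inr (Or.inr ⟨h, h1, h2⟩))
        · exact Or.inl (Or.inl (Or.inr ⟨h, h1, h2⟩))
    · rintro (((h | h) | (h | h)) | h) <;> exact h.1
  have h34 : Disjoint s3 s4 := by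
    rw [Finset.disjoint_left]
    intro p h1 h2
    simp only [s3, s4, mem_filter] at h1 h2
    omega
  have hd1 : Disjoint (s1 ∪ s2) (s3 ∪ s4) := by
    rw [Finset.disjoint_left]
    intro p h1 h2
    simp only [s1, s2, s3, s4, mem_filter, mem_union] at h1 h2
    omega
  have hd2 : Disjoint ((s1 ∪ s2) ∪ (s3 ∪ s4)) s5 := by
    rw [Finset.disjoint_left]
    intro p h1 h2
    simp only [s1, s2, s3, s4, s5, mem_filter, mem_union] at h1 h2
    omega
  have hc : W.card * W.card = (s1 ∪ s2).card + (s3.card + s4.card) + s5.card := by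
    rw [← card_product, hall, card_union_of_disjoint hd2, card_union_of_disjoint hd1,
      card_union_of_disjoint h34]
  rw [hadj, hc, h43, h5]
  show (s1 ∪ s2).card + 2 * s3.card + W.card = _
  ring

theorem left_le (hR : Stair n R) {i j : ℕ} (hi : i < n) (hji : j < i) (h : i ≤ R j) :
    i - j ≤ lf R i := by
  have hsub : Ico j i ⊆ (range i).filter (fun j => i ≤ R j) := by
    intro l hl
    simp only [mem_Ico, mem_filter, mem_range] at hl ⊢
    exact ⟨hl.2, h.trans (hR.mono j l hl.1 (hl.2.trans hi))⟩
  have := card_le_card hsub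
  simpa [lf] using this

/-- Neighbours of a vertex (and the vertex itself) are within distance `dg`. -/
theorem dist_le (hR : Stair n R) {i j l : ℕ} (hi : i < n) (hj : j = i ∨ adj R i j)
    (hl : l = i ∨ adj R i l) (hjl : j ≤ l) : l - j ≤ dg R i := by
  unfold adj at hj hl
  have h1 : j < i → i ≤ R j → i - j ≤ lf R i := fun a b => left_le hR hi a b
  have h2 : l < i → i ≤ R l → i - l ≤ lf R i := fun a b => left_le hR hi a b
  unfold dg rt
  rcases hj with hj | hj | hj <;> rcases hl with hl | hl | hl <;> omega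

end counting

/-- The colouring of the complete graph on `0, …, m` for odd `m`. -/
def kcol (m a b : ℕ) : ℕ :=
  if a = m then (2 * b) % m else if b = m then (2 * a) % m else (a + b) % m

theorem kcol_symm (m a b : ℕ) : kcol m a b = kcol m b a := by
  unfold kcol
  by_cases ha : a = m <;> by_cases hb : b = m <;> simp [ha, hb, add_comm]

theorem kcol_lt (m a b : ℕ) (hm : 0 < m) : kcol m a b < m := by
  unfold kcol
  split_ifs <;> exact Nat.mod_lt _ hm

theorem mod_ne {m a b : ℕ} (ha : a < m) (hb : b < m) (hab : a ≠ b) (c : ℕ) :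
    (c + a) % m ≠ (c + b) % m := by
  intro h
  have h1 : (c + a) ≡ (c + b) [MOD m] := h
  have h2 : a ≡ b [MOD m] := Nat.ModEq.add_left_cancel' c h1
  have h3 := Nat.ModEq.eq_of_lt_of_lt h2 ha hb
  exact hab h3

theorem kcol_ne {m a b c : ℕ} (hm : m % 2 = 1) (ha : a ≤ m) (hb : b ≤ m) (hc : c ≤ m)
    (hab : a ≠ b) (hac : a ≠ c) (hbc : b ≠ c) : kcol m a b ≠ kcol m a c := by
  unfold kcol
  by_cases h1 : a = m
  · simp only [h1, if_true]
    intro h
    have h2 : 2 * b ≡ 2 * c [MOD m] := h
    have h3 : b ≡ c [MOD m] := by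
      apply Nat.ModEq.cancel_left_of_coprime _ h2
      rw [Nat.coprime_comm.mp (Nat.coprime_two_left.mpr (Nat.odd_iff.mpr hm)) |> fun h => h]
    exact hbc (Nat.ModEq.eq_of_lt_of_lt h3 (by omega) (by omega))
  · simp only [h1, if_false]
    by_cases h2 : b = m
    · have h3 : c ≠ m := fun h => hbc (h2.trans h.symm)
      simp only [h2, h3, if_true, if_false]
      have := mod_ne (m := m) (a := a) (b := c) (by omega) (by omega) hac a
      rwa [← two_mul] at this
    · by_cases h3 : c = m
      · simp only [h2, h3, if_true, if_false]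
        have := mod_ne (m := m) (a := b) (b := a) (by omega) (by omega) (Ne.symm hab) a
        rwa [← two_mul] at this
      · simp only [h2, h3, if_false]
        exact mod_ne (by omega) (by omega) hbc a

theorem mod_label_ne {m i j : ℕ} (h1 : i < j) (h2 : j - i ≤ m) : i % (m + 1) ≠ j % (m + 1) := by
  intro h
  have h3 : i ≡ j [MOD (m + 1)] := h
  have h4 : (m + 1) ∣ j - i := (Nat.modEq_iff_dvd' h1.le).mp h3
  have := Nat.le_of_dvd (by omega) h4
  omega

/-- Odd maximum degree. -/
theorem colourable_odd {n : ℕ} {R : ℕ → ℕ} (hR : Stair n R) (m : ℕ) (hm : m % 2 = 1)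
    (hd : ∀ i, i < n → dg R i ≤ m) : Colourable n R m := by
  have hlab : ∀ i j l, i < n → (j = i ∨ adj R i j) → (l = i ∨ adj R i l) → j ≠ l →
      j % (m + 1) ≠ l % (m + 1) := by
    intro i j l hi hj hl hjl
    rcases Nat.lt_or_gt_of_ne hjl with h | h
    · exact mod_label_ne h ((dist_le hR hi hj hl h.le).trans (hd i hi))
    · exact (mod_label_ne h ((dist_le hR hi hl hj h.le).trans (hd i hi))).symm
  have hle : ∀ i, i % (m + 1) ≤ m := fun i => Nat.lt_succ_iff.mp (Nat.mod_lt _ (by omega))
  have hirr : ∀ i j, adj R i j → i ≠ j := by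
    intro i j h
    unfold adj at h
    omega
  refine ⟨fun i j => kcol m (i % (m + 1)) (j % (m + 1)), fun i j => kcol_symm _ _ _, ?_, ?_⟩
  · intro i j _ _ _
    exact kcol_lt _ _ _ (by omega)
  · intro i j l hi hj hl hij hil hjl
    exact kcol_ne hm (hle _) (hle _) (hle _)
      (hlab i i j hi (Or.inl rfl) (Or.inr hij) (hirr _ _ hij))
      (hlab i i l hi (Or.inl rfl) (Or.inr hil) (hirr _ _ hil))
      (hlab i j l hi (Or.inr hij) (Or.inr hil) hjl)

section transfer

variable {V : Type} [Fintype V] [DecidableEq V] (G : SimpleGraph V) [DecidableRel G.Adj]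
  {R : ℕ → ℕ} (e : V ≃ Fin (Fintype.card V))

open Classical in
theorem card_filter_transfer (P : V → Prop) (Q : ℕ → Prop) (h : ∀ v, P v ↔ Q (e v)) :
    (univ.filter P).card = ((range (Fintype.card V)).filter Q).card := by
  apply Finset.card_bij (fun v _ => (e v : ℕ))
  · intro v hv
    simp only [mem_filter, mem_univ, true_and, mem_range] at hv ⊢
    exact ⟨(e v).2, (h v).mp hv⟩
  · intro v _ v' _ hvv
    exact e.injective (Fin.ext hvv)
  · intro j hj
    simp only [mem_filter, mem_range] at hj
    refine ⟨e.symm ⟨j, hj.1⟩, ?_, by simp⟩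
    simp only [mem_filter, mem_univ, true_and]
    rw [h]
    simpa using hj.2

open Classical in
theorem sum_transfer (hadj : ∀ u v : V, G.Adj u v ↔ adj R (e u) (e v)) (S : Finset V)
    (W : Finset ℕ) (hSW : ∀ v, v ∈ S ↔ (e v : ℕ) ∈ W) (hW : ∀ j ∈ W, j < Fintype.card V) :
    ∑ x ∈ S, (S.filter (fun z => G.Adj x z)).card =
      ((W ×ˢ W).filter (fun p => adj R p.1 p.2)).card := by
  have hWm : W = S.image (fun v => (e v : ℕ)) := by
    ext j
    simp only [mem_image]
    constructor
    · intro hj
      refine ⟨e.symm ⟨j, hW j hj⟩, ?_, by simp⟩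
      rw [hSW]; simpa using hj
    · rintro ⟨v, hv, rfl⟩
      exact (hSW v).mp hv
  have hinj : Set.InjOn (fun v => (e v : ℕ)) (S : Set V) := fun u _ v _ h => e.injective (Fin.ext h)
  rw [card_filter, sum_product, hWm, sum_image hinj]
  refine sum_congr rfl fun x _ => ?_
  rw [card_filter, sum_image hinj]
  refine sum_congr rfl fun y _ => ?_
  simp only [hadj]

end transfer

theorem reduction (hmain : MainStatement) :
    ∀ (V : Type) [Fintype V] [DecidableEq V] (G : SimpleGraph V) [DecidableRel G.Adj],
      G.Connected →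
      (∃ f : V → ℕ, Function.Injective f ∧
        ∀ S : Finset V, G.IsClique (S : Set V) →
          (∀ T : Finset V, G.IsClique (T : Set V) → S ⊆ T → T = S) →
          ∀ u ∈ S, ∀ w ∈ S, ∀ x : V, f u ≤ f x → f x ≤ f w → x ∈ S) →
      (¬ ∃ c : V → V → ℕ,
          (∀ u v : V, G.Adj u v → c u v = c v u) ∧
          (∀ u v : V, G.Adj u v →
            c u v < Finset.univ.sup
              (fun y : V => (Finset.univ.filter (fun z : V => G.Adj y z)).card)) ∧
          (∀ u v w : V, G.Adj u v → G.Adj u w → v ≠ w → c u v ≠ c u w)) →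
      ∃ v : V,
        (∃ x : V, (x = v ∨ G.Adj v x) ∧
          ((Finset.univ.filter (fun y : V => y = v ∨ G.Adj v y)).filter
              (fun z : V => G.Adj x z)).card
            = Finset.univ.sup
              (fun y : V => (Finset.univ.filter (fun z : V => G.Adj y z)).card)) ∧
        (∑ x ∈ Finset.univ.filter (fun y : V => y = v ∨ G.Adj v y),
            ((Finset.univ.filter (fun y : V => y = v ∨ G.Adj v y)).filter
              (fun z : V => G.Adj x z)).card)
          > 2 * Finset.univ.sup
                (fun y : V => (Finset.univ.filter (fun z : V => G.Adj y z)).card)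
              * ((Finset.univ.filter (fun y : V => y = v ∨ G.Adj v y)).card / 2) := by
  classical
  intro V _ _ G _ _ hf hnc
  obtain ⟨f, hfi, hcl⟩ := hf
  obtain ⟨R, e, hR, hadj⟩ := exists_stair G f hfi hcl
  set Δ := Finset.univ.sup (fun y : V => (Finset.univ.filter (fun z : V => G.Adj y z)).card)
    with hΔ
  have hdeg : ∀ v : V, (Finset.univ.filter (fun z : V => G.Adj v z)).card = dg R (e v) := by
    intro v
    rw [dg_eq hR (e v).2]
    have h := card_filter_transfer e (fun z => G.Adj v z) (fun j => adj R (e v) j)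
      (fun z => hadj v z)
    rw [← h]
    congr 1
    ext z
    simp
  have hdle : ∀ i, i < Fintype.card V → dg R i ≤ Δ := by
    intro i hi
    have h1 := hdeg (e.symm ⟨i, hi⟩)
    simp only [Equiv.apply_symm_apply] at h1
    rw [← h1, hΔ]
    exact Finset.le_sup (f := fun y : V => (Finset.univ.filter (fun z : V => G.Adj y z)).card)
      (Finset.mem_univ _)
  -- no colouring
  have hnc' : ¬ Colourable (Fintype.card V) R Δ := by
    rintro ⟨c, hc1, hc2, hc3⟩
    apply hnc
    refine ⟨fun u v => c (e u) (e v), fun u v _ => hc1 _ _, ?_, ?_⟩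
    · intro u v h
      exact hc2 _ _ (e u).2 (e v).2 ((hadj u v).mp h)
    · intro u v w h1 h2 hvw
      exact hc3 _ _ _ (e u).2 (e v).2 (e w).2 ((hadj u v).mp h1) ((hadj u w).mp h2)
        (fun h => hvw (e.injective (Fin.ext h)))
  by_contra hno
  push Not at hno
  apply hnc'
  rcases Nat.even_or_odd' Δ with ⟨k, hk | hk⟩
  · -- even maximum degree
    rcases Nat.eq_zero_or_pos k with hk0 | hkpos
    · -- no edges
      have hΔ0 : Δ = 0 := by omega
      have hnoadj : ∀ i j, i < Fintype.card V → j < Fintype.card V → ¬ adj R i j := by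
        intro i j hi hj h
        have h1 := hdle i hi
        rw [dg_eq hR hi, hΔ0, Nat.le_zero, card_eq_zero, filter_eq_empty_iff] at h1
        exact h1 (mem_range.mpr hj) h
      exact ⟨fun _ _ => 0, fun _ _ => rfl, fun i j hi hj h => absurd h (hnoadj i j hi hj),
        fun i j l hi hj _ h => absurd h (hnoadj i j hi hj)⟩
    · rw [hk]
      apply hmain k (Fintype.card V) R hkpos hR (fun i hi => hk ▸ hdle i hi)
      intro i hi hdi
      set v : V := e.symm ⟨i, hi⟩ with hv
      have hev : ((e v : Fin _) : ℕ) = i := by simp [hv]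
      have hwin := window_eq hR hi
      set N := Finset.univ.filter (fun y : V => y = v ∨ G.Adj v y) with hN
      have hNW : ∀ y, y ∈ N ↔ (e y : ℕ) ∈ Icc (i - lf R i) (R i) := by
        intro y
        rw [← hwin]
        simp only [hN, mem_filter, mem_univ, true_and, mem_range, (e y).2, hadj, hev]
        constructor
        · rintro (h | h)
          · left; rw [h]; exact hev
          · right; exact h
        · rintro (h | h)
          · left; exact e.injective (Fin.ext (h.trans hev.symm))
          · right; exact h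
      have hsum := sum_transfer G e hadj N (Icc (i - lf R i) (R i)) hNW (by
        intro j hj
        rw [mem_Icc] at hj
        exact lt_of_le_of_lt hj.2 (hR.lt i hi))
      have hcardW : (Icc (i - lf R i) (R i)).card = 2 * k + 1 := by
        rw [Nat.card_Icc]
        have h1 := hR.self i hi
        have h2 := lf_le R i
        unfold dg rt at hdi
        omega
      have hcardN : N.card = 2 * k + 1 := by
        rw [← hcardW]
        apply Finset.card_bij (fun v _ => (e v : ℕ))
        · intro y hy; exact (hNW y).mp hy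
        · intro y _ y' _ h; exact e.injective (Fin.ext h)
        · intro j hj
          have hjn : j < Fintype.card V := by
            rw [mem_Icc] at hj
            exact lt_of_le_of_lt hj.2 (hR.lt i hi)
          refine ⟨e.symm ⟨j, hjn⟩, ?_, by simp⟩
          rw [hNW]; simpa using hj
      have hmaxv : (N.filter (fun z : V => G.Adj v z)).card = Δ := by
        have h1 : N.filter (fun z : V => G.Adj v z) =
            Finset.univ.filter (fun z : V => G.Adj v z) := by
          ext z
          simp only [hN, mem_filter, mem_univ, true_and]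
          tauto
        rw [h1, hdeg v, hev, hdi, hk]
      have hle := hno v ⟨v, Or.inl rfl, hmaxv⟩
      rw [hsum, hcardN, hk] at hle
      have hpairs := sum_pairs R (Icc (i - lf R i) (R i))
      rw [hcardW] at hpairs
      have hdiv : (2 * k + 1) / 2 = k := by omega
      rw [hdiv] at hle
      unfold missing
      have e1 : (2 * k + 1) * (2 * k + 1) = 2 * (2 * k) * k + 4 * k + 1 := by ring
      rw [e1] at hpairs
      omega
  · -- odd maximum degree
    exact colourable_odd hR Δ (by omega) hdle

end Pool.Agent.Lib.P3f3a3b
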