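import Pool.Agent.Lib.P3f3a3b.Basic

/-!
Recolouring edges at one vertex and the row switch.
-/

set_option autoImplicit false
set_option linter.unusedSectionVars false
set_option linter.unusedVariables false

namespace Pool.Agent.Lib.P3f3a3b

open Finset
open scoped Classical

noncomputable section

variable {V C : Type*} [Fintype V] [Fintype C]
variable {H : SimpleGraph V}

namespace Col

/-- The colours at `x` after recolouring the edges from `x` to `W` by `r`. -/
def newrow (s : Col H C) (x : V) (W : Finset V) (r : V → C) (v : V) : C :=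
  if v ∈ W then r v else s.col x v

/-- Recolour the edges `x w`, `w ∈ W`, with `r w`. -/
def recolor (s : Col H C) (x : V) (W : Finset V) (r : V → C) (hx : ∀ w ∈ W, H.Adj x w)
    (hr : ∀ w ∈ W, r w ∈ s.tok w)
    (hinj : ∀ u v, H.Adj x u → H.Adj x v → s.newrow x W r u = s.newrow x W r v → u = v)
    (hP : ∀ u, H.Adj x u → s.newrow x W r u ∉ s.P x) : Col H C where
  col u v := if u = x then s.newrow x W r v else if v = x then s.newrow x W r u else s.col u v
  symm u v huv := by
    by_cases hu : u = x
    · subst hu
      have hv : v ≠ u := huv.ne'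
      rw [if_pos rfl, if_neg hv, if_pos rfl]
    · rw [if_neg hu]
      by_cases hv : v = x
      · subst hv; rw [if_pos rfl, if_pos rfl]
      · rw [if_neg hv, if_neg hv, if_neg hu, s.symm u v huv]
  proper u v w huv huw h := by
    by_cases hu : u = x
    · subst hu
      rw [if_pos rfl, if_pos rfl] at h
      exact hinj v w huv huw h
    · rw [if_neg hu, if_neg hu] at h
      have key : ∀ z, H.Adj u z → z ≠ x → s.newrow x W r u ≠ s.col u z ∨ ¬ H.Adj u x := by
        intro z hz hzx
        by_cases hux : H.Adj u x
        · left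
          unfold newrow
          by_cases huW : u ∈ W
          · rw [if_pos huW]
            exact fun h => (mem_tok.mp (hr u huW)).2 z hz h.symm
          · rw [if_neg huW]
            intro h
            rw [s.symm x u hux.symm] at h
            exact hzx (s.proper u x z hux hz h).symm
        · exact Or.inr hux
      by_cases hv : v = x
      · subst hv
        by_cases hw : w = v
        · exact hw.symm
        · rw [if_pos rfl, if_neg hw] at h
          rcases key w huw hw with h' | h'
          · exact absurd h h'
          · exact absurd huv h'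
      · rw [if_neg hv] at h
        by_cases hw : w = x
        · subst hw
          rw [if_pos rfl] at h
          rcases key v huv hv with h' | h'
          · exact absurd h.symm h'
          · exact absurd huw h'
        · rw [if_neg hw] at h
          exact s.proper u v w huv huw h
  P := s.P
  hP u v huv := by
    by_cases hu : u = x
    · subst hu; rw [if_pos rfl]; exact hP v huv
    · rw [if_neg hu]
      by_cases hv : v = x
      · subst hv
        rw [if_pos rfl]
        unfold newrow
        by_cases huW : u ∈ W
        · rw [if_pos huW]; exact (mem_tok.mp (hr u huW)).1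
        · rw [if_neg huW, s.symm v u huv.symm]; exact s.hP u v huv
      · rw [if_neg hv]; exact s.hP u v huv

section
variable {s : Col H C} {x : V} {W : Finset V} {r : V → C} {hx : ∀ w ∈ W, H.Adj x w}
    {hr : ∀ w ∈ W, r w ∈ s.tok w}
    {hinj : ∀ u v, H.Adj x u → H.Adj x v → s.newrow x W r u = s.newrow x W r v → u = v}
    {hP : ∀ u, H.Adj x u → s.newrow x W r u ∉ s.P x}

theorem recolor_P : (s.recolor x W r hx hr hinj hP).P = s.P := rfl

theorem tok_recolor_other {v : V} (hvx : v ≠ x) (hvW : v ∉ W) :
    (s.recolor x W r hx hr hinj hP).tok v = s.tok v := by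
  ext c
  rw [mem_tok, mem_tok]
  simp only [recolor, if_neg hvx]
  constructor
  · rintro ⟨h1, h2⟩
    refine ⟨h1, fun w hw h => ?_⟩
    by_cases hwx : w = x
    · subst hwx
      apply h2 w hw
      rw [if_pos rfl, newrow, if_neg hvW, s.symm w v hw.symm, h]
    · apply h2 w hw
      rw [if_neg hwx, h]
  · rintro ⟨h1, h2⟩
    refine ⟨h1, fun w hw h => ?_⟩
    by_cases hwx : w = x
    · subst hwx
      rw [if_pos rfl, newrow, if_neg hvW, s.symm w v hw.symm] at h
      exact h2 w hw h
    · rw [if_neg hwx] at h
      exact h2 w hw h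

theorem tok_recolor_W {v : V} (hvW : v ∈ W) :
    (s.recolor x W r hx hr hinj hP).tok v = insert (s.col x v) ((s.tok v).erase (r v)) := by
  have hadj := hx v hvW
  have hvx : v ≠ x := hadj.ne'
  have hrv := mem_tok.mp (hr v hvW)
  ext c
  rw [mem_insert, mem_erase, mem_tok, mem_tok]
  simp only [recolor, if_neg hvx]
  constructor
  · rintro ⟨h1, h2⟩
    by_cases hc : c = s.col x v
    · exact Or.inl hc
    · right
      refine ⟨?_, h1, fun w hw h => ?_⟩
      · have := h2 x hadj.symm
        rw [if_pos rfl, newrow, if_pos hvW] at this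
        exact this.symm
      · by_cases hwx : w = x
        · subst hwx; exact hc (by rw [← h, s.symm w v hadj])
        · apply h2 w hw
          rw [if_neg hwx, h]
  · rintro (h | ⟨h0, h1, h2⟩)
    · subst h
      refine ⟨?_, fun w hw h => ?_⟩
      · rw [s.symm x v hadj]; exact s.hP v x hadj.symm
      · by_cases hwx : w = x
        · subst hwx
          rw [if_pos rfl, newrow, if_pos hvW] at h
          apply hrv.2 w hw
          rw [h, s.symm w v hadj]
        · rw [if_neg hwx, s.symm x v hadj] at h
          exact hwx (s.proper v w x hw hadj.symm h)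
    · refine ⟨h1, fun w hw h => ?_⟩
      by_cases hwx : w = x
      · subst hwx
        rw [if_pos rfl, newrow, if_pos hvW] at h
        exact h0 h.symm
      · rw [if_neg hwx] at h
        exact h2 w hw h

theorem mem_tok_recolor_self {c : C} :
    c ∈ (s.recolor x W r hx hr hinj hP).tok x ↔
      c ∉ s.P x ∧ ∀ w, H.Adj x w → s.newrow x W r w ≠ c := by
  rw [mem_tok]
  simp only [recolor, if_true]

end

end Col

/-- The alternating path of a row switch, as a combinatorial statement about two injective
functions on `W`. -/
theorem path_lemma (g h : V → C) : ∀ (n : ℕ) (W : Finset V) (c₀ : C), W.card = n →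
    Set.InjOn g W → Set.InjOn h W → (∀ w ∈ W, h w ≠ c₀) → (∃ w ∈ W, g w = c₀) →
    ∃ W' ⊆ W, ∃ cl : C, (∃ w ∈ W, h w = cl) ∧ (∀ w ∈ W, g w ≠ cl) ∧
      Set.InjOn (fun w => if w ∈ W' then h w else g w) W ∧
      Set.InjOn (fun w => if w ∈ W' then g w else h w) W ∧
      (∀ c, (∃ w ∈ W, (if w ∈ W' then g w else h w) = c) ↔
        (c = c₀ ∨ (c ≠ cl ∧ ∃ w ∈ W, h w = c))) ∧
      (∀ c, (∃ w ∈ W, (if w ∈ W' then h w else g w) = c) ↔
        (c = cl ∨ (c ≠ c₀ ∧ ∃ w ∈ W, g w = c))) ∧
      (∀ c, (W'.filter (fun w => g w = c)).card + (if c = cl then 1 else 0) =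
        (W'.filter (fun w => h w = c)).card + (if c = c₀ then 1 else 0)) := by
  intro n
  induction n with
  | zero =>
    intro W c₀ hW _ _ _ hex
    rw [card_eq_zero] at hW
    subst hW
    obtain ⟨w, hw, _⟩ := hex
    simp at hw
  | succ n ih =>
    intro W c₀ hW hg hh hc hex
    obtain ⟨w₀, hw₀, hgw₀⟩ := hex
    set W₁ := W.erase w₀ with hW₁
    have hcard : W₁.card = n := by rw [hW₁, card_erase_of_mem hw₀, hW]; rfl
    have hWeq : ∀ w, w ∈ W ↔ w = w₀ ∨ w ∈ W₁ := by
      intro w; rw [hW₁, mem_erase]
      constructor
      · intro h; by_cases h' : w = w₀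
        · exact Or.inl h'
        · exact Or.inr ⟨h', h⟩
      · rintro (h | h)
        · rw [h]; exact hw₀
        · exact h.2
    have hw₀' : w₀ ∉ W₁ := by rw [hW₁]; simp
    have hg₁ : Set.InjOn g W₁ := fun a ha b hb => hg ((hWeq a).mpr (Or.inr ha)) ((hWeq b).mpr (Or.inr hb))
    have hh₁ : Set.InjOn h W₁ := fun a ha b hb => hh ((hWeq a).mpr (Or.inr ha)) ((hWeq b).mpr (Or.inr hb))
    have hc₁ : ∀ w ∈ W₁, h w ≠ h w₀ := by
      intro w hw h'
      have := hh ((hWeq w).mpr (Or.inr hw)) hw₀ h'
      rw [this] at hw; exact hw₀' hw
    have hgc : ∀ w ∈ W₁, g w ≠ c₀ := by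
      intro w hw h'
      rw [← hgw₀] at h'
      have := hg ((hWeq w).mpr (Or.inr hw)) hw₀ h'
      rw [this] at hw; exact hw₀' hw
    have hc01 : h w₀ ≠ c₀ := hc w₀ hw₀
    by_cases hex₁ : ∃ w ∈ W₁, g w = h w₀
    · obtain ⟨W', hW', cl, ⟨wl, hwl, hwl'⟩, h2, h3, h4, h5, h6, h7⟩ :=
        ih W₁ (h w₀) hcard hg₁ hh₁ hc₁ hex₁
      have hw₀W' : w₀ ∉ W' := fun h => hw₀' (hW' h)
      have hclc1 : cl ≠ h w₀ := by
        obtain ⟨w, hw, hw'⟩ := hex₁
        intro hh; rw [hh] at h2; exact h2 w hw hw'
      have hclc0 : cl ≠ c₀ := by
        rw [← hwl']; exact hc wl ((hWeq wl).mpr (Or.inr hwl))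
      refine ⟨insert w₀ W', ?_, cl, ⟨wl, (hWeq wl).mpr (Or.inr hwl), hwl'⟩, ?_, ?_, ?_, ?_, ?_, ?_⟩
      · intro w hw
        rw [mem_insert] at hw
        rw [hWeq]
        rcases hw with hw | hw
        · exact Or.inl hw
        · exact Or.inr (hW' hw)
      · intro w hw
        rcases (hWeq w).mp hw with h' | h'
        · rw [h', hgw₀]; exact hclc0.symm
        · exact h2 w h'
      · -- injectivity of g'
        intro a ha b hb hab
        simp only [mem_insert] at hab
        have hval : ∀ w ∈ W₁, (if w = w₀ ∨ w ∈ W' then h w else g w) =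
            (if w ∈ W' then h w else g w) := by
          intro w hw
          have : w ≠ w₀ := fun h => hw₀' (h ▸ hw)
          simp [this]
        rcases (hWeq a).mp ha with ha' | ha' <;> rcases (hWeq b).mp hb with hb' | hb'
        · rw [ha', hb']
        · exfalso
          rw [ha', hval b hb', if_pos (Or.inl rfl)] at hab
          have := (h6 (h w₀)).mp ⟨b, hb', hab.symm⟩
          rcases this with h | h
          · exact hclc1 h.symm
          · exact h.1 rfl
        · exfalso
          rw [hb', hval a ha', if_pos (Or.inl rfl)] at hab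
          have := (h6 (h w₀)).mp ⟨a, ha', hab⟩
          rcases this with h | h
          · exact hclc1 h.symm
          · exact h.1 rfl
        · rw [hval a ha', hval b hb'] at hab
          exact h3 ha' hb' hab
      · intro a ha b hb hab
        simp only [mem_insert] at hab
        have hval : ∀ w ∈ W₁, (if w = w₀ ∨ w ∈ W' then g w else h w) =
            (if w ∈ W' then g w else h w) := by
          intro w hw
          have : w ≠ w₀ := fun h => hw₀' (h ▸ hw)
          simp [this]
        have hno : ∀ b ∈ W₁, c₀ = (if b ∈ W' then g b else h b) → False := by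
          intro b hb' hab
          have := (h5 c₀).mp ⟨b, hb', hab.symm⟩
          rcases this with h' | ⟨_, w, hw, hw'⟩
          · exact hc01 h'.symm
          · exact hc w ((hWeq w).mpr (Or.inr hw)) hw'
        rcases (hWeq a).mp ha with ha' | ha' <;> rcases (hWeq b).mp hb with hb' | hb'
        · rw [ha', hb']
        · exfalso
          rw [ha', hval b hb', if_pos (Or.inl rfl), hgw₀] at hab
          exact hno b hb' hab
        · exfalso
          rw [hb', hval a ha', if_pos (Or.inl rfl), hgw₀] at hab
          exact hno a ha' hab.symm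
        · rw [hval a ha', hval b hb'] at hab
          exact h4 ha' hb' hab
      · intro c
        have hval : ∀ w ∈ W₁, (if w = w₀ ∨ w ∈ W' then g w else h w) =
            (if w ∈ W' then g w else h w) := by
          intro w hw
          have : w ≠ w₀ := fun h => hw₀' (h ▸ hw)
          simp [this]
        simp only [mem_insert]
        constructor
        · rintro ⟨w, hw, hwc⟩
          rcases (hWeq w).mp hw with h' | h'
          · rw [h', if_pos (Or.inl rfl), hgw₀] at hwc
            exact Or.inl hwc.symm
          · rw [hval w h'] at hwc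
            rcases (h5 c).mp ⟨w, h', hwc⟩ with h'' | ⟨h'', w', hw', hw''⟩
            · right
              exact ⟨by rw [h'']; exact hclc1.symm, w₀, hw₀, h''.symm⟩
            · right
              exact ⟨h'', w', (hWeq w').mpr (Or.inr hw'), hw''⟩
        · rintro (h' | ⟨h', w, hw, hwc⟩)
          · exact ⟨w₀, hw₀, by rw [if_pos (Or.inl rfl), hgw₀, h']⟩
          · have : c = h w₀ ∨ (c ≠ cl ∧ ∃ w ∈ W₁, h w = c) := by
              rcases (hWeq w).mp hw with h'' | h''
              · left; rw [← hwc, h'']
              · right; exact ⟨h', w, h'', hwc⟩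
            obtain ⟨w', hw', hwc'⟩ := (h5 c).mpr this
            exact ⟨w', (hWeq w').mpr (Or.inr hw'), by rw [hval w' hw']; exact hwc'⟩
      · intro c
        have hval : ∀ w ∈ W₁, (if w = w₀ ∨ w ∈ W' then h w else g w) =
            (if w ∈ W' then h w else g w) := by
          intro w hw
          have : w ≠ w₀ := fun h => hw₀' (h ▸ hw)
          simp [this]
        simp only [mem_insert]
        constructor
        · rintro ⟨w, hw, hwc⟩
          rcases (hWeq w).mp hw with h' | h'
          · rw [h', if_pos (Or.inl rfl)] at hwc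
            right
            obtain ⟨w', hw', hw''⟩ := hex₁
            exact ⟨by rw [← hwc]; exact hc01, w', (hWeq w').mpr (Or.inr hw'), by rw [hw'', hwc]⟩
          · rw [hval w h'] at hwc
            rcases (h6 c).mp ⟨w, h', hwc⟩ with h'' | ⟨h'', w', hw', hw''⟩
            · exact Or.inl h''
            · right
              exact ⟨by rw [← hw'']; exact hgc w' hw', w', (hWeq w').mpr (Or.inr hw'), hw''⟩
        · rintro (h' | ⟨h', w, hw, hwc⟩)
          · obtain ⟨w', hw', hwc'⟩ := (h6 c).mpr (Or.inl h')
            exact ⟨w', (hWeq w').mpr (Or.inr hw'), by rw [hval w' hw']; exact hwc'⟩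
          · rcases (hWeq w).mp hw with h'' | h''
            · exfalso; rw [h'', hgw₀] at hwc; exact h' hwc.symm
            · by_cases hcc : c = h w₀
              · exact ⟨w₀, hw₀, by rw [if_pos (Or.inl rfl), hcc]⟩
              · obtain ⟨w', hw', hwc'⟩ := (h6 c).mpr (Or.inr ⟨hcc, w, h'', hwc⟩)
                exact ⟨w', (hWeq w').mpr (Or.inr hw'), by rw [hval w' hw']; exact hwc'⟩
      · intro c
        have := h7 c
        rw [filter_insert, filter_insert]
        by_cases h1 : c = c₀
        · have hcne : c ≠ h w₀ := by rw [h1]; exact hc01.symm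
          have hcne' : ¬ h w₀ = c := fun h => hcne h.symm
          have hgc' : g w₀ = c := by rw [hgw₀, h1]
          rw [if_pos hgc', if_neg hcne',
            card_insert_of_notMem (fun h => hw₀W' (mem_filter.mp h).1), if_pos h1]
          rw [if_neg hcne] at this
          omega
        · have hgc' : ¬ g w₀ = c := by rw [hgw₀]; exact fun h => h1 h.symm
          rw [if_neg hgc', if_neg h1]
          by_cases h2' : h w₀ = c
          · rw [if_pos h2', card_insert_of_notMem (fun h => hw₀W' (mem_filter.mp h).1)]
            rw [if_pos h2'.symm] at this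
            omega
          · have h3' : ¬ c = h w₀ := fun h => h2' h.symm
            rw [if_neg h2']
            rw [if_neg h3'] at this
            omega
    · push Not at hex₁
      refine ⟨{w₀}, by simpa using hw₀, h w₀, ⟨w₀, hw₀, rfl⟩, ?_, ?_, ?_, ?_, ?_, ?_⟩
      · intro w hw
        rcases (hWeq w).mp hw with h' | h'
        · rw [h', hgw₀]; exact hc01.symm
        · exact hex₁ w h'
      · intro a ha b hb hab
        simp only [mem_singleton] at hab
        rcases (hWeq a).mp ha with ha' | ha' <;> rcases (hWeq b).mp hb with hb' | hb'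
        · rw [ha', hb']
        · exfalso
          have : b ≠ w₀ := fun h => hw₀' (h ▸ hb')
          rw [ha', if_pos rfl, if_neg this] at hab
          exact hex₁ b hb' hab.symm
        · exfalso
          have : a ≠ w₀ := fun h => hw₀' (h ▸ ha')
          rw [hb', if_pos rfl, if_neg this] at hab
          exact hex₁ a ha' hab
        · have h1 : b ≠ w₀ := fun h => hw₀' (h ▸ hb')
          have h2 : a ≠ w₀ := fun h => hw₀' (h ▸ ha')
          rw [if_neg h1, if_neg h2] at hab
          exact hg₁ ha' hb' hab
      · intro a ha b hb hab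
        simp only [mem_singleton] at hab
        rcases (hWeq a).mp ha with ha' | ha' <;> rcases (hWeq b).mp hb with hb' | hb'
        · rw [ha', hb']
        · exfalso
          have : b ≠ w₀ := fun h => hw₀' (h ▸ hb')
          rw [ha', if_pos rfl, if_neg this, hgw₀] at hab
          exact hc b hb hab.symm
        · exfalso
          have : a ≠ w₀ := fun h => hw₀' (h ▸ ha')
          rw [hb', if_pos rfl, if_neg this, hgw₀] at hab
          exact hc a ha hab
        · have h1 : b ≠ w₀ := fun h => hw₀' (h ▸ hb')
          have h2 : a ≠ w₀ := fun h => hw₀' (h ▸ ha')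
          rw [if_neg h1, if_neg h2] at hab
          exact hh₁ ha' hb' hab
      · intro c
        simp only [mem_singleton]
        constructor
        · rintro ⟨w, hw, hwc⟩
          rcases (hWeq w).mp hw with h' | h'
          · rw [if_pos h', h', hgw₀] at hwc; exact Or.inl hwc.symm
          · have : w ≠ w₀ := fun h => hw₀' (h ▸ h')
            rw [if_neg this] at hwc
            exact Or.inr ⟨by rw [← hwc]; exact hc₁ w h', w, hw, hwc⟩
        · rintro (h' | ⟨h', w, hw, hwc⟩)
          · exact ⟨w₀, hw₀, by rw [if_pos rfl, hgw₀, h']⟩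
          · have : w ≠ w₀ := fun h => h' (by rw [← hwc, h])
            exact ⟨w, hw, by rw [if_neg this]; exact hwc⟩
      · intro c
        simp only [mem_singleton]
        constructor
        · rintro ⟨w, hw, hwc⟩
          rcases (hWeq w).mp hw with h' | h'
          · rw [if_pos h', h'] at hwc; exact Or.inl hwc.symm
          · have : w ≠ w₀ := fun h => hw₀' (h ▸ h')
            rw [if_neg this] at hwc
            exact Or.inr ⟨by rw [← hwc]; exact hgc w h', w, hw, hwc⟩
        · rintro (h' | ⟨h', w, hw, hwc⟩)
          · exact ⟨w₀, hw₀, by rw [if_pos rfl, h']⟩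
          · have : w ≠ w₀ := fun h => h' (by rw [← hwc, h, hgw₀])
            exact ⟨w, hw, by rw [if_neg this]; exact hwc⟩
      · intro c
        rw [filter_singleton, filter_singleton]
        by_cases h1 : g w₀ = c
        · have h2 : h w₀ ≠ c := by rw [← h1, hgw₀]; exact hc01
          rw [if_pos h1, if_neg h2, if_neg (fun h => h2 h.symm), if_pos (by rw [← h1, hgw₀])]
          simp
        · have h3 : c ≠ c₀ := by rw [← hgw₀]; exact fun h => h1 h.symm
          rw [if_neg h1, if_neg h3]
          by_cases h2 : h w₀ = c
          · rw [if_pos h2, if_pos h2.symm]; simp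
          · rw [if_neg h2, if_neg (fun h => h2 h.symm)]

end

end Pool.Agent.Lib.P3f3a3b
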