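import Pool.Agent.Lib.P3f3a3b.MCBasic

/-!
Exchange of two rows `x`, `i` on a set `S` of colours: `nb' c = τ ∘ nb c ∘ τ` for `c ∈ S`, with
`τ = swap x i`.
-/

set_option autoImplicit false
set_option linter.unusedSectionVars false
set_option linter.unusedVariables false

namespace Pool.Agent.Lib.P3f3a3b

open Finset
open scoped Classical

noncomputable section

variable {V C : Type*} [Fintype V] [Fintype C]

namespace MC

/-- Exchange of the rows `x` and `i` on the colours of `S`. -/
def rowsw (s : MC V C) (x i : V) (S : Finset C) (hP : ∀ c ∈ S, c ∉ s.P x ∧ c ∉ s.P i) :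
    MC V C where
  nb c v := if c ∈ S then Equiv.swap x i (s.nb c (Equiv.swap x i v)) else s.nb c v
  invol c v := by
    by_cases h : c ∈ S
    · simp only [if_pos h, Equiv.swap_apply_self, s.invol]
    · simp only [if_neg h, s.invol]
  P := s.P
  hP v c hc := by
    by_cases h : c ∈ S
    · have hx : v ≠ x := fun e => (hP c h).1 (e ▸ hc)
      have hi : v ≠ i := fun e => (hP c h).2 (e ▸ hc)
      rw [if_pos h, Equiv.swap_apply_of_ne_of_ne hx hi, s.hP v c hc,
        Equiv.swap_apply_of_ne_of_ne hx hi]
    · rw [if_neg h, s.hP v c hc]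

variable {s : MC V C} {x i : V} {S : Finset C} {hP : ∀ c ∈ S, c ∉ s.P x ∧ c ∉ s.P i}

theorem rowsw_nb (c : C) (v : V) : (s.rowsw x i S hP).nb c v =
    if c ∈ S then Equiv.swap x i (s.nb c (Equiv.swap x i v)) else s.nb c v := rfl

theorem rowsw_nb_of_notMem {c : C} (h : c ∉ S) (v : V) :
    (s.rowsw x i S hP).nb c v = s.nb c v := by rw [rowsw_nb, if_neg h]

theorem rowsw_nb_x {c : C} (h : c ∈ S) :
    (s.rowsw x i S hP).nb c x = Equiv.swap x i (s.nb c i) := by
  rw [rowsw_nb, if_pos h, Equiv.swap_apply_left]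

theorem rowsw_nb_i {c : C} (h : c ∈ S) :
    (s.rowsw x i S hP).nb c i = Equiv.swap x i (s.nb c x) := by
  rw [rowsw_nb, if_pos h, Equiv.swap_apply_right]

theorem rowsw_nb_other {c : C} {v : V} (hx : v ≠ x) (hi : v ≠ i) (h : c ∈ S) :
    (s.rowsw x i S hP).nb c v = Equiv.swap x i (s.nb c v) := by
  rw [rowsw_nb, if_pos h, Equiv.swap_apply_of_ne_of_ne hx hi]

theorem mem_tok_rowsw_other {c : C} {v : V} (hx : v ≠ x) (hi : v ≠ i) :
    c ∈ (s.rowsw x i S hP).tok v ↔ c ∈ s.tok v := by
  rw [mem_tok, mem_tok]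
  by_cases h : c ∈ S
  · rw [rowsw_nb_other hx hi h]
    constructor
    · rintro ⟨h1, h2⟩
      refine ⟨h1, ?_⟩
      rw [Equiv.swap_apply_eq_iff, Equiv.swap_apply_of_ne_of_ne hx hi] at h2
      exact h2
    · rintro ⟨h1, h2⟩
      refine ⟨h1, ?_⟩
      rw [h2, Equiv.swap_apply_of_ne_of_ne hx hi]
  · rw [rowsw_nb_of_notMem h]
    rfl

theorem mem_tok_rowsw_x {c : C} :
    c ∈ (s.rowsw x i S hP).tok x ↔ if c ∈ S then c ∈ s.tok i else c ∈ s.tok x := by
  by_cases h : c ∈ S
  · rw [if_pos h, mem_tok, mem_tok, rowsw_nb_x h, Equiv.swap_apply_eq_iff,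
      Equiv.swap_apply_left]
    have := hP c h
    constructor
    · rintro ⟨_, h2⟩; exact ⟨this.2, h2⟩
    · rintro ⟨_, h2⟩; exact ⟨this.1, h2⟩
  · rw [if_neg h, mem_tok, mem_tok, rowsw_nb_of_notMem h]
    rfl

theorem mem_tok_rowsw_i {c : C} :
    c ∈ (s.rowsw x i S hP).tok i ↔ if c ∈ S then c ∈ s.tok x else c ∈ s.tok i := by
  by_cases h : c ∈ S
  · rw [if_pos h, mem_tok, mem_tok, rowsw_nb_i h, Equiv.swap_apply_eq_iff,
      Equiv.swap_apply_right]
    have := hP c h
    constructor
    · rintro ⟨_, h2⟩; exact ⟨this.1, h2⟩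
    · rintro ⟨_, h2⟩; exact ⟨this.2, h2⟩
  · rw [if_neg h, mem_tok, mem_tok, rowsw_nb_of_notMem h]
    rfl

theorem cnt_rowsw {K : Finset V} (hx : x ∈ K) (hi : i ∈ K) (c : C) :
    (s.rowsw x i S hP).cnt K c = s.cnt K c := by
  unfold cnt
  by_cases h : c ∈ S
  · -- the filter is mapped by the transposition
    have : K.filter (fun v => c ∈ (s.rowsw x i S hP).tok v) =
        (K.filter (fun v => c ∈ s.tok v)).image (Equiv.swap x i) := by
      ext v
      rw [mem_filter, mem_image]
      constructor
      · rintro ⟨hv, hc⟩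
        refine ⟨Equiv.swap x i v, ?_, Equiv.swap_apply_self _ _ _⟩
        rw [mem_filter]
        by_cases hvx : v = x
        · subst hvx
          rw [Equiv.swap_apply_left]
          rw [mem_tok_rowsw_x, if_pos h] at hc
          exact ⟨hi, hc⟩
        · by_cases hvi : v = i
          · subst hvi
            rw [Equiv.swap_apply_right]
            rw [mem_tok_rowsw_i, if_pos h] at hc
            exact ⟨hx, hc⟩
          · rw [Equiv.swap_apply_of_ne_of_ne hvx hvi]
            rw [mem_tok_rowsw_other hvx hvi] at hc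
            exact ⟨hv, hc⟩
      · rintro ⟨w, hw, rfl⟩
        rw [mem_filter] at hw
        by_cases hwx : w = x
        · subst hwx
          rw [Equiv.swap_apply_left]
          refine ⟨hi, ?_⟩
          rw [mem_tok_rowsw_i, if_pos h]
          exact hw.2
        · by_cases hwi : w = i
          · subst hwi
            rw [Equiv.swap_apply_right]
            refine ⟨hx, ?_⟩
            rw [mem_tok_rowsw_x, if_pos h]
            exact hw.2
          · rw [Equiv.swap_apply_of_ne_of_ne hwx hwi]
            refine ⟨hw.1, ?_⟩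
            rw [mem_tok_rowsw_other hwx hwi]
            exact hw.2
    rw [this, card_image_of_injective _ (Equiv.swap x i).injective]
  · congr 1
    apply filter_congr
    intro v _
    rw [mem_tok, mem_tok, rowsw_nb_of_notMem h]
    rfl

theorem odd_rowsw {K : Finset V} (hx : x ∈ K) (hi : i ∈ K) :
    (s.rowsw x i S hP).odd K = s.odd K := by
  ext c
  rw [mem_odd, mem_odd, cnt_rowsw hx hi]

/-- The multigraph is unchanged if every third vertex sees as many `S`-edges to `x` as to `i`. -/
theorem rowsw_same (hbal : ∀ v, v ≠ x → v ≠ i →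
    (S.filter (fun c => s.nb c x = v)).card = (S.filter (fun c => s.nb c i = v)).card) :
    Same s (s.rowsw x i S hP) := by
  -- helper: decomposition of mult into S and non-S parts
  have dec : ∀ (t : MC V C) (u v : V), t.mult u v =
      (S.filter (fun c => t.nb c u = v)).card + (Sᶜ.filter (fun c => t.nb c u = v)).card := by
    intro t u v
    unfold mult
    rw [← card_union_of_disjoint, ← filter_union, union_compl]
    exact disjoint_filter_filter disjoint_compl_right
  have hcompl : ∀ u v, (Sᶜ.filter (fun c => (s.rowsw x i S hP).nb c u = v)).card =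
      (Sᶜ.filter (fun c => s.nb c u = v)).card := by
    intro u v
    congr 1
    apply filter_congr
    intro c hc
    rw [rowsw_nb_of_notMem (mem_compl.mp hc)]
  -- edges at x
  have hxv : ∀ v, v ≠ x → (s.rowsw x i S hP).mult x v = s.mult x v := by
    intro v hvx
    rw [dec, dec s, hcompl]
    congr 1
    by_cases hvi : v = i
    · subst hvi
      congr 1
      apply filter_congr
      intro c hc
      rw [rowsw_nb_x hc, Equiv.swap_apply_eq_iff, Equiv.swap_apply_right]
      exact ⟨fun h => nb_symm h, fun h => nb_symm h⟩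
    · rw [hbal v hvx hvi]
      congr 1
      apply filter_congr
      intro c hc
      rw [rowsw_nb_x hc, Equiv.swap_apply_eq_iff, Equiv.swap_apply_of_ne_of_ne hvx hvi]
  have hiv : ∀ v, v ≠ i → (s.rowsw x i S hP).mult i v = s.mult i v := by
    intro v hvi
    by_cases hvx : v = x
    · subst hvx
      rw [mult_comm, hxv i (Ne.symm hvi), mult_comm]
    · rw [dec, dec s, hcompl]
      congr 1
      rw [← hbal v hvx hvi]
      congr 1
      apply filter_congr
      intro c hc
      rw [rowsw_nb_i hc, Equiv.swap_apply_eq_iff, Equiv.swap_apply_of_ne_of_ne hvx hvi]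
  refine ⟨?_, fun v => rfl⟩
  intro u v huv
  by_cases hux : u = x
  · subst hux; exact hxv v (Ne.symm huv)
  by_cases hui : u = i
  · subst hui; exact hiv v (Ne.symm huv)
  by_cases hvx : v = x
  · subst hvx; rw [mult_comm, hxv u huv, mult_comm]
  by_cases hvi : v = i
  · subst hvi; rw [mult_comm, hiv u huv, mult_comm]
  rw [dec, dec s, hcompl]
  congr 2
  apply filter_congr
  intro c hc
  rw [rowsw_nb_other hux hui hc, Equiv.swap_apply_eq_iff,
    Equiv.swap_apply_of_ne_of_ne hvx hvi]

end MC

end

end Pool.Agent.Lib.P3f3a3b
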