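import Mathlib

/-!
The count of Theorem U, in an abstract form: a system of states in which chains may be
shortened, reversed and extended by slides, and in which the direct colours of two vertices of a
chain are disjoint.
-/

set_option autoImplicit false
set_option linter.unusedSectionVars false
set_option linter.unusedVariables false

namespace Pool.Agent.Lib.P3f3a3b

open Finset
open scoped Classical

noncomputable section

/-- A system of states in which chains may be shortened, reversed and slid. -/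
structure SlideSys (St V C : Type*) where
  /-- `l` is a chain of the state. -/
  Ch : St → List V → Prop
  M : St → Finset C
  nb : St → C → V → V
  tk : St → V → Finset C
  Y : Finset V
  K : Finset V
  take : ∀ {s : St} {l₁ l₂ : List V}, Ch s (l₁ ++ l₂) → l₁ ≠ [] → Ch s l₁
  rev : ∀ {s : St} {l : List V}, Ch s l → ∃ s', Ch s' l.reverse ∧ M s' = M s ∧
    ∀ d ∈ M s, ∀ u, nb s' d u = nb s d u ∧ (d ∈ tk s' u ↔ d ∈ tk s u)
  slide : ∀ {s : St} {a : V} {l : List V} {g : C} {v : V}, Ch s (a :: l) → g ∈ M s →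
    nb s g a ∈ Y → v ∈ K → g ∈ tk s v → v ∉ a :: l →
    ∃ s' e, Ch s' (v :: a :: l) ∧ M s' = insert e ((M s).erase g) ∧ nb s' e a ∈ Y ∧
      ∀ d ∈ M s, d ≠ g → ∀ u, nb s' d u = nb s d u ∧ (d ∈ tk s' u ↔ d ∈ tk s u)
  F9 : ∀ {s : St} {l : List V} {a b : V} {d : C}, Ch s l → a ∈ l → b ∈ l → a ≠ b → d ∈ M s →
    nb s d a ∈ Y → nb s d b ∈ Y → False

namespace SlideSys

variable {St V C : Type*} (S : SlideSys St V C) (s0 : St)

/-- A path of the slide graph of `s0` starting at `u`. -/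
def Seg : V → List (C × V) → Prop
  | _, [] => True
  | u, (g, v) :: t => (g ∈ S.M s0 ∧ S.nb s0 g u ∈ S.Y ∧ v ∈ S.K ∧ g ∈ S.tk s0 v) ∧ Seg v t

/-- The last vertex of the path. -/
def fin : V → List (C × V) → V
  | u, [] => u
  | _, (_, v) :: t => fin v t

/-- The vertices of the path, without the first one. -/
def vs (t : List (C × V)) : List V := t.map Prod.snd

/-- The labels of the path. -/
def ls (t : List (C × V)) : List C := t.map Prod.fst

theorem fin_append (u : V) (t₁ t₂ : List (C × V)) :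
    fin u (t₁ ++ t₂) = fin (fin u t₁) t₂ := by
  induction t₁ generalizing u with
  | nil => rfl
  | cons x t ih => exact ih x.2

theorem seg_append {u : V} {t₁ t₂ : List (C × V)} :
    S.Seg s0 u (t₁ ++ t₂) ↔ S.Seg s0 u t₁ ∧ S.Seg s0 (fin u t₁) t₂ := by
  induction t₁ generalizing u with
  | nil => simp [Seg, fin]
  | cons x t ih =>
    obtain ⟨g, v⟩ := x
    simp only [List.cons_append, Seg, fin, ih, and_assoc]

theorem vs_append (t₁ t₂ : List (C × V)) : vs (t₁ ++ t₂) = vs t₁ ++ vs t₂ := by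
  simp [vs]

theorem ls_append (t₁ t₂ : List (C × V)) : ls (t₁ ++ t₂) = ls t₁ ++ ls t₂ := by
  simp [ls]

theorem vs_cons (g : C) (v : V) (t : List (C × V)) : vs ((g, v) :: t) = v :: vs t := rfl

theorem ls_cons (g : C) (v : V) (t : List (C × V)) : ls ((g, v) :: t) = g :: ls t := rfl

theorem exists_rev (u : V) (t : List (C × V)) :
    ∃ m : List V, ∀ l, (vs t).reverse ++ u :: l = fin u t :: (m ++ l) := by
  induction t generalizing u with
  | nil => exact ⟨[], fun l => rfl⟩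
  | cons x t ih =>
    obtain ⟨g, v⟩ := x
    obtain ⟨m, hm⟩ := ih v
    refine ⟨m ++ [u], fun l => ?_⟩
    rw [vs_cons, List.reverse_cons, List.append_assoc, List.singleton_append, hm]
    simp [fin]

theorem fin_mem (u : V) (t : List (C × V)) : fin u t ∈ u :: vs t := by
  induction t generalizing u with
  | nil => simp [fin, vs]
  | cons x t ih =>
    obtain ⟨g, v⟩ := x
    rw [vs_cons]
    exact List.mem_cons_of_mem _ (ih v)

theorem exists_prefix {u v : V} {t : List (C × V)} (h : v ∈ u :: vs t) :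
    ∃ t₁ t₂, t = t₁ ++ t₂ ∧ fin u t₁ = v := by
  induction t generalizing u with
  | nil =>
    simp only [vs, List.map_nil, List.mem_singleton] at h
    exact ⟨[], [], rfl, h.symm⟩
  | cons x t ih =>
    obtain ⟨g, w⟩ := x
    rw [vs_cons, List.mem_cons] at h
    rcases h with h | h
    · exact ⟨[], (g, w) :: t, rfl, h.symm⟩
    · obtain ⟨t₁, t₂, h1, h2⟩ := ih h
      exact ⟨(g, w) :: t₁, t₂, by rw [h1]; rfl, h2⟩

/-- The last vertex of a path in a set. -/
theorem exists_last (W : V → Prop) {u : V} (hu : W u) (t : List (C × V)) :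
    ∃ t₁ t₂, t = t₁ ++ t₂ ∧ W (fin u t₁) ∧ ∀ v ∈ vs t₂, ¬ W v := by
  induction t using List.reverseRecOn with
  | nil => exact ⟨[], [], rfl, hu, by simp [vs]⟩
  | append_singleton t x ih =>
    obtain ⟨g, v⟩ := x
    by_cases hv : W v
    · refine ⟨t ++ [(g, v)], [], by simp, ?_, by simp [vs]⟩
      rw [fin_append]
      exact hv
    · obtain ⟨t₁, t₂, h1, h2, h3⟩ := ih
      refine ⟨t₁, t₂ ++ [(g, v)], by rw [h1, List.append_assoc], h2, ?_⟩
      intro w hw
      rw [vs_append, List.mem_append] at hw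
      rcases hw with hw | hw
      · exact h3 w hw
      · simp only [vs, List.map_cons, List.map_nil, List.mem_singleton] at hw
        rw [hw]; exact hv

/-- The invariant: `l` is a chain inside the visited vertices `H`, the colours of `M` of the
start state which are not used labels are untouched. -/
structure Inv (s : St) (l : List V) (L : Finset C) (H : Finset V) : Prop where
  ch : S.Ch s l
  sub : ∀ u ∈ l, u ∈ H
  lab : ∀ g ∈ L, g ∈ S.M s0 ∧ ∃ u ∈ H, u ∈ S.K ∧ g ∈ S.tk s0 u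
  clean : ∀ d ∈ S.M s0, d ∉ L → d ∈ S.M s ∧
    ∀ u, S.nb s d u = S.nb s0 d u ∧ (d ∈ S.tk s u ↔ d ∈ S.tk s0 u)

/-- New colours of `M` are direct colours of earlier vertices. -/
def New (s : St) (l : List V) (L : Finset C) : Prop :=
  ∀ d ∈ S.M s, (d ∈ S.M s0 ∧ d ∉ L) ∨ ∃ u ∈ l.tail, S.nb s d u ∈ S.Y

variable {S s0}

theorem Inv.take {s : St} {l₁ l₂ : List V} {L : Finset C} {H : Finset V}
    (h : S.Inv s0 s (l₁ ++ l₂) L H) (hne : l₁ ≠ []) : S.Inv s0 s l₁ L H :=
  ⟨S.take h.ch hne, fun u hu => h.sub u (List.mem_append_left _ hu), h.lab, h.clean⟩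

theorem Inv.rev {s : St} {l : List V} {L : Finset C} {H : Finset V}
    (h : S.Inv s0 s l L H) : ∃ s', S.Inv s0 s' l.reverse L H := by
  obtain ⟨s', h1, h2, h3⟩ := S.rev h.ch
  refine ⟨s', h1, fun u hu => h.sub u (List.mem_reverse.mp hu), h.lab, fun d hd hdL => ?_⟩
  obtain ⟨h4, h5⟩ := h.clean d hd hdL
  refine ⟨by rw [h2]; exact h4, fun u => ?_⟩
  exact ⟨(h3 d h4 u).1.trans (h5 u).1, (h3 d h4 u).2.trans (h5 u).2⟩

theorem Inv.slide (huniq : ∀ g ∈ S.M s0, ∀ u ∈ S.K, ∀ v ∈ S.K, g ∈ S.tk s0 u → g ∈ S.tk s0 v →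
      u = v) {s : St} {a : V} {l : List V} {L : Finset C} {H : Finset V}
    (h : S.Inv s0 s (a :: l) L H) {g : C} {v : V} (hg : g ∈ S.M s0)
    (hga : S.nb s0 g a ∈ S.Y) (hv : v ∈ S.K) (hgv : g ∈ S.tk s0 v) (hvH : v ∉ H) :
    ∃ s', S.Inv s0 s' (v :: a :: l) (insert g L) (insert v H) ∧
      (S.New s0 s (a :: l) L → S.New s0 s' (v :: a :: l) (insert g L)) := by
  have hgL : g ∉ L := by
    intro h'
    obtain ⟨_, u, hu, huK, hgu⟩ := h.lab g h'
    exact hvH (huniq g hg u huK v hv hgu hgv ▸ hu)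
  obtain ⟨h1, h2⟩ := h.clean g hg hgL
  obtain ⟨s', e, h3, h4, h5, h6⟩ := S.slide h.ch h1 (by rw [(h2 a).1]; exact hga) hv
    ((h2 v).2.mpr hgv) (fun h' => hvH (h.sub v h'))
  refine ⟨s', ⟨h3, ?_, ?_, ?_⟩, ?_⟩
  · intro u hu
    rw [List.mem_cons] at hu
    rcases hu with rfl | hu
    · exact mem_insert_self _ _
    · exact mem_insert_of_mem (h.sub u hu)
  · intro d hd
    rw [mem_insert] at hd
    rcases hd with rfl | hd
    · exact ⟨hg, v, mem_insert_self _ _, hv, hgv⟩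
    · obtain ⟨h7, u, h8, h9⟩ := h.lab d hd
      exact ⟨h7, u, mem_insert_of_mem h8, h9⟩
  · intro d hd hdL
    rw [mem_insert, not_or] at hdL
    obtain ⟨h7, h8⟩ := h.clean d hd hdL.2
    refine ⟨by rw [h4]; exact mem_insert_of_mem (mem_erase.mpr ⟨hdL.1, h7⟩), fun u => ?_⟩
    exact ⟨(h6 d h7 hdL.1 u).1.trans (h8 u).1, (h6 d h7 hdL.1 u).2.trans (h8 u).2⟩
  · intro hN d hd
    rw [h4, mem_insert, mem_erase] at hd
    rcases hd with rfl | ⟨hdg, hd⟩
    · exact Or.inr ⟨a, by simp, h5⟩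
    · rcases hN d hd with ⟨h7, h8⟩ | ⟨u, h7, h8⟩
      · exact Or.inl ⟨h7, by rw [mem_insert, not_or]; exact ⟨hdg, h8⟩⟩
      · refine Or.inr ⟨u, ?_, by rw [(h6 d hd hdg u).1]; exact h8⟩
        simp only [List.tail_cons] at h7 ⊢
        exact List.mem_cons_of_mem _ h7

theorem Inv.slides (huniq : ∀ g ∈ S.M s0, ∀ u ∈ S.K, ∀ v ∈ S.K, g ∈ S.tk s0 u →
      g ∈ S.tk s0 v → u = v) (t : List (C × V)) {s : St} {a : V} {l : List V} {L : Finset C}
    {H : Finset V} (h : S.Inv s0 s (a :: l) L H) (hseg : S.Seg s0 a t) (hnd : (vs t).Nodup)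
    (hH : ∀ v ∈ vs t, v ∉ H) :
    ∃ s', S.Inv s0 s' ((vs t).reverse ++ a :: l) (L ∪ (ls t).toFinset)
        (H ∪ (vs t).toFinset) ∧
      (S.New s0 s (a :: l) L →
        S.New s0 s' ((vs t).reverse ++ a :: l) (L ∪ (ls t).toFinset)) := by
  induction t generalizing s a l L H with
  | nil =>
    refine ⟨s, ?_, ?_⟩
    · simpa [vs, ls] using h
    · intro h'
      simpa [vs, ls] using h'
  | cons x t ih =>
    obtain ⟨g, v⟩ := x
    obtain ⟨⟨hg, hga, hv, hgv⟩, hseg'⟩ := hseg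
    rw [vs_cons] at hnd hH
    rw [List.nodup_cons] at hnd
    obtain ⟨s1, h1, h2⟩ := h.slide huniq hg hga hv hgv (hH v (by simp))
    obtain ⟨s2, h3, h4⟩ := ih h1 hseg' hnd.2 (by
      intro w hw hw'
      rw [mem_insert] at hw'
      rcases hw' with rfl | hw'
      · exact hnd.1 hw
      · exact hH w (List.mem_cons_of_mem _ hw) hw')
    have e1 : (vs ((g, v) :: t)).reverse ++ a :: l = (vs t).reverse ++ v :: a :: l := by
      rw [vs_cons, List.reverse_cons, List.append_assoc, List.singleton_append]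
    have e2 : L ∪ (ls ((g, v) :: t)).toFinset = insert g L ∪ (ls t).toFinset := by
      rw [ls_cons, List.toFinset_cons, union_insert, insert_union]
    have e3 : H ∪ (vs ((g, v) :: t)).toFinset = insert v H ∪ (vs t).toFinset := by
      rw [vs_cons, List.toFinset_cons, union_insert, insert_union]
    rw [e1, e2, e3]
    exact ⟨s2, h3, fun h' => h4 (h2 h')⟩

/-- Common direct colours of the end vertices of two paths are labels of one of them. -/
theorem disjoint_ends (huniq : ∀ g ∈ S.M s0, ∀ u ∈ S.K, ∀ v ∈ S.K, g ∈ S.tk s0 u →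
      g ∈ S.tk s0 v → u = v) {i : V} (h0 : S.Ch s0 [i]) {ta tb : List (C × V)}
    (ha : S.Seg s0 i ta) (hb : S.Seg s0 i tb) (hna : (i :: vs ta).Nodup)
    (hnb : (i :: vs tb).Nodup) (hab : fin i ta ≠ fin i tb) {d : C} (hd : d ∈ S.M s0)
    (hda : S.nb s0 d (fin i ta) ∈ S.Y) (hdb : S.nb s0 d (fin i tb) ∈ S.Y)
    (hla : d ∉ ls ta) (hlb : d ∉ ls tb) : False := by
  obtain ⟨tb₁, tb₂, hb1, hb2, hb3⟩ := exists_last (fun v => v ∈ i :: vs ta) (u := i)
    (by simp) tb
  obtain ⟨ta₁, ta₂, ha1, ha2⟩ := exists_prefix hb2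
  subst hb1
  subst ha1
  have hInv0 : S.Inv s0 s0 [i] ∅ {i} :=
    ⟨h0, fun u hu => by simpa using hu, fun g hg => absurd hg (notMem_empty _),
      fun d hd _ => ⟨hd, fun u => ⟨rfl, Iff.rfl⟩⟩⟩
  rw [seg_append] at ha hb
  rw [vs_append] at hna hnb hb3
  rw [ls_append, List.mem_append, not_or] at hla hlb
  rw [List.nodup_cons, List.mem_append, not_or] at hna hnb
  obtain ⟨⟨hia1, hia2⟩, hna⟩ := hna
  obtain ⟨⟨hib1, hib2⟩, hnb⟩ := hnb
  rw [List.nodup_append] at hna hnb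
  -- slide along the first part of `P_a`
  obtain ⟨s1, hI1, -⟩ := hInv0.slides huniq ta₁ ha.1 hna.1 (by
    intro v hv hv'
    rw [mem_singleton] at hv'
    exact hia1 (hv' ▸ hv))
  obtain ⟨m1, hm1⟩ := exists_rev i ta₁
  rw [hm1, ha2] at hI1
  set c := fin i tb₁ with hc
  -- cut
  have hI1' : S.Inv s0 s1 [c] (∅ ∪ (ls ta₁).toFinset) ({i} ∪ (vs ta₁).toFinset) := by
    have : c :: (m1 ++ []) = [c] ++ (m1 ++ []) := rfl
    rw [this] at hI1
    exact hI1.take (by simp)
  rw [ha2] at ha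
  -- slide along the second part of `P_a`
  obtain ⟨s2, hI2, -⟩ := hI1'.slides huniq ta₂ ha.2 hna.2.1 (by
    intro v hv hv'
    rw [mem_union, mem_singleton, List.mem_toFinset] at hv'
    rcases hv' with rfl | hv'
    · exact hia2 hv
    · exact hna.2.2 v hv' v hv rfl)
  -- reverse
  obtain ⟨s3, hI3⟩ := hI2.rev
  have e3 : ((vs ta₂).reverse ++ [c]).reverse = c :: vs ta₂ := by simp
  rw [e3] at hI3
  -- slide along the second part of `P_b`
  obtain ⟨s4, hI4, -⟩ := hI3.slides huniq tb₂ hb.2 hnb.2.1 (by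
    intro v hv hv'
    rw [mem_union, mem_union, mem_singleton, List.mem_toFinset, List.mem_toFinset] at hv'
    apply hb3 v hv
    rw [List.mem_cons, List.mem_append]
    tauto)
  have hcl := hI4.clean d hd (by
    simp only [mem_union, List.mem_toFinset, notMem_empty, false_or, not_or]
    exact ⟨hla, hlb.2⟩)
  have hma : fin i (ta₁ ++ ta₂) ∈ (vs tb₂).reverse ++ c :: vs ta₂ := by
    rw [fin_append, ha2]
    exact List.mem_append_right _ (fin_mem c ta₂)
  have hmb : fin i (tb₁ ++ tb₂) ∈ (vs tb₂).reverse ++ c :: vs ta₂ := by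
    rw [fin_append, ← hc]
    have := fin_mem c tb₂
    rw [List.mem_cons] at this
    rw [List.mem_append, List.mem_reverse, List.mem_cons]
    tauto
  exact S.F9 hI4.ch hma hmb hab hcl.1 (by rw [(hcl.2 _).1]; exact hda)
    (by rw [(hcl.2 _).1]; exact hdb)

/-- A path gives at least `p + 1` direct colours of its end vertex which are not labels. -/
theorem card_dir {p : ℕ} (huniq : ∀ g ∈ S.M s0, ∀ u ∈ S.K, ∀ v ∈ S.K, g ∈ S.tk s0 u →
      g ∈ S.tk s0 v → u = v)
    (hdir : ∀ (s : St) (a : V) (l : List V), S.Ch s (a :: l) →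
      p + 1 ≤ ((S.M s).filter (fun g => S.nb s g a ∈ S.Y)).card)
    {i : V} (h0 : S.Ch s0 [i]) {t : List (C × V)}
    (ht : S.Seg s0 i t) (hn : (i :: vs t).Nodup) :
    p + 1 ≤ ((S.M s0).filter (fun g => S.nb s0 g (fin i t) ∈ S.Y ∧ g ∉ ls t)).card := by
  have hInv0 : S.Inv s0 s0 [i] ∅ {i} :=
    ⟨h0, fun u hu => by simpa using hu, fun g hg => absurd hg (notMem_empty _),
      fun d hd _ => ⟨hd, fun u => ⟨rfl, Iff.rfl⟩⟩⟩
  have hNew0 : S.New s0 s0 [i] ∅ := fun d hd => Or.inl ⟨hd, notMem_empty _⟩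
  obtain ⟨s1, hI1, hN1⟩ := hInv0.slides huniq t ht (List.nodup_cons.mp hn).2 (by
    intro v hv hv'
    rw [mem_singleton] at hv'
    exact (List.nodup_cons.mp hn).1 (hv' ▸ hv))
  have hN1 := hN1 hNew0
  obtain ⟨m, hm⟩ := exists_rev i t
  have hnd : ((vs t).reverse ++ [i]).Nodup := by
    have : (vs t).reverse ++ [i] = (i :: vs t).reverse := by simp
    rw [this]
    exact List.nodup_reverse.mpr hn
  rw [hm] at hI1 hN1 hnd
  refine le_trans (hdir s1 _ _ hI1.ch) (card_le_card ?_)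
  intro d hd
  rw [mem_filter] at hd ⊢
  rcases hN1 d hd.1 with ⟨h1, h2⟩ | ⟨u, hu, huY⟩
  · have h2' : d ∉ ls t := by simpa using h2
    have hcl := hI1.clean d h1 h2
    exact ⟨h1, by rw [← (hcl.2 _).1]; exact hd.2, h2'⟩
  · exfalso
    rw [List.tail_cons] at hu
    have hne : fin i t ≠ u := by
      rintro rfl
      exact (List.nodup_cons.mp hnd).1 hu
    exact S.F9 hI1.ch (List.mem_cons_self) (List.mem_cons_of_mem _ hu) hne hd.1 hd.2 huY

/-- **The count of Theorem U.** -/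
theorem count {p : ℕ} {i : V} (h0 : S.Ch s0 [i]) (hi : i ∈ S.K)
    (hdir : ∀ (s : St) (a : V) (l : List V), S.Ch s (a :: l) →
      p + 1 ≤ ((S.M s).filter (fun g => S.nb s g a ∈ S.Y)).card)
    (hex : ∀ g ∈ S.M s0, ∃ v ∈ S.K, g ∈ S.tk s0 v)
    (huniq : ∀ g ∈ S.M s0, ∀ u ∈ S.K, ∀ v ∈ S.K, g ∈ S.tk s0 u → g ∈ S.tk s0 v → u = v)
    (hp : ∀ v ∈ S.K, (S.tk s0 v).card ≤ p) : False := by
  obtain ⟨F, hF⟩ : ∃ F : Finset V, F = S.K.filter
      (fun a => ∃ t, S.Seg s0 i t ∧ (i :: vs t).Nodup ∧ fin i t = a) := ⟨_, rfl⟩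
  have hmem : ∀ a, a ∈ F ↔ a ∈ S.K ∧ ∃ t, S.Seg s0 i t ∧ (i :: vs t).Nodup ∧ fin i t = a := by
    intro a; rw [hF, mem_filter]
  have hiF : i ∈ F := by
    rw [hmem]
    exact ⟨hi, [], trivial, by simp [vs], rfl⟩
  have hch : ∀ a ∈ F, ∃ t, S.Seg s0 i t ∧ (i :: vs t).Nodup ∧ fin i t = a := fun a ha =>
    ((hmem a).mp ha).2
  choose! T hT1 hT2 hT3 using hch
  obtain ⟨D, hD⟩ : ∃ D : V → Finset C, D = fun a =>
      (S.M s0).filter (fun g => S.nb s0 g (fin i (T a)) ∈ S.Y ∧ g ∉ ls (T a)) := ⟨_, rfl⟩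
  have hDmem : ∀ a d, d ∈ D a ↔ d ∈ S.M s0 ∧ S.nb s0 d (fin i (T a)) ∈ S.Y ∧ d ∉ ls (T a) := by
    intro a d
    rw [hD]
    exact mem_filter
  have hcard : ∀ a ∈ F, p + 1 ≤ (D a).card := by
    intro a ha
    rw [hD]
    exact card_dir huniq hdir h0 (hT1 a ha) (hT2 a ha)
  have hdisj : ∀ a ∈ F, ∀ b ∈ F, a ≠ b → Disjoint (D a) (D b) := by
    intro a ha b hb hab
    rw [disjoint_left]
    intro d h1 h2
    rw [hDmem] at h1 h2
    refine disjoint_ends huniq h0 (hT1 a ha) (hT1 b hb) (hT2 a ha) (hT2 b hb) ?_ h1.1 h1.2.1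
      h2.2.1 h1.2.2 h2.2.2
    rw [hT3 a ha, hT3 b hb]
    exact hab
  have hhold : ∀ a ∈ F, D a ⊆ F.biUnion (fun v => S.tk s0 v) := by
    intro a ha d hd
    rw [hDmem] at hd
    obtain ⟨v, hvK, hdv⟩ := hex d hd.1
    rw [mem_biUnion]
    refine ⟨v, ?_, hdv⟩
    rw [hmem]
    refine ⟨hvK, ?_⟩
    by_cases hv : v ∈ i :: vs (T a)
    · obtain ⟨t₁, t₂, h1, h2⟩ := exists_prefix hv
      have h3 := hT1 a ha
      rw [h1, seg_append] at h3
      have h4 := hT2 a ha
      rw [h1, vs_append, ← List.cons_append] at h4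
      exact ⟨t₁, h3.1, (List.nodup_append.mp h4).1, h2⟩
    · refine ⟨T a ++ [(d, v)], ?_, ?_, ?_⟩
      · rw [seg_append]
        exact ⟨hT1 a ha, ⟨hd.1, hd.2.1, hvK, hdv⟩, trivial⟩
      · rw [vs_append, ← List.cons_append, List.nodup_append]
        refine ⟨hT2 a ha, by simp [vs], ?_⟩
        intro u hu w hw
        simp only [vs, List.map_cons, List.map_nil, List.mem_singleton] at hw
        rintro rfl
        exact hv (hw ▸ hu)
      · rw [fin_append]; rfl
  have h1 : (F.biUnion D).card = ∑ a ∈ F, (D a).card := card_biUnion hdisj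
  have h2 : (F.biUnion D).card ≤ (F.biUnion (fun v => S.tk s0 v)).card := by
    apply card_le_card
    intro d hd
    rw [mem_biUnion] at hd
    obtain ⟨a, ha, hd⟩ := hd
    exact hhold a ha hd
  have h3 : (F.biUnion (fun v => S.tk s0 v)).card ≤ ∑ v ∈ F, (S.tk s0 v).card :=
    card_biUnion_le
  have h4 : ∑ v ∈ F, (S.tk s0 v).card ≤ ∑ _v ∈ F, p := sum_le_sum (fun v hv =>
    hp v ((hmem v).mp hv).1)
  have h5 : ∑ _a ∈ F, (p + 1) ≤ ∑ a ∈ F, (D a).card := sum_le_sum hcard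
  have h6 : 0 < F.card := card_pos.mpr ⟨i, hiF⟩
  rw [sum_const, smul_eq_mul] at h4 h5
  nlinarith

end SlideSys

end

end Pool.Agent.Lib.P3f3a3b
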