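import Pool.Agent.Lib.P3f3a3b.Switch

/-!
The star extension: if `2 |K| ≤ (number of tokens on K) + (number of odd colours on K)`, every
vertex of the clique `K` has a token, then after Kempe changes that keep the set of odd colours
there are distinct tokens for the vertices of `K`.
-/

set_option autoImplicit false
set_option linter.unusedSectionVars false
set_option linter.unusedVariables false

namespace Pool.Agent.Lib.P3f3a3b

open Finset
open scoped Classical

noncomputable section

variable {V C : Type*} [Fintype V] [Fintype C]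
variable {H : SimpleGraph V}

namespace Col

/-- `tok`, the reserved colours and the used colours partition the colours. -/
theorem card_tok (s : Col H C) (v : V) :
    (s.tok v).card + (s.P v).card + (univ.filter (fun w => H.Adj v w)).card
      = Fintype.card C := by
  have h1 : ((univ.filter (fun w => H.Adj v w)).image (s.col v)).card =
      (univ.filter (fun w => H.Adj v w)).card := by
    apply card_image_of_injOn
    intro a ha b hb hab
    have ha' : H.Adj v a := by simpa using ha
    have hb' : H.Adj v b := by simpa using hb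
    exact s.proper v a b ha' hb' hab
  have h2 : (s.tok v ∪ s.P v) ∪ (univ.filter (fun w => H.Adj v w)).image (s.col v) = univ := by
    ext c
    simp only [mem_union, mem_image, mem_filter, mem_univ, true_and, iff_true]
    by_cases hc : c ∈ s.P v
    · exact Or.inl (Or.inr hc)
    · by_cases hu : ∃ a, H.Adj v a ∧ s.col v a = c
      · exact Or.inr hu
      · left; left
        rw [mem_tok]
        push Not at hu
        exact ⟨hc, hu⟩
  have h3 : Disjoint (s.tok v) (s.P v) := by
    rw [disjoint_left]
    intro c h1 h2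
    exact (mem_tok.mp h1).1 h2
  have h4 : Disjoint (s.tok v ∪ s.P v) ((univ.filter (fun w => H.Adj v w)).image (s.col v)) := by
    rw [disjoint_left]
    intro c h1 h2
    obtain ⟨w, hw, hwc⟩ := mem_image.mp h2
    rw [mem_filter] at hw
    rw [mem_union] at h1
    rcases h1 with h1 | h1
    · exact (mem_tok.mp h1).2 w hw.2 hwc
    · exact s.hP v w hw.2 (hwc ▸ h1)
  rw [← h1, ← card_union_of_disjoint h3, ← card_union_of_disjoint h4, h2, card_univ]

theorem card_tok_eq {s s' : Col H C} {v : V} (h : (s'.P v).card = (s.P v).card) :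
    (s'.tok v).card = (s.tok v).card := by
  have h1 := s.card_tok v
  have h2 := s'.card_tok v
  omega

/-- A partial star assignment of size `n`, in a colouring with the same parities. -/
def Part (s₀ : Col H C) (K : Finset V) (n : ℕ) : Prop :=
  ∃ (s : Col H C) (f : V → C) (D : Finset V), D ⊆ K ∧ D.card = n ∧ Set.InjOn f D ∧
    (∀ v ∈ D, f v ∈ s.tok v) ∧ s.odd K = s₀.odd K ∧ ∀ v, (s.P v).card = (s₀.P v).card

theorem part_extend {s₀ : Col H C} {K : Finset V} {n : ℕ} {s : Col H C} {f : V → C}
    {D : Finset V} (hDK : D ⊆ K) (hcard : D.card = n) (hf : Set.InjOn f D)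
    (hft : ∀ v ∈ D, f v ∈ s.tok v) (hodd : s.odd K = s₀.odd K)
    (hP : ∀ v, (s.P v).card = (s₀.P v).card) {t : V} (htK : t ∈ K) (htD : t ∉ D) {c : C}
    (hct : c ∈ s.tok t) (hcf : ∀ v ∈ D, f v ≠ c) : Part s₀ K (n + 1) := by
  refine ⟨s, Function.update f t c, insert t D, ?_, ?_, ?_, ?_, hodd, hP⟩
  · intro v hv
    rcases mem_insert.mp hv with h | h
    · rw [h]; exact htK
    · exact hDK h
  · rw [card_insert_of_notMem htD, hcard]
  · have hne : ∀ v ∈ D, v ≠ t := fun v hv h => htD (h ▸ hv)
    intro a ha b hb hab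
    rw [mem_coe, mem_insert] at ha hb
    rcases ha with ha | ha <;> rcases hb with hb | hb
    · rw [ha, hb]
    · rw [ha, Function.update_self, Function.update_of_ne (hne b hb)] at hab
      exact (hcf b hb hab.symm).elim
    · rw [hb, Function.update_self, Function.update_of_ne (hne a ha)] at hab
      exact (hcf a ha hab).elim
    · rw [Function.update_of_ne (hne a ha), Function.update_of_ne (hne b hb)] at hab
      exact hf ha hb hab
  · intro v hv
    rcases mem_insert.mp hv with h | h
    · rw [h, Function.update_self]; exact hct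
    · rw [Function.update_of_ne (fun h' : v = t => htD (by rw [← h']; exact h))]; exact hft v h

theorem injOn_update {f : V → C} {D : Finset V} (hf : Set.InjOn f D) {w : V} {c : C}
    (hc : ∀ v ∈ D, f v ≠ c) : Set.InjOn (Function.update f w c) D := by
  intro a ha b hb hab
  by_cases haw : a = w
  · by_cases hbw : b = w
    · rw [haw, hbw]
    · subst haw
      rw [Function.update_self, Function.update_of_ne hbw] at hab
      exact (hc b hb hab.symm).elim
  · by_cases hbw : b = w
    · subst hbw
      rw [Function.update_self, Function.update_of_ne haw] at hab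
      exact (hc a ha hab).elim
    · rw [Function.update_of_ne haw, Function.update_of_ne hbw] at hab
      exact hf ha hb hab

/-- After a Kempe swap in which all vertices of `D` in `S` are assigned colours other than
`a`, `b`, except `w`, the assignment stays valid after updating `w`. -/
theorem tok_swap_of_ne {s : Col H C} {a b : C} {S : Finset V} (hS : s.Closed a b S) {v : V}
    {c : C} (hc : c ∈ s.tok v) (h : v ∈ S → c ≠ a ∧ c ≠ b) :
    c ∈ (s.swap a b S hS).tok v := by
  rw [mem_tok_swap]
  by_cases hv : v ∈ S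
  · rw [if_pos hv, Equiv.swap_apply_of_ne_of_ne (h hv).1 (h hv).2]; exact hc
  · rw [if_neg hv]; exact hc

theorem cnt_pos {s : Col H C} {K : Finset V} {c : C} {v : V} (hv : v ∈ K) (hc : c ∈ s.tok v) :
    1 ≤ s.cnt K c := card_pos.mpr ⟨v, mem_filter.mpr ⟨hv, hc⟩⟩

theorem cnt_two {s : Col H C} {K : Finset V} {c : C} {u v : V} (huv : u ≠ v) (hu : u ∈ K)
    (hv : v ∈ K) (hcu : c ∈ s.tok u) (hcv : c ∈ s.tok v) : 2 ≤ s.cnt K c :=
  one_lt_card.mpr ⟨u, mem_filter.mpr ⟨hu, hcu⟩, v, mem_filter.mpr ⟨hv, hcv⟩, huv⟩

theorem ends_union {s : Col H C} {K : Finset V} {a b : C} {S T : Finset V}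
    (h : Disjoint S T) : s.ends K a b (S ∪ T) = s.ends K a b S + s.ends K a b T := by
  unfold ends
  rw [inter_union_distrib_left, cnt_union_disjoint, cnt_union_disjoint]
  · omega
  · exact disjoint_of_subset_left inter_subset_right
      (disjoint_of_subset_right inter_subset_right h)
  · exact disjoint_of_subset_left inter_subset_right
      (disjoint_of_subset_right inter_subset_right h)

theorem comp_disjoint {s : Col H C} {a b : C} {u v : V} (h : u ∉ s.comp a b v) :
    Disjoint (s.comp a b v) (s.comp a b u) := by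
  rw [disjoint_left]
  intro w h1 h2
  apply h
  rw [← comp_eq_of_mem h1, comp_eq_of_mem h2]
  exact self_mem_comp s a b u

/-- The main step, when a colour `c` is not assigned but some vertex of `K` has it. -/
theorem part_step_A {s₀ : Col H C} {K : Finset V}
    (hK : ∀ u ∈ K, ∀ v ∈ K, u ≠ v → H.Adj u v)
    {n : ℕ} {s : Col H C} {f : V → C} {D : Finset V} (hDK : D ⊆ K) (hcard : D.card = n)
    (hf : Set.InjOn f D) (hft : ∀ v ∈ D, f v ∈ s.tok v) (hodd : s.odd K = s₀.odd K)
    (hP : ∀ v, (s.P v).card = (s₀.P v).card) {t : V} (htK : t ∈ K) (htD : t ∉ D)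
    {d : C} (hdt : d ∈ s.tok t) {c : C} (hcf : ∀ v ∈ D, f v ≠ c) {x : V} (hxK : x ∈ K)
    (hcx : c ∈ s.tok x) : Part s₀ K (n + 1) := by
  by_cases hct : c ∈ s.tok t
  · exact part_extend hDK hcard hf hft hodd hP htK htD hct hcf
  by_cases hxD : x ∈ D
  swap
  · exact part_extend hDK hcard hf hft hodd hP hxK hxD hcx hcf
  by_cases hdf : ∀ v ∈ D, f v ≠ d
  · exact part_extend hDK hcard hf hft hodd hP htK htD hdt hdf
  push Not at hdf
  obtain ⟨w, hwD, hwd⟩ := hdf
  have hcd : c ≠ d := fun h => hct (h ▸ hdt)
  have hwt : w ≠ t := fun h => htD (h ▸ hwD)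
  have hwK : w ∈ K := hDK hwD
  have hdw : d ∈ s.tok w := hwd ▸ hft w hwD
  have hf1 : Set.InjOn (Function.update f w c) D := injOn_update hf hcf
  have hf1d : ∀ v ∈ D, Function.update f w c v ≠ d := by
    intro v hv
    by_cases hvw : v = w
    · subst hvw; rw [Function.update_self]; exact hcd
    · rw [Function.update_of_ne hvw]
      exact fun h => hvw (hf hv hwD (by rw [h, hwd]))
  by_cases hcw : c ∈ s.tok w
  · refine part_extend (f := Function.update f w c) hDK hcard hf1 ?_ hodd hP htK htD hdt hf1d
    intro v hv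
    by_cases hvw : v = w
    · subst hvw; rw [Function.update_self]; exact hcw
    · rw [Function.update_of_ne hvw]; exact hft v hv
  have hxw : x ≠ w := fun h => hcw (h ▸ hcx)
  have hxt : x ≠ t := fun h => htD (h ▸ hxD)
  have hfcd : ∀ v ∈ D, v ≠ w → f v ≠ c ∧ f v ≠ d := fun v hv hvw =>
    ⟨hcf v hv, fun h => hvw (hf hv hwD (by rw [h, hwd]))⟩
  -- finishing move, when both `t` and `w` have been swapped and `x` not
  have finish : ∀ (S : Finset V) (hS : s.Closed c d S), t ∈ S → w ∈ S → x ∉ S →
      Even (s.ends K c d S) → Part s₀ K (n + 1) := by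
    intro S hS htS hwS hxS he
    set s1 := s.swap c d S hS with hs1
    have hodd1 : s1.odd K = s₀.odd K := by rw [hs1, odd_swap_of_even hS K he, hodd]
    have hP1 : ∀ v, (s1.P v).card = (s₀.P v).card := fun v => by rw [hs1, card_P_swap, hP]
    have hft1 : ∀ v ∈ D, Function.update f w c v ∈ s1.tok v := by
      intro v hv
      by_cases hvw : v = w
      · subst hvw
        rw [Function.update_self, hs1, mem_tok_swap, if_pos hwS, Equiv.swap_apply_left]
        exact hdw
      · rw [Function.update_of_ne hvw]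
        exact tok_swap_of_ne hS (hft v hv) (fun _ => hfcd v hv hvw)
    have hcx1 : c ∈ s1.tok x := by rw [hs1, mem_tok_swap, if_neg hxS]; exact hcx
    have hct1 : c ∈ s1.tok t := by
      rw [hs1, mem_tok_swap, if_pos htS, Equiv.swap_apply_left]; exact hdt
    obtain ⟨s2, f2, h1, h2, h3, h4, h5, h6, _⟩ :=
      s1.row_switch hK hDK hf1 hft1 hxK hcx1 ⟨w, hwD, hxw.symm, Function.update_self _ _ _⟩
    refine part_extend hDK hcard h1 h2 (by rw [h5, hodd1]) (fun v => by rw [h4, hP1]) htK htD
      ?_ h3
    rw [h6 t htD hxt.symm]; exact hct1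
  set Ot := s.comp c d t with hOt
  set Ow := s.comp c d w with hOw
  have htOt : t ∈ Ot := self_mem_comp _ _ _ _
  have hwOw : w ∈ Ow := self_mem_comp _ _ _ _
  have hOtc : s.Closed c d Ot := comp_closed _ _ _ _
  have hOwc : s.Closed c d Ow := comp_closed _ _ _ _
  have le1 : s.ends K c d Ot ≤ 2 := ends_comp_le_two hcd K t
  have le2 : s.ends K c d Ow ≤ 2 := ends_comp_le_two hcd K w
  by_cases hwOt : w ∈ Ot
  · have h2 : 2 ≤ s.cnt (K ∩ Ot) d :=
      cnt_two hwt (mem_inter.mpr ⟨hwK, hwOt⟩) (mem_inter.mpr ⟨htK, htOt⟩) hdw hdt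
    have hxOt : x ∉ Ot := by
      intro h
      have := cnt_pos (mem_inter.mpr ⟨hxK, h⟩) hcx
      unfold ends at le1
      omega
    have he : s.ends K c d Ot = 2 := by unfold ends at le1 ⊢; omega
    exact finish Ot hOtc htOt hwOt hxOt (by rw [he]; exact even_two)
  · have hdis : Disjoint Ot Ow := comp_disjoint hwOt
    have htOw : t ∉ Ow := fun h => (disjoint_left.mp hdis) htOt h
    rcases Nat.even_or_odd (s.ends K c d Ot) with he | ho
    · -- swap `Ot` only
      refine part_extend (s := s.swap c d Ot hOtc) hDK hcard hf ?_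
        (by rw [odd_swap_of_even hOtc K he, hodd]) (fun v => by rw [card_P_swap, hP]) htK htD
        (c := c) ?_ hcf
      · intro v hv
        refine tok_swap_of_ne hOtc (hft v hv) (fun hvO => ?_)
        exact hfcd v hv (fun h => hwOt (h ▸ hvO))
      · rw [mem_tok_swap, if_pos htOt, Equiv.swap_apply_left]; exact hdt
    · rcases Nat.even_or_odd (s.ends K c d Ow) with he' | ho'
      · refine part_extend (s := s.swap c d Ow hOwc) (f := Function.update f w c) hDK hcard
          hf1 ?_ (by rw [odd_swap_of_even hOwc K he', hodd])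
          (fun v => by rw [card_P_swap, hP]) htK htD (c := d) ?_ hf1d
        · intro v hv
          by_cases hvw : v = w
          · subst hvw
            rw [Function.update_self, mem_tok_swap, if_pos hwOw, Equiv.swap_apply_left]
            exact hdw
          · rw [Function.update_of_ne hvw]
            exact tok_swap_of_ne hOwc (hft v hv) (fun _ => hfcd v hv hvw)
        · rw [mem_tok_swap, if_neg htOw]; exact hdt
      · have hxOt : x ∉ Ot := by
          intro h
          have h1 := cnt_pos (mem_inter.mpr ⟨hxK, h⟩) hcx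
          have h2 := cnt_pos (mem_inter.mpr ⟨htK, htOt⟩) hdt
          have : s.ends K c d Ot = 2 := by unfold ends at le1 ⊢; omega
          rw [this] at ho; exact absurd ho (by decide)
        have hxOw : x ∉ Ow := by
          intro h
          have h1 := cnt_pos (mem_inter.mpr ⟨hxK, h⟩) hcx
          have h2 := cnt_pos (mem_inter.mpr ⟨hwK, hwOw⟩) hdw
          have : s.ends K c d Ow = 2 := by unfold ends at le2 ⊢; omega
          rw [this] at ho'; exact absurd ho' (by decide)
        refine finish (Ot ∪ Ow) (hOtc.union hOwc) (mem_union_left _ htOt)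
          (mem_union_right _ hwOw) ?_ ?_
        · rw [mem_union]; tauto
        · rw [ends_union hdis]; exact ho.add_odd ho'

theorem sum_cnt (s : Col H C) (K : Finset V) :
    ∑ c, s.cnt K c = ∑ v ∈ K, (s.tok v).card := by
  simp_rw [cnt_eq_sum]
  rw [sum_comm]
  apply sum_congr rfl
  intro v _
  rw [← card_filter]
  congr 1
  ext c; simp

/-- One more vertex can be assigned. -/
theorem part_step {s₀ : Col H C} {K : Finset V}
    (hK : ∀ u ∈ K, ∀ v ∈ K, u ≠ v → H.Adj u v)
    (hpos : ∀ v ∈ K, 1 ≤ (s₀.tok v).card)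
    (hcount : 2 * K.card ≤ (∑ v ∈ K, (s₀.tok v).card) + (s₀.odd K).card)
    {n : ℕ} (hn : n < K.card) (h : Part s₀ K n) : Part s₀ K (n + 1) := by
  obtain ⟨s, f, D, hDK, hcard, hf, hft, hodd, hP⟩ := h
  have htok : ∀ v, (s.tok v).card = (s₀.tok v).card := fun v => card_tok_eq (hP v)
  have hDne : ∃ t ∈ K, t ∉ D := by
    by_contra h
    push Not at h
    have : K ⊆ D := h
    have := card_le_card this
    omega
  obtain ⟨t, htK, htD⟩ := hDne
  have hdt : ∃ d, d ∈ s.tok t := by
    have := hpos t htK
    rw [← htok] at this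
    exact card_pos.mp this
  obtain ⟨d, hdt⟩ := hdt
  by_cases hA : ∃ c, (∀ v ∈ D, f v ≠ c) ∧ ∃ x ∈ K, c ∈ s.tok x
  · obtain ⟨c, hcf, x, hxK, hcx⟩ := hA
    exact part_step_A hK hDK hcard hf hft hodd hP htK htD hdt hcf hxK hcx
  by_cases hB : ∃ w ∈ D, 3 ≤ s.cnt K (f w)
  · obtain ⟨w, hwD, hw3⟩ := hB
    -- two further holders
    have h2 : 1 < ((K.filter (fun v => f w ∈ s.tok v)).erase w).card := by
      have hwmem : w ∈ K.filter (fun v => f w ∈ s.tok v) :=
        mem_filter.mpr ⟨hDK hwD, hft w hwD⟩
      have : ((K.filter (fun v => f w ∈ s.tok v)).erase w).card =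
          (K.filter (fun v => f w ∈ s.tok v)).card - 1 := card_erase_of_mem hwmem
      unfold cnt at hw3
      omega
    obtain ⟨x, hx, z, hz, hxz⟩ := one_lt_card.mp h2
    rw [mem_erase, mem_filter] at hx hz
    obtain ⟨s2, f2, h1, h2', h3, h4, h5, h6, h7, _⟩ :=
      s.row_switch hK hDK hf hft hx.2.1 hx.2.2 ⟨w, hwD, hx.1.symm, rfl⟩
    have hz2 : f w ∈ s2.tok z := by
      by_cases hzD : z ∈ D
      · exact h7 z hzD hxz.symm (f w) (fun h => hz.1 (hf hzD hwD h.symm)) hz.2.2
      · rw [h6 z hzD hxz.symm]; exact hz.2.2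
    have hdt2 : ∃ d, d ∈ s2.tok t := by
      have := hpos t htK
      rw [← htok, ← card_tok_eq (s := s) (s' := s2) (by rw [h4])] at this
      exact card_pos.mp this
    obtain ⟨d2, hdt2⟩ := hdt2
    exact part_step_A hK hDK hcard h1 h2' (by rw [h5, hodd]) (fun v => by rw [h4, hP]) htK htD
      hdt2 h3 hz.2.1 hz2
  -- counting contradiction
  exfalso
  push Not at hA hB
  have hval : ∀ c, s.cnt K c + (if c ∈ s.odd K then 1 else 0) =
      if c ∈ D.image f then 2 else 0 := by
    intro c
    by_cases hc : c ∈ D.image f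
    · obtain ⟨w, hw, rfl⟩ := mem_image.mp hc
      rw [if_pos hc]
      have h1 := hB w hw
      have h2 := cnt_pos (hDK hw) (hft w hw)
      by_cases ho : f w ∈ s.odd K
      · rw [if_pos ho]
        rw [mem_odd, Nat.odd_iff] at ho
        omega
      · rw [if_neg ho]
        rw [mem_odd, Nat.odd_iff] at ho
        omega
    · rw [if_neg hc]
      have h0 : s.cnt K c = 0 := by
        rw [cnt, card_eq_zero, filter_eq_empty_iff]
        intro x hx hcx
        exact hA c (fun v hv h => hc (mem_image.mpr ⟨v, hv, h⟩)) x hx hcx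
      have : c ∉ s.odd K := by rw [mem_odd, h0]; decide
      rw [h0, if_neg this]
  have hsum := Finset.sum_congr (rfl : (univ : Finset C) = univ) (fun c _ => hval c)
  rw [sum_add_distrib, sum_cnt, ← card_filter, ← sum_filter] at hsum
  have e1 : (univ.filter (fun c => c ∈ s.odd K)) = s.odd K := by ext; simp
  have e2 : (univ.filter (fun c => c ∈ D.image f)) = D.image f := by ext; simp
  rw [e1, e2, sum_const, card_image_of_injOn hf, hodd, smul_eq_mul, hcard] at hsum
  have e3 : ∑ v ∈ K, (s.tok v).card = ∑ v ∈ K, (s₀.tok v).card :=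
    sum_congr rfl (fun v _ => htok v)
  rw [e3] at hsum
  omega

/-- **Star extension.** -/
theorem exists_star (s₀ : Col H C) {K : Finset V}
    (hK : ∀ u ∈ K, ∀ v ∈ K, u ≠ v → H.Adj u v)
    (hpos : ∀ v ∈ K, 1 ≤ (s₀.tok v).card)
    (hcount : 2 * K.card ≤ (∑ v ∈ K, (s₀.tok v).card) + (s₀.odd K).card) :
    ∃ (s : Col H C) (f : V → C), Set.InjOn f K ∧ (∀ v ∈ K, f v ∈ s.tok v) ∧
      s.odd K = s₀.odd K ∧ ∀ v, (s.P v).card = (s₀.P v).card := by
  have hpart : ∀ n ≤ K.card, Part s₀ K n := by
    intro n
    induction n with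
    | zero => intro _; exact ⟨s₀, fun v => s₀.col v v, ∅, by simp, by simp, by simp, by simp, rfl, fun _ => rfl⟩
    | succ n ih => intro hn; exact part_step hK hpos hcount (by omega) (ih (by omega))
  obtain ⟨s, f, D, hDK, hcard, hf, hft, hodd, hP⟩ := hpart K.card le_rfl
  have : D = K := eq_of_subset_of_card_le hDK (by omega)
  subst this
  exact ⟨s, f, hf, hft, hodd, hP⟩

end Col

end

end Pool.Agent.Lib.P3f3a3b
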