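import Pool.Agent.Lib.P3f3a3b.RowX

/-!
(F1), (F2) for stuck states.  `c` is a colour of `N` (free at `x`, not in the class), `e` a colour
of the class used at `x`.
-/

set_option autoImplicit false
set_option linter.unusedSectionVars false
set_option linter.unusedVariables false

namespace Pool.Agent.Lib.P3f3a3b

open Finset
open scoped Classical

noncomputable section

variable {V C : Type*} [Fintype V] [Fintype C]

namespace MC

variable {s : MC V C} {x : V} {K : Finset V} {o : Bool}

/-- In a stuck state no closed set containing `x` has an even number of ends. -/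
theorem Stuck.not_even (hs : s.Star x K) (h : s.Stuck x K o) {c e : C} (hc : c ∈ s.tok x)
    (hcC : c ∉ s.cls x K o) (he : e ∉ s.tok x) (heC : e ∈ s.cls x K o) {S : Finset V}
    (hS : s.Closed c e S) (hx : x ∈ S) : ¬ Even (s.ends (insert x K) c e S) := by
  intro heven
  have hodd := odd_swap_of_even hS _ heven
  refine h (s.swap c e S hS) ⟨swap_same hS, by rw [hodd]⟩ ?_
  have hcls : (s.swap c e S hS).cls x K o = s.cls x K o := by unfold cls; rw [hodd]
  unfold free
  rw [hcls]
  have h1 : (s.swap c e S hS).tok x ∩ s.cls x K o = insert e (s.tok x ∩ s.cls x K o) := by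
    ext d
    rw [mem_inter, mem_insert, mem_inter, mem_tok_swap, if_pos hx]
    by_cases h1 : d = c
    · subst h1
      constructor
      · exact fun h2 => absurd h2.2 hcC
      · rintro (h2 | h2)
        · exact absurd (h2 ▸ hc) he
        · exact absurd h2.2 hcC
    · by_cases h2 : d = e
      · subst h2
        rw [Equiv.swap_apply_right]
        exact ⟨fun _ => Or.inl rfl, fun _ => ⟨hc, heC⟩⟩
      · rw [Equiv.swap_apply_of_ne_of_ne h1 h2]
        constructor
        · exact fun h3 => Or.inr h3
        · rintro (h3 | h3)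
          · exact absurd h3 h2
          · exact h3
  rw [h1, card_insert_of_notMem]
  intro h2
  exact he (mem_inter.mp h2).1

/-- (F1): the `(c,e)`-path of `x` has no other end in `Z = insert x K`. -/
theorem Stuck.ends_comp_x (hs : s.Star x K) (h : s.Stuck x K o) {c e : C} (hc : c ∈ s.tok x)
    (hcC : c ∉ s.cls x K o) (he : e ∉ s.tok x) (heC : e ∈ s.cls x K o) :
    s.ends (insert x K) c e (s.comp c e x) = 1 := by
  have hce : c ≠ e := fun h' => he (h' ▸ hc)
  have h1 := ends_comp_le_two (s := s) hce (insert x K) x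
  have h2 : 1 ≤ s.ends (insert x K) c e (s.comp c e x) :=
    ends_ge_one (mem_insert_self x K) (s.self_mem_comp c e x) (Or.inl hc)
  have h3 := h.not_even hs hc hcC he heC (s.comp_closed c e x) (s.self_mem_comp c e x)
  rw [Nat.even_iff] at h3
  omega

/-- (F1): every other `(c,e)`-component has an even number of ends in `Z`. -/
theorem Stuck.even_ends (hs : s.Star x K) (h : s.Stuck x K o) {c e : C} (hc : c ∈ s.tok x)
    (hcC : c ∉ s.cls x K o) (he : e ∉ s.tok x) (heC : e ∈ s.cls x K o) {v : V}
    (hv : v ∉ s.comp c e x) : Even (s.ends (insert x K) c e (s.comp c e v)) := by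
  have h1 := h.ends_comp_x hs hc hcC he heC
  have h2 := h.not_even hs hc hcC he heC
    ((s.comp_closed c e v).union (s.comp_closed c e x))
    (mem_union_right _ (s.self_mem_comp c e x))
  rw [ends_union (comp_disjoint hv), h1, Nat.even_iff] at h2
  rw [Nat.even_iff]
  omega

/-- (F2): a vertex of `K` with a token in `N` is not in `KC`. -/
theorem Stuck.not_KC (hs : s.Star x K) (h : s.Stuck x K o) {v : V} (hv : v ∈ K) {c : C}
    (hcv : c ∈ s.tok v) (hc : c ∈ s.tok x) (hcC : c ∉ s.cls x K o) : v ∉ s.KC x K o := by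
  intro hvKC
  unfold KC at hvKC
  rw [mem_filter] at hvKC
  obtain ⟨_, e, heC, hev⟩ := hvKC
  have he : e ∉ s.tok x := by rw [hs.notMem_tok_iff, hev]; exact hv
  have h1 := h.ends_comp_x hs hc hcC he heC
  have hxv : x ≠ v := fun e' => hs.hxK (e' ▸ hv)
  have hvS : v ∈ s.comp c e x := by
    have := (s.comp_closed c e x x (s.self_mem_comp c e x)).2
    rwa [hev] at this
  have h2 := ends_ge_two (mem_insert_self x K) (mem_insert_of_mem hv)
    (s.self_mem_comp c e x) hvS hxv (Or.inl hc) (Or.inl hcv : s.End c e v)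
  omega

/-- (F2): a vertex of `K` with a token in `C - M` is not in `KC`. -/
theorem Stuck.not_KC' (hs : s.Star x K) (h : s.Stuck x K o) (hN : 1 ≤ s.free x K (!o)) {v : V}
    (hv : v ∈ K) {e : C} (hev : e ∈ s.tok v) (he : e ∉ s.tok x) (heC : e ∈ s.cls x K o) :
    v ∉ s.KC x K o := by
  obtain ⟨c, hc⟩ := card_pos.mp hN
  rw [mem_inter] at hc
  obtain ⟨hcx, hcC'⟩ := hc
  have hcC : c ∉ s.cls x K o := by
    intro h'
    revert hcC'
    cases o <;> simp_all [cls]
  have h1 := h.ends_comp_x hs hcx hcC he heC
  have hxv : x ≠ v := fun e' => hs.hxK (e' ▸ hv)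
  have hvx : v ∉ s.comp c e x := by
    intro hvS
    have h2 := ends_ge_two (mem_insert_self x K) (mem_insert_of_mem hv)
      (s.self_mem_comp c e x) hvS hxv (Or.inl hcx) (Or.inr hev : s.End c e v)
    omega
  have heven := h.even_ends hs hcx hcC he heC hvx
  have hxS : x ∉ s.comp c e v := fun h' => hvx (mem_comp_symm h')
  have hcl := s.comp_closed c e v
  have hodd := odd_swap_of_even hcl _ heven
  have hrel : Rel x K s (s.swap c e (s.comp c e v) hcl) := ⟨swap_same hcl, by rw [hodd]⟩
  have hcls : (s.swap c e (s.comp c e v) hcl).cls x K o = s.cls x K o := by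
    unfold cls; rw [hodd]
  have htokx : (s.swap c e (s.comp c e v) hcl).tok x = s.tok x := by
    ext d
    rw [mem_tok_swap, if_neg hxS]
  have hst := h.of_rel hrel (by unfold free; rw [hcls, htokx])
  have hKC : (s.swap c e (s.comp c e v) hcl).KC x K o = s.KC x K o := by
    unfold KC
    rw [hcls]
    congr 1
    ext w
    simp only [swap_nb_of_notMem hcl _ hxS]
  rw [← hKC]
  refine hst.not_KC (hs.of_rel hrel) hv (c := c) ?_ (by rw [htokx]; exact hcx)
    (by rw [hcls]; exact hcC)
  rw [mem_tok_swap, if_pos (s.self_mem_comp c e v), Equiv.swap_apply_left]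
  exact hev

theorem card_KC (hs : s.Star x K) :
    (s.KC x K o).card + s.free x K o = (s.cls x K o).card := by
  have h1 := card_sdiff_add_card_inter (s.cls x K o) (s.tok x)
  have h2 : s.KC x K o = (s.cls x K o \ s.tok x).image (fun e => s.nb e x) := by
    ext w
    unfold KC
    rw [mem_filter, mem_image]
    constructor
    · rintro ⟨hw, e, heC, hew⟩
      refine ⟨e, mem_sdiff.mpr ⟨heC, ?_⟩, hew⟩
      rw [hs.notMem_tok_iff, hew]; exact hw
    · rintro ⟨e, he, rfl⟩
      rw [mem_sdiff] at he
      exact ⟨hs.nb_mem he.2, e, he.1, rfl⟩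
  have h3 : (s.KC x K o).card = (s.cls x K o \ s.tok x).card := by
    rw [h2]
    apply card_image_of_injOn
    intro a ha b hb hab
    have ha' := mem_sdiff.mp ha
    exact hs.uniq (hs.nb_mem ha'.2) rfl hab.symm
  unfold free
  rw [inter_comm (s.tok x)]
  omega

end MC

end

end Pool.Agent.Lib.P3f3a3b
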