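import Pool.Agent.Lib.P3f3a3b.UCount

/-!
Theorem U for states in normal form (exactly one surplus pair).
-/

set_option autoImplicit false
set_option linter.unusedSectionVars false
set_option linter.unusedVariables false

namespace Pool.Agent.Lib.P3f3a3b

open Finset
open scoped Classical

noncomputable section

variable {V C : Type*} [Fintype V] [Fintype C]

namespace MC

variable {s : MC V C} {x : V} {K : Finset V} {o : Bool}

/-- **Theorem U**, in normal form: `|K_Y| + 1 ≤ |K_O| + p`. -/
theorem Stuck.theoremU (hs : s.Star x K) (h : s.Stuck x K false) (hN : 2 ≤ s.free x K true)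
    {a : C} (hNF : s.NF x K a) {p : ℕ} (hp : ∀ v ∈ K, (s.tok v).card ≤ p) :
    (s.KC x K false).card + 1 ≤ (s.KC x K true).card + p := by
  obtain ⟨h1, h2, h3⟩ := hNF
  have hgeo : s.UGeo x K := ⟨hs.hxK, hs.hP, hs.hx, hs.hx0, hs.hK⟩
  have hstk : s.StkY x K := by
    refine ⟨hgeo, ?_, ?_⟩
    · intro s' hs' ho
      rw [← free_false, ← free_false]
      exact h s' ⟨hs', ho⟩
    · rw [← free_true]; exact hN
  have hn : s.UNorm x K a := ⟨h1, h2, h3⟩
  have hpos : 0 < (K.filter (fun v => a ∈ s.tok v)).card := by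
    unfold cnt at h2
    omega
  obtain ⟨i, hi⟩ := card_pos.mp hpos
  rw [mem_filter] at hi
  rw [KC_false, KC_true hs]
  exact hstk.thmU hn hi.1 hi.2 hp

end MC

end

end Pool.Agent.Lib.P3f3a3b
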