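import Pool.Agent.Lib.P3f3a3b.ZBound
import Pool.Agent.Lib.P3f3a3b.ThmU
import Pool.Agent.Lib.P3f3a3b.Norm

/-!
The bounds for states stuck for the U-step.
-/

set_option autoImplicit false
set_option linter.unusedSectionVars false
set_option linter.unusedVariables false

namespace Pool.Agent.Lib.P3f3a3b

open Finset
open scoped Classical

noncomputable section

variable {V C : Type*} [Fintype V] [Fintype C]

namespace MC

variable {s : MC V C} {x : V} {K : Finset V} {o : Bool}

theorem NF.mem_odd {a : C} (hs : s.Star x K) (h : s.NF x K a) : a ∈ s.odd (insert x K) := by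
  rw [MC.mem_odd, cnt_insert hs.hxK, if_pos h.1, h.2.1]
  decide

/-- (PL) for the U-step: `C = Y`, `N = m(x) ∩ O`; there is a surplus pair of tokens. -/
theorem stuck_U_PL (hs : s.Star x K)
    (h : s.Stuck x K false) (hN : 2 ≤ s.free x K true)
    (hsur : s.free x K false + ((s.odd (insert x K)).card - s.free x K true) + 2 ≤
      ∑ v ∈ K, (s.tok v).card) :
    (s.odd (insert x K))ᶜ.card ≤ 2 * s.free x K false := by
  obtain ⟨p, hp⟩ : ∃ p : ℕ, ∀ v ∈ K, (s.tok v).card ≤ p :=
    ⟨Fintype.card C, fun v _ => card_le_univ _⟩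
  obtain ⟨s', a, hs', h', hNF, e1, e2, e3, _⟩ := exists_NF hs h hN hsur hp
  have hpos : 0 < s'.cnt K a := by rw [hNF.2.1]; norm_num
  obtain ⟨i, hi⟩ := card_pos.mp hpos
  rw [mem_filter] at hi
  have haC : a ∉ s'.cls x K false := by
    unfold cls
    simpa using NF.mem_odd hs' hNF
  have h1 := h'.card_KC_le hs' (by simpa [e1] using hN) hi.1 hi.2 hNF.1 haC
  have h2 := card_KC (o := false) hs'
  have h3 : (s'.cls x K false).card = (s'.odd (insert x K))ᶜ.card := by
    unfold cls; simp
  have h4 : (s'.odd (insert x K))ᶜ.card = (s.odd (insert x K))ᶜ.card := by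
    rw [card_compl, card_compl, e3]
  omega

/-- **Theorem U**: `|K_Y| + 1 ≤ |K_O| + p` if there is a surplus pair of tokens. -/
theorem stuck_U_thm (hs : s.Star x K)
    (h : s.Stuck x K false) (hN : 2 ≤ s.free x K true)
    (hsur : s.free x K false + ((s.odd (insert x K)).card - s.free x K true) + 2 ≤
      ∑ v ∈ K, (s.tok v).card) {p : ℕ} (hp : ∀ v ∈ K, (s.tok v).card ≤ p) :
    (s.odd (insert x K))ᶜ.card + s.free x K true + 1 ≤
      (s.odd (insert x K)).card + s.free x K false + p := by
  obtain ⟨s', a, hs', h', hNF, e1, e2, e3, hp'⟩ := exists_NF hs h hN hsur hp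
  have h1 := h'.theoremU hs' (by omega) hNF hp'
  have h2 := card_KC (o := false) hs'
  have h2' := card_KC (o := true) hs'
  have h3 : (s'.cls x K false).card = (s'.odd (insert x K))ᶜ.card := by
    unfold cls; simp
  have h3' : (s'.cls x K true).card = (s'.odd (insert x K)).card := by
    unfold cls; simp
  have h4 : (s'.odd (insert x K))ᶜ.card = (s.odd (insert x K))ᶜ.card := by
    rw [card_compl, card_compl, e3]
  omega

end MC

end

end Pool.Agent.Lib.P3f3a3b
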