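import Pool.Agent.Lib.P3f3a3b.MCBasic

/-!
The setting of the stuck states: `x` is joined by simple edges exactly to the clique `K`;
`s.odd (insert x K)` is the class `O`, its complement the class `Y`.
-/

set_option autoImplicit false
set_option linter.unusedSectionVars false
set_option linter.unusedVariables false

namespace Pool.Agent.Lib.P3f3a3b

open Finset
open scoped Classical

noncomputable section

variable {V C : Type*} [Fintype V] [Fintype C]

namespace MC

/-- The standing hypotheses: `x` is joined exactly to the vertices of `K`, by simple edges; any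
two vertices of `K` are joined (perhaps by several edges). -/
structure Star (s : MC V C) (x : V) (K : Finset V) : Prop where
  hxK : x ∉ K
  hK : ∀ a ∈ K, ∀ b ∈ K, a ≠ b → 1 ≤ s.mult a b
  hx : ∀ w ∈ K, s.mult x w = 1
  hx0 : ∀ w, w ∉ K → w ≠ x → s.mult x w = 0
  hP : s.P x = ∅

/-- The colour class: `cls true` are the odd colours (class `O`), `cls false` the even ones
(class `Y`). -/
def cls (s : MC V C) (x : V) (K : Finset V) (o : Bool) : Finset C :=
  if o then s.odd (insert x K) else (s.odd (insert x K))ᶜ

/-- The number of free colours of `x` in the class. -/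
def free (s : MC V C) (x : V) (K : Finset V) (o : Bool) : ℕ := (s.tok x ∩ s.cls x K o).card

/-- `s'` arises from `s` and the class sizes agree. -/
def Rel (x : V) (K : Finset V) (s s' : MC V C) : Prop :=
  Same s s' ∧ (s'.odd (insert x K)).card = (s.odd (insert x K)).card

/-- No related state has exactly one more free colour of `x` in the class. -/
def Stuck (s : MC V C) (x : V) (K : Finset V) (o : Bool) : Prop :=
  ∀ s', Rel x K s s' → s'.free x K o ≠ s.free x K o + 1

/-- The vertices of `K` whose edge to `x` has a colour of the class. -/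
def KC (s : MC V C) (x : V) (K : Finset V) (o : Bool) : Finset V :=
  K.filter (fun w => ∃ e ∈ s.cls x K o, s.nb e x = w)

/-- The free colours of `x` in the class which lead from `i` to `KC`. -/
def DD (s : MC V C) (x : V) (K : Finset V) (o : Bool) (i : V) : Finset C :=
  (s.tok x ∩ s.cls x K o).filter (fun g => s.nb g i ∈ s.KC x K o)

/-- Normal form for the U-step: exactly one surplus pair, at the free odd colour `a`. -/
def NF (s : MC V C) (x : V) (K : Finset V) (a : C) : Prop :=
  a ∈ s.tok x ∧ s.cnt K a = 2 ∧ ∀ c, c ≠ a → s.cnt K c ≤ 1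

theorem Rel.refl (x : V) (K : Finset V) (s : MC V C) : Rel x K s s := ⟨Same.refl s, rfl⟩

theorem Rel.trans {x : V} {K : Finset V} {s s' s'' : MC V C} (h : Rel x K s s')
    (h' : Rel x K s' s'') : Rel x K s s'' := ⟨h.1.trans h'.1, h'.2.trans h.2⟩

theorem Rel.symm {x : V} {K : Finset V} {s s' : MC V C} (h : Rel x K s s') : Rel x K s' s :=
  ⟨h.1.symm, h.2.symm⟩

theorem Stuck.of_rel {s s' : MC V C} {x : V} {K : Finset V} {o : Bool} (h : s.Stuck x K o)
    (hr : Rel x K s s') (hf : s'.free x K o = s.free x K o) : s'.Stuck x K o := by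
  intro s'' h'
  rw [hf]
  exact h s'' (hr.trans h')

theorem Star.of_rel {s s' : MC V C} {x : V} {K : Finset V} (h : s.Star x K)
    (hr : Rel x K s s') : s'.Star x K := by
  refine ⟨h.hxK, fun a ha b hb hab => ?_, fun w hw => ?_, fun w hw hwx => ?_, ?_⟩
  · rw [hr.1.1 a b hab]; exact h.hK a ha b hb hab
  · rw [hr.1.1 x w (fun e => h.hxK (e ▸ hw))]; exact h.hx w hw
  · rw [hr.1.1 x w hwx.symm]; exact h.hx0 w hw hwx
  · rw [← card_eq_zero, hr.1.2 x, h.hP, card_empty]

end MC

end

end Pool.Agent.Lib.P3f3a3b
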