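import Pool.Agent.Lib.P3f3a3b.Row

/-!
The row switch: a duplicated colour can be freed from the partial star assignment `f`.
-/

set_option autoImplicit false
set_option linter.unusedSectionVars false
set_option linter.unusedVariables false

namespace Pool.Agent.Lib.P3f3a3b

open Finset
open scoped Classical

noncomputable section

variable {V C : Type*} [Fintype V] [Fintype C]
variable {H : SimpleGraph V}

namespace Col

theorem cnt_eq_sum (s : Col H C) (K : Finset V) (c : C) :
    s.cnt K c = ∑ v ∈ K, if c ∈ s.tok v then 1 else 0 := by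
  rw [cnt, card_filter]

/-- The row switch.  `K` is a clique, `f` is a partial assignment of distinct tokens to the
vertices of `D ⊆ K`; `x ∈ K` has a token `c` which is assigned to another vertex of `D`.  Then
the colouring can be changed so that `c` is not assigned any more. -/
theorem row_switch (s : Col H C) {K : Finset V}
    (hK : ∀ u ∈ K, ∀ v ∈ K, u ≠ v → H.Adj u v) {D : Finset V} (hDK : D ⊆ K) {f : V → C}
    (hf : Set.InjOn f D) (hft : ∀ v ∈ D, f v ∈ s.tok v) {x : V} (hx : x ∈ K) {c : C}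
    (hc : c ∈ s.tok x) (hex : ∃ w ∈ D, w ≠ x ∧ f w = c) :
    ∃ (s' : Col H C) (f' : V → C), Set.InjOn f' D ∧ (∀ v ∈ D, f' v ∈ s'.tok v) ∧
      (∀ v ∈ D, f' v ≠ c) ∧ s'.P = s.P ∧ s'.odd K = s.odd K ∧
      (∀ v, v ∉ D → v ≠ x → s'.tok v = s.tok v) ∧
      (∀ v ∈ D, v ≠ x → ∀ c', c' ≠ f v → c' ∈ s.tok v → c' ∈ s'.tok v) ∧
      (x ∈ D → f' x = f x) ∧
      (∃ cl, s'.tok x = insert cl ((s.tok x).erase c) ∧ cl ∉ s.tok x ∧ (∀ v ∈ D, f v ≠ cl) ∧
        ∀ c', (∃ v ∈ D, f' v = c') ↔ (c' = cl ∨ (c' ≠ c ∧ ∃ v ∈ D, f v = c'))) := by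
  set W := D.erase x with hW
  have hWD : ∀ w, w ∈ W ↔ w ≠ x ∧ w ∈ D := by intro w; rw [hW, mem_erase]
  have hadj : ∀ w ∈ W, H.Adj x w := fun w hw =>
    hK x hx w (hDK ((hWD w).mp hw).2) ((hWD w).mp hw).1.symm
  set h : V → C := fun w => s.col x w with hh
  have hg1 : Set.InjOn f W := fun a ha b hb hab =>
    hf ((hWD a).mp ha).2 ((hWD b).mp hb).2 hab
  have hh1 : Set.InjOn h W := fun a ha b hb hab => s.proper x a b (hadj a ha) (hadj b hb) hab
  have hc1 : ∀ w ∈ W, h w ≠ c := fun w hw => (mem_tok.mp hc).2 w (hadj w hw)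
  have hex1 : ∃ w ∈ W, f w = c := by
    obtain ⟨w, hw, hwx, hwc⟩ := hex
    exact ⟨w, (hWD w).mpr ⟨hwx, hw⟩, hwc⟩
  obtain ⟨W', hW', cl, ⟨wl, hwl, hwl'⟩, h2, h3, h4, h5, h6, h7⟩ :=
    path_lemma f h W.card W c rfl hg1 hh1 hc1 hex1
  have hclc : cl ≠ c := by rw [← hwl']; exact hc1 wl hwl
  have hxW' : x ∉ W' := fun h => ((hWD x).mp (hW' h)).1 rfl
  have hxW : x ∉ W := fun h => ((hWD x).mp h).1 rfl
  have hcl_not : cl ∉ s.tok x := by
    intro h; exact (mem_tok.mp h).2 wl (hadj wl hwl) hwl'
  have hclP : cl ∉ s.P x := by rw [← hwl']; exact s.hP x wl (hadj wl hwl)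
  have hnr : ∀ w ∈ W, s.newrow x W' f w = if w ∈ W' then f w else h w := fun w hw => rfl
  have hnr' : ∀ w, w ∉ W → s.newrow x W' f w = s.col x w := by
    intro w hw
    rw [newrow, if_neg (fun h => hw (hW' h))]
  have hnrW : ∀ w ∈ W, s.newrow x W' f w = c ∨ ∃ w' ∈ W, s.col x w' = s.newrow x W' f w := by
    intro w hw
    rcases (h5 _).mp ⟨w, hw, (hnr w hw).symm⟩ with h' | ⟨_, w', hw', h''⟩
    · exact Or.inl h'
    · exact Or.inr ⟨w', hw', h''⟩
  have hinj : ∀ u v, H.Adj x u → H.Adj x v → s.newrow x W' f u = s.newrow x W' f v → u = v := by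
    have cross : ∀ u v, u ∈ W → v ∉ W → H.Adj x v →
        s.newrow x W' f u = s.newrow x W' f v → False := by
      intro u v hu hv hxv huv
      rw [hnr' v hv] at huv
      rcases hnrW u hu with h' | ⟨w', hw', h''⟩
      · rw [h'] at huv
        exact (mem_tok.mp hc).2 v hxv huv.symm
      · rw [huv] at h''
        have := s.proper x w' v (hadj w' hw') hxv h''
        rw [this] at hw'; exact hv hw'
    intro u v hu hv huv
    by_cases huW : u ∈ W
    · by_cases hvW : v ∈ W
      · exact h4 huW hvW huv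
      · exact (cross u v huW hvW hv huv).elim
    · by_cases hvW : v ∈ W
      · exact (cross v u hvW huW hu huv.symm).elim
      · rw [hnr' u huW, hnr' v hvW] at huv
        exact s.proper x u v hu hv huv
  have hPP : ∀ u, H.Adj x u → s.newrow x W' f u ∉ s.P x := by
    intro u hu
    by_cases huW : u ∈ W
    · rcases hnrW u huW with h' | ⟨w', hw', h''⟩
      · rw [h']; exact (mem_tok.mp hc).1
      · rw [← h'']; exact s.hP x w' (hadj w' hw')
    · rw [hnr' u huW]; exact s.hP x u hu
  have hW'adj : ∀ w ∈ W', H.Adj x w := fun w hw => hadj w (hW' hw)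
  have hW'tok : ∀ w ∈ W', f w ∈ s.tok w := fun w hw => hft w ((hWD w).mp (hW' hw)).2
  set s' : Col H C := s.recolor x W' f hW'adj hW'tok hinj hPP with hs'
  set f' : V → C := fun w => if w ∈ W' then h w else f w with hf'
  have htx : s'.tok x = insert cl ((s.tok x).erase c) := by
    ext c'
    rw [hs', mem_tok_recolor_self, mem_insert, mem_erase, mem_tok]
    constructor
    · rintro ⟨h1, h8⟩
      by_cases hcc : c' = cl
      · exact Or.inl hcc
      · right
        refine ⟨?_, h1, fun w hw h9 => ?_⟩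
        · intro hcc'
          obtain ⟨w, hw, hwc⟩ := (h5 c').mpr (Or.inl hcc')
          exact h8 w (hadj w hw) hwc
        · by_cases hwW : w ∈ W
          · obtain ⟨w', hw', hwc⟩ := (h5 c').mpr (Or.inr ⟨hcc, w, hwW, h9⟩)
            exact h8 w' (hadj w' hw') hwc
          · apply h8 w hw
            rw [hnr' w hwW, h9]
    · rintro (h1 | ⟨h1, h8, h9⟩)
      · subst h1
        refine ⟨hclP, fun w hw h10 => ?_⟩
        by_cases hwW : w ∈ W
        · rcases (h5 _).mp ⟨w, hwW, (hnr w hwW).symm⟩ with h' | ⟨h', _⟩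
          · exact hclc (by rw [← h10, h'])
          · exact h' h10
        · rw [hnr' w hwW, ← hwl'] at h10
          have := s.proper x w wl hw (hadj wl hwl) h10
          rw [this] at hwW; exact hwW hwl
      · refine ⟨h8, fun w hw h10 => ?_⟩
        by_cases hwW : w ∈ W
        · rcases (h5 _).mp ⟨w, hwW, (hnr w hwW).symm⟩ with h' | ⟨_, w', hw', h''⟩
          · exact h1 (by rw [← h10, h'])
          · exact h9 w' (hadj w' hw') (by rw [← h10]; exact h'')
        · rw [hnr' w hwW] at h10
          exact h9 w hw h10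
  have htW : ∀ w ∈ W', s'.tok w = insert (h w) ((s.tok w).erase (f w)) := by
    intro w hw
    rw [hs', tok_recolor_W hw]
  have hto : ∀ w, w ≠ x → w ∉ W' → s'.tok w = s.tok w := by
    intro w hwx hwW
    rw [hs', tok_recolor_other hwx hwW]
  have hfx : x ∈ D → f' x = f x := fun _ => by rw [hf']; simp only [if_neg hxW']
  refine ⟨s', f', ?_, ?_, ?_, rfl, ?_, ?_, ?_, hfx, cl, htx, hcl_not, ?_, ?_⟩
  · -- injectivity of f'
    have cross : ∀ b ∈ W, x ∈ D → f x = f' b → False := by
      intro b hb hxD hxb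
      rcases (h6 _).mp ⟨b, hb, rfl⟩ with h' | ⟨_, w, hw, h''⟩
      · have h8 : f x = cl := by rw [hxb]; exact h'
        exact hcl_not (h8 ▸ hft x hxD)
      · have h8 : f x = f w := by rw [hxb]; exact h''.symm
        have := hf hxD ((hWD w).mp hw).2 h8
        rw [← this] at hw; exact hxW hw
    intro a ha b hb hab
    by_cases hax : a = x
    · by_cases hbx : b = x
      · rw [hax, hbx]
      · subst hax
        rw [hfx ha] at hab
        exact (cross b ((hWD b).mpr ⟨hbx, hb⟩) ha hab).elim
    · by_cases hbx : b = x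
      · subst hbx
        rw [hfx hb] at hab
        exact (cross a ((hWD a).mpr ⟨hax, ha⟩) hb hab.symm).elim
      · exact h3 ((hWD a).mpr ⟨hax, ha⟩) ((hWD b).mpr ⟨hbx, hb⟩) hab
  · intro v hv
    by_cases hvx : v = x
    · subst hvx
      rw [hfx hv, htx, mem_insert, mem_erase]
      right
      refine ⟨?_, hft v hv⟩
      obtain ⟨w, hw, hwx, hwc⟩ := hex
      intro h'
      exact hwx (hf hw hv (by rw [hwc, h']))
    · by_cases hvW : v ∈ W'
      · rw [htW v hvW]
        have : f' v = h v := by rw [hf']; simp only [if_pos hvW]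
        rw [this]; exact mem_insert_self _ _
      · rw [hto v hvx hvW]
        have : f' v = f v := by rw [hf']; simp only [if_neg hvW]
        rw [this]; exact hft v hv
  · intro v hv
    by_cases hvx : v = x
    · subst hvx
      rw [hfx hv]
      obtain ⟨w, hw, hwx, hwc⟩ := hex
      intro h'
      exact hwx (hf hw hv (by rw [hwc, h']))
    · rcases (h6 _).mp ⟨v, (hWD v).mpr ⟨hvx, hv⟩, rfl⟩ with h' | ⟨h', _⟩
      · intro h''
        exact hclc (by rw [← h', ← h''])
      · exact h'
  · -- parity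
    ext c'
    rw [mem_odd, mem_odd, cnt_eq_sum, cnt_eq_sum]
    have hpt : ∀ v ∈ K, (if c' ∈ s'.tok v then 1 else 0) +
        ((if v = x then (if c' = c then 1 else 0) else 0) +
          (if v ∈ W' then (if f v = c' then 1 else 0) else 0)) =
        (if c' ∈ s.tok v then 1 else 0) +
        ((if v = x then (if c' = cl then 1 else 0) else 0) +
          (if v ∈ W' then (if h v = c' then 1 else 0) else 0)) := by
      intro v hv
      by_cases hvx : v = x
      · subst hvx
        rw [if_pos rfl, if_pos rfl, if_neg hxW', if_neg hxW', htx]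
        by_cases h8 : c' = cl
        · subst h8
          have : c' ≠ c := hclc
          simp [hcl_not, this]
        · by_cases h9 : c' = c
          · subst h9; simp [hc, hclc.symm]
          · simp [h8, h9]
      · rw [if_neg hvx, if_neg hvx]
        by_cases hvW : v ∈ W'
        · rw [if_pos hvW, if_pos hvW, htW v hvW]
          have e1 : f v ∈ s.tok v := hW'tok v hvW
          have e2 : h v ∉ s.tok v := by
            intro h8
            exact (mem_tok.mp h8).2 x (hW'adj v hvW).symm (s.symm x v (hW'adj v hvW)).symm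
          by_cases h8 : f v = c'
          · subst h8
            have : h v ≠ f v := fun h9 => e2 (h9 ▸ e1)
            simp [e1, this, this.symm]
          · by_cases h9 : h v = c'
            · subst h9; simp [h8, e2]
            · simp [h8, h9, Ne.symm h8, Ne.symm h9]
        · rw [if_neg hvW, if_neg hvW, hto v hvx hvW]
    have hsum := Finset.sum_congr rfl hpt
    rw [sum_add_distrib, sum_add_distrib, sum_add_distrib, sum_add_distrib] at hsum
    rw [Finset.sum_ite_eq' K x, Finset.sum_ite_eq' K x, if_pos hx, if_pos hx] at hsum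
    have hW'K : W' ⊆ K := fun w hw => hDK ((hWD w).mp (hW' hw)).2
    have e3 : ∀ k : V → C, (∑ v ∈ K, if v ∈ W' then (if k v = c' then 1 else 0) else 0) =
        (W'.filter (fun w => k w = c')).card := by
      intro k
      rw [← sum_filter, card_filter]
      apply sum_congr ?_ (fun _ _ => rfl)
      ext v; rw [mem_filter]
      exact ⟨fun h => h.2, fun h => ⟨hW'K h, h⟩⟩
    rw [e3, e3] at hsum
    have h8 := h7 c'
    rw [Nat.odd_iff, Nat.odd_iff]
    by_cases h9 : c' = cl
    · have h10 : ¬ c' = c := by rw [h9]; exact hclc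
      rw [if_pos h9, if_neg h10] at hsum h8
      omega
    · by_cases h10 : c' = c
      · rw [if_neg h9, if_pos h10] at hsum h8
        omega
      · rw [if_neg h9, if_neg h10] at hsum h8
        omega
  · intro v hv hvx
    exact hto v hvx (fun h => hv ((hWD v).mp (hW' h)).2)
  · intro v hv hvx c' hc' hct
    by_cases hvW : v ∈ W'
    · rw [htW v hvW, mem_insert, mem_erase]
      exact Or.inr ⟨hc', hct⟩
    · rw [hto v hvx hvW]; exact hct
  · intro v hv hvc
    by_cases hvx : v = x
    · subst hvx; exact hcl_not (hvc ▸ hft v hv)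
    · exact h2 v ((hWD v).mpr ⟨hvx, hv⟩) hvc
  · intro c'
    constructor
    · rintro ⟨v, hv, hvc⟩
      by_cases hvx : v = x
      · subst hvx
        rw [hfx hv] at hvc
        obtain ⟨w, hw, hwx, hwc⟩ := hex
        right
        refine ⟨?_, v, hv, hvc⟩
        intro h8
        exact hwx (hf hw hv (by rw [hwc, hvc, h8]))
      · rcases (h6 c').mp ⟨v, (hWD v).mpr ⟨hvx, hv⟩, hvc⟩ with h' | ⟨h', w, hw, h''⟩
        · exact Or.inl h'
        · exact Or.inr ⟨h', w, ((hWD w).mp hw).2, h''⟩
    · rintro (h' | ⟨h', w, hw, hwc⟩)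
      · obtain ⟨w, hw, hwc⟩ := (h6 c').mpr (Or.inl h')
        exact ⟨w, ((hWD w).mp hw).2, hwc⟩
      · by_cases hwx : w = x
        · exact ⟨w, hw, by subst hwx; rw [hfx hw, hwc]⟩
        · obtain ⟨w', hw', hwc'⟩ := (h6 c').mpr (Or.inr ⟨h', w, (hWD w).mpr ⟨hwx, hw⟩, hwc⟩)
          exact ⟨w', ((hWD w').mp hw').2, hwc'⟩

end Col

end

end Pool.Agent.Lib.P3f3a3b
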