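import Pool.Agent.Lib.P3f3a3b.UMoves

/-!
Theorem U, part 3: chains, shifting and reversal.
-/

set_option autoImplicit false
set_option linter.unusedSectionVars false
set_option linter.unusedVariables false

namespace Pool.Agent.Lib.P3f3a3b

open Finset
open scoped Classical

noncomputable section

variable {V C : Type*} [Fintype V] [Fintype C]

namespace MC

variable {s s' : MC V C} {x : V} {K : Finset V}

/-- The vertex `v` misses the colour of the edge `xu`. -/
def lnk (s : MC V C) (x : V) (u v : V) : Prop := ∃ c, s.nb c x = u ∧ c ∈ s.tok v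

/-- `s'` arises from `s` without touching the colours of the even class and the colours of `N`
not used as tokens on `K`. -/
structure URel (s s' : MC V C) (x : V) (K : Finset V) : Prop where
  same : Same s s'
  oz : s'.OZ x K = s.OZ x K
  ev : ∀ d, d ∉ s.OZ x K → (∀ u, s'.nb d u = s.nb d u) ∧ (∀ u, d ∈ s'.tok u ↔ d ∈ s.tok u)
  n0 : ∀ d, d ∈ s.NN x K → s.cnt K d = 0 → d ∈ s'.NN x K ∧ s'.cnt K d = 0 ∧
    (∀ u, s'.nb d u = s.nb d u) ∧ (∀ u, d ∈ s'.tok u ↔ d ∈ s.tok u)

theorem URel.refl (s : MC V C) (x : V) (K : Finset V) : URel s s x K :=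
  ⟨Same.refl s, rfl, fun _ _ => ⟨fun _ => rfl, fun _ => Iff.rfl⟩,
    fun _ h1 h2 => ⟨h1, h2, fun _ => rfl, fun _ => Iff.rfl⟩⟩

theorem URel.trans {s s' s'' : MC V C} (h : URel s s' x K) (h' : URel s' s'' x K) :
    URel s s'' x K where
  same := h.same.trans h'.same
  oz := h'.oz.trans h.oz
  ev d hd := by
    obtain ⟨h1, h2⟩ := h.ev d hd
    obtain ⟨h3, h4⟩ := h'.ev d (by rw [h.oz]; exact hd)
    exact ⟨fun u => (h3 u).trans (h1 u), fun u => (h4 u).trans (h2 u)⟩
  n0 d hd hd0 := by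
    obtain ⟨h1, h2, h3, h4⟩ := h.n0 d hd hd0
    obtain ⟨h5, h6, h7, h8⟩ := h'.n0 d h1 h2
    exact ⟨h5, h6, fun u => (h7 u).trans (h3 u), fun u => (h8 u).trans (h4 u)⟩

theorem URel.MM_eq (h : URel s s' x K) : s'.MM x K = s.MM x K := by
  ext d
  unfold MM
  rw [mem_sdiff, mem_sdiff, h.oz]
  constructor
  · rintro ⟨h1, h2⟩
    exact ⟨((h.ev d h2).2 x).mp h1, h2⟩
  · rintro ⟨h1, h2⟩
    exact ⟨((h.ev d h2).2 x).mpr h1, h2⟩

theorem URel.KY_eq (h : URel s s' x K) : s'.KY x K = s.KY x K := by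
  unfold KY
  apply filter_congr
  intro w hw
  rw [h.oz]
  constructor
  · rintro ⟨c, h1, h2⟩
    exact ⟨c, h1, by rw [← (h.ev c h1).1 x]; exact h2⟩
  · rintro ⟨c, h1, h2⟩
    exact ⟨c, h1, by rw [(h.ev c h1).1 x]; exact h2⟩

theorem URel.stk (h : URel s s' x K) (hs : s.StkY x K) : s'.StkY x K :=
  hs.of h.same h.oz (by rw [h.MM_eq])

/-- Two chains with a common free colour `γ`. -/
structure BiCh (s : MC V C) (x : V) (K : Finset V) (γ : C) (L1 L2 : List V) : Prop where
  stk : s.StkY x K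
  norm : s.UNorm x K γ
  nd : (L1 ++ L2).Nodup
  sub1 : ∀ u ∈ L1, u ∈ K
  sub2 : ∀ u ∈ L2, u ∈ K
  odd1 : ∀ u ∈ L1, ∀ c, s.nb c x = u → c ∈ s.OZ x K
  odd2 : ∀ u ∈ L2, ∀ c, s.nb c x = u → c ∈ s.OZ x K
  hd1 : ∀ u ∈ L1.head?, γ ∈ s.tok u
  hd2 : ∀ u ∈ L2.head?, γ ∈ s.tok u
  c1 : L1.IsChain (s.lnk x)
  c2 : L2.IsChain (s.lnk x)

theorem BiCh.symm {γ : C} {L1 L2 : List V} (h : s.BiCh x K γ L1 L2) : s.BiCh x K γ L2 L1 :=
  ⟨h.stk, h.norm, (List.perm_append_comm.nodup_iff).mp h.nd, h.sub2, h.sub1, h.odd2, h.odd1,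
    h.hd2, h.hd1, h.c2, h.c1⟩

theorem shift {γ : C} {L1 L2 : List V} {a : V} (h : s.BiCh x K γ L1 (a :: L2)) :
    ∃ s' c, BiCh s' x K c (a :: L1) L2 ∧ URel s s' x K := by
  have hg := h.stk.geo
  have haK : a ∈ K := h.sub2 a List.mem_cons_self
  have hxa : x ≠ a := fun e => hg.hx (e ▸ haK)
  have hnd := h.nd
  have hnd' : (a :: (L1 ++ L2)).Nodup := (List.perm_middle.nodup_iff).mp hnd
  have haL : a ∉ L1 ++ L2 := (List.nodup_cons.mp hnd').1
  have ha1 : a ∉ L1 := fun h' => haL (List.mem_append_left _ h')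
  have ha2 : a ∉ L2 := fun h' => haL (List.mem_append_right _ h')
  have hγa : γ ∈ s.tok a := h.hd2 a (by simp)
  have hγx : γ ∈ s.tok x := h.norm.tx
  obtain ⟨c, hc⟩ := hg.ex haK
  have hcO : c ∈ s.OZ x K := h.odd2 a List.mem_cons_self c hc
  have hγO : γ ∈ s.OZ x K := h.norm.mem_OZ hg
  have hcx : c ∉ s.tok x := fun h' => by rw [nb_of_tok h'] at hc; exact hxa hc
  have hγc : γ ≠ c := fun e => hcx (e ▸ hγx)
  obtain ⟨s', R⟩ := rmove hg haK hγx hγa hc
  have hRel : URel s s' x K := by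
    refine ⟨R.same, R.oz, ?_, ?_⟩
    · intro d hd
      have h1 : d ≠ γ := fun e => hd (e ▸ hγO)
      have h2 : d ≠ c := fun e => hd (e ▸ hcO)
      exact ⟨R.nb_off d h1 h2, R.tok_off d h1 h2⟩
    · intro d hd hd0
      have h1 : d ≠ γ := fun e => by
        rw [e, h.norm.two] at hd0; omega
      have h2 : d ≠ c := fun e => hcx (e ▸ (mem_inter.mp hd).1)
      refine ⟨?_, ?_, R.nb_off d h1 h2, R.tok_off d h1 h2⟩
      · unfold NN at hd ⊢
        rw [mem_inter] at hd ⊢
        rw [R.oz]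
        exact ⟨(R.tok_off d h1 h2 x).mpr hd.1, hd.2⟩
      · rw [cnt_congr (fun u _ => R.tok_off d h1 h2 u)]; exact hd0
  have hkey : ∀ u, u ≠ a → u ∈ K → ∀ d, s'.nb d x = u ↔ s.nb d x = u := by
    intro u hua huK d
    have hux : u ≠ x := fun e => hg.hx (e ▸ huK)
    by_cases h1 : d = γ
    · rw [h1, R.gx, nb_of_tok hγx]
      exact ⟨fun e => absurd e.symm hua, fun e => absurd e.symm hux⟩
    · by_cases h2 : d = c
      · rw [h2, R.cx, hc]
        exact ⟨fun e => absurd e.symm hux, fun e => absurd e.symm hua⟩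
      · rw [R.nb_off d h1 h2]
  have htok : ∀ u, u ≠ a → u ∈ K → s'.tok u = s.tok u := by
    intro u hua huK
    exact R.tok_off' u hua (fun e => hg.hx (e ▸ huK))
  have hlnk : ∀ u v, u ≠ a → v ≠ a → u ∈ K → v ∈ K → s.lnk x u v → s'.lnk x u v := by
    rintro u v hu hv huK hvK ⟨d, h1, h2⟩
    exact ⟨d, (hkey u hu huK d).mpr h1, by rw [htok v hv hvK]; exact h2⟩
  refine ⟨s', c, ⟨hRel.stk h.stk, ?_, hnd', ?_, ?_, ?_, ?_, ?_, ?_, ?_, ?_⟩, hRel⟩
  · refine ⟨R.tcx, ?_, ?_⟩
    · rw [R.cc, h.norm.odd1 hg hcO hcx]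
    · intro d hd
      by_cases h1 : d = γ
      · have := R.cγ
        rw [h.norm.two] at this
        rw [h1]; omega
      · rw [cnt_congr (fun u _ => R.tok_off d h1 hd u)]
        exact h.norm.one d h1
  · intro u hu
    rcases List.mem_cons.mp hu with rfl | hu
    · exact haK
    · exact h.sub1 u hu
  · intro u hu; exact h.sub2 u (List.mem_cons_of_mem _ hu)
  · intro u hu d hd
    rw [R.oz]
    rcases List.mem_cons.mp hu with rfl | hu
    · have : d = γ := (hg.same R.same).uniq haK hd R.gx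
      rw [this]; exact hγO
    · have hua : u ≠ a := fun e => ha1 (e ▸ hu)
      exact h.odd1 u hu d ((hkey u hua (h.sub1 u hu) d).mp hd)
  · intro u hu d hd
    rw [R.oz]
    have hua : u ≠ a := fun e => ha2 (e ▸ hu)
    exact h.odd2 u (List.mem_cons_of_mem _ hu) d
      ((hkey u hua (h.sub2 u (List.mem_cons_of_mem _ hu)) d).mp hd)
  · intro u hu
    simp only [List.head?_cons, Option.mem_def, Option.some.injEq] at hu
    rw [← hu]; exact R.tca
  · intro u hu
    cases L2 with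
    | nil => simp at hu
    | cons b L2 =>
      simp only [List.head?_cons, Option.mem_def, Option.some.injEq] at hu
      subst hu
      have hba : b ≠ a := fun e => ha2 (e ▸ List.mem_cons_self)
      have hbK : b ∈ K := h.sub2 b (by simp)
      obtain ⟨d, h1, h2⟩ := (List.isChain_cons_cons.mp h.c2).1
      have : d = c := hg.uniq haK h1 hc
      rw [htok b hba hbK, ← this]; exact h2
  · cases L1 with
    | nil => simp
    | cons b L1 =>
      have hba : b ≠ a := fun e => ha1 (e ▸ List.mem_cons_self)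
      have hbK : b ∈ K := h.sub1 b (by simp)
      rw [List.isChain_cons_cons]
      refine ⟨⟨γ, R.gx, ?_⟩, ?_⟩
      · rw [htok b hba hbK]; exact h.hd1 b (by simp)
      · refine h.c1.imp_of_mem_imp ?_
        intro u v hu hv huv
        exact hlnk u v (fun e => ha1 (e ▸ hu)) (fun e => ha1 (e ▸ hv)) (h.sub1 u hu)
          (h.sub1 v hv) huv
  · have hc2 : L2.IsChain (s.lnk x) := by
      have := h.c2
      cases L2 with
      | nil => simp
      | cons b L2 => exact (List.isChain_cons_cons.mp this).2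
    refine hc2.imp_of_mem_imp ?_
    intro u v hu hv huv
    exact hlnk u v (fun e => ha2 (e ▸ hu)) (fun e => ha2 (e ▸ hv))
      (h.sub2 u (List.mem_cons_of_mem _ hu)) (h.sub2 v (List.mem_cons_of_mem _ hv)) huv

/-- Shifting until `b` is the active vertex. -/
theorem reach (A : List V) : ∀ (L1 : List V) (s : MC V C) (γ : C) (b : V) (B : List V),
    s.BiCh x K γ L1 (A ++ b :: B) →
      ∃ s' γ', BiCh s' x K γ' (A.reverse ++ L1) (b :: B) ∧ URel s s' x K := by
  induction A with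
  | nil =>
    intro L1 s γ b B h
    exact ⟨s, γ, h, URel.refl s x K⟩
  | cons a A ih =>
    intro L1 s γ b B h
    obtain ⟨s₁, c, h1, h2⟩ := shift h
    obtain ⟨s₂, γ', h3, h4⟩ := ih (a :: L1) s₁ c b B h1
    refine ⟨s₂, γ', ?_, h2.trans h4⟩
    simpa using h3

theorem shiftAll (A : List V) : ∀ (L1 : List V) (s : MC V C) (γ : C),
    s.BiCh x K γ L1 A → ∃ s' γ', BiCh s' x K γ' (A.reverse ++ L1) [] ∧ URel s s' x K := by
  induction A with
  | nil =>
    intro L1 s γ h
    exact ⟨s, γ, h, URel.refl s x K⟩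
  | cons a A ih =>
    intro L1 s γ h
    obtain ⟨s₁, c, h1, h2⟩ := shift h
    obtain ⟨s₂, γ', h3, h4⟩ := ih (a :: L1) s₁ c h1
    refine ⟨s₂, γ', ?_, h2.trans h4⟩
    simpa using h3

/-- Reversal of a chain. -/
theorem reversal {γ : C} {L : List V} (h : s.BiCh x K γ [] L) :
    ∃ s' γ', BiCh s' x K γ' [] L.reverse ∧ URel s s' x K := by
  obtain ⟨s', γ', h1, h2⟩ := shiftAll L [] s γ h
  refine ⟨s', γ', ?_, h2⟩
  rw [List.append_nil] at h1
  exact h1.symm

/-- Prefixes of chains are chains. -/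
theorem BiCh.pfx {γ : C} {A B : List V} (h : s.BiCh x K γ [] (A ++ B)) :
    s.BiCh x K γ [] A where
  stk := h.stk
  norm := h.norm
  nd := by
    have := h.nd
    rw [List.nil_append] at this ⊢
    exact (List.nodup_append.mp this).1
  sub1 := by simp
  sub2 u hu := h.sub2 u (List.mem_append_left _ hu)
  odd1 := by simp
  odd2 u hu := h.odd2 u (List.mem_append_left _ hu)
  hd1 := by simp
  hd2 u hu := by
    apply h.hd2 u
    cases A with
    | nil => simp at hu
    | cons a A => simpa using hu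
  c1 := by simp
  c2 := h.c2.left_of_append

end MC

end

end Pool.Agent.Lib.P3f3a3b
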