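import Pool.Agent.Lib.P3f3a3b.USlide
import Pool.Agent.Lib.P3f3a3b.SlideCount

/-!
Theorem U for a state with one surplus pair.
-/

set_option autoImplicit false
set_option linter.unusedSectionVars false
set_option linter.unusedVariables false

namespace Pool.Agent.Lib.P3f3a3b

open Finset
open scoped Classical

noncomputable section

variable {V C : Type*} [Fintype V] [Fintype C]

namespace MC

variable {s s' : MC V C} {x : V} {K : Finset V}

/-- The states reached by slides from `s0`. -/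
def ChU (s0 : MC V C) (x : V) (K : Finset V) (s : MC V C) (l : List V) : Prop :=
  (∃ γ, s.BiCh x K γ [] l) ∧ s.KY x K = s0.KY x K

/-- The slide system of `s0`. -/
def sysU (s0 : MC V C) (x : V) (K : Finset V) : SlideSys (MC V C) V C where
  Ch s l := ChU s0 x K s l
  M s := s.MM x K
  nb s := s.nb
  tk s := s.tok
  Y := s0.KY x K
  K := K
  take := by
    rintro s l₁ l₂ ⟨⟨γ, h⟩, h2⟩ _
    exact ⟨⟨γ, h.pfx⟩, h2⟩
  rev := by
    rintro s l ⟨⟨γ, h⟩, h2⟩
    obtain ⟨s', γ', h3, hR⟩ := reversal h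
    refine ⟨s', ⟨⟨γ', h3⟩, by rw [hR.KY_eq, h2]⟩, hR.MM_eq, ?_⟩
    intro d hd u
    obtain ⟨h4, h5⟩ := hR.ev d (mem_sdiff.mp hd).2
    exact ⟨h4 u, h5 u⟩
  slide := by
    rintro s a l g v ⟨⟨γ, h⟩, h2⟩ hg hga hv hgv hvL
    obtain ⟨s', γ', h3, h4, h5, h6, h7, e, h8, h9⟩ :=
      MC.slide h hg (by rw [h2]; exact hga) hv hgv hvL
    refine ⟨s', e, ⟨⟨γ', h3⟩, by rw [h6, h2]⟩, h8, ?_, ?_⟩
    · rw [← h2, ← h6]; exact h9
    · intro d hd hdg u
      obtain ⟨h10, h11, h12⟩ := h7 d hd hdg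
      exact ⟨h11 u, h12 u⟩
  F9 := by
    rintro s l a b d ⟨⟨γ, h⟩, h2⟩ ha hb hab hd hda hdb
    exact MC.F9 h ha hb hab hd (by rw [h2]; exact hda) (by rw [h2]; exact hdb)

/-- **Theorem U**, normal form. -/
theorem StkY.thmU {α : C} {p : ℕ} {i : V} (h : s.StkY x K) (hn : s.UNorm x K α) (hi : i ∈ K)
    (hαi : α ∈ s.tok i) (hp : ∀ v ∈ K, (s.tok v).card ≤ p) :
    (s.KY x K).card + 1 ≤ (K \ s.KY x K).card + p := by
  by_contra hcon
  push Not at hcon
  have h0 : (sysU s x K).Ch s [i] := by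
    refine ⟨⟨α, h, hn, by simp, by simp, ?_, by simp, ?_, by simp, ?_, by simp, by simp⟩, rfl⟩
    · intro u hu; rw [List.mem_singleton] at hu; rw [hu]; exact hi
    · intro u hu c hc
      rw [List.mem_singleton] at hu
      rw [hu] at hc
      exact h.F2 hi (hn.mem_NN h.geo) hαi hc
    · intro u hu
      simp only [List.head?_cons, Option.mem_def, Option.some.injEq] at hu
      rw [← hu]; exact hαi
  refine SlideSys.count (S := sysU s x K) (s0 := s) (p := p) h0 hi ?_ ?_ ?_ hp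
  · rintro t a l ⟨⟨γ, ht⟩, ht2⟩
    have haK : a ∈ K := ht.sub2 a List.mem_cons_self
    have h1 := ht.stk.DIR haK (ht.norm.mem_NN ht.stk.geo) (ht.hd2 a (by simp))
    rw [ht2] at h1
    change p + 1 ≤ ((t.MM x K).filter (fun g => t.nb g a ∈ s.KY x K)).card
    omega
  · intro g hg
    exact exists_holder h hn hg
  · intro g hg u hu v hv hgu hgv
    have h1 := hn.M1 h.geo hg
    unfold cnt at h1
    rw [card_eq_one] at h1
    obtain ⟨z, hz⟩ := h1
    have h2 : u ∈ K.filter (fun w => g ∈ s.tok w) := mem_filter.mpr ⟨hu, hgu⟩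
    have h3 : v ∈ K.filter (fun w => g ∈ s.tok w) := mem_filter.mpr ⟨hv, hgv⟩
    rw [hz, mem_singleton] at h2 h3
    rw [h2, h3]

end MC

end

end Pool.Agent.Lib.P3f3a3b
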