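import Mathlib

/-!
A parity argument for two partial involutions, used for (F9).
-/

set_option autoImplicit false
set_option linter.unusedSectionVars false
set_option linter.unusedVariables false

namespace Pool.Agent.Lib.P3f3a3b

open Finset

namespace UU

variable {K : Type*}

/-- A set closed under an involution without fixed points has even cardinality. -/
theorem even_card_of_invol (T : Finset K) (f : K → K) (h1 : ∀ u ∈ T, f u ∈ T)
    (h2 : ∀ u ∈ T, f (f u) = u) (h3 : ∀ u ∈ T, f u ≠ u) : Even T.card := by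
  classical
  have h : ∑ u ∈ T, (1 : ZMod 2) = 0 := by
    refine sum_involution (fun u _ => f u) ?_ ?_ ?_ ?_
    · intro u hu; decide
    · intro u hu _; exact h3 u hu
    · intro u hu; exact h1 u hu
    · intro u hu; exact h2 u hu
  rw [sum_const, nsmul_eq_mul, mul_one] at h
  rw [← Nat.not_odd_iff_even]
  intro ho
  have := (ZMod.natCast_eq_zero_iff_even).mp h
  exact (Nat.not_odd_iff_even.mpr this) ho

/-- The parity argument for `F9`. -/
theorem no_cross (f g : K → K) (hf : ∀ u, f (f u) = u) (hg : ∀ u, g (g u) = u)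
    (S T : Finset K) (a b : K) (hab : a ≠ b)
    (haS : a ∈ S) (hbS : b ∈ S) (haT : a ∈ T) (hbT : b ∈ T)
    (hfS : ∀ u ∈ S, f u ∈ S) (hfT : ∀ u ∈ T, f u ∈ T)
    (hgS : ∀ u ∈ S, u ≠ a → g u ∈ S) (hgT : ∀ u ∈ T, u ≠ b → g u ∈ T)
    (hgb : g b ∉ T)
    (hend : ∀ u ∈ S, u ∉ T → f u ≠ u ∧ g u ≠ u) : False := by
  classical
  set W : Finset K := S \ T with hW
  have hwS : g b ∈ S := hgS b hbS (Ne.symm hab)
  have hwW : g b ∈ W := mem_sdiff.mpr ⟨hwS, hgb⟩
  have hmemW : ∀ u ∈ W, u ∈ S ∧ u ∉ T := fun u hu => mem_sdiff.mp hu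
  have h1 : Even W.card := by
    refine even_card_of_invol W f ?_ (fun u _ => hf u) ?_
    · intro u hu
      obtain ⟨h1, h2⟩ := hmemW u hu
      refine mem_sdiff.mpr ⟨hfS u h1, fun h3 => h2 ?_⟩
      have := hfT _ h3
      rwa [hf] at this
    · intro u hu
      obtain ⟨h1, h2⟩ := hmemW u hu
      exact (hend u h1 h2).1
  have h2 : Even (W.erase (g b)).card := by
    refine even_card_of_invol _ g ?_ (fun u _ => hg u) ?_
    · intro u hu
      rw [mem_erase] at hu
      obtain ⟨h1, h2⟩ := hmemW u hu.2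
      rw [mem_erase]
      refine ⟨?_, mem_sdiff.mpr ⟨hgS u h1 ?_, fun h3 => ?_⟩⟩
      · intro h3
        have h4 : u = b := by rw [← hg u, h3, hg]
        exact h2 (h4 ▸ hbT)
      · intro h3; exact h2 (h3 ▸ haT)
      · by_cases h4 : g u = b
        · apply hu.1; rw [← h4, hg]
        · apply h2
          have := hgT _ h3 h4
          rwa [hg] at this
    · intro u hu
      rw [mem_erase] at hu
      obtain ⟨h1, h2⟩ := hmemW u hu.2
      exact (hend u h1 h2).2
  have h3 : (W.erase (g b)).card + 1 = W.card := by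
    rw [card_erase_of_mem hwW]
    have := card_pos.mpr ⟨_, hwW⟩
    omega
  rw [Nat.even_iff] at h1 h2
  omega

end UU

end Pool.Agent.Lib.P3f3a3b
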