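import Pool.Agent.Lib.P3f3a3b.PL
import Pool.Agent.Lib.P3f3a3b.UParity

/-!
Theorem U, part 1: the moves of a stuck state with one surplus pair.
-/

set_option autoImplicit false
set_option linter.unusedSectionVars false
set_option linter.unusedVariables false

namespace Pool.Agent.Lib.P3f3a3b

open Finset
open scoped Classical

noncomputable section

variable {V C : Type*} [Fintype V] [Fintype C]

namespace MC

/-- The geometry of the star at `x`. -/
structure UGeo (s : MC V C) (x : V) (K : Finset V) : Prop where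
  hx : x ∉ K
  hP : s.P x = ∅
  star : ∀ w ∈ K, s.mult x w = 1
  out : ∀ w, w ∉ K → w ≠ x → s.mult x w = 0
  cl : ∀ a ∈ K, ∀ b ∈ K, a ≠ b → 1 ≤ s.mult a b

/-- The parity set on `Z = insert x K`. -/
def OZ (s : MC V C) (x : V) (K : Finset V) : Finset C := s.odd (insert x K)

/-- The tokens of `x` in the even class. -/
def MM (s : MC V C) (x : V) (K : Finset V) : Finset C := s.tok x \ s.OZ x K

/-- The tokens of `x` in the odd class. -/
def NN (s : MC V C) (x : V) (K : Finset V) : Finset C := s.tok x ∩ s.OZ x K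

/-- The vertices of `K` whose edge to `x` has a colour of the even class. -/
def KY (s : MC V C) (x : V) (K : Finset V) : Finset V :=
  K.filter (fun w => ∃ c, c ∉ s.OZ x K ∧ s.nb c x = w)

/-- A stuck state (even class). -/
structure StkY (s : MC V C) (x : V) (K : Finset V) : Prop where
  geo : s.UGeo x K
  max : ∀ s', Same s s' → (s'.OZ x K).card = (s.OZ x K).card →
    (s'.MM x K).card ≠ (s.MM x K).card + 1
  two : 2 ≤ (s.NN x K).card

/-! ### The facts (F1), (F2), (PL) -/

theorem StkY.star' {s : MC V C} {x : V} {K : Finset V} (h : s.StkY x K) : s.Star x K :=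
  ⟨h.geo.hx, h.geo.cl, h.geo.star, h.geo.out, h.geo.hP⟩

theorem mem_cls_false {s : MC V C} {x : V} {K : Finset V} {c : C} :
    c ∈ s.cls x K false ↔ c ∉ s.OZ x K := by
  unfold cls OZ; simp

theorem mem_cls_true {s : MC V C} {x : V} {K : Finset V} {c : C} :
    c ∈ s.cls x K true ↔ c ∈ s.OZ x K := by
  unfold cls OZ; simp

theorem free_false (s : MC V C) (x : V) (K : Finset V) :
    s.free x K false = (s.MM x K).card := by
  unfold free MM
  congr 1
  ext c
  rw [mem_inter, mem_sdiff, mem_cls_false]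

theorem free_true (s : MC V C) (x : V) (K : Finset V) :
    s.free x K true = (s.NN x K).card := by
  unfold free NN
  congr 1

theorem KC_false (s : MC V C) (x : V) (K : Finset V) : s.KC x K false = s.KY x K := by
  unfold KC KY
  apply filter_congr
  intro w hw
  constructor
  · rintro ⟨e, h1, h2⟩; exact ⟨e, mem_cls_false.mp h1, h2⟩
  · rintro ⟨e, h1, h2⟩; exact ⟨e, mem_cls_false.mpr h1, h2⟩

theorem KC_true {s : MC V C} {x : V} {K : Finset V} (hs : s.Star x K) :
    s.KC x K true = K \ s.KY x K := by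
  ext w
  unfold KC KY
  rw [mem_filter, mem_sdiff, mem_filter]
  constructor
  · rintro ⟨hw, e, h1, h2⟩
    refine ⟨hw, ?_⟩
    rintro ⟨_, e', h3, h4⟩
    have : e = e' := hs.uniq hw h2 h4
    exact h3 (this ▸ mem_cls_true.mp h1)
  · rintro ⟨hw, h1⟩
    obtain ⟨e, he⟩ := hs.exists_col hw
    refine ⟨hw, e, ?_, he⟩
    rw [mem_cls_true]
    by_contra h2
    exact h1 ⟨hw, e, h2, he⟩

theorem StkY.stuck {s : MC V C} {x : V} {K : Finset V} (h : s.StkY x K) :
    s.Stuck x K false := by
  intro s' hr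
  rw [free_false, free_false]
  exact h.max s' hr.1 hr.2

theorem StkY.F1 {s : MC V C} {x : V} {K : Finset V} (h : s.StkY x K) {c e : C}
    (hc : c ∈ s.NN x K) (he : e ∉ s.OZ x K) (hex : e ∉ s.tok x) {a : V} (ha : a ∈ K)
    (hend : s.End c e a) :
    x ∉ s.comp c e a ∧ Even (s.ends (insert x K) c e (s.comp c e a)) := by
  obtain ⟨hcx, hcO⟩ := mem_inter.mp hc
  have hcC : c ∉ s.cls x K false := by rw [mem_cls_false]; exact not_not_intro hcO
  have heC : e ∈ s.cls x K false := mem_cls_false.mpr he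
  have h1 := h.stuck.ends_comp_x h.star' hcx hcC hex heC
  have hxa : x ≠ a := fun e' => h.geo.hx (e' ▸ ha)
  have h2 : x ∉ s.comp c e a := by
    intro h3
    have h4 : a ∈ s.comp c e x := mem_comp_symm h3
    have h5 := ends_ge_two (s := s) (K := insert x K) (mem_insert_self x K)
      (mem_insert_of_mem ha) (s.self_mem_comp c e x) h4 hxa (Or.inl hcx) hend
    omega
  exact ⟨h2, h.stuck.even_ends h.star' hcx hcC hex heC (fun h3 => h2 (mem_comp_symm h3))⟩

theorem StkY.F2 {s : MC V C} {x : V} {K : Finset V} (h : s.StkY x K) {c r : C} {a : V}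
    (ha : a ∈ K) (hc : c ∈ s.NN x K) (hca : c ∈ s.tok a) (hr : s.nb r x = a) :
    r ∈ s.OZ x K := by
  obtain ⟨hcx, hcO⟩ := mem_inter.mp hc
  have hcC : c ∉ s.cls x K false := by rw [mem_cls_false]; exact not_not_intro hcO
  by_contra hrO
  apply h.stuck.not_KC h.star' ha hca hcx hcC
  rw [KC_false]
  exact mem_filter.mpr ⟨ha, r, hrO, hr⟩

theorem StkY.P2 {s : MC V C} {x : V} {K : Finset V} (h : s.StkY x K) {c g : C} {a : V}
    (ha : a ∈ K) (hc : c ∈ s.NN x K) (hca : c ∈ s.tok a) (hg : s.nb g a ∈ s.KY x K)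
    (hgo : g ∉ s.OZ x K) : g ∈ s.tok x := by
  obtain ⟨hcx, hcO⟩ := mem_inter.mp hc
  have hcC : c ∉ s.cls x K false := by rw [mem_cls_false]; exact not_not_intro hcO
  have hN : 2 ≤ s.free x K (!false) := by rw [Bool.not_false, free_true]; exact h.two
  exact (h.stuck.direct h.star' hN ha hca hcx hcC (by rw [KC_false]; exact hg)).mpr
    (mem_cls_false.mpr hgo)

theorem StkY.DIR {s : MC V C} {x : V} {K : Finset V} (h : s.StkY x K) {c : C} {a : V}
    (ha : a ∈ K) (hc : c ∈ s.NN x K) (hca : c ∈ s.tok a) :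
    (s.KY x K).card + 1 ≤ ((s.MM x K).filter (fun g => s.nb g a ∈ s.KY x K)).card +
      (K \ s.KY x K).card := by
  obtain ⟨hcx, hcO⟩ := mem_inter.mp hc
  have hcC : c ∉ s.cls x K false := by rw [mem_cls_false]; exact not_not_intro hcO
  have hN : 2 ≤ s.free x K (!false) := by rw [Bool.not_false, free_true]; exact h.two
  have h1 := h.stuck.dir h.star' hN ha hca hcx hcC
  rw [Bool.not_false, KC_false, KC_true h.star'] at h1
  have h2 : s.DD x K false a = (s.MM x K).filter (fun g => s.nb g a ∈ s.KY x K) := by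
    unfold DD
    rw [KC_false]
    congr 1
    ext d
    unfold MM
    rw [mem_inter, mem_sdiff, mem_cls_false]
  rw [h2] at h1
  exact h1

end MC

end

end Pool.Agent.Lib.P3f3a3b
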