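import Pool.Agent.Lib.P3f3a3b.UDefs

/-!
Theorem U, part 2: the three elementary moves (Kempe swap between the two classes, exchange at a
vertex, recolouring of an edge of the star).
-/

set_option autoImplicit false
set_option linter.unusedSectionVars false
set_option linter.unusedVariables false

namespace Pool.Agent.Lib.P3f3a3b

open Finset
open scoped Classical

noncomputable section

variable {V C : Type*} [Fintype V] [Fintype C]

namespace MC

variable {s s' : MC V C} {x : V} {K : Finset V}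

theorem UGeo.same (h : s.UGeo x K) (hs : Same s s') : s'.UGeo x K where
  hx := h.hx
  hP := by
    rw [← card_eq_zero, hs.2 x, h.hP, card_empty]
  star w hw := by
    rw [hs.1 x w (fun e => h.hx (e ▸ hw))]; exact h.star w hw
  out w hw hwx := by
    rw [hs.1 x w (Ne.symm hwx)]; exact h.out w hw hwx
  cl a ha b hb hab := by
    rw [hs.1 a b hab]; exact h.cl a ha b hb hab

theorem UGeo.mem_tok_x (h : s.UGeo x K) {c : C} : c ∈ s.tok x ↔ s.nb c x = x := by
  rw [mem_tok, h.hP]; simp

theorem UGeo.nb_x (h : s.UGeo x K) (c : C) : s.nb c x = x ∨ s.nb c x ∈ K := by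
  by_contra hcon
  push Not at hcon
  have := h.out _ hcon.2 hcon.1
  unfold mult at this
  rw [card_eq_zero] at this
  have h2 : c ∈ univ.filter (fun c' => s.nb c' x = s.nb c x) := by simp
  rw [this] at h2
  exact absurd h2 (notMem_empty _)

theorem UGeo.uniq (h : s.UGeo x K) {c c' : C} {w : V} (hw : w ∈ K) (hc : s.nb c x = w)
    (hc' : s.nb c' x = w) : c = c' := by
  have := h.star w hw
  unfold mult at this
  rw [card_eq_one] at this
  obtain ⟨d, hd⟩ := this
  have h1 : c ∈ univ.filter (fun c' => s.nb c' x = w) := by simp [hc]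
  have h2 : c' ∈ univ.filter (fun c' => s.nb c' x = w) := by simp [hc']
  rw [hd, mem_singleton] at h1 h2
  rw [h1, h2]

theorem UGeo.ex (h : s.UGeo x K) {w : V} (hw : w ∈ K) : ∃ c, s.nb c x = w := by
  have := h.star w hw
  unfold mult at this
  rw [card_eq_one] at this
  obtain ⟨d, hd⟩ := this
  have h1 : d ∈ univ.filter (fun c' => s.nb c' x = w) := by rw [hd]; simp
  exact ⟨d, by simpa using h1⟩

theorem card_MM_NN (s : MC V C) (x : V) (K : Finset V) :
    (s.MM x K).card + (s.NN x K).card = (s.tok x).card := by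
  unfold MM NN
  exact card_sdiff_add_card_inter _ _

theorem StkY.of (h : s.StkY x K) (hs : Same s s') (ho : s'.OZ x K = s.OZ x K)
    (hM : (s'.MM x K).card = (s.MM x K).card) : s'.StkY x K where
  geo := h.geo.same hs
  max s'' h1 h2 h3 := by
    refine h.max s'' (hs.trans h1) ?_ ?_
    · rw [h2, ho]
    · rw [h3, hM]
  two := by
    have h1 := card_MM_NN s x K
    have h2 := card_MM_NN s' x K
    have h3 := hs.card_tok x
    have h4 := h.two
    omega

theorem mem_OZ (h : s.UGeo x K) {c : C} :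
    c ∈ s.OZ x K ↔ Odd (s.cnt K c + if c ∈ s.tok x then 1 else 0) := by
  unfold OZ
  rw [mem_odd, cnt_insert h.hx]

/-- The normal form with one surplus pair of colour `α`. -/
structure UNorm (s : MC V C) (x : V) (K : Finset V) (α : C) : Prop where
  tx : α ∈ s.tok x
  two : s.cnt K α = 2
  one : ∀ c, c ≠ α → s.cnt K c ≤ 1

theorem UNorm.mem_OZ {α : C} (h : s.UNorm x K α) (hg : s.UGeo x K) : α ∈ s.OZ x K := by
  rw [MC.mem_OZ hg, h.two, if_pos h.tx]; decide

theorem UNorm.mem_NN {α : C} (h : s.UNorm x K α) (hg : s.UGeo x K) : α ∈ s.NN x K :=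
  mem_inter.mpr ⟨h.tx, h.mem_OZ hg⟩

theorem UNorm.N0 {α d : C} (h : s.UNorm x K α) (hg : s.UGeo x K) (hd : d ∈ s.NN x K)
    (hdα : d ≠ α) : s.cnt K d = 0 := by
  obtain ⟨h1, h2⟩ := mem_inter.mp hd
  rw [MC.mem_OZ hg, if_pos h1, Nat.odd_iff] at h2
  have := h.one d hdα
  omega

theorem UNorm.M1 {α d : C} (h : s.UNorm x K α) (hg : s.UGeo x K) (hd : d ∈ s.MM x K) :
    s.cnt K d = 1 := by
  obtain ⟨h1, h2⟩ := mem_sdiff.mp hd
  have hdα : d ≠ α := fun e => h2 (e ▸ h.mem_OZ hg)
  rw [MC.mem_OZ hg, if_pos h1, Nat.odd_iff] at h2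
  have := h.one d hdα
  omega

theorem UNorm.odd1 {α d : C} (h : s.UNorm x K α) (hg : s.UGeo x K) (hd : d ∈ s.OZ x K)
    (hdx : d ∉ s.tok x) : s.cnt K d = 1 := by
  have hdα : d ≠ α := fun e => hdx (e ▸ h.tx)
  rw [MC.mem_OZ hg, if_neg hdx, Nat.odd_iff] at hd
  have := h.one d hdα
  omega

theorem UNorm.ev0 {α d : C} (h : s.UNorm x K α) (hg : s.UGeo x K) (hd : d ∉ s.OZ x K)
    (hdx : d ∉ s.tok x) : s.cnt K d = 0 := by
  have hdα : d ≠ α := fun e => hdx (e ▸ h.tx)
  rw [MC.mem_OZ hg, if_neg hdx, Nat.odd_iff] at hd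
  have := h.one d hdα
  omega

theorem cnt_congr {c : C} (h : ∀ u ∈ K, c ∈ s'.tok u ↔ c ∈ s.tok u) : s'.cnt K c = s.cnt K c := by
  unfold cnt
  congr 1
  exact filter_congr h

/-- The result of a Kempe swap of `p` (two tokens on `K`) and `q` (no token on `K`). -/
structure VM (s s' : MC V C) (x : V) (K : Finset V) (p q : C) (S : Finset V) : Prop where
  same : Same s s'
  oz : s'.OZ x K = s.OZ x K
  nbx : ∀ c, s'.nb c x = s.nb c x
  tokx : s'.tok x = s.tok x
  nb_off : ∀ c, c ≠ p → c ≠ q → ∀ u, s'.nb c u = s.nb c u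
  tok_off : ∀ c, c ≠ p → c ≠ q → ∀ u, (c ∈ s'.tok u ↔ c ∈ s.tok u)
  nbS : ∀ u, u ∉ S → ∀ c, s'.nb c u = s.nb c u
  cp : s'.cnt K p = 0
  cq : s'.cnt K q = 2
  toks : ∀ u ∈ K, p ∈ s.tok u → q ∈ s'.tok u
  toks' : ∀ u ∈ K, q ∈ s'.tok u → p ∈ s.tok u

theorem vmove (h : s.StkY x K) {c e p q : C} (hc : c ∈ s.NN x K) (he : e ∉ s.OZ x K)
    (hex : e ∉ s.tok x) (hpq : p = c ∧ q = e ∨ p = e ∧ q = c) {a : V} (ha : a ∈ K)
    (hpa : p ∈ s.tok a) (h2 : s.cnt K p = 2) (h0 : s.cnt K q = 0) :
    x ∉ s.comp p q a ∧ (∀ v ∈ K, p ∈ s.tok v → v ∈ s.comp p q a) ∧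
      VM s (s.swap p q (s.comp p q a) (s.comp_closed p q a)) x K p q (s.comp p q a) := by
  have hce : c ≠ e := fun e' => he (e' ▸ (mem_inter.mp hc).2)
  have hpq' : p ≠ q := by
    rcases hpq with ⟨rfl, rfl⟩ | ⟨rfl, rfl⟩
    · exact hce
    · exact hce.symm
  set S := s.comp p q a with hS
  have key : x ∉ S ∧ Even (s.ends (insert x K) p q S) := by
    rcases hpq with ⟨rfl, rfl⟩ | ⟨rfl, rfl⟩
    · exact h.F1 hc he hex ha (Or.inl hpa)
    · have := h.F1 hc he hex ha (Or.inr hpa)
      rw [s.comp_comm] at this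
      refine ⟨this.1, ?_⟩
      have h3 := this.2
      unfold ends at h3 ⊢
      rw [add_comm]; exact h3
  obtain ⟨hxS, hev⟩ := key
  have hint : insert x K ∩ S = K ∩ S := by
    rw [insert_inter_of_notMem hxS]
  have hev' : Even (s.cnt (K ∩ S) p + s.cnt (K ∩ S) q) := by
    have := hev
    unfold ends at this
    rwa [hint] at this
  have hq0 : s.cnt (K ∩ S) q = 0 := by
    have := s.cnt_split K S q
    omega
  have hp1 : 1 ≤ s.cnt (K ∩ S) p := cnt_ge_one (mem_inter.mpr ⟨ha, s.self_mem_comp p q a⟩) hpa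
  have hp2 : s.cnt (K ∩ S) p = 2 := by
    have := s.cnt_split K S p
    rw [hq0, Nat.even_iff] at hev'
    omega
  have hp0 : s.cnt (K \ S) p = 0 := by
    have := s.cnt_split K S p
    omega
  have hall : ∀ v ∈ K, p ∈ s.tok v → v ∈ S := by
    intro v hv hpv
    by_contra hvS
    have := cnt_ge_one (s := s) (mem_sdiff.mpr ⟨hv, hvS⟩) hpv
    omega
  refine ⟨hxS, hall, ?_⟩
  refine ⟨swap_same _, ?_, ?_, ?_, ?_, ?_, ?_, ?_, ?_, ?_, ?_⟩
  · exact odd_swap_of_even _ _ hev
  · intro c'; exact swap_nb_of_notMem _ _ hxS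
  · ext c'; rw [mem_tok_swap, if_neg hxS]
  · intro c' h1 h2 u; exact swap_nb_of_ne _ h1 h2 u
  · intro c' h1 h2 u
    rw [mem_tok_swap, Equiv.swap_apply_of_ne_of_ne h1 h2, ite_self]
  · intro u hu c'; exact swap_nb_of_notMem _ _ hu
  · rw [cnt_swap, Equiv.swap_apply_left]
    change s.cnt (K \ S) p + s.cnt (K ∩ S) q = 0
    omega
  · rw [cnt_swap, Equiv.swap_apply_right]
    change s.cnt (K \ S) q + s.cnt (K ∩ S) p = 2
    have := s.cnt_split K S q
    omega
  · intro u hu hpu
    rw [mem_tok_swap, if_pos (hall u hu hpu), Equiv.swap_apply_right]; exact hpu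
  · intro u hu hqu
    rw [mem_tok_swap] at hqu
    by_cases huS : u ∈ S
    · rw [if_pos huS, Equiv.swap_apply_right] at hqu; exact hqu
    · rw [if_neg huS] at hqu
      have := cnt_ge_one (s := s) (K := K) hu hqu
      omega

/-- The result of the exchange at `w`: the edge `aw` gets the colour `e`, the edge `xw` the
colour `g`. -/
structure XM (s s' : MC V C) (x : V) (K : Finset V) (a w : V) (e g : C) : Prop where
  same : Same s s'
  oz : s'.OZ x K = s.OZ x K
  nb_off : ∀ c, c ≠ e → c ≠ g → ∀ u, s'.nb c u = s.nb c u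
  tok_off : ∀ c, c ≠ e → c ≠ g → ∀ u, (c ∈ s'.tok u ↔ c ∈ s.tok u)
  nb_off' : ∀ u, u ≠ a → u ≠ w → u ≠ x → ∀ c, s'.nb c u = s.nb c u
  tok_off' : ∀ u, u ≠ a → u ≠ w → u ≠ x → s'.tok u = s.tok u
  ea : s'.nb e a = w
  ex : s'.nb e x = x
  ga : s'.nb g a = a
  gx : s'.nb g x = w
  gw : s'.nb g w = x
  ew : s'.nb e w = a
  tga : g ∈ s'.tok a
  tea : e ∉ s'.tok a
  tex : e ∈ s'.tok x
  tgx : g ∉ s'.tok x
  ce : s'.cnt K e + 1 = s.cnt K e
  cg : s'.cnt K g = s.cnt K g + 1

theorem xmove (hg : s.UGeo x K) {a w : V} {e g : C} (ha : a ∈ K) (hw : w ∈ K)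
    (hga : s.nb g a = w) (hex : s.nb e x = w) (hea : e ∈ s.tok a) (hgx : g ∈ s.tok x)
    (haw : a ≠ w) : ∃ s', XM s s' x K a w e g := by
  have hxa : x ≠ a := fun e' => hg.hx (e' ▸ ha)
  have hxw : x ≠ w := fun e' => hg.hx (e' ▸ hw)
  have heg : e ≠ g := by
    rintro rfl
    rw [nb_of_tok hea] at hga; exact haw hga
  have hgw : s.nb g w = a := nb_symm hga
  have hew : s.nb e w = x := nb_symm hex
  have hnea : s.nb e a = a := nb_of_tok hea
  have hngx : s.nb g x = x := nb_of_tok hgx
  set S : Finset V := {a, w, x} with hS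
  have hmem : ∀ u, u ∈ S ↔ u = a ∨ u = w ∨ u = x := by intro u; simp [hS]
  have hcl : s.Closed e g S := by
    intro u hu
    rw [hmem] at hu
    rcases hu with rfl | rfl | rfl
    · rw [hnea, hga, hmem, hmem]; tauto
    · rw [hew, hgw, hmem, hmem]; tauto
    · rw [hex, hngx, hmem, hmem]; tauto
  have haS : a ∈ S := (hmem a).mpr (Or.inl rfl)
  have hwS : w ∈ S := (hmem w).mpr (Or.inr (Or.inl rfl))
  have hxS : x ∈ S := (hmem x).mpr (Or.inr (Or.inr rfl))
  have hgta : g ∉ s.tok a := fun h => by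
    rw [nb_of_tok h] at hga; exact haw hga
  have hgtw : g ∉ s.tok w := fun h => by
    rw [nb_of_tok h] at hgw; exact haw hgw.symm
  have hetw : e ∉ s.tok w := fun h => by
    rw [nb_of_tok h] at hew; exact hxw hew.symm
  have hetx : e ∉ s.tok x := fun h => by
    rw [nb_of_tok h] at hex; exact hxw hex
  refine ⟨s.swap e g S hcl, swap_same _, ?_, ?_, ?_, ?_, ?_, ?_, ?_, ?_, ?_, ?_, ?_, ?_, ?_, ?_,
    ?_, ?_, ?_⟩
  · apply odd_swap_of_even
    have h1 : s.cnt (insert x K ∩ S) e = 1 := by
      unfold cnt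
      rw [card_eq_one]
      refine ⟨a, ?_⟩
      ext u
      rw [mem_filter, mem_inter, mem_insert, hmem, mem_singleton]
      constructor
      · rintro ⟨⟨_, h2⟩, h3⟩
        rcases h2 with rfl | rfl | rfl
        · rfl
        · exact absurd h3 hetw
        · exact absurd h3 hetx
      · rintro rfl
        exact ⟨⟨Or.inr ha, Or.inl rfl⟩, hea⟩
    have h2 : s.cnt (insert x K ∩ S) g = 1 := by
      unfold cnt
      rw [card_eq_one]
      refine ⟨x, ?_⟩
      ext u
      rw [mem_filter, mem_inter, mem_insert, hmem, mem_singleton]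
      constructor
      · rintro ⟨⟨_, h2⟩, h3⟩
        rcases h2 with rfl | rfl | rfl
        · exact absurd h3 hgta
        · exact absurd h3 hgtw
        · rfl
      · rintro rfl
        exact ⟨⟨Or.inl rfl, Or.inr (Or.inr rfl)⟩, hgx⟩
    unfold ends
    rw [h1, h2]; decide
  · intro c h1 h2 u; exact swap_nb_of_ne _ h1 h2 u
  · intro c h1 h2 u
    rw [mem_tok_swap, Equiv.swap_apply_of_ne_of_ne h1 h2, ite_self]
  · intro u h1 h2 h3 c
    apply swap_nb_of_notMem
    rw [hmem]; tauto
  · intro u h1 h2 h3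
    ext c
    rw [mem_tok_swap, if_neg]
    rw [hmem]; tauto
  · rw [swap_nb, if_pos haS, Equiv.swap_apply_left, hga]
  · rw [swap_nb, if_pos hxS, Equiv.swap_apply_left, hngx]
  · rw [swap_nb, if_pos haS, Equiv.swap_apply_right, hnea]
  · rw [swap_nb, if_pos hxS, Equiv.swap_apply_right, hex]
  · rw [swap_nb, if_pos hwS, Equiv.swap_apply_right, hew]
  · rw [swap_nb, if_pos hwS, Equiv.swap_apply_left, hgw]
  · rw [mem_tok_swap, if_pos haS, Equiv.swap_apply_right]; exact hea
  · rw [mem_tok_swap, if_pos haS, Equiv.swap_apply_left]; exact hgta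
  · rw [mem_tok_swap, if_pos hxS, Equiv.swap_apply_left]; exact hgx
  · rw [mem_tok_swap, if_pos hxS, Equiv.swap_apply_right]; exact hetx
  · have h1 : K.filter (fun v => e ∈ s.tok v) =
        insert a (K.filter (fun v => e ∈ (s.swap e g S hcl).tok v)) := by
      ext u
      rw [mem_filter, mem_insert, mem_filter, mem_tok_swap]
      constructor
      · rintro ⟨h1, h2⟩
        by_cases hua : u = a
        · exact Or.inl hua
        · right
          refine ⟨h1, ?_⟩
          have hu : u ∉ S := by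
            rw [hmem]
            rintro (h3 | rfl | rfl)
            · exact hua h3
            · exact hetw h2
            · exact hetx h2
          rw [if_neg hu]; exact h2
      · rintro (rfl | ⟨h1, h2⟩)
        · exact ⟨ha, hea⟩
        · by_cases hu : u ∈ S
          · rw [if_pos hu, Equiv.swap_apply_left] at h2
            rw [hmem] at hu
            rcases hu with rfl | rfl | rfl
            · exact absurd h2 hgta
            · exact absurd h2 hgtw
            · exact absurd h1 hg.hx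
          · rw [if_neg hu] at h2
            exact ⟨h1, h2⟩
    unfold cnt
    rw [h1, card_insert_of_notMem]
    rw [mem_filter, mem_tok_swap, if_pos haS, Equiv.swap_apply_left]
    exact fun h => hgta h.2
  · have h1 : K.filter (fun v => g ∈ (s.swap e g S hcl).tok v) =
        insert a (K.filter (fun v => g ∈ s.tok v)) := by
      ext u
      rw [mem_filter, mem_insert, mem_filter, mem_tok_swap]
      constructor
      · rintro ⟨h1, h2⟩
        by_cases hu : u ∈ S
        · rw [if_pos hu, Equiv.swap_apply_right] at h2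
          rw [hmem] at hu
          rcases hu with rfl | rfl | rfl
          · exact Or.inl rfl
          · exact absurd h2 hetw
          · exact absurd h1 hg.hx
        · rw [if_neg hu] at h2
          exact Or.inr ⟨h1, h2⟩
      · rintro (rfl | ⟨h1, h2⟩)
        · refine ⟨ha, ?_⟩
          rw [if_pos haS, Equiv.swap_apply_right]; exact hea
        · refine ⟨h1, ?_⟩
          by_cases hu : u ∈ S
          · rw [hmem] at hu
            rcases hu with rfl | rfl | rfl
            · exact absurd h2 hgta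
            · exact absurd h2 hgtw
            · exact absurd h1 hg.hx
          · rw [if_neg hu]; exact h2
    unfold cnt
    rw [h1, card_insert_of_notMem]
    rw [mem_filter]
    exact fun h => hgta h.2

/-- The result of recolouring the edge `xa` from `c` to `γ`. -/
structure RM (s s' : MC V C) (x : V) (K : Finset V) (a : V) (γ c : C) : Prop where
  same : Same s s'
  oz : s'.OZ x K = s.OZ x K
  nb_off : ∀ d, d ≠ γ → d ≠ c → ∀ u, s'.nb d u = s.nb d u
  tok_off : ∀ d, d ≠ γ → d ≠ c → ∀ u, (d ∈ s'.tok u ↔ d ∈ s.tok u)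
  nb_off' : ∀ u, u ≠ a → u ≠ x → ∀ d, s'.nb d u = s.nb d u
  tok_off' : ∀ u, u ≠ a → u ≠ x → s'.tok u = s.tok u
  gx : s'.nb γ x = a
  cx : s'.nb c x = x
  tcx : c ∈ s'.tok x
  tgx : γ ∉ s'.tok x
  tca : c ∈ s'.tok a
  tga : γ ∉ s'.tok a
  cγ : s'.cnt K γ + 1 = s.cnt K γ
  cc : s'.cnt K c = s.cnt K c + 1

theorem rmove (hg : s.UGeo x K) {a : V} {γ c : C} (ha : a ∈ K)
    (hγx : γ ∈ s.tok x) (hγa : γ ∈ s.tok a) (hcx : s.nb c x = a) : ∃ s', RM s s' x K a γ c := by
  have hxa : x ≠ a := fun e' => hg.hx (e' ▸ ha)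
  have hγc : γ ≠ c := by
    rintro rfl
    rw [nb_of_tok hγx] at hcx; exact hxa hcx
  have hca : s.nb c a = x := nb_symm hcx
  have hnγa : s.nb γ a = a := nb_of_tok hγa
  have hnγx : s.nb γ x = x := nb_of_tok hγx
  set S : Finset V := {a, x} with hS
  have hmem : ∀ u, u ∈ S ↔ u = a ∨ u = x := by intro u; simp [hS]
  have hcl : s.Closed γ c S := by
    intro u hu
    rw [hmem] at hu
    rcases hu with rfl | rfl
    · rw [hnγa, hca, hmem, hmem]; tauto
    · rw [hcx, hnγx, hmem, hmem]; tauto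
  have haS : a ∈ S := (hmem a).mpr (Or.inl rfl)
  have hxS : x ∈ S := (hmem x).mpr (Or.inr rfl)
  have hcta : c ∉ s.tok a := fun h => by
    rw [nb_of_tok h] at hca; exact hxa hca.symm
  have hctx : c ∉ s.tok x := fun h => by
    rw [nb_of_tok h] at hcx; exact hxa hcx
  refine ⟨s.swap γ c S hcl, swap_same _, ?_, ?_, ?_, ?_, ?_, ?_, ?_, ?_, ?_, ?_, ?_, ?_, ?_⟩
  · apply odd_swap_of_even
    have h1 : s.cnt (insert x K ∩ S) γ = 2 := by
      unfold cnt
      rw [card_eq_two]
      refine ⟨a, x, hxa.symm, ?_⟩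
      ext u
      rw [mem_filter, mem_inter, mem_insert, hmem]
      constructor
      · rintro ⟨⟨_, h2⟩, h3⟩
        exact h2
      · rintro (rfl | rfl)
        · exact ⟨⟨Or.inr ha, Or.inl rfl⟩, hγa⟩
        · exact ⟨⟨Or.inl rfl, Or.inr rfl⟩, hγx⟩
    have h2 : s.cnt (insert x K ∩ S) c = 0 := by
      unfold cnt
      rw [card_eq_zero, filter_eq_empty_iff]
      intro u hu h3
      rw [mem_inter, hmem] at hu
      rcases hu.2 with rfl | rfl
      · exact hcta h3
      · exact hctx h3
    unfold ends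
    rw [h1, h2]; decide
  · intro d h1 h2 u; exact swap_nb_of_ne _ h1 h2 u
  · intro d h1 h2 u
    rw [mem_tok_swap, Equiv.swap_apply_of_ne_of_ne h1 h2, ite_self]
  · intro u h1 h2 d
    apply swap_nb_of_notMem
    rw [hmem]; tauto
  · intro u h1 h2
    ext d
    rw [mem_tok_swap, if_neg]
    rw [hmem]; tauto
  · rw [swap_nb, if_pos hxS, Equiv.swap_apply_left, hcx]
  · rw [swap_nb, if_pos hxS, Equiv.swap_apply_right, hnγx]
  · rw [mem_tok_swap, if_pos hxS, Equiv.swap_apply_right]; exact hγx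
  · rw [mem_tok_swap, if_pos hxS, Equiv.swap_apply_left]; exact hctx
  · rw [mem_tok_swap, if_pos haS, Equiv.swap_apply_right]; exact hγa
  · rw [mem_tok_swap, if_pos haS, Equiv.swap_apply_left]; exact hcta
  · have h1 : K.filter (fun v => γ ∈ s.tok v) =
        insert a (K.filter (fun v => γ ∈ (s.swap γ c S hcl).tok v)) := by
      ext u
      rw [mem_filter, mem_insert, mem_filter, mem_tok_swap]
      constructor
      · rintro ⟨h1, h2⟩
        by_cases hua : u = a
        · exact Or.inl hua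
        · right
          refine ⟨h1, ?_⟩
          have hu : u ∉ S := by
            rw [hmem]
            rintro (h3 | rfl)
            · exact hua h3
            · exact hg.hx h1
          rw [if_neg hu]; exact h2
      · rintro (rfl | ⟨h1, h2⟩)
        · exact ⟨ha, hγa⟩
        · by_cases hu : u ∈ S
          · rw [if_pos hu, Equiv.swap_apply_left] at h2
            rw [hmem] at hu
            rcases hu with rfl | rfl
            · exact absurd h2 hcta
            · exact absurd h1 hg.hx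
          · rw [if_neg hu] at h2
            exact ⟨h1, h2⟩
    unfold cnt
    rw [h1, card_insert_of_notMem]
    rw [mem_filter, mem_tok_swap, if_pos haS, Equiv.swap_apply_left]
    exact fun h => hcta h.2
  · have h1 : K.filter (fun v => c ∈ (s.swap γ c S hcl).tok v) =
        insert a (K.filter (fun v => c ∈ s.tok v)) := by
      ext u
      rw [mem_filter, mem_insert, mem_filter, mem_tok_swap]
      constructor
      · rintro ⟨h1, h2⟩
        by_cases hu : u ∈ S
        · rw [hmem] at hu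
          rcases hu with rfl | rfl
          · exact Or.inl rfl
          · exact absurd h1 hg.hx
        · rw [if_neg hu] at h2
          exact Or.inr ⟨h1, h2⟩
      · rintro (rfl | ⟨h1, h2⟩)
        · refine ⟨ha, ?_⟩
          rw [if_pos haS, Equiv.swap_apply_right]; exact hγa
        · refine ⟨h1, ?_⟩
          by_cases hu : u ∈ S
          · rw [hmem] at hu
            rcases hu with rfl | rfl
            · exact absurd h2 hcta
            · exact absurd h1 hg.hx
          · rw [if_neg hu]; exact h2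
    unfold cnt
    rw [h1, card_insert_of_notMem]
    rw [mem_filter]
    exact fun h => hcta h.2

end MC

end

end Pool.Agent.Lib.P3f3a3b
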