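import Pool.Agent.Lib.P3f3a3b.UChain

/-!
Theorem U, part 4: the slide and the disjointness of the direction sets along a chain.
-/

set_option autoImplicit false
set_option linter.unusedSectionVars false
set_option linter.unusedVariables false

namespace Pool.Agent.Lib.P3f3a3b

open Finset
open scoped Classical

noncomputable section

variable {V C : Type*} [Fintype V] [Fintype C]

namespace MC

variable {s s' : MC V C} {x : V} {K : Finset V}

/-- The result of the first three swaps of a slide at `a`, with the component `S`. -/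
structure SlideA (s s3 : MC V C) (x : V) (K : Finset V) (a w : V) (g β : C) (L : List V)
    (S : Finset V) : Prop where
  aS : a ∈ S
  xS : x ∉ S
  wS : w ∉ S
  holders : ∀ v ∈ K, g ∈ s.tok v → v ∈ S
  fS : ∀ u ∈ S, s.nb β u ∈ S
  gS : ∀ u ∈ S, u ≠ a → s.nb g u ∈ S
  endS : ∀ u ∈ S, u ≠ a → (∀ v ∈ K, g ∈ s.tok v → u ≠ v) → s.nb β u ≠ u ∧ s.nb g u ≠ u
  bi : s3.BiCh x K β [] (a :: L)
  same : Same s s3
  oz : s3.OZ x K = s.OZ x K
  ky : s3.KY x K = s.KY x K
  gx : g ∉ s3.tok x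
  gnb : ∀ u, u ∉ S → u ≠ w → u ≠ x → s3.nb g u = s.nb g u
  hold3 : ∀ v ∈ K, g ∈ s.tok v → β ∈ s3.tok v
  keep : ∀ d ∈ s.MM x K, d ≠ g → d ∈ s3.MM x K ∧ (∀ u, s3.nb d u = s.nb d u) ∧
    (∀ u, d ∈ s3.tok u ↔ d ∈ s.tok u)
  new : ∃ e, s3.MM x K = insert e ((s.MM x K).erase g) ∧ s3.nb e a ∈ s.KY x K

theorem slideA {α β g : C} {a v : V} {L : List V} (h : s.BiCh x K α [] (a :: L))
    (hg : g ∈ s.MM x K) (hga : s.nb g a ∈ s.KY x K) (hβ : β ∈ s.NN x K)
    (hβ0 : s.cnt K β = 0) (hv : v ∈ K) (hgv : g ∈ s.tok v) :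
    ∃ s3 S, SlideA s s3 x K a (s.nb g a) g β L S := by
  have hG := h.stk.geo
  have haK : a ∈ K := h.sub2 a List.mem_cons_self
  have hxa : x ≠ a := fun e => hG.hx (e ▸ haK)
  have hαa : α ∈ s.tok a := h.hd2 a (by simp)
  have hαx : α ∈ s.tok x := h.norm.tx
  have hαO : α ∈ s.OZ x K := h.norm.mem_OZ hG
  have hαN : α ∈ s.NN x K := h.norm.mem_NN hG
  obtain ⟨hgx, hgO⟩ := mem_sdiff.mp hg
  obtain ⟨hβx, hβO⟩ := mem_inter.mp hβ
  set w := s.nb g a with hw
  obtain ⟨hwK, e, heO, hex⟩ := mem_filter.mp hga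
  have hxw : x ≠ w := fun e' => hG.hx (e' ▸ hwK)
  have hwL : w ∉ a :: L := by
    intro h'
    exact heO (h.odd2 w h' e hex)
  have haw : a ≠ w := fun e' => hwL (e' ▸ List.mem_cons_self)
  have hetx : e ∉ s.tok x := fun h' => by rw [nb_of_tok h'] at hex; exact hxw hex
  have hαg : α ≠ g := fun e' => hgO (e' ▸ hαO)
  have hαe : α ≠ e := fun e' => heO (e' ▸ hαO)
  have hβg : β ≠ g := fun e' => hgO (e' ▸ hβO)
  have hβe : β ≠ e := fun e' => heO (e' ▸ hβO)
  have hβα : β ≠ α := fun e' => by rw [e', h.norm.two] at hβ0; omega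
  have heg : e ≠ g := fun e' => hetx (e' ▸ hgx)
  have he0 : s.cnt K e = 0 := h.norm.ev0 hG heO hetx
  -- first swap
  obtain ⟨-, -, W⟩ := vmove h.stk hαN heO hetx (Or.inl ⟨rfl, rfl⟩) haK hαa h.norm.two he0
  set s1 := s.swap α e (s.comp α e a) (s.comp_closed α e a) with hs1
  have hG1 := hG.same W.same
  -- exchange
  have hg1a : s1.nb g a = w := by rw [W.nb_off g hαg.symm heg.symm]
  have he1x : s1.nb e x = w := by rw [W.nbx]; exact hex
  have he1a : e ∈ s1.tok a := W.toks a haK hαa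
  have hg1x : g ∈ s1.tok x := by rw [W.tokx]; exact hgx
  obtain ⟨t, X⟩ := xmove hG1 haK hwK hg1a he1x he1a hg1x haw
  have hGt := hG1.same X.same
  have hSt : Same s t := W.same.trans X.same
  have hOt : t.OZ x K = s.OZ x K := X.oz.trans W.oz
  -- properties of t
  have tnb : ∀ d, d ≠ α → d ≠ e → d ≠ g → ∀ u, t.nb d u = s.nb d u := by
    intro d h1 h2 h3 u
    rw [X.nb_off d h2 h3, W.nb_off d h1 h2]
  have ttok : ∀ d, d ≠ α → d ≠ e → d ≠ g → ∀ u, (d ∈ t.tok u ↔ d ∈ s.tok u) := by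
    intro d h1 h2 h3 u
    rw [X.tok_off d h2 h3, W.tok_off d h1 h2]
  have tnbx : ∀ d, d ≠ e → d ≠ g → t.nb d x = s.nb d x := by
    intro d h2 h3
    rw [X.nb_off d h2 h3, W.nbx]
  have ttokx : ∀ d, d ≠ e → d ≠ g → (d ∈ t.tok x ↔ d ∈ s.tok x) := by
    intro d h2 h3
    rw [X.tok_off d h2 h3, W.tokx]
  have tg : ∀ u, u ≠ a → u ≠ w → u ≠ x → t.nb g u = s.nb g u := by
    intro u h1 h2 h3
    rw [X.nb_off' u h1 h2 h3, W.nb_off g hαg.symm heg.symm]
  have hMt : t.MM x K = insert e ((s.MM x K).erase g) := by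
    ext d
    unfold MM
    rw [mem_sdiff, mem_insert, mem_erase, mem_sdiff, hOt]
    by_cases h1 : d = e
    · rw [h1]; exact ⟨fun _ => Or.inl rfl, fun _ => ⟨X.tex, heO⟩⟩
    · by_cases h2 : d = g
      · rw [h2]
        constructor
        · rintro ⟨h3, _⟩; exact absurd h3 X.tgx
        · rintro (h3 | ⟨h3, _⟩)
          · exact absurd h3 heg.symm
          · exact absurd rfl h3
      · rw [ttokx d h1 h2]
        constructor
        · intro h3; exact Or.inr ⟨h2, h3⟩
        · rintro (h3 | ⟨_, h3⟩)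
          · exact absurd h3 h1
          · exact h3
  have hMtc : (t.MM x K).card = (s.MM x K).card := by
    rw [hMt, card_insert_of_notMem, card_erase_of_mem hg]
    · have := card_pos.mpr ⟨g, hg⟩
      omega
    · rw [mem_erase]
      rintro ⟨_, h3⟩
      exact hetx (mem_sdiff.mp h3).1
  have hkt : t.StkY x K := h.stk.of hSt hOt hMtc
  have hKYt : t.KY x K = s.KY x K := by
    unfold KY
    apply filter_congr
    intro u hu
    rw [hOt]
    have hux : u ≠ x := fun e' => hG.hx (e' ▸ hu)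
    constructor
    · rintro ⟨d, h1, h2⟩
      by_cases h3 : d = e
      · rw [h3, X.ex] at h2; exact absurd h2.symm hux
      · by_cases h4 : d = g
        · rw [h4, X.gx] at h2
          exact ⟨e, heO, by rw [hex, h2]⟩
        · rw [tnbx d h3 h4] at h2
          exact ⟨d, h1, h2⟩
    · rintro ⟨d, h1, h2⟩
      by_cases h3 : d = e
      · rw [h3, hex] at h2
        exact ⟨g, hgO, by rw [X.gx, h2]⟩
      · by_cases h4 : d = g
        · rw [h4, nb_of_tok hgx] at h2; exact absurd h2.symm hux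
        · exact ⟨d, h1, by rw [tnbx d h3 h4]; exact h2⟩
  have hβNt : β ∈ t.NN x K := by
    unfold NN
    rw [mem_inter, hOt, ttokx β hβe hβg]
    exact ⟨hβx, hβO⟩
  have hcg : t.cnt K g = 2 := by
    have h1 := X.cg
    have h2 : s1.cnt K g = s.cnt K g := cnt_congr (fun u _ => W.tok_off g hαg.symm heg.symm u)
    have h3 := h.norm.M1 hG hg
    omega
  have hce : t.cnt K e = 1 := by
    have h1 := X.ce
    have h2 := W.cq
    omega
  have hcα : t.cnt K α = 0 := by
    rw [cnt_congr (fun u _ => X.tok_off α hαe hαg u)]; exact W.cp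
  have hcβ : t.cnt K β = 0 := by
    rw [cnt_congr (fun u _ => ttok β hβα hβe hβg u)]; exact hβ0
  have hgtw : g ∉ s.tok w := by
    intro h'
    have h1 : s.nb g w = a := nb_symm rfl
    rw [nb_of_tok h'] at h1
    exact haw h1.symm
  have hgta : g ∉ s.tok a := by
    intro h'
    have h1 : s.nb g a = a := nb_of_tok h'
    exact haw (h1.symm.trans hw.symm)
  have htg : ∀ u ∈ K, g ∈ s.tok u → g ∈ t.tok u := by
    intro u hu hgu
    have h1 : u ≠ a := fun e' => hgta (e' ▸ hgu)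
    have h2 : u ≠ w := fun e' => hgtw (e' ▸ hgu)
    have h3 : u ≠ x := fun e' => hG.hx (e' ▸ hu)
    rw [X.tok_off' u h1 h2 h3, W.tok_off g hαg.symm heg.symm]; exact hgu
  -- second mixed swap
  obtain ⟨hxS, hall, W3⟩ := vmove hkt hβNt (by rw [hOt]; exact hgO) X.tgx
    (Or.inr ⟨rfl, rfl⟩) haK X.tga hcg hcβ
  set S := t.comp g β a with hS
  set s3 := t.swap g β S (t.comp_closed g β a) with hs3
  have hO3 : s3.OZ x K = s.OZ x K := W3.oz.trans hOt
  have hM3 : s3.MM x K = t.MM x K := by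
    unfold MM; rw [W3.tokx, W3.oz]
  have hKY3 : s3.KY x K = s.KY x K := by
    rw [← hKYt]
    unfold KY
    apply filter_congr
    intro u hu
    rw [W3.oz]
    constructor
    · rintro ⟨d, h1, h2⟩; exact ⟨d, h1, by rw [← W3.nbx]; exact h2⟩
    · rintro ⟨d, h1, h2⟩; exact ⟨d, h1, by rw [W3.nbx]; exact h2⟩
  have hk3 : s3.StkY x K := hkt.of W3.same W3.oz (by rw [hM3])
  have hwS : w ∉ S := by
    intro h'
    have := (t.comp_closed g β a w h').1
    rw [X.gw] at this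
    exact hxS this
  have haS : a ∈ S := t.self_mem_comp g β a
  have hgc : ∀ u ∈ S, u ≠ a → t.nb g u = s.nb g u := by
    intro u hu hua
    exact tg u hua (fun e' => hwS (e' ▸ hu)) (fun e' => hxS (e' ▸ hu))
  have hβc : ∀ u, t.nb β u = s.nb β u := tnb β hβα hβe hβg
  have hlc : ∀ u ∈ a :: L, ∀ c, s3.nb c x = u → c ∈ s.OZ x K ∧ s.nb c x = u := by
    intro u hu c hc
    have huK : u ∈ K := h.sub2 u hu
    have hux : u ≠ x := fun e' => hG.hx (e' ▸ huK)
    rw [W3.nbx] at hc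
    have h1 : c ≠ g := by
      rintro rfl
      rw [X.gx] at hc
      exact hwL (hc ▸ hu)
    have h2 : c ≠ e := by
      rintro rfl
      rw [X.ex] at hc
      exact hux hc.symm
    rw [tnbx c h2 h1] at hc
    exact ⟨h.odd2 u hu c hc, hc⟩
  refine ⟨s3, S, haS, hxS, hwS, ?_, ?_, ?_, ?_, ?_, hSt.trans W3.same, hO3, hKY3, ?_, ?_, ?_,
    ?_, ?_⟩
  · intro u hu hgu; exact hall u hu (htg u hu hgu)
  · intro u hu
    have := (t.comp_closed g β a u hu).2
    rwa [hβc] at this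
  · intro u hu hua
    have := (t.comp_closed g β a u hu).1
    rwa [hgc u hu hua] at this
  · intro u hu hua huv
    have hav : a ≠ v := fun e' => hgta (e' ▸ hgv)
    have hEa : IsEnd (t.nb g) (t.nb β) a := Or.inl X.ga
    have hEv : IsEnd (t.nb g) (t.nb β) v := Or.inl (nb_of_tok (htg v hv hgv))
    have hcv : Conn (t.nb g) (t.nb β) a v := mem_comp.mp (hall v hv (htg v hv hgv))
    have hcu : Conn (t.nb g) (t.nb β) a u := mem_comp.mp hu
    have huv' := huv v hv hgv
    constructor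
    · intro h1
      have hEu : IsEnd (t.nb g) (t.nb β) u := Or.inr (by rw [hβc]; exact h1)
      rcases Pool.Agent.Lib.P3f3a3b.three_ends (t.nb_invol g) (t.nb_invol β) hEa hEv hEu hcv hcu
        with h2 | h2 | h2
      · exact hav h2
      · exact hua h2.symm
      · exact huv' h2.symm
    · intro h1
      have hEu : IsEnd (t.nb g) (t.nb β) u := Or.inl (by rw [hgc u hu hua]; exact h1)
      rcases Pool.Agent.Lib.P3f3a3b.three_ends (t.nb_invol g) (t.nb_invol β) hEa hEv hEu hcv hcu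
        with h2 | h2 | h2
      · exact hav h2
      · exact hua h2.symm
      · exact huv' h2.symm
  · refine ⟨hk3, ⟨?_, W3.cq, ?_⟩, h.nd, by simp, h.sub2, by simp, ?_, by simp, ?_, by simp, ?_⟩
    · rw [W3.tokx, ttokx β hβe hβg]; exact hβx
    · intro d hd
      by_cases h1 : d = g
      · rw [h1, W3.cp]; omega
      · rw [cnt_congr (fun u _ => W3.tok_off d h1 hd u)]
        by_cases h2 : d = α
        · rw [h2, hcα]; omega
        · by_cases h3 : d = e
          · rw [h3, hce]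
          · rw [cnt_congr (fun u _ => ttok d h2 h3 h1 u)]
            exact h.norm.one d h2
    · intro u hu c hc
      rw [hO3]; exact (hlc u hu c hc).1
    · intro u hu
      simp only [List.head?_cons, Option.mem_def, Option.some.injEq] at hu
      rw [← hu]; exact W3.toks a haK X.tga
    · refine h.c2.imp_of_mem_imp ?_
      rintro u z hu hz ⟨d, h1, h2⟩
      have huK : u ∈ K := h.sub2 u hu
      have hux : u ≠ x := fun e' => hG.hx (e' ▸ huK)
      have hdO : d ∈ s.OZ x K := h.odd2 u hu d h1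
      have hdx : d ∉ s.tok x := fun h' => by rw [nb_of_tok h'] at h1; exact hux h1.symm
      have h3 : d ≠ g := fun e' => hgO (e' ▸ hdO)
      have h4 : d ≠ e := fun e' => heO (e' ▸ hdO)
      have h5 : d ≠ α := fun e' => hdx (e' ▸ hαx)
      have h6 : d ≠ β := fun e' => hdx (e' ▸ hβx)
      refine ⟨d, ?_, ?_⟩
      · rw [W3.nbx, tnbx d h4 h3]; exact h1
      · rw [W3.tok_off d h3 h6, ttok d h5 h4 h3]; exact h2
  · rw [W3.tokx]; exact X.tgx
  · intro u h1 h2 h3
    have hua : u ≠ a := fun e' => h1 (e' ▸ haS)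
    rw [W3.nbS u h1, tg u hua h2 h3]
  · intro u hu hgu
    exact W3.toks u hu (htg u hu hgu)
  · intro d hd hdg
    obtain ⟨h1, h2⟩ := mem_sdiff.mp hd
    have h3 : d ≠ e := fun e' => hetx (e' ▸ h1)
    have h4 : d ≠ α := fun e' => h2 (e' ▸ hαO)
    have h5 : d ≠ β := fun e' => h2 (e' ▸ hβO)
    refine ⟨?_, ?_, ?_⟩
    · rw [hM3, hMt, mem_insert, mem_erase]; exact Or.inr ⟨hdg, hd⟩
    · intro u; rw [W3.nb_off d hdg h5, tnb d h4 h3 hdg]
    · intro u; rw [W3.tok_off d hdg h5, ttok d h4 h3 hdg]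
  · refine ⟨e, by rw [hM3, hMt], ?_⟩
    rw [W3.nb_off e heg hβe.symm, X.ea]; exact hga

/-- The exchanged edge separates: `b` belongs to the component. -/
theorem SlideA.mem_of {α β g : C} {a b : V} {L : List V} {s3 : MC V C} {S : Finset V} {w : V}
    (h : s.BiCh x K α [] (a :: L)) (hw : w ∈ s.KY x K)
    (hg : g ∈ s.MM x K) (hA : SlideA s s3 x K a w g β L S) (hb : b ∈ L)
    (hgb : s.nb g b ∈ s.KY x K) : b ∈ S := by
  by_contra hbS
  have hG := h.stk.geo
  have hbL : b ∈ a :: L := List.mem_cons_of_mem _ hb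
  have hbK : b ∈ K := h.sub2 b hbL
  have hbx : b ≠ x := fun e' => hG.hx (e' ▸ hbK)
  have hbw : b ≠ w := by
    rintro rfl
    obtain ⟨_, e, heO, hex⟩ := mem_filter.mp hw
    exact heO (h.odd2 b hbL e hex)
  obtain ⟨A, B, hAB⟩ := List.append_of_mem hbL
  have hbi := hA.bi
  rw [hAB] at hbi
  obtain ⟨s4, γ, h4, hR⟩ := reach A [] s3 β b B hbi
  have hγb : γ ∈ s4.tok b := h4.hd2 b (by simp)
  have hγN : γ ∈ s4.NN x K := h4.norm.mem_NN h4.stk.geo
  have hgO : g ∉ s3.OZ x K := by rw [hA.oz]; exact (mem_sdiff.mp hg).2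
  have h5 : s4.nb g b ∈ s4.KY x K := by
    rw [hR.KY_eq, (hR.ev g hgO).1 b, hA.gnb b hbS hbw hbx, hA.ky]; exact hgb
  have h6 := h4.stk.P2 hbK hγN hγb h5 (by rw [hR.oz]; exact hgO)
  rw [(hR.ev g hgO).2 x] at h6
  exact hA.gx h6

/-- An unused colour of `N`. -/
theorem exists_unused {α : C} (hs : s.StkY x K) (hn : s.UNorm x K α) :
    ∃ β ∈ s.NN x K, s.cnt K β = 0 := by
  obtain ⟨β, hβ, hne⟩ := exists_mem_ne (by have := hs.two; omega : 1 < (s.NN x K).card) α
  exact ⟨β, hβ, hn.N0 hs.geo hβ hne⟩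

/-- The holder of a colour of `M`. -/
theorem exists_holder {α g : C} (hs : s.StkY x K) (hn : s.UNorm x K α) (hg : g ∈ s.MM x K) :
    ∃ v ∈ K, g ∈ s.tok v := by
  have := hn.M1 hs.geo hg
  unfold cnt at this
  obtain ⟨v, hv⟩ := card_pos.mp (by omega : 0 < (K.filter (fun v => g ∈ s.tok v)).card)
  exact ⟨v, (mem_filter.mp hv).1, (mem_filter.mp hv).2⟩

theorem F9head {α g : C} {a b : V} {L : List V} (h : s.BiCh x K α [] (a :: L)) (hb : b ∈ L)
    (hg : g ∈ s.MM x K) (hga : s.nb g a ∈ s.KY x K) (hgb : s.nb g b ∈ s.KY x K) : False := by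
  have hab : a ≠ b := by
    have := h.nd
    rw [List.nil_append, List.nodup_cons] at this
    exact fun e' => this.1 (e' ▸ hb)
  obtain ⟨β, hβ, hβ0⟩ := exists_unused h.stk h.norm
  obtain ⟨v, hv, hgv⟩ := exists_holder h.stk h.norm hg
  obtain ⟨s3, S, hA⟩ := slideA h hg hga hβ hβ0 hv hgv
  have hbS : b ∈ S := hA.mem_of h hga hg hb hgb
  -- the reversed chain
  obtain ⟨A, B, hAB⟩ := List.append_of_mem hb
  have h1 : s.BiCh x K α [] ((a :: A ++ [b]) ++ B) := by
    have : (a :: A ++ [b]) ++ B = a :: L := by rw [hAB]; simp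
    rw [this]; exact h
  obtain ⟨s', γ, h2, hR⟩ := reversal h1.pfx
  have h3 : (a :: A ++ [b]).reverse = b :: (A.reverse ++ [a]) := by simp
  rw [h3] at h2
  have hgO : g ∉ s.OZ x K := (mem_sdiff.mp hg).2
  have hev := hR.ev g hgO
  obtain ⟨hβ', hβ0', hβnb, hβtok⟩ := hR.n0 β hβ hβ0
  have hg' : g ∈ s'.MM x K := by rw [hR.MM_eq]; exact hg
  have hgb' : s'.nb g b ∈ s'.KY x K := by rw [hR.KY_eq, hev.1]; exact hgb
  have hga' : s'.nb g a ∈ s'.KY x K := by rw [hR.KY_eq, hev.1]; exact hga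
  obtain ⟨s5, T, hB⟩ := slideA h2 hg' hgb' hβ' hβ0' hv ((hev.2 v).mpr hgv)
  have haT : a ∈ T := hB.mem_of h2 hgb' hg' (by simp) hga'
  refine UU.no_cross (s.nb β) (s.nb g) (s.invol β) (s.invol g) S T a b hab hA.aS hbS haT hB.aS
    hA.fS ?_ hA.gS ?_ ?_ ?_
  · intro u hu
    have := hB.fS u hu
    rwa [hβnb] at this
  · intro u hu hub
    have := hB.gS u hu hub
    rwa [hev.1] at this
  · have := hB.wS
    rwa [hev.1] at this
  · intro u hu huT
    refine hA.endS u hu (fun e' => huT (e' ▸ haT)) ?_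
    intro v' hv' hgv' e'
    exact huT (e' ▸ hB.holders v' hv' ((hev.2 v').mpr hgv'))

/-- **(F9)** The direction sets of different vertices of a chain are disjoint. -/
theorem F9 {α g : C} {a b : V} {L : List V} (h : s.BiCh x K α [] L) (ha : a ∈ L) (hb : b ∈ L)
    (hab : a ≠ b) (hg : g ∈ s.MM x K) (hga : s.nb g a ∈ s.KY x K)
    (hgb : s.nb g b ∈ s.KY x K) : False := by
  -- first the case that `a` comes before `b`
  have key : ∀ (a b : V) (A B : List V), L = A ++ b :: B → a ∈ A →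
      s.nb g a ∈ s.KY x K → s.nb g b ∈ s.KY x K → False := by
    intro a b A B hL haA hga hgb
    have h1 : s.BiCh x K α [] ((A ++ [b]) ++ B) := by
      have : (A ++ [b]) ++ B = L := by rw [hL]; simp
      rw [this]; exact h
    obtain ⟨s', γ, h2, hR⟩ := reversal h1.pfx
    have h3 : (A ++ [b]).reverse = b :: A.reverse := by simp
    rw [h3] at h2
    have hgO : g ∉ s.OZ x K := (mem_sdiff.mp hg).2
    have hev := hR.ev g hgO
    refine F9head h2 (b := a) (g := g) (by simpa using haA) ?_ ?_ ?_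
    · rw [hR.MM_eq]; exact hg
    · rw [hR.KY_eq, hev.1]; exact hgb
    · rw [hR.KY_eq, hev.1]; exact hga
  obtain ⟨A, B, hL⟩ := List.append_of_mem hb
  have h1 : a ∈ A ∨ a ∈ B := by
    rw [hL, List.mem_append, List.mem_cons] at ha
    tauto
  rcases h1 with h1 | h1
  · exact key a b A B hL h1 hga hgb
  · obtain ⟨A', B', hB⟩ := List.append_of_mem h1
    refine key b a (A ++ b :: A') B' ?_ (by simp) hgb hga
    rw [hL, hB]; simp

/-- **(SLIDE)** -/
theorem slide {α g : C} {a v : V} {L : List V} (h : s.BiCh x K α [] (a :: L))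
    (hg : g ∈ s.MM x K) (hga : s.nb g a ∈ s.KY x K) (hv : v ∈ K) (hgv : g ∈ s.tok v)
    (hvL : v ∉ a :: L) : ∃ s' γ, s'.BiCh x K γ [] (v :: a :: L) ∧ Same s s' ∧
      s'.OZ x K = s.OZ x K ∧ s'.KY x K = s.KY x K ∧
      (∀ d ∈ s.MM x K, d ≠ g → d ∈ s'.MM x K ∧ (∀ u, s'.nb d u = s.nb d u) ∧
        (∀ u, d ∈ s'.tok u ↔ d ∈ s.tok u)) ∧
      (∃ e, s'.MM x K = insert e ((s.MM x K).erase g) ∧ s'.nb e a ∈ s'.KY x K) := by
  obtain ⟨β, hβ, hβ0⟩ := exists_unused h.stk h.norm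
  obtain ⟨s3, S, hA⟩ := slideA h hg hga hβ hβ0 hv hgv
  have hbi := hA.bi
  have hβv : β ∈ s3.tok v := hA.hold3 v hv hgv
  have h1 : s3.BiCh x K β (a :: L) [v] := by
    refine ⟨hbi.stk, hbi.norm, ?_, hbi.sub2, ?_, hbi.odd2, ?_, hbi.hd2, ?_, hbi.c2, by simp⟩
    · have := hbi.nd
      rw [List.nil_append] at this
      rw [List.nodup_append]
      refine ⟨this, by simp, ?_⟩
      intro u hu z hz
      rw [List.mem_singleton] at hz
      rw [hz]
      exact fun e' => hvL (e' ▸ hu)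
    · intro u hu; rw [List.mem_singleton] at hu; rw [hu]; exact hv
    · intro u hu c hc
      rw [List.mem_singleton] at hu
      rw [hu] at hc
      exact hbi.stk.F2 hv (hbi.norm.mem_NN hbi.stk.geo) hβv hc
    · intro u hu
      simp only [List.head?_cons, Option.mem_def, Option.some.injEq] at hu
      rw [← hu]; exact hβv
  obtain ⟨s4, c, h2, hR⟩ := shift h1
  refine ⟨s4, c, h2.symm, hA.same.trans hR.same, hR.oz.trans hA.oz, hR.KY_eq.trans hA.ky, ?_, ?_⟩
  · intro d hd hdg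
    obtain ⟨h3, h4, h5⟩ := hA.keep d hd hdg
    have hdO : d ∉ s3.OZ x K := (mem_sdiff.mp h3).2
    obtain ⟨h6, h7⟩ := hR.ev d hdO
    exact ⟨by rw [hR.MM_eq]; exact h3, fun u => (h6 u).trans (h4 u), fun u => (h7 u).trans (h5 u)⟩
  · obtain ⟨e, h8, h9⟩ := hA.new
    refine ⟨e, by rw [hR.MM_eq, h8], ?_⟩
    have heM : e ∈ s3.MM x K := by rw [h8]; exact mem_insert_self _ _
    have heO : e ∉ s3.OZ x K := (mem_sdiff.mp heM).2
    rw [(hR.ev e heO).1, hR.KY_eq, hA.ky]; exact h9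

end MC

end

end Pool.Agent.Lib.P3f3a3b
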