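import Pool.Agent.Lib.P3f3a3b.PL

/-!
The bounds for states stuck for the D-step (`C = O`, `N = m(x) ∩ Y`).
-/

set_option autoImplicit false
set_option linter.unusedSectionVars false
set_option linter.unusedVariables false

namespace Pool.Agent.Lib.P3f3a3b

open Finset
open scoped Classical

noncomputable section

variable {V C : Type*} [Fintype V] [Fintype C]

namespace MC

variable {s : MC V C} {x : V} {K : Finset V} {o : Bool}

theorem ZB.mem_cls_not (s : MC V C) (x : V) (K : Finset V) (o : Bool) (c : C) :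
    c ∈ s.cls x K (!o) ↔ c ∉ s.cls x K o := by
  cases o <;> simp [cls]

theorem ZB.cls_congr {s s' : MC V C} {x : V} {K : Finset V}
    (h : s'.odd (insert x K) = s.odd (insert x K)) (o : Bool) :
    s'.cls x K o = s.cls x K o := by
  unfold cls; rw [h]

/-- A colour of `N = m(x) ∩ Y` has a holder in `K`. -/
theorem ZB.holder (hs : s.Star x K) {c : C} (hc : c ∈ s.tok x) (hcC : c ∉ s.cls x K true) :
    ∃ i ∈ K, c ∈ s.tok i := by
  have h1 : ¬ Odd (s.cnt (insert x K) c) := by
    intro h
    apply hcC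
    simp only [cls, if_true]
    exact mem_odd.mpr h
  rw [cnt_insert hs.hxK, if_pos hc] at h1
  have h2 : s.cnt K c ≠ 0 := by
    intro h0
    rw [h0] at h1
    exact h1 (by decide)
  unfold cnt at h2
  obtain ⟨i, hi⟩ := card_ne_zero.mp h2
  rw [mem_filter] at hi
  exact ⟨i, hi.1, hi.2⟩

/-- (PL) for the D-step: `C = O`, `N = m(x) ∩ Y`. -/
theorem stuck_D_PL (hs : s.Star x K)
    (h : s.Stuck x K true) (hN : 2 ≤ s.free x K false) :
    (s.odd (insert x K)).card ≤ 2 * s.free x K true := by
  have hne : (s.tok x ∩ s.cls x K false).Nonempty := by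
    rw [← card_pos]
    have : 2 ≤ (s.tok x ∩ s.cls x K false).card := hN
    omega
  obtain ⟨c, hc⟩ := hne
  rw [mem_inter] at hc
  have hcC : c ∉ s.cls x K true := (ZB.mem_cls_not s x K true c).mp hc.2
  obtain ⟨i, hi, hci⟩ := ZB.holder hs hc.1 hcC
  have h1 := h.card_KC_le hs (by simpa using hN) hi hci hc.1 hcC
  have h2 := card_KC (o := true) hs
  have h3 : (s.cls x K true).card = (s.odd (insert x K)).card := by simp [cls]
  omega

/-- (Z), disjointness: different active vertices with different colours of `N`. -/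
theorem Stuck.disjoint_DD (hs : s.Star x K) (h : s.Stuck x K o) (hN : 2 ≤ s.free x K (!o))
    {a b : V} (ha : a ∈ K) (hb : b ∈ K) (hab : a ≠ b) {c d : C} (hcd : c ≠ d)
    (hca : c ∈ s.tok a) (hcx : c ∈ s.tok x) (hcC : c ∉ s.cls x K o)
    (hdb : d ∈ s.tok b) (hdx : d ∈ s.tok x) (hdC : d ∉ s.cls x K o) :
    Disjoint (s.DD x K o a) (s.DD x K o b) := by
  rw [disjoint_left]
  intro g hga hgb
  simp only [DD, mem_filter, mem_inter] at hga hgb
  obtain ⟨⟨hgx, hgC⟩, hga⟩ := hga
  have hgb := hgb.2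
  have hax : a ≠ x := fun e => hs.hxK (e ▸ ha)
  have hbx : b ≠ x := fun e => hs.hxK (e ▸ hb)
  obtain ⟨w, hw⟩ : ∃ w, s.nb g a = w := ⟨_, rfl⟩
  obtain ⟨w', hw'⟩ : ∃ w', s.nb g b = w' := ⟨_, rfl⟩
  rw [hw] at hga
  rw [hw'] at hgb
  have hww : w ≠ w' := by
    intro e
    apply hab
    apply s.nb_inj (c := g)
    rw [hw, hw', e]
  have hbw : b ≠ w := by
    intro e
    exact h.not_KC hs hb hdb hdx hdC (e ▸ hga)
  have haw : a ≠ w := by
    intro e
    exact h.not_KC hs ha hca hcx hcC (e ▸ hga)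
  simp only [KC, mem_filter] at hga hgb
  obtain ⟨hwK, e, heC, hew⟩ := hga
  obtain ⟨hwK', e', heC', hew'⟩ := hgb
  have hwx : w ≠ x := fun e => hs.hxK (e ▸ hwK)
  have hwx' : w' ≠ x := fun e => hs.hxK (e ▸ hwK')
  have hex : e ∉ s.tok x := fun h' => hwx (by rw [← hew, nb_of_tok h'])
  have hex' : e' ∉ s.tok x := fun h' => hwx' (by rw [← hew', nb_of_tok h'])
  have hee : e' ≠ e := by rintro rfl; exact hww (hew.symm.trans hew')
  have hge : g ≠ e := fun h' => hex (h' ▸ hgx)
  have hge' : g ≠ e' := fun h' => hex' (h' ▸ hgx)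
  have hgc : g ≠ c := fun h' => hcC (h' ▸ hgC)
  have hgd : g ≠ d := fun h' => hdC (h' ▸ hgC)
  have hec : e ≠ c := fun h' => hcC (h' ▸ heC)
  have hed : e ≠ d := fun h' => hdC (h' ▸ heC)
  have hec' : e' ≠ c := fun h' => hcC (h' ▸ heC')
  -- the first swap
  have hxa : a ∉ s.comp c e x := by
    intro h'
    have h1 := h.ends_comp_x hs hcx hcC hex heC
    have h2 := ends_ge_two (s := s) (K := insert x K) (a := c) (b := e) (S := s.comp c e x)
      (mem_insert_self x K) (mem_insert_of_mem ha) (s.self_mem_comp c e x) h' hax.symm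
      (Or.inl hcx) (Or.inl hca)
    omega
  have hxS : x ∉ s.comp c e a := fun h' => hxa (mem_comp_symm h')
  have hev := h.even_ends hs hcx hcC hex heC hxa
  have hS1 := s.comp_closed c e a
  have hwS : w ∉ s.comp c e a := by
    intro h'
    apply hxS
    have := (hS1.nb_mem (c := e) (Or.inr rfl) (v := x)).mp (by rw [hew]; exact h')
    exact this
  obtain ⟨s1, hs1⟩ : ∃ s1, s1 = s.swap c e (s.comp c e a) hS1 := ⟨_, rfl⟩
  have hodd1 : s1.odd (insert x K) = s.odd (insert x K) := by
    rw [hs1]; exact odd_swap_of_even hS1 _ hev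
  have htx1 : ∀ f, f ∈ s1.tok x ↔ f ∈ s.tok x := by
    intro f; rw [hs1, mem_tok_swap, if_neg hxS]
  have hea1 : e ∈ s1.tok a := by
    rw [hs1, mem_tok_swap, if_pos (s.self_mem_comp c e a), Equiv.swap_apply_right]
    exact hca
  have hnbx1 : ∀ f, s1.nb f x = s.nb f x := by
    intro f; rw [hs1]; exact swap_nb_of_notMem hS1 f hxS
  have hnb1 : ∀ f, f ≠ c → f ≠ e → ∀ v, s1.nb f v = s.nb f v := by
    intro f h1 h2 v; rw [hs1]; exact swap_nb_of_ne hS1 h1 h2 v
  have hdb1 : d ∈ s1.tok b := by
    rw [hs1, mem_tok_swap, Equiv.swap_apply_of_ne_of_ne hcd.symm hed.symm, ite_self]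
    exact hdb
  have hsame1 : Same s s1 := by rw [hs1]; exact swap_same hS1
  have hewx1 : s1.nb e x = w := by rw [hnbx1, hew]
  have hxe1 : s1.nb e w = x := nb_symm hewx1
  have hga1 : s1.nb g a = w := by rw [hnb1 g hgc hge, hw]
  have hag1 : s1.nb g w = a := nb_symm hga1
  have hgx1 : g ∈ s1.tok x := (htx1 g).mpr hgx
  have hex1 : e ∉ s1.tok x := fun h' => hex ((htx1 e).mp h')
  have hga1' : g ∉ s1.tok a := by
    intro h'
    exact haw (by rw [← hga1, nb_of_tok h'])
  have hgw1 : g ∉ s1.tok w := by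
    intro h'
    exact haw (by rw [← hag1, nb_of_tok h'])
  have hew1 : e ∉ s1.tok w := by
    intro h'
    exact hwx (by rw [← hxe1, nb_of_tok h'])
  -- the second swap
  have hcl : s1.Closed e g {x, w, a} := by
    intro v hv
    simp only [mem_insert, mem_singleton] at hv
    rcases hv with rfl | rfl | rfl
    · rw [hewx1, nb_of_tok hgx1]; simp
    · rw [hxe1, hag1]; simp
    · rw [nb_of_tok hea1, hga1]; simp
  have hends : s1.ends (insert x K) e g {x, w, a} = 2 := by
    have hI : insert x K ∩ {x, w, a} = ({x, w, a} : Finset V) := by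
      rw [inter_eq_right]
      intro v hv
      simp only [mem_insert, mem_singleton] at hv
      rcases hv with rfl | rfl | rfl
      · exact mem_insert_self _ _
      · exact mem_insert_of_mem hwK
      · exact mem_insert_of_mem ha
    unfold ends cnt
    rw [hI]
    have h1 : ({x, w, a} : Finset V).filter (fun v => e ∈ s1.tok v) = {a} := by
      ext v
      simp only [mem_filter, mem_insert, mem_singleton]
      constructor
      · rintro ⟨rfl | rfl | rfl, h2⟩
        · exact absurd h2 hex1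
        · exact absurd h2 hew1
        · rfl
      · rintro rfl
        exact ⟨Or.inr (Or.inr rfl), hea1⟩
    have h2 : ({x, w, a} : Finset V).filter (fun v => g ∈ s1.tok v) = {x} := by
      ext v
      simp only [mem_filter, mem_insert, mem_singleton]
      constructor
      · rintro ⟨rfl | rfl | rfl, h2⟩
        · rfl
        · exact absurd h2 hgw1
        · exact absurd h2 hga1'
      · rintro rfl
        exact ⟨Or.inl rfl, hgx1⟩
    rw [h1, h2]
    simp
  obtain ⟨s2, hs2⟩ : ∃ s2, s2 = s1.swap e g {x, w, a} hcl := ⟨_, rfl⟩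
  have hodd2 : s2.odd (insert x K) = s.odd (insert x K) := by
    rw [hs2, odd_swap_of_even hcl _ (by rw [hends]; decide), hodd1]
  have hsame2 : Same s s2 := by
    rw [hs2]; exact hsame1.trans (swap_same hcl)
  have hrel : Rel x K s s2 := ⟨hsame2, by rw [hodd2]⟩
  have hcls : ∀ o', s2.cls x K o' = s.cls x K o' := fun o' => ZB.cls_congr hodd2 o'
  have htx2 : ∀ f, f ∈ s2.tok x ↔ Equiv.swap e g f ∈ s.tok x := by
    intro f
    rw [hs2, mem_tok_swap, if_pos (by simp), htx1]
  have hfreeN : s2.free x K (!o) = s.free x K (!o) := by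
    unfold free
    congr 1
    ext f
    rw [mem_inter, mem_inter, hcls, htx2, ZB.mem_cls_not]
    have hne : f ∉ s.cls x K o → f ≠ e ∧ f ≠ g := by
      intro h2
      exact ⟨fun h' => h2 (h' ▸ heC), fun h' => h2 (h' ▸ hgC)⟩
    constructor
    · rintro ⟨h1, h2⟩
      rw [Equiv.swap_apply_of_ne_of_ne (hne h2).1 (hne h2).2] at h1
      exact ⟨h1, h2⟩
    · rintro ⟨h1, h2⟩
      rw [Equiv.swap_apply_of_ne_of_ne (hne h2).1 (hne h2).2]
      exact ⟨h1, h2⟩
  have hfree : s2.free x K o = s.free x K o := by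
    unfold free
    have : s2.tok x ∩ s2.cls x K o = (s.tok x ∩ s.cls x K o).image (Equiv.swap e g) := by
      ext f
      rw [mem_inter, hcls, htx2, mem_image]
      constructor
      · rintro ⟨h1, h2⟩
        refine ⟨Equiv.swap e g f, mem_inter.mpr ⟨h1, ?_⟩, Equiv.swap_apply_self _ _ _⟩
        by_cases h3 : f = e
        · subst h3; rw [Equiv.swap_apply_left]; exact hgC
        · by_cases h4 : f = g
          · subst h4; rw [Equiv.swap_apply_right]; exact heC
          · rw [Equiv.swap_apply_of_ne_of_ne h3 h4]; exact h2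
      · rintro ⟨f', h1, rfl⟩
        rw [mem_inter] at h1
        rw [Equiv.swap_apply_self]
        refine ⟨h1.1, ?_⟩
        by_cases h3 : f' = e
        · subst h3; rw [Equiv.swap_apply_left]; exact hgC
        · by_cases h4 : f' = g
          · subst h4; rw [Equiv.swap_apply_right]; exact heC
          · rw [Equiv.swap_apply_of_ne_of_ne h3 h4]; exact h1.2
    rw [this, card_image_of_injective _ (Equiv.swap e g).injective]
  have hst2 := h.of_rel hrel hfree
  have hstar2 := hs.of_rel hrel
  have hdb2 : d ∈ s2.tok b := by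
    rw [hs2, mem_tok_swap, Equiv.swap_apply_of_ne_of_ne hed.symm hgd.symm, ite_self]
    exact hdb1
  have hdx2 : d ∈ s2.tok x := by
    rw [htx2, Equiv.swap_apply_of_ne_of_ne hed.symm hgd.symm]; exact hdx
  have hbS : b ∉ ({x, w, a} : Finset V) := by
    simp only [mem_insert, mem_singleton, not_or]
    exact ⟨hbx, hbw, hab.symm⟩
  have hgb2 : s2.nb g b = w' := by
    rw [hs2, swap_nb_of_notMem hcl g hbS, hnb1 g hgc hge, hw']
  have hKC2 : s2.nb g b ∈ s2.KC x K o := by
    rw [hgb2]
    simp only [KC, mem_filter]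
    refine ⟨hwK', e', by rw [hcls]; exact heC', ?_⟩
    rw [hs2, swap_nb, if_pos (by simp), Equiv.swap_apply_of_ne_of_ne hee hge'.symm, hnbx1, hew']
  have hfin := hst2.direct hstar2 (by rw [hfreeN]; exact hN) hb hdb2 hdx2
    (by rw [hcls]; exact hdC) hKC2
  have h1 : g ∈ s2.tok x := hfin.mpr (by rw [hcls]; exact hgC)
  rw [htx2, Equiv.swap_apply_right] at h1
  exact hex h1

/-- (Z) for the D-step: `|N| (|K_O| - |K_Y| + 1) ≤ p |M|` with `|K_O| = |O| - |M|`,
`|K_Y| = |Y| - |N|`. -/
theorem stuck_D_Z (hs : s.Star x K)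
    (h : s.Stuck x K true) (hN : 2 ≤ s.free x K false) {p : ℕ}
    (hp : ∀ v ∈ K, (s.tok v).card ≤ p) :
    (s.free x K false : ℤ) * (((s.odd (insert x K)).card : ℤ) - s.free x K true -
      (((s.odd (insert x K))ᶜ.card : ℤ) - s.free x K false) + 1) ≤ p * s.free x K true := by
  have hK1 := card_KC (o := true) hs
  have hK2 := card_KC (o := false) hs
  have hc1 : (s.cls x K true).card = (s.odd (insert x K)).card := by simp [cls]
  have hc2 : (s.cls x K false).card = (s.odd (insert x K))ᶜ.card := by simp [cls]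
  rw [← hc1, ← hc2, ← hK1, ← hK2]
  push_cast
  have hNe : ∀ c ∈ s.tok x ∩ s.cls x K false, c ∈ s.tok x ∧ c ∉ s.cls x K true := by
    intro c hc
    rw [mem_inter] at hc
    exact ⟨hc.1, (ZB.mem_cls_not s x K true c).mp hc.2⟩
  have hex : ∀ c ∈ s.tok x ∩ s.cls x K false, ∃ i, i ∈ K ∧ c ∈ s.tok i := by
    intro c hc
    obtain ⟨i, h1, h2⟩ := ZB.holder hs (hNe c hc).1 (hNe c hc).2
    exact ⟨i, h1, h2⟩
  have hVne : Nonempty V := ⟨x⟩
  have hNne : (s.tok x ∩ s.cls x K false).Nonempty := by
    rw [← card_pos]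
    have : 2 ≤ (s.tok x ∩ s.cls x K false).card := hN
    omega
  have hCne : Nonempty C := ⟨hNne.choose⟩
  choose! hd hhd using hex
  set N := s.tok x ∩ s.cls x K false with hNdef
  have hNcard : N.card = s.free x K false := rfl
  have hI1 : N.card ≤ p * (N.image hd).card := by
    apply card_le_mul_card_image
    intro v hv
    rw [mem_image] at hv
    obtain ⟨c, hc, rfl⟩ := hv
    refine le_trans (card_le_card ?_) (hp (hd c) (hhd c hc).1)
    intro c' hc'
    rw [mem_filter] at hc'
    rw [← hc'.2]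
    exact (hhd c' hc'.1).2
  have hrep : ∀ v ∈ N.image hd, ∃ c, c ∈ N ∧ hd c = v := by
    intro v hv
    rw [mem_image] at hv
    exact hv
  choose! r hr using hrep
  have hdisj : ∀ a ∈ N.image hd, ∀ b ∈ N.image hd, a ≠ b →
      Disjoint (s.DD x K true a) (s.DD x K true b) := by
    intro a ha b hb hab
    obtain ⟨h1, h2⟩ := hr a ha
    obtain ⟨h3, h4⟩ := hr b hb
    have h5 := hhd _ h1
    have h6 := hhd _ h3
    rw [h2] at h5
    rw [h4] at h6
    refine h.disjoint_DD hs (by simpa using hN) h5.1 h6.1 hab (c := r a) (d := r b) ?_ h5.2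
      (hNe _ h1).1 (hNe _ h1).2 h6.2 (hNe _ h3).1 (hNe _ h3).2
    intro e
    apply hab
    rw [← h2, ← h4, e]
  have hsum : ∑ a ∈ N.image hd, (s.DD x K true a).card ≤ s.free x K true := by
    rw [← card_biUnion hdisj]
    apply card_le_card
    intro g hg
    rw [mem_biUnion] at hg
    obtain ⟨a, _, hg⟩ := hg
    exact (mem_filter.mp hg).1
  have hlow : ∀ a ∈ N.image hd, ((s.KC x K true).card : ℤ) + 1 - (s.KC x K false).card ≤
      ((s.DD x K true a).card : ℤ) := by
    intro a ha
    obtain ⟨h1, h2⟩ := hr a ha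
    have h5 := hhd _ h1
    rw [h2] at h5
    have := h.dir hs (by simpa using hN) h5.1 h5.2 (hNe _ h1).1 (hNe _ h1).2
    simp only [Bool.not_true] at this
    omega
  have hsum' : ((N.image hd).card : ℤ) * (((s.KC x K true).card : ℤ) + 1 -
      (s.KC x K false).card) ≤ s.free x K true := by
    have h1 : ∑ a ∈ N.image hd, (((s.KC x K true).card : ℤ) + 1 - (s.KC x K false).card) ≤
        ∑ a ∈ N.image hd, ((s.DD x K true a).card : ℤ) := sum_le_sum hlow
    rw [sum_const, nsmul_eq_mul] at h1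
    have h2 : ((∑ a ∈ N.image hd, (s.DD x K true a).card : ℕ) : ℤ) ≤ s.free x K true := by
      exact_mod_cast hsum
    push_cast at h2
    linarith
  have hI2 : (s.free x K false : ℤ) ≤ p * ((N.image hd).card : ℤ) := by
    rw [← hNcard]; exact_mod_cast hI1
  have heq : (((s.KC x K true).card : ℤ) + (s.free x K true) - (s.free x K true) -
      (((s.KC x K false).card : ℤ) + (s.free x K false) - (s.free x K false)) + 1) =
      ((s.KC x K true).card : ℤ) + 1 - (s.KC x K false).card := by ring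
  rw [heq]
  rcases le_or_gt (((s.KC x K true).card : ℤ) + 1 - (s.KC x K false).card) 0 with hL | hL
  · have h1 : (s.free x K false : ℤ) * (((s.KC x K true).card : ℤ) + 1 -
        (s.KC x K false).card) ≤ 0 := mul_nonpos_of_nonneg_of_nonpos (by positivity) hL
    have h2 : (0 : ℤ) ≤ p * s.free x K true := by positivity
    linarith
  · have h1 : (s.free x K false : ℤ) * (((s.KC x K true).card : ℤ) + 1 -
        (s.KC x K false).card) ≤ p * ((N.image hd).card : ℤ) *
          (((s.KC x K true).card : ℤ) + 1 - (s.KC x K false).card) :=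
      mul_le_mul_of_nonneg_right hI2 hL.le
    have h2 : (p : ℤ) * (((N.image hd).card : ℤ) * (((s.KC x K true).card : ℤ) + 1 -
      (s.KC x K false).card)) ≤ p * s.free x K true :=
      mul_le_mul_of_nonneg_left hsum' (by positivity)
    linarith [mul_assoc (p : ℤ) ((N.image hd).card : ℤ) (((s.KC x K true).card : ℤ) + 1 -
        (s.KC x K false).card)]

end MC

end

end Pool.Agent.Lib.P3f3a3b
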